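import Pool.Agent.Lib.MP_458f0b_nt.Zbound

open Finset

namespace Pool.Agent.Lib.MP_458f0b_nt

variable {ι J α : Type} [Fintype ι] [DecidableEq ι] [Fintype J] [DecidableEq J]

/-- the modulus attached to a set of coordinates -/
def dS (P : ι → ℝ) (S : ι → Bool) : ℝ := ∏ p, if S p then P p else 1

/-- equidistribution hypothesis -/
def Equi (P : ι → ℝ) (w : ι → Option J → ℝ) (A : Finset α) (X : α → ι → Option J)
    (M err : ℝ) : Prop :=
  ∀ (S : ι → Bool) (x : ι → Option J),
    |∑ a ∈ A, (∏ p, if S p then dl (X a p) (x p) else 1) - M * ∏ p, if S p then w p (x p) else 1| ≤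
      err * ∏ p, if S p then P p * w p (x p) else 1

lemma dl_nonneg {β : Type} [DecidableEq β] (a b : β) : 0 ≤ dl a b := by
  simp only [dl]; split_ifs <;> norm_num

lemma equi_fun {P : ι → ℝ} {w : ι → Option J → ℝ} (hw1 : ∀ p, ∑ v, w p v = 1) {A : Finset α}
    {X : α → ι → Option J} {M err : ℝ} (h : Equi P w A X M err) (S : ι → Bool)
    (φ : (ι → Option J) → ℝ) (hφ : ∀ x x', (∀ p, S p = true → x p = x' p) → φ x = φ x')
    (Bd : ℝ) (hBd : ∀ x, |φ x| ≤ Bd) :
    |∑ a ∈ A, φ (X a) - M * ∑ x, Wt w x * φ x| ≤ err * dS P S * Bd := by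
  let cx : (ι → Option J) → ℝ := fun x => ∏ p, if S p then 1 else dl (x p) none
  let u : (ι → Option J) → (ι → Option J) → ℝ := fun y x =>
    ∏ p, if S p then dl (y p) (x p) else 1
  have hcx : ∀ x, 0 ≤ cx x := fun x => Finset.prod_nonneg fun p _ => by
    split_ifs
    · norm_num
    · exact dl_nonneg _ _
  have h1 : ∀ y, φ y = ∑ x, φ x * cx x * u y x := by
    intro y
    have e : ∀ x, cx x * u y x = dl (fun p => if S p then y p else none) x := by
      intro x
      rw [← prod_dl, ← Finset.prod_mul_distrib]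
      refine Finset.prod_congr rfl fun p _ => ?_
      cases S p <;> simp [dl, eq_comm]
    simp only [mul_assoc, e]
    simp only [dl, mul_ite, mul_one, mul_zero, Finset.sum_ite_eq, Finset.mem_univ, if_true]
    exact hφ _ _ fun p hp => by simp [hp]
  have h2 : ∀ x, ∑ y, Wt w y * u y x = ∏ p, if S p then w p (x p) else 1 := by
    intro x
    simp only [Wt, u, ← Finset.prod_mul_distrib]
    rw [← Fintype.prod_sum (fun p v => w p v * if S p then dl v (x p) else 1)]
    refine Finset.prod_congr rfl fun p _ => ?_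
    cases S p
    · simp [hw1]
    · simp [dl]
  have h3 : ∑ a ∈ A, φ (X a) - M * ∑ x, Wt w x * φ x =
      ∑ x, φ x * cx x * (∑ a ∈ A, u (X a) x - M * ∏ p, if S p then w p (x p) else 1) := by
    have e1 : ∑ a ∈ A, φ (X a) = ∑ x, φ x * cx x * ∑ a ∈ A, u (X a) x := by
      rw [Finset.sum_congr rfl fun a _ => h1 (X a), Finset.sum_comm]
      simp only [Finset.mul_sum]
    have e2 : ∑ y, Wt w y * φ y = ∑ x, φ x * cx x * ∏ p, if S p then w p (x p) else 1 := by
      rw [Finset.sum_congr rfl fun y _ => by rw [h1 y, Finset.mul_sum], Finset.sum_comm]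
      refine Finset.sum_congr rfl fun x _ => ?_
      rw [← h2, Finset.mul_sum]
      exact Finset.sum_congr rfl fun y _ => by ring
    rw [e1, e2, Finset.mul_sum, ← Finset.sum_sub_distrib]
    exact Finset.sum_congr rfl fun x _ => by ring
  have hBd0 : 0 ≤ Bd := (abs_nonneg _).trans (hBd fun _ => none)
  rw [h3]
  calc _ ≤ ∑ x, Bd * cx x * (err * ∏ p, if S p then P p * w p (x p) else 1) := by
        refine (Finset.abs_sum_le_sum_abs _ _).trans (Finset.sum_le_sum fun x _ => ?_)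
        rw [abs_mul, abs_mul, abs_of_nonneg (hcx x)]
        exact mul_le_mul (mul_le_mul_of_nonneg_right (hBd x) (hcx x)) (h S x) (abs_nonneg _)
          (mul_nonneg hBd0 (hcx x))
    _ = err * (∑ x : ι → Option J, ∏ p, if S p then P p * w p (x p) else dl (x p) none) * Bd := by
        rw [Finset.mul_sum, Finset.sum_mul]
        refine Finset.sum_congr rfl fun x _ => ?_
        have : (∏ p, if S p then P p * w p (x p) else dl (x p) none) =
            cx x * ∏ p, if S p then P p * w p (x p) else 1 := by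
          rw [← Finset.prod_mul_distrib]
          refine Finset.prod_congr rfl fun p _ => ?_
          cases S p <;> simp
        rw [this]; ring
    _ = err * dS P S * Bd := by
        rw [← Fintype.prod_sum (fun p v => if S p then P p * w p v else dl v none)]
        congr 2
        refine Finset.prod_congr rfl fun p _ => ?_
        cases S p
        · simp [dl]
        · simp [← Finset.mul_sum, hw1]

omit [DecidableEq ι] in
lemma dS_pos {P : ι → ℝ} (hP : ∀ p, 2 ≤ P p) (S : ι → Bool) : 0 < dS P S :=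
  Finset.prod_pos fun p _ => by
    split_ifs
    · linarith [hP p]
    · norm_num

lemma card_small_le {P : ι → ℝ} (hP : ∀ p, 2 ≤ P p) (R : ℝ) :
    ((Finset.univ.filter fun S : ι → Bool => dS P S ≤ R).card : ℝ) ≤
      R ^ 2 * ∏ p, (1 + 1 / P p ^ 2) := by
  have h1 : ∏ p, (1 + 1 / P p ^ 2) = ∑ S : ι → Bool, 1 / dS P S ^ 2 := by
    have : ∀ S : ι → Bool, 1 / dS P S ^ 2 = ∏ p, if S p then 1 / P p ^ 2 else 1 := by
      intro S
      rw [dS, ← Finset.prod_pow, one_div, ← Finset.prod_inv_distrib]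
      refine Finset.prod_congr rfl fun p _ => ?_
      cases S p <;> simp
    simp only [this]
    rw [← Fintype.prod_sum (fun p (b : Bool) => if b then 1 / P p ^ 2 else (1 : ℝ))]
    refine Finset.prod_congr rfl fun p _ => ?_
    simp [add_comm]
  rw [h1, Finset.mul_sum, Finset.card_eq_sum_ones, Nat.cast_sum, Finset.sum_filter]
  refine Finset.sum_le_sum fun S _ => ?_
  have := dS_pos hP S
  split_ifs with h
  · rw [mul_one_div, Nat.cast_one, one_le_div (by positivity)]
    gcongr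
  · positivity

lemma equi_sq {P : ι → ℝ} (hP : ∀ p, 2 ≤ P p) {w : ι → Option J → ℝ} (hw0 : ∀ p v, 0 ≤ w p v)
    (hw1 : ∀ p, ∑ v, w p v = 1) {A : Finset α} {X : α → ι → Option J} {M err : ℝ}
    (herr : 0 ≤ err) (h : Equi P w A X M err) (G : (ι → Option J) → ℝ) (hG : ∀ y, |G y| ≤ 1)
    (R : ℝ) (σ : Option J → Option J) :
    |∑ a ∈ A, (∑ S ∈ Finset.univ.filter fun S : ι → Bool => dS P S ≤ R,
        comp w G S (fun p => σ (X a p))) ^ 2 -
      M * ∑ x, Wt w x * (∑ S ∈ Finset.univ.filter fun S : ι → Bool => dS P S ≤ R,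
        comp w G S (fun p => σ (x p))) ^ 2| ≤
      (R ^ 2 * ∏ p, (1 + 1 / P p ^ 2)) ^ 2 * (err * R ^ 4) := by
  set F := Finset.univ.filter fun S : ι → Bool => dS P S ≤ R with hF
  have hcomp : ∀ S ∈ F, ∀ x, |comp w G S x| ≤ R := by
    intro S hS x
    refine (abs_comp_le w hw0 hw1 G hG S x).trans (le_trans ?_ (Finset.mem_filter.mp hS).2)
    refine Finset.prod_le_prod (fun p _ => by split_ifs <;> norm_num) fun p _ => ?_
    split_ifs
    · exact hP p
    · exact le_rfl
  have hone : ∀ S ∈ F, ∀ S' ∈ F,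
      |∑ a ∈ A, comp w G S (fun p => σ (X a p)) * comp w G S' (fun p => σ (X a p)) -
        M * ∑ x, Wt w x * (comp w G S (fun p => σ (x p)) * comp w G S' (fun p => σ (x p)))| ≤
        err * R ^ 4 := by
    intro S hS S' hS'
    have hR : 0 ≤ R := (dS_pos hP S).le.trans (Finset.mem_filter.mp hS).2
    refine (equi_fun hw1 h (fun p => S p || S' p)
      (fun x => comp w G S (fun p => σ (x p)) * comp w G S' (fun p => σ (x p))) ?_ (R * R)
      ?_).trans ?_
    · intro x x' hx
      rw [comp_dep w G S _ (fun p => σ (x' p)) fun p hp => by rw [hx p (by simp [hp])],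
        comp_dep w G S' (fun p => σ (x p)) (fun p => σ (x' p))
          fun p hp => by rw [hx p (by simp [hp])]]
    · intro x
      rw [abs_mul]
      exact mul_le_mul (hcomp S hS _) (hcomp S' hS' _) (abs_nonneg _) hR
    · have h1 : dS P (fun p => S p || S' p) ≤ dS P S * dS P S' := by
        simp only [dS, ← Finset.prod_mul_distrib]
        refine Finset.prod_le_prod (fun p _ => ?_) fun p _ => ?_
        · split_ifs
          · linarith [hP p]
          · norm_num
        · have := hP p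
          rcases Bool.eq_false_or_eq_true (S p) with h1 | h1 <;>
            rcases Bool.eq_false_or_eq_true (S' p) with h2 | h2 <;> simp [h1, h2]
          nlinarith
      have h2 : dS P S * dS P S' ≤ R * R :=
        mul_le_mul (Finset.mem_filter.mp hS).2 (Finset.mem_filter.mp hS').2 (dS_pos hP S').le hR
      calc err * dS P (fun p => S p || S' p) * (R * R) ≤ err * (R * R) * (R * R) := by
            gcongr; exact h1.trans h2
        _ = err * R ^ 4 := by ring
  have e : ∑ a ∈ A, (∑ S ∈ F, comp w G S (fun p => σ (X a p))) ^ 2 -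
      M * ∑ x, Wt w x * (∑ S ∈ F, comp w G S (fun p => σ (x p))) ^ 2 =
      ∑ S ∈ F, ∑ S' ∈ F,
        (∑ a ∈ A, comp w G S (fun p => σ (X a p)) * comp w G S' (fun p => σ (X a p)) -
        M * ∑ x, Wt w x * (comp w G S (fun p => σ (x p)) * comp w G S' (fun p => σ (x p)))) := by
    simp only [sq, Finset.sum_mul_sum, Finset.sum_sub_distrib]
    congr 1
    · rw [Finset.sum_comm]
      exact Finset.sum_congr rfl fun S _ => Finset.sum_comm
    · simp only [Finset.mul_sum]
      rw [Finset.sum_comm]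
      exact Finset.sum_congr rfl fun S _ => Finset.sum_comm
  rw [e]
  calc _ ≤ ∑ S ∈ F, ∑ S' ∈ F, err * R ^ 4 := by
        refine (Finset.abs_sum_le_sum_abs _ _).trans (Finset.sum_le_sum fun S hS => ?_)
        exact (Finset.abs_sum_le_sum_abs _ _).trans (Finset.sum_le_sum fun S' hS' => hone S hS S' hS')
    _ = (F.card : ℝ) ^ 2 * (err * R ^ 4) := by simp; ring
    _ ≤ _ := by gcongr; exact card_small_le hP R

/-- The abstract sieve theorem. -/
theorem core {P : ι → ℝ} (hP : ∀ p, 2 ≤ P p) (c a r : ι → ℝ) (hc : ∀ p, 0 ≤ c p)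
    (ha : ∀ p, 0 ≤ a p) (hca : ∀ p, c p * (1 + Fintype.card J * a p) = 1) (hr : ∀ p, 1 ≤ r p)
    {T : ℕ} (hT : 0 < T) (B : ℕ → ι → Bool)
    (hB : ∀ t t' p, t ≤ t' → B t p = true → B t' p = true) (C κ R Λ : ℝ) (hC : 0 ≤ C) (hκ : 0 ≤ κ)
    (H1 : ∀ t : Fin T, ∏ p, (1 + a p * (1 - act B (some t) p)) ≤ (∏ p, (1 + a p)) * C / 2 ^ (t : ℕ))
    (H2 : ∀ t : Fin T, ∏ p, (1 + (r p - 1) * a p * act B (some t) p) ≤ 1 + κ * 2 ^ (t : ℕ))
    (hΛ : ∀ S : ι → Bool, R < dS P S → Λ ≤ ∏ p, if S p then r p else 1)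
    {A : Finset α} {X : α → ι → Option J} {M err : ℝ} (hM : 0 ≤ M) (herr : 0 ≤ err)
    (hE : Equi P (wm c a) A X M err)
    (n1 : 8 * C ≤ T) (n2 : (Fintype.card J : ℝ) ^ 2 * ∑ p, (8 * a p) ^ 2 ≤ 1 / 2)
    (n3 : 4 * (1 + Fintype.card J * ∏ p, (1 + a p)) * (1 + 8 * C * κ / T) ^ Fintype.card J ≤ Λ)
    (n4 : (1 + Fintype.card J) * ((R ^ 2 * ∏ p, (1 + 1 / P p ^ 2)) ^ 2 * (err * R ^ 4)) <
      M * (1 - 4 * C / T) ^ Fintype.card J / 4) :
    ∃ x ∈ A, ∀ j, ∃ p, X x p = some j := by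
  set L := Fintype.card J with hL
  set w : ι → Option J → ℝ := wm c a with hw
  set Pi := ∏ p, (1 + a p) with hPi
  set G : (ι → Option J) → ℝ := Gf T B with hG
  have hTr : (0 : ℝ) < T := by exact_mod_cast hT
  have hw0 : ∀ p v, 0 ≤ w p v := by
    intro p v
    rcases v with _ | j
    · exact hc p
    · exact mul_nonneg (hc p) (ha p)
  have hw1 : ∀ p, ∑ v, w p v = 1 := by
    intro p
    rw [← hca p]
    simp only [hw, wm, Fintype.sum_option, Finset.sum_const, Finset.card_univ, nsmul_eq_mul, ← hL]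
    ring
  have hPi0 : 0 < Pi := Finset.prod_pos fun p _ => by linarith [ha p]
  set Z0 := ∑ η, Fs T B a (fun _ => 1) η with hZ0
  set Zr := ∑ η, Fs T B a r η with hZr
  have hq : 1 / 2 ≤ 1 - 4 * C / T := by
    have : 4 * C / T ≤ 1 / 2 := by rw [div_le_iff₀ hTr]; linarith
    linarith
  have z1 : Pi * (1 - 4 * C / T) ≤ Z0 := Z0_ge B a ha C hC H1
  have z2 : Pi / 2 ≤ Z0 := le_trans (by nlinarith) z1
  have z3 : Zr ≤ Z0 * (1 + 8 * C * κ / T) := by
    have h1 := Zr_le B hB a r ha C κ hC hκ H1 H2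
    have h2 : 0 ≤ 4 * C * κ / T := by positivity
    have h3 : Z0 * (1 + 8 * C * κ / T) = Z0 + 2 * Z0 * (4 * C * κ / T) := by ring
    rw [h3]
    nlinarith
  have hZ00 : 0 ≤ Z0 := by linarith
  have hcp : 0 ≤ ∏ p, c p := Finset.prod_nonneg fun p _ => hc p
  set n0 := ∑ x, Wt w x * G x ^ 2 with hn0
  have g1 : (∏ p, c p) * Z0 ^ L / 2 ≤ n0 := by
    have h1 := full_le_real (J := J) (Fs T B a (fun _ => 1))
      (Fs_nonneg T B a _ ha fun _ => le_rfl) (fun p => 8 * a p) (fun p => by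
        refine (hit_le T B a ha p).trans ?_
        have := ha p
        nlinarith)
    rw [hn0, ← Qt_one, hw, hG, Qt_Gf, mul_div_assoc]
    refine mul_le_mul_of_nonneg_left ?_ hcp
    have h2 := mul_le_mul_of_nonneg_right n2 (pow_nonneg hZ00 L)
    rw [← hZ0, ← hL] at h1
    linarith
  have g2 : (1 - 4 * C / T) ^ L / 2 ≤ n0 := by
    refine le_trans ?_ g1
    have h1 : 1 ≤ (∏ p, c p) * Pi ^ L := by
      rw [hPi, ← Finset.prod_pow, ← Finset.prod_mul_distrib]
      refine Finset.one_le_prod fun p _ => (hca p).symm.le.trans ?_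
      exact mul_le_mul_of_nonneg_left (one_add_mul_le_pow (by linarith [ha p]) L) (hc p)
    calc (1 - 4 * C / T) ^ L / 2 ≤ (∏ p, c p) * Pi ^ L * (1 - 4 * C / T) ^ L / 2 := by
          gcongr
          exact le_mul_of_one_le_left (pow_nonneg (by linarith) _) h1
      _ = (∏ p, c p) * (Pi * (1 - 4 * C / T)) ^ L / 2 := by rw [mul_pow]; ring
      _ ≤ _ := by gcongr
  have hn00 : 0 ≤ n0 := le_trans (by positivity) g1
  have g3 : Qt w r G ≤ 2 * n0 * (1 + 8 * C * κ / T) ^ L := by
    rw [hw, hG, Qt_Gf]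
    have h1 := real_le_full (J := J) (Fs T B a r) (Fs_nonneg T B a r ha hr)
    have hZr0 : 0 ≤ Zr := Finset.sum_nonneg fun η _ => Fs_nonneg T B a r ha hr η
    calc _ ≤ (∏ p, c p) * Zr ^ L := mul_le_mul_of_nonneg_left h1 hcp
      _ ≤ (∏ p, c p) * (Z0 * (1 + 8 * C * κ / T)) ^ L := by gcongr
      _ = 2 * ((∏ p, c p) * Z0 ^ L / 2) * (1 + 8 * C * κ / T) ^ L := by rw [mul_pow]; ring
      _ ≤ _ := by gcongr
  set F := Finset.univ.filter fun S : ι → Bool => dS P S ≤ R with hF
  set en : (ι → Bool) → ℝ := fun S => ∑ x, Wt w x * comp w G S x ^ 2 with hen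
  have hen0 : ∀ S, 0 ≤ en S := fun S => Finset.sum_nonneg fun x _ =>
    mul_nonneg (Finset.prod_nonneg fun p _ => hw0 p _) (sq_nonneg _)
  set tl := ∑ S ∈ Fᶜ, en S with htl
  have htl0 : 0 ≤ tl := Finset.sum_nonneg fun S _ => hen0 S
  have t1 : Λ * tl ≤ Qt w r G := by
    refine le_trans ?_ (weighted_le_Qt w hw0 hw1 r hr G)
    rw [htl, Finset.mul_sum]
    refine (Finset.sum_le_sum fun S hS => mul_le_mul_of_nonneg_right (hΛ S ?_) (hen0 S)).trans
      (Finset.sum_le_sum_of_subset_of_nonneg (Finset.subset_univ _) fun S _ _ =>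
        mul_nonneg (Finset.prod_nonneg fun p _ => ?_) (hen0 S))
    · simpa [hF] using hS
    · split_ifs
      · linarith [hr p]
      · norm_num
  have t2 : (1 + L * Pi) * tl ≤ n0 / 2 := by
    have h1 : 0 < (1 + 8 * C * κ / T) ^ L := by positivity
    have h2 := mul_le_mul_of_nonneg_right n3 htl0
    have h3 : (1 + 8 * C * κ / T) ^ L * (4 * ((1 + L * Pi) * tl)) ≤
        (1 + 8 * C * κ / T) ^ L * (2 * n0) := by nlinarith
    have h4 := le_of_mul_le_mul_left h3 h1
    linarith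
  have t3 : ∑ x, Wt w x * (∑ S ∈ F, comp w G S x) ^ 2 = n0 - tl := by
    rw [sq_sum_comp w hw1, eq_sub_iff_add_eq, htl, Finset.sum_add_sum_compl, hn0,
      ← sq_sum_comp w hw1]
    simp only [sum_comp]
  have t4 : ∀ j : J, ∑ x, Wt w x * (∑ S ∈ F, comp w G S (fun p => erz j (x p))) ^ 2 ≤ Pi * tl := by
    intro j
    have h1 : ∀ x : ι → Option J, (∑ S ∈ F, comp w G S (fun p => erz j (x p))) ^ 2 =
        (∑ S ∈ Fᶜ, comp w G S (fun p => erz j (x p))) ^ 2 := by
      intro x
      have h2 := Finset.sum_add_sum_compl F (fun S => comp w G S (fun p => erz j (x p)))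
      rw [sum_comp, hG, Gf_erz hT] at h2
      rw [← hG] at h2
      rw [eq_neg_of_add_eq_zero_left h2, neg_sq]
    simp only [h1]
    refine (sum_erz_le w hw0 a ha j (fun p => le_of_eq (mul_comm _ _))
      (fun x => (∑ S ∈ Fᶜ, comp w G S x) ^ 2) (fun x => sq_nonneg _)).trans (le_of_eq ?_)
    rw [sq_sum_comp w hw1]
  set ε0 := (R ^ 2 * ∏ p, (1 + 1 / P p ^ 2)) ^ 2 * (err * R ^ 4) with hε0
  have r1 := equi_sq hP hw0 hw1 herr hE G (abs_Gf_le T B) R id
  have r2 := fun j : J => equi_sq hP hw0 hw1 herr hE G (abs_Gf_le T B) R (erz j)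
  simp only [id, ← hF, ← hε0] at r1 r2
  by_contra hcon
  have hcon' : ∀ x ∈ A, ∃ j, ∀ p, X x p ≠ some j := by
    intro x hx
    by_contra h
    refine hcon ⟨x, hx, fun j => ?_⟩
    by_contra h'
    exact h ⟨j, fun p hp => h' ⟨p, hp⟩⟩
  have s1 : ∑ x ∈ A, (∑ S ∈ F, comp w G S (X x)) ^ 2 ≤
      ∑ j : J, ∑ x ∈ A, (∑ S ∈ F, comp w G S (fun p => erz j (X x p))) ^ 2 := by
    rw [Finset.sum_comm]
    refine Finset.sum_le_sum fun x hx => ?_
    obtain ⟨j, hj⟩ := hcon' x hx
    have e : (fun p => erz j (X x p)) = X x := by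
      funext p; simp [erz, hj p]
    refine le_trans (le_of_eq ?_) (Finset.single_le_sum
      (f := fun j => (∑ S ∈ F, comp w G S (fun p => erz j (X x p))) ^ 2)
      (fun _ _ => sq_nonneg _) (Finset.mem_univ j))
    rw [e]
  have s2 : ∑ j : J, ∑ x ∈ A, (∑ S ∈ F, comp w G S (fun p => erz j (X x p))) ^ 2 ≤
      L * (M * (Pi * tl) + ε0) := by
    refine (Finset.sum_le_sum (g := fun _ => M * (Pi * tl) + ε0) fun j _ => ?_).trans
      (by rw [Finset.sum_const, Finset.card_univ, nsmul_eq_mul])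
    have h1 := (abs_le.mp (r2 j)).2
    have h2 := mul_le_mul_of_nonneg_left (t4 j) hM
    linarith
  have s3 := (abs_le.mp r1).1
  rw [t3] at s3
  have s4 := mul_le_mul_of_nonneg_left t2 hM
  have s5 := mul_le_mul_of_nonneg_left g2 hM
  nlinarith

end Pool.Agent.Lib.MP_458f0b_nt
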