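import Mathlib

open Finset

namespace Pool.Agent.Lib.MP_458f0b_nt

section General

variable {ι V : Type} [Fintype ι] [DecidableEq ι] [Fintype V] [DecidableEq V]

/-- indicator of an equality -/
def dl {α : Type} [DecidableEq α] (a b : α) : ℝ := if a = b then 1 else 0

omit [DecidableEq V] in
lemma tensor_expand {I : Type} [Fintype I] (m : ι → I → ℝ) (α β : ι → I → V → ℝ)
    (G H : (ι → V) → ℝ) :
    ∑ ω : ι → I, (∏ p, m p (ω p)) * ((∑ y, G y * ∏ p, α p (ω p) (y p)) *
      (∑ y', H y' * ∏ p, β p (ω p) (y' p))) =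
    ∑ y, ∑ y', G y * H y' * ∏ p, ∑ i, m p i * α p i (y p) * β p i (y' p) := by
  have h1 : ∀ y y' : ι → V, ∏ p, ∑ i, m p i * α p i (y p) * β p i (y' p) =
      ∑ ω : ι → I, ∏ p, m p (ω p) * α p (ω p) (y p) * β p (ω p) (y' p) :=
    fun y y' => Fintype.prod_sum _
  simp only [h1, Finset.mul_sum, Finset.sum_mul, Finset.prod_mul_distrib]
  rw [Finset.sum_comm]
  conv_rhs => rw [Finset.sum_comm]
  refine Finset.sum_congr rfl fun y' _ => ?_
  rw [Finset.sum_comm]
  refine Finset.sum_congr rfl fun y _ => Finset.sum_congr rfl fun ω _ => by ring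

/-- product weight -/
def Wt (w : ι → V → ℝ) (x : ι → V) : ℝ := ∏ p, w p (x p)

/-- kernels of the two projections in one coordinate -/
def Kk (w : ι → V → ℝ) (b : Bool) (p : ι) (v y : V) : ℝ :=
  if b then dl v y - w p y else w p y

/-- Efron Stein component -/
def comp (w : ι → V → ℝ) (G : (ι → V) → ℝ) (S : ι → Bool) (x : ι → V) : ℝ :=
  ∑ y, G y * ∏ p, Kk w (S p) p (x p) (y p)

omit [Fintype V] [DecidableEq ι] in
lemma prod_dl (x y : ι → V) [DecidableEq (ι → V)] : ∏ p, dl (x p) (y p) = dl x y := by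
  classical
  simp only [dl]
  rw [Fintype.prod_boole]
  congr 1
  exact propext funext_iff.symm

lemma sum_comp (w : ι → V → ℝ) (G : (ι → V) → ℝ) (x : ι → V) :
    ∑ S, comp w G S x = G x := by
  simp only [comp]
  rw [Finset.sum_comm]
  simp only [← Finset.mul_sum]
  have h1 : ∀ y : ι → V, ∑ S : ι → Bool, ∏ p, Kk w (S p) p (x p) (y p) = dl x y := by
    intro y
    rw [← Fintype.prod_sum (fun p b => Kk w b p (x p) (y p)), ← prod_dl]
    refine Finset.prod_congr rfl fun p _ => ?_
    simp [Kk]
  simp [h1, dl]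

lemma comp_dep (w : ι → V → ℝ) (G : (ι → V) → ℝ) (S : ι → Bool) (x x' : ι → V)
    (h : ∀ p, S p = true → x p = x' p) : comp w G S x = comp w G S x' := by
  simp only [comp]
  refine Finset.sum_congr rfl fun y _ => ?_
  congr 1
  refine Finset.prod_congr rfl fun p _ => ?_
  cases hS : S p
  · simp [Kk]
  · rw [h p hS]

lemma abs_comp_le (w : ι → V → ℝ) (hw0 : ∀ p v, 0 ≤ w p v) (hw1 : ∀ p, ∑ v, w p v = 1)
    (G : (ι → V) → ℝ) (hG : ∀ y, |G y| ≤ 1) (S : ι → Bool) (x : ι → V) :
    |comp w G S x| ≤ ∏ p, if S p then (2 : ℝ) else 1 := by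
  calc |comp w G S x| ≤ ∑ y : ι → V, ∏ p, |Kk w (S p) p (x p) (y p)| := by
        refine (Finset.abs_sum_le_sum_abs _ _).trans (Finset.sum_le_sum fun y _ => ?_)
        rw [abs_mul, Finset.abs_prod]
        exact mul_le_of_le_one_left (Finset.prod_nonneg fun _ _ => abs_nonneg _) (hG y)
    _ = ∏ p, ∑ v, |Kk w (S p) p (x p) v| :=
        (Fintype.prod_sum (fun p v => |Kk w (S p) p (x p) v|)).symm
    _ ≤ _ := by
        refine Finset.prod_le_prod (fun p _ => Finset.sum_nonneg fun _ _ => abs_nonneg _)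
          fun p _ => ?_
        cases hS : S p
        · simp only [Kk, Bool.false_eq_true, if_false, abs_of_nonneg (hw0 p _), hw1, le_refl]
        · simp only [Kk, if_true]
          calc ∑ v, |dl (x p) v - w p v| ≤ ∑ v, (dl (x p) v + w p v) := by
                refine Finset.sum_le_sum fun v _ => (abs_sub _ _).trans (le_of_eq ?_)
                rw [abs_of_nonneg (hw0 p v), abs_of_nonneg]
                simp only [dl]; split_ifs <;> norm_num
            _ = 2 := by rw [Finset.sum_add_distrib, hw1]; simp [dl]; norm_num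

lemma comp_orth (w : ι → V → ℝ) (hw1 : ∀ p, ∑ v, w p v = 1) (G : (ι → V) → ℝ)
    {S S' : ι → Bool} (h : S ≠ S') : ∑ x, Wt w x * (comp w G S x * comp w G S' x) = 0 := by
  have h1 := tensor_expand w (fun p v y => Kk w (S p) p v y) (fun p v y => Kk w (S' p) p v y) G G
  simp only [Wt, comp]
  rw [h1]
  refine Finset.sum_eq_zero fun y _ => Finset.sum_eq_zero fun y' _ => ?_
  obtain ⟨p, hp⟩ := Function.ne_iff.mp h
  rw [Finset.prod_eq_zero (Finset.mem_univ p), mul_zero]
  have key : ∀ z : V, ∑ v, w p v * (dl v z - w p z) = 0 := by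
    intro z
    simp only [mul_sub, Finset.sum_sub_distrib, ← Finset.sum_mul, hw1]
    simp [dl]
  cases hS : S p <;> cases hS' : S' p
  · exact absurd (hS.trans hS'.symm) hp
  · simp only [Kk, Bool.false_eq_true, if_false, if_true]
    calc ∑ v, w p v * w p (y p) * (dl v (y' p) - w p (y' p))
        = w p (y p) * ∑ v, w p v * (dl v (y' p) - w p (y' p)) := by
          rw [Finset.mul_sum]; exact Finset.sum_congr rfl fun v _ => by ring
      _ = 0 := by rw [key, mul_zero]
  · simp only [Kk, Bool.false_eq_true, if_false, if_true]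
    rw [← Finset.sum_mul, key, zero_mul]
  · exact absurd (hS.trans hS'.symm) hp

lemma sq_sum_comp (w : ι → V → ℝ) (hw1 : ∀ p, ∑ v, w p v = 1) (G : (ι → V) → ℝ)
    (F : Finset (ι → Bool)) :
    ∑ x, Wt w x * (∑ S ∈ F, comp w G S x) ^ 2 = ∑ S ∈ F, ∑ x, Wt w x * comp w G S x ^ 2 := by
  simp only [sq, Finset.sum_mul_sum]
  simp only [Finset.mul_sum]
  rw [Finset.sum_comm]
  refine Finset.sum_congr rfl fun S hS => ?_
  rw [Finset.sum_comm, Finset.sum_eq_single S]
  · intro S' _ hne
    exact comp_orth w hw1 G hne.symm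
  · intro h; exact absurd hS h

end General

section Opt

variable {ι J : Type} [Fintype ι] [DecidableEq ι] [Fintype J] [DecidableEq J]

/-- weights of the marked expansion -/
def mI (w : ι → Option J → ℝ) (r : ι → ℝ) (p : ι) : Option (J × Bool) → ℝ
  | none => w p none
  | some (j, false) => w p (some j)
  | some (j, true) => (r p - 1) * w p (some j)

/-- functionals of the marked expansion -/
def bI : Option (J × Bool) → Option J → ℝ
  | none, y => dl y none
  | some (j, false), y => dl y (some j)
  | some (j, true), y => dl y (some j) - dl y none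

/-- the marked quadratic form -/
def Qt (w : ι → Option J → ℝ) (r : ι → ℝ) (G : (ι → Option J) → ℝ) : ℝ :=
  ∑ ω : ι → Option (J × Bool), (∏ p, mI w r p (ω p)) * (∑ y, G y * ∏ p, bI (ω p) (y p)) ^ 2

omit [Fintype ι] [DecidableEq ι] in
lemma kernel_marked (w : ι → Option J → ℝ) (r : ι → ℝ) (p : ι) (y y' : Option J) :
    ∑ i, mI w r p i * bI i y * bI i y' = r p * (w p y * dl y y') + (r p - 1) *
      (-(w p y * dl y' none) - dl y none * w p y' + (∑ v, w p v) * (dl y none * dl y' none)) := by
  simp only [Fintype.sum_option, Fintype.sum_prod_type, Fintype.sum_bool, mI, bI]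
  rcases y with _ | a <;> rcases y' with _ | b
  · simp [dl, ← Finset.mul_sum]; ring
  · simp [dl]
  · simp [dl]
  · by_cases hab : a = b
    · subst hab
      simp [dl, Finset.sum_add_distrib]; ring
    · simp only [dl, hab, Option.some.injEq, reduceCtorEq, if_false, mul_zero, sub_zero, zero_mul,
        neg_zero, add_zero, zero_add]
      refine Finset.sum_eq_zero fun x _ => ?_
      by_cases h1 : a = x
      · have h2 : ¬ b = x := fun h => hab (h1.trans h.symm)
        simp [h2]
      · simp [h1]

lemma Qt_one (w : ι → Option J → ℝ) (G : (ι → Option J) → ℝ) :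
    Qt w (fun _ => 1) G = ∑ x, Wt w x * G x ^ 2 := by
  simp only [Qt, sq]
  rw [tensor_expand (mI w fun _ => 1) (fun _ => bI) (fun _ => bI) G G]
  refine Finset.sum_congr rfl fun y _ => ?_
  simp only [kernel_marked, sub_self, zero_mul, add_zero, one_mul, Finset.prod_mul_distrib,
    prod_dl]
  simp [dl, Wt]; ring

lemma weighted_le_Qt (w : ι → Option J → ℝ) (hw0 : ∀ p v, 0 ≤ w p v)
    (hw1 : ∀ p, ∑ v, w p v = 1) (r : ι → ℝ) (hr : ∀ p, 1 ≤ r p) (G : (ι → Option J) → ℝ) :
    ∑ S : ι → Bool, (∏ p, if S p then r p else 1) * ∑ x, Wt w x * comp w G S x ^ 2 ≤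
      Qt w r G := by
  let m : ι → Option (Option J × Bool) → ℝ := fun p i =>
    match i with
    | none => r p - 1
    | some (v, b) => (if b then r p else 1) * w p v
  let α : ι → Option (Option J × Bool) → Option J → ℝ := fun p i y =>
    match i with
    | none => w p y - dl y none
    | some (v, b) => Kk w b p v y
  have hm : ∀ p i, 0 ≤ m p i := by
    intro p i
    rcases i with _ | ⟨v, b⟩
    · exact sub_nonneg.mpr (hr p)
    · refine mul_nonneg ?_ (hw0 p v)
      split_ifs
      · linarith [hr p]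
      · norm_num
  have hker : ∀ p y y', ∑ i, m p i * α p i y * α p i y' = ∑ i, mI w r p i * bI i y * bI i y' := by
    intro p y y'
    rw [kernel_marked, hw1]
    rw [Fintype.sum_option, Fintype.sum_prod_type]
    simp only [Fintype.sum_bool, m, α, Kk, if_true, Bool.false_eq_true, if_false]
    have e1 : ∑ v, w p v * dl v y * dl v y' = w p y * dl y y' := by
      rw [Finset.sum_eq_single y] <;> simp +contextual [dl]
    have e2 : ∀ z, ∑ v, w p v * dl v z = w p z := by intro z; simp [dl]
    have e3 : ∑ v, (r p * w p v * (dl v y - w p y) * (dl v y' - w p y') +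
        1 * w p v * w p y * w p y') =
        r p * (∑ v, w p v * dl v y * dl v y') - r p * w p y' * (∑ v, w p v * dl v y) -
          r p * w p y * (∑ v, w p v * dl v y') + (r p + 1) * w p y * w p y' * ∑ v, w p v := by
      simp only [Finset.mul_sum, ← Finset.sum_sub_distrib, ← Finset.sum_add_distrib]
      exact Finset.sum_congr rfl fun v _ => by ring
    rw [e3, e1, e2, e2, hw1]
    ring
  have hQ : Qt w r G = ∑ ω : ι → Option (Option J × Bool),
      (∏ p, m p (ω p)) * (∑ y, G y * ∏ p, α p (ω p) (y p)) ^ 2 := by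
    simp only [Qt, sq]
    rw [tensor_expand (mI w r) (fun _ => bI) (fun _ => bI) G G, tensor_expand m α α G G]
    simp only [hker]
  let φ : (ι → Bool) × (ι → Option J) → (ι → Option (Option J × Bool)) :=
    fun q p => some (q.2 p, q.1 p)
  have hφ : Function.Injective φ := by
    rintro ⟨S, x⟩ ⟨S', x'⟩ h
    have h' : ∀ p, x p = x' p ∧ S p = S' p := fun p => by
      have := congrFun h p
      simpa [φ] using this
    exact Prod.ext (funext fun p => (h' p).2) (funext fun p => (h' p).1)
  rw [hQ]
  calc ∑ S : ι → Bool, (∏ p, if S p then r p else 1) * ∑ x, Wt w x * comp w G S x ^ 2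
      = ∑ q : (ι → Bool) × (ι → Option J),
          (∏ p, m p (φ q p)) * (∑ y, G y * ∏ p, α p (φ q p) (y p)) ^ 2 := by
        rw [Fintype.sum_prod_type]
        refine Finset.sum_congr rfl fun S _ => ?_
        rw [Finset.mul_sum]
        refine Finset.sum_congr rfl fun x _ => ?_
        simp only [m, α, φ, Wt, comp, Finset.prod_mul_distrib]
        ring
    _ = ∑ ω ∈ Finset.univ.image φ,
          (∏ p, m p (ω p)) * (∑ y, G y * ∏ p, α p (ω p) (y p)) ^ 2 :=
        (Finset.sum_image (f := fun ω : ι → Option (Option J × Bool) =>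
          (∏ p, m p (ω p)) * (∑ y, G y * ∏ p, α p (ω p) (y p)) ^ 2) hφ.injOn).symm
    _ ≤ _ := Finset.sum_le_sum_of_subset_of_nonneg (Finset.subset_univ _) fun ω _ _ =>
        mul_nonneg (Finset.prod_nonneg fun p _ => hm p _) (sq_nonneg _)

/-- erase the value `some j` -/
def erz (j : J) (v : Option J) : Option J := if v = some j then none else v

lemma sum_erz_le (w : ι → Option J → ℝ) (hw0 : ∀ p v, 0 ≤ w p v) (a : ι → ℝ)
    (ha0 : ∀ p, 0 ≤ a p) (j : J) (ha : ∀ p, w p (some j) ≤ a p * w p none)
    (ψ : (ι → Option J) → ℝ) (hψ : ∀ x, 0 ≤ ψ x) :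
    ∑ x, Wt w x * ψ (fun p => erz j (x p)) ≤ (∏ p, (1 + a p)) * ∑ x, Wt w x * ψ x := by
  have h1 : ∀ x : ι → Option J, ψ (fun p => erz j (x p)) =
      ∑ x' : ι → Option J, (∏ p, dl (erz j (x p)) (x' p)) * ψ x' := by
    intro x
    simp only [prod_dl (fun p => erz j (x p))]
    simp [dl]
  have h2 : ∀ p v', ∑ v, w p v * dl (erz j v) v' ≤ (1 + a p) * w p v' := by
    intro p v'
    have e : ∀ v, w p v * dl (erz j v) v' ≤ w p v * dl v v' + dl v (some j) * (a p * w p v') := by
      intro v
      by_cases hv : v = some j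
      · subst hv
        by_cases hv' : v' = none
        · subst hv'; simpa [erz, dl] using ha p
        · have hv'' : ¬ none = v' := fun h => hv' h.symm
          have := mul_nonneg (ha0 p) (hw0 p v')
          have := hw0 p (some j)
          simp only [erz, dl, if_true, hv'', if_false]
          split_ifs <;> nlinarith
      · simp [erz, dl, hv]
    refine (Finset.sum_le_sum fun v _ => e v).trans (le_of_eq ?_)
    rw [Finset.sum_add_distrib]
    simp [dl]; ring
  simp only [h1, Finset.mul_sum]
  rw [Finset.sum_comm]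
  refine Finset.sum_le_sum fun x' _ => ?_
  calc ∑ x : ι → Option J, Wt w x * ((∏ p, dl (erz j (x p)) (x' p)) * ψ x')
      = (∏ p, ∑ v, w p v * dl (erz j v) (x' p)) * ψ x' := by
        rw [Fintype.prod_sum, Finset.sum_mul]
        refine Finset.sum_congr rfl fun x _ => ?_
        simp only [Wt, Finset.prod_mul_distrib]; ring
    _ ≤ (∏ p, (1 + a p) * w p (x' p)) * ψ x' := by
        refine mul_le_mul_of_nonneg_right ?_ (hψ x')
        refine Finset.prod_le_prod (fun p _ => Finset.sum_nonneg fun v _ =>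
          mul_nonneg (hw0 p v) ?_) fun p _ => h2 p _
        simp only [dl]; split_ifs <;> norm_num
    _ = _ := by simp only [Wt, Finset.prod_mul_distrib]; ring

end Opt

end Pool.Agent.Lib.MP_458f0b_nt
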