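import Pool.Agent.Lib.MP_458f0b_nt.Core

open Finset

namespace Pool.Agent.Lib.MP_458f0b_nt

lemma count_mod (u v : ℕ) (huv : u ≤ v) {d : ℕ} (hd : 0 < d) (r : ℕ) :
    |(((Ioc u v).filter (fun a => a ≡ r [MOD d])).card : ℝ) - ((v : ℝ) - u) / d| ≤ 1 := by
  have h := Nat.Ioc_filter_modEq_card u v hd r
  have hdq : (0 : ℚ) < d := by exact_mod_cast hd
  have huq : (u : ℚ) ≤ v := by exact_mod_cast huv
  have hle : ⌊((u : ℚ) - r) / d⌋ ≤ ⌊((v : ℚ) - r) / d⌋ := by
    apply Int.floor_le_floor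
    gcongr
  rw [max_eq_left (sub_nonneg.mpr hle)] at h
  have hq : |(((Ioc u v).filter (fun a => a ≡ r [MOD d])).card : ℚ) - ((v : ℚ) - u) / d| ≤ 1 := by
    have h' : (((Ioc u v).filter (fun a => a ≡ r [MOD d])).card : ℚ) =
        (⌊((v : ℚ) - r) / d⌋ : ℚ) - (⌊((u : ℚ) - r) / d⌋ : ℚ) := by exact_mod_cast h
    have e : ((v : ℚ) - u) / d = ((v : ℚ) - r) / d - ((u : ℚ) - r) / d := by ring
    rw [h', e, abs_le]
    have a1 := Int.floor_le (((v : ℚ) - r) / d)
    have a2 := Int.lt_floor_add_one (((v : ℚ) - r) / d)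
    have a3 := Int.floor_le (((u : ℚ) - r) / d)
    have a4 := Int.lt_floor_add_one (((u : ℚ) - r) / d)
    constructor <;> linarith
  have hr := (Rat.cast_le (K := ℝ)).mpr hq
  push_cast at hr
  exact hr

lemma equi_prod {β : Type} [DecidableEq β] (u v : ℕ) (huv : u ≤ v) (m : β → ℕ) (α : β → ℝ)
    (g : β → ℕ → ℝ) (s : Finset β) (hm : ∀ i ∈ s, 0 < m i)
    (hco : ∀ i ∈ s, ∀ j ∈ s, i ≠ j → Nat.Coprime (m i) (m j)) :
    ∀ d r : ℕ, 0 < d → (∀ i ∈ s, Nat.Coprime d (m i)) →
      |∑ a ∈ (Ioc u v).filter (fun a => a ≡ r [MOD d]), ∏ i ∈ s, (α i + g i (a % m i)) -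
        ((v : ℝ) - u) / d * ∏ i ∈ s, (α i + (∑ c ∈ range (m i), g i c) / m i)| ≤
        ∏ i ∈ s, (|α i| + ∑ c ∈ range (m i), |g i c|) := by
  induction s using Finset.induction_on with
  | empty =>
    intro d r hd _
    simpa using count_mod u v huv hd r
  | insert i s hi ih =>
    intro d r hd hds
    have ih' := ih (fun j hj => hm j (mem_insert_of_mem hj))
      (fun j hj j' hj' => hco j (mem_insert_of_mem hj) j' (mem_insert_of_mem hj'))
    have hmi : 0 < m i := hm i (mem_insert_self _ _)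
    have hdi : Nat.Coprime d (m i) := hds i (mem_insert_self _ _)
    have hmr : (0 : ℝ) < m i := by exact_mod_cast hmi
    have hdr : (0 : ℝ) < d := by exact_mod_cast hd
    simp only [prod_insert hi]
    set F : ℕ → ℝ := fun a => ∏ j ∈ s, (α j + g j (a % m j)) with hF
    set Mn := ∏ j ∈ s, (α j + (∑ c ∈ range (m j), g j c) / m j) with hMn
    set E := ∏ j ∈ s, (|α j| + ∑ c ∈ range (m j), |g j c|) with hE
    have h1 := ih' d r hd fun j hj => hds j (mem_insert_of_mem hj)
    have h2 : ∀ c, |∑ a ∈ (Ioc u v).filter (fun a => a ≡ r [MOD d] ∧ a ≡ c [MOD m i]), F a -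
        ((v : ℝ) - u) / (d * m i) * Mn| ≤ E := by
      intro c
      obtain ⟨r', hr1, hr2⟩ := Nat.chineseRemainder hdi r c
      have h3 := ih' (d * m i) r' (Nat.mul_pos hd hmi) fun j hj =>
        Nat.Coprime.mul_left (hds j (mem_insert_of_mem hj))
          (hco i (mem_insert_self _ _) j (mem_insert_of_mem hj) (fun h => hi (h ▸ hj)))
      have e : (Ioc u v).filter (fun a => a ≡ r [MOD d] ∧ a ≡ c [MOD m i]) =
          (Ioc u v).filter (fun a => a ≡ r' [MOD d * m i]) := by
        refine filter_congr fun a _ => ?_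
        rw [← Nat.modEq_and_modEq_iff_modEq_mul hdi]
        exact ⟨fun h => ⟨h.1.trans hr1.symm, h.2.trans hr2.symm⟩,
          fun h => ⟨h.1.trans hr1, h.2.trans hr2⟩⟩
      rw [e]
      push_cast at h3
      exact h3
    have h4 : ∑ a ∈ (Ioc u v).filter (fun a => a ≡ r [MOD d]), g i (a % m i) * F a =
        ∑ c ∈ range (m i), g i c *
          ∑ a ∈ (Ioc u v).filter (fun a => a ≡ r [MOD d] ∧ a ≡ c [MOD m i]), F a := by
      simp only [← filter_filter, mul_sum]
      simp only [sum_filter (p := fun a => a ≡ _ [MOD m i])]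
      rw [sum_comm]
      refine sum_congr rfl fun a _ => ?_
      rw [sum_eq_single (a % m i)]
      · rw [if_pos (Nat.mod_modEq a (m i)).symm]
      · intro c hc hne
        rw [if_neg]
        intro h
        apply hne
        rw [Nat.ModEq, Nat.mod_eq_of_lt (mem_range.mp hc)] at h
        exact h.symm
      · intro h
        exact absurd (mem_range.mpr (Nat.mod_lt _ hmi)) h
    have h5 : ∑ a ∈ (Ioc u v).filter (fun a => a ≡ r [MOD d]), (α i + g i (a % m i)) * F a -
        ((v : ℝ) - u) / d * ((α i + (∑ c ∈ range (m i), g i c) / m i) * Mn) =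
        α i * (∑ a ∈ (Ioc u v).filter (fun a => a ≡ r [MOD d]), F a - ((v : ℝ) - u) / d * Mn) +
        ∑ c ∈ range (m i), g i c *
          (∑ a ∈ (Ioc u v).filter (fun a => a ≡ r [MOD d] ∧ a ≡ c [MOD m i]), F a -
            ((v : ℝ) - u) / (d * m i) * Mn) := by
      simp only [add_mul, sum_add_distrib, h4, mul_sub, sum_sub_distrib, ← mul_sum, ← sum_mul]
      field_simp
      ring
    rw [h5, add_mul, sum_mul]
    refine (abs_add_le _ _).trans (add_le_add ?_ ?_)
    · rw [abs_mul]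
      exact mul_le_mul_of_nonneg_left h1 (abs_nonneg _)
    · refine (abs_sum_le_sum_abs _ _).trans (sum_le_sum fun c _ => ?_)
      rw [abs_mul]
      exact mul_le_mul_of_nonneg_left (h2 c) (abs_nonneg _)

variable {J : Type} [Fintype J] [DecidableEq J]

open Classical in
/-- the position (if any) killed by the prime `p` when the starting point is `c` -/
noncomputable def Xc (k : ℕ) (n : J → ℕ) (p c : ℕ) : Option J :=
  if h : ∃ j, p ∣ c + n j * k then some h.choose else none

omit [DecidableEq J] in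
lemma Xc_dvd {k : ℕ} {n : J → ℕ} {p c : ℕ} {j : J} (h : Xc k n p c = some j) :
    p ∣ c + n j * k := by
  unfold Xc at h
  split_ifs at h with h'
  rw [← Option.some.inj h]
  exact h'.choose_spec

omit [DecidableEq J] in
lemma Xc_eq {k : ℕ} {n : J → ℕ} (hn : Function.Injective n) {p : ℕ} (hp : p.Prime)
    (hpk : ¬ p ∣ k) (hnp : ∀ j, n j < p) {c : ℕ} {j : J} (h : p ∣ c + n j * k) :
    Xc k n p c = some j := by
  have h' : ∃ j, p ∣ c + n j * k := ⟨j, h⟩
  unfold Xc
  rw [dif_pos h']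
  congr 1
  apply hn
  have h1 : c + n h'.choose * k ≡ c + n j * k [MOD p] :=
    (Nat.modEq_zero_iff_dvd.mpr h'.choose_spec).trans (Nat.modEq_zero_iff_dvd.mpr h).symm
  have h2 := Nat.ModEq.cancel_right_of_coprime
    ((Nat.Prime.coprime_iff_not_dvd hp).mpr hpk) (Nat.ModEq.add_left_cancel' c h1)
  exact Nat.ModEq.eq_of_lt_of_lt h2 (hnp _) (hnp _)

lemma count_dvd {p : ℕ} (hp : 0 < p) (b : ℕ) :
    ∑ c ∈ range p, (if p ∣ c + b then (1 : ℝ) else 0) = 1 := by
  have hb := Nat.mod_lt b hp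
  rw [sum_eq_single ((p - b % p) % p)]
  · rw [if_pos]
    rw [← Nat.modEq_zero_iff_dvd]
    have h1 : (p - b % p) % p + b ≡ (p - b % p) + b % p [MOD p] :=
      (Nat.mod_modEq _ _).add (Nat.mod_modEq _ _).symm
    refine h1.trans ?_
    rw [Nat.sub_add_cancel hb.le]
    exact Nat.modEq_zero_iff_dvd.mpr dvd_rfl
  · intro c hc hne
    rw [if_neg]
    intro h
    apply hne
    have h1 : c + b % p ≡ (p - b % p) + b % p [MOD p] := by
      rw [Nat.sub_add_cancel hb.le]
      exact ((Nat.ModEq.refl c).add (Nat.mod_modEq _ _)).trans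
        ((Nat.modEq_zero_iff_dvd.mpr h).trans (Nat.modEq_zero_iff_dvd.mpr dvd_rfl).symm)
    have h2 := Nat.ModEq.add_right_cancel' _ h1
    rw [Nat.ModEq, Nat.mod_eq_of_lt (mem_range.mp hc)] at h2
    exact h2
  · intro h
    exact absurd (mem_range.mpr (Nat.mod_lt _ hp)) h

lemma count_Xc {k : ℕ} {n : J → ℕ} (hn : Function.Injective n) {p : ℕ} (hp : p.Prime)
    (hpk : ¬ p ∣ k) (hnp : ∀ j, n j < p) (x : Option J) :
    ∑ c ∈ range p, dl (Xc k n p c) x = x.elim ((p : ℝ) - Fintype.card J) (fun _ => 1) := by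
  have h1 : ∀ j : J, ∑ c ∈ range p, dl (Xc k n p c) (some j) = 1 := by
    intro j
    rw [← count_dvd hp.pos (n j * k)]
    refine sum_congr rfl fun c _ => ?_
    simp only [dl]
    exact if_congr ⟨Xc_dvd, Xc_eq hn hp hpk hnp⟩ rfl rfl
  rcases x with _ | j
  · have h2 : ∑ c ∈ range p, ∑ x : Option J, dl (Xc k n p c) x = p := by simp [dl]
    rw [sum_comm, Fintype.sum_option] at h2
    simp only [h1, sum_const, card_univ, nsmul_eq_mul, mul_one] at h2
    simp only [Option.elim]
    linarith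
  · exact h1 j

lemma equi_nt {k : ℕ} (hk : 0 < k) {u v : ℕ} (huv : u ≤ v) {W : ℕ} (hW : 0 < W)
    (hWk : Nat.Coprime W k) (a0 : ℕ) (s : Finset ℕ) (hs : ∀ p ∈ s, p.Prime)
    (hsk : ∀ p ∈ s, ¬ p ∣ k) (hsW : ∀ p ∈ s, ¬ p ∣ W) {n : J → ℕ} (hn : Function.Injective n)
    (hnp : ∀ p ∈ s, ∀ j, n j < p) (hL : ∀ p ∈ s, Fintype.card J < p) :
    Equi (fun p : s => ((p : ℕ) : ℝ))
      (wm (fun p : s => 1 - (Fintype.card J : ℝ) / (p : ℕ))
        (fun p : s => (((p : ℕ) : ℝ) - Fintype.card J)⁻¹))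
      ((Ioc u v).filter (fun a => a ≡ a0 [MOD W] ∧ Nat.Coprime a k))
      (fun a p => Xc k n p (a % p))
      (((v : ℝ) - u) / W * ∏ q ∈ k.primeFactors, (1 - (q : ℝ)⁻¹)) (2 ^ k.primeFactors.card) := by
  intro S x
  set w := (wm (J := J) (fun p : s => 1 - (Fintype.card J : ℝ) / (p : ℕ))
        (fun p : s => (((p : ℕ) : ℝ) - Fintype.card J)⁻¹)) with hw
  have hcount : ∀ p : s, ∑ c ∈ range p, dl (Xc k n p c) (x p) = (p : ℕ) * w p (x p) := by
    intro p
    rw [count_Xc hn (hs p p.2) (hsk p p.2) (hnp p p.2)]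
    have h0 : (0 : ℝ) < (p : ℕ) := by exact_mod_cast (hs p p.2).pos
    have h1 : (0 : ℝ) < ((p : ℕ) : ℝ) - Fintype.card J := by
      have : (Fintype.card J : ℝ) < (p : ℕ) := by exact_mod_cast hL p p.2
      linarith
    rcases x p with _ | j
    · simp only [hw, wm, Option.elim]; field_simp
    · simp only [hw, wm, Option.elim]; field_simp
  have h := equi_prod (β := s ⊕ k.primeFactors) u v huv
    (Sum.elim (fun p => p) (fun q => q))
    (Sum.elim (fun p => if S p then 0 else 1) (fun _ => 1))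
    (Sum.elim (fun p c => if S p then dl (Xc k n p c) (x p) else 0)
      (fun _ c => if c = 0 then -1 else 0)) univ
    (by
      rintro (p | q) _
      · exact (hs p p.2).pos
      · exact (Nat.prime_of_mem_primeFactors q.2).pos)
    (by
      rintro (p | q) _ (p' | q') _ hne
      · exact (Nat.coprime_primes (hs p p.2) (hs p' p'.2)).mpr
          fun h => hne (congrArg _ (Subtype.ext h))
      · refine (Nat.coprime_primes (hs p p.2) (Nat.prime_of_mem_primeFactors q'.2)).mpr fun h => ?_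
        exact hsk p p.2 (h ▸ Nat.dvd_of_mem_primeFactors q'.2)
      · refine (Nat.coprime_primes (Nat.prime_of_mem_primeFactors q.2) (hs p' p'.2)).mpr fun h => ?_
        exact hsk p' p'.2 (h ▸ Nat.dvd_of_mem_primeFactors q.2)
      · exact (Nat.coprime_primes (Nat.prime_of_mem_primeFactors q.2)
          (Nat.prime_of_mem_primeFactors q'.2)).mpr fun h => hne (congrArg _ (Subtype.ext h)))
    W a0 hW
    (by
      rintro (p | q) _
      · exact ((Nat.Prime.coprime_iff_not_dvd (hs p p.2)).mpr (hsW p p.2)).symm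
      · exact Nat.Coprime.coprime_dvd_right (Nat.dvd_of_mem_primeFactors q.2) hWk)
  simp only [Fintype.prod_sum_type, Sum.elim_inl, Sum.elim_inr] at h
  have e1 : ∀ a : ℕ, ∏ q : k.primeFactors, (1 + if a % q = 0 then (-1 : ℝ) else 0) =
      if Nat.Coprime a k then 1 else 0 := by
    intro a
    split_ifs with hc
    · refine prod_eq_one fun q _ => ?_
      rw [if_neg, add_zero]
      intro h0
      have := Nat.eq_one_of_dvd_coprimes hc (Nat.dvd_of_mod_eq_zero h0)
        (Nat.dvd_of_mem_primeFactors q.2)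
      exact (Nat.prime_of_mem_primeFactors q.2).ne_one this
    · obtain ⟨q, hq, hqa, hqk⟩ := Nat.Prime.not_coprime_iff_dvd.mp hc
      refine prod_eq_zero (i := ⟨q, Nat.mem_primeFactors.mpr ⟨hq, hqk, hk.ne'⟩⟩) (mem_univ _) ?_
      rw [if_pos (Nat.mod_eq_zero_of_dvd hqa)]
      norm_num
  have e2 : ∀ q : k.primeFactors, ∑ c ∈ range q, (if c = 0 then (-1 : ℝ) else 0) = -1 := by
    intro q
    simp [(Nat.prime_of_mem_primeFactors q.2).pos]
  have e3 : ∀ q : k.primeFactors, ∑ c ∈ range q, |if c = 0 then (-1 : ℝ) else 0| = 1 := by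
    intro q
    simp [apply_ite abs, (Nat.prime_of_mem_primeFactors q.2).pos]
  have e4 : ∀ (a : ℕ) (p : s), ((if S p then (0 : ℝ) else 1) +
      if S p then dl (Xc k n p (a % p)) (x p) else 0) =
      if S p then dl (Xc k n p (a % p)) (x p) else 1 := by
    intro a p
    split_ifs <;> simp
  have e5 : ∀ p : s, ((if S p then (0 : ℝ) else 1) +
      (∑ c ∈ range p, if S p then dl (Xc k n p c) (x p) else 0) / (p : ℕ)) =
      if S p then w p (x p) else 1 := by
    intro p
    have h0 : (0 : ℝ) < (p : ℕ) := by exact_mod_cast (hs p p.2).pos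
    split_ifs
    · rw [hcount]; field_simp; simp
    · simp
  have e6 : ∀ p : s, (|if S p then (0 : ℝ) else 1| +
      ∑ c ∈ range p, |if S p then dl (Xc k n p c) (x p) else 0|) =
      if S p then ((p : ℕ) : ℝ) * w p (x p) else 1 := by
    intro p
    split_ifs
    · simp only [abs_of_nonneg (dl_nonneg _ _), hcount]; simp
    · simp
  have e7 : ∏ q : k.primeFactors, (1 + (-1 : ℝ) / (q : ℕ)) =
      ∏ q ∈ k.primeFactors, (1 - (q : ℝ)⁻¹) := by
    rw [← prod_coe_sort k.primeFactors]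
    exact prod_congr rfl fun q _ => by ring
  have e8 : ∏ q : k.primeFactors, (|(1 : ℝ)| + 1) = 2 ^ k.primeFactors.card := by
    simp; norm_num
  simp only [e1, e2, e3, e4, e5, e6, e7, e8, mul_ite, mul_one, mul_zero] at h
  rw [← sum_filter, filter_filter] at h
  refine le_trans (le_of_eq ?_) (h.trans (le_of_eq (mul_comm _ _)))
  congr 2
  ring

end Pool.Agent.Lib.MP_458f0b_nt
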