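import Pool.Agent.Lib.MP_458f0b_nt.Run

open Finset Filter

namespace Pool.Agent.Lib.MP_458f0b_nt

lemma greedy (S s : Finset ℕ) (hs : ∀ p ∈ s, 0 < p) :
    ∃ e : ℕ → ℕ, ((S.filter (fun j => ∀ p ∈ s, ¬ p ∣ j + e p)).card : ℝ) ≤
      S.card * ∏ p ∈ s, (1 - (p : ℝ)⁻¹) := by
  induction s using Finset.induction_on with
  | empty => exact ⟨fun _ => 0, by simp⟩
  | insert q s hq ih =>
    obtain ⟨e, he⟩ := ih fun p hp => hs p (mem_insert_of_mem hp)
    have hq0 : 0 < q := hs q (mem_insert_self _ _)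
    have hqr : (1 : ℝ) ≤ q := by exact_mod_cast hq0
    set S' := S.filter (fun j => ∀ p ∈ s, ¬ p ∣ j + e p) with hS'
    have h1 : ∑ c ∈ range q, (S'.card : ℝ) * (q : ℝ)⁻¹ ≤
        ∑ c ∈ range q, ((S'.filter (fun j => q ∣ j + c)).card : ℝ) := by
      simp only [card_filter, Nat.cast_sum, Nat.cast_ite, Nat.cast_one, Nat.cast_zero]
      rw [sum_comm]
      have hc : ∀ y : ℕ, ∑ c ∈ range q, (if q ∣ y + c then (1 : ℝ) else 0) = 1 := fun y => by
        simp only [add_comm y]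
        exact count_dvd hq0 y
      simp only [hc, sum_const, card_range, nsmul_eq_mul, mul_one]
      rw [mul_comm, mul_assoc, inv_mul_cancel₀ (by linarith), mul_one]
    obtain ⟨c, -, hc⟩ := exists_le_of_sum_le (nonempty_range_iff.mpr hq0.ne') h1
    refine ⟨Function.update e q c, ?_⟩
    have h2 : S.filter (fun j => ∀ p ∈ insert q s, ¬ p ∣ j + Function.update e q c p) =
        S'.filter (fun j => ¬ q ∣ j + c) := by
      rw [hS', filter_filter]
      refine filter_congr fun j _ => ?_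
      rw [forall_mem_insert, Function.update_self, and_comm]
      refine and_congr_left fun _ => forall₂_congr fun p hp => ?_
      rw [Function.update_of_ne (fun h : p = q => hq (h ▸ hp))]
    have h3 : ((S'.filter (fun j => q ∣ j + c)).card : ℝ) +
        (S'.filter (fun j => ¬ q ∣ j + c)).card = S'.card := by
      exact_mod_cast card_filter_add_card_filter_not (s := S') (fun j => q ∣ j + c)
    have h4 : 0 ≤ 1 - (q : ℝ)⁻¹ := sub_nonneg.mpr (inv_le_one_of_one_le₀ hqr)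
    rw [h2, prod_insert hq]
    calc _ ≤ S'.card * (1 - (q : ℝ)⁻¹) := by linarith
      _ ≤ (S.card * ∏ p ∈ s, (1 - (p : ℝ)⁻¹)) * (1 - (q : ℝ)⁻¹) := by gcongr
      _ = _ := by ring

lemma prodW {k : ℕ} (hk : 0 < k) (w : ℕ) :
    (∏ p ∈ w.primesLE.filter (fun p => ¬ p ∣ k), (1 - (p : ℝ)⁻¹)) * (k.totient / k) *
      Real.log (w + 1) ≤ 1 := by
  have hkr : (0 : ℝ) < k := by exact_mod_cast hk
  have h1 := log_le_prod_primesLE w
  have hp : ∀ p ∈ w.primesLE, p.Prime := fun p hp => (Nat.mem_primesLE.mp hp).2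
  have h2 : (k.totient : ℝ) / k = ∏ p ∈ k.primeFactors, (1 - (p : ℝ)⁻¹) := by
    have := congrArg (fun x : ℚ => (x : ℝ)) (Nat.totient_eq_mul_prod_factors k)
    push_cast at this
    rw [this]
    field_simp
  have h3 : ∏ p ∈ k.primeFactors, (1 - (p : ℝ)⁻¹) ≤
      ∏ p ∈ w.primesLE.filter (fun p => p ∣ k), (1 - (p : ℝ)⁻¹) := by
    refine prod_le_prod_of_subset_of_le_one (fun p h => Nat.mem_primeFactors.mpr
      ⟨hp p (mem_filter.mp h).1, (mem_filter.mp h).2, hk.ne'⟩)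
      (fun p h => (euler_pos (Nat.prime_of_mem_primeFactors h)).le) fun p _ _ => ?_
    have : (0 : ℝ) ≤ (p : ℝ)⁻¹ := by positivity
    linarith
  have h4 : 0 < ∏ p ∈ w.primesLE, (1 - (p : ℝ)⁻¹) := prod_pos fun p h => euler_pos (hp p h)
  have h5 : 0 ≤ ∏ p ∈ w.primesLE.filter (fun p => ¬ p ∣ k), (1 - (p : ℝ)⁻¹) :=
    prod_nonneg fun p h => (euler_pos (hp p (mem_filter.mp h).1)).le
  have h6 : 0 ≤ Real.log (w + 1) := Real.log_nonneg (by linarith [Nat.cast_nonneg (α := ℝ) w])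
  rw [prod_inv_distrib] at h1
  rw [h2]
  calc _ ≤ (∏ p ∈ w.primesLE.filter (fun p => ¬ p ∣ k), (1 - (p : ℝ)⁻¹)) *
        (∏ p ∈ w.primesLE.filter (fun p => p ∣ k), (1 - (p : ℝ)⁻¹)) *
        (∏ p ∈ w.primesLE, (1 - (p : ℝ)⁻¹))⁻¹ := by
        gcongr
        exact mul_nonneg h5 (prod_nonneg fun p h => (euler_pos (hp p (mem_filter.mp h).1)).le)
    _ = 1 := by
        rw [mul_comm (∏ p ∈ w.primesLE.filter (fun p => ¬ p ∣ k), _),
          prod_filter_mul_prod_filter_not, mul_inv_cancel₀ h4.ne']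

lemma prod_primes_le (x : ℕ) (s : Finset ℕ) (hs : s ⊆ x.primesLE) :
    ((∏ p ∈ s, p : ℕ) : ℝ) ≤ Real.exp (3 / 2 * x) := by
  have h1 : ∏ p ∈ s, p ≤ 4 ^ x := by
    refine le_trans ?_ (primorial_le_four_pow x)
    refine prod_le_prod_of_subset_of_one_le' (fun p hp => ?_) fun p hp _ => (mem_filter.mp hp).2.pos
    have := Nat.mem_primesLE.mp (hs hp)
    exact mem_filter.mpr ⟨mem_range.mpr (by omega), this.2⟩
  have h2 : (4 : ℝ) ≤ Real.exp (3 / 2) := by
    rw [← Real.log_le_iff_le_exp (by norm_num), show (4 : ℝ) = 2 ^ 2 by norm_num, Real.log_pow]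
    have := Real.log_two_lt_d9
    push_cast
    linarith
  calc ((∏ p ∈ s, p : ℕ) : ℝ) ≤ ((4 ^ x : ℕ) : ℝ) := by exact_mod_cast h1
    _ = 4 ^ x := by push_cast; rfl
    _ ≤ Real.exp (3 / 2) ^ x := by gcongr
    _ = _ := by rw [← Real.exp_nat_mul, mul_comm]

lemma tendsto_log_nat : Tendsto (fun k : ℕ => Real.log k) atTop atTop :=
  Real.tendsto_log_atTop.comp tendsto_natCast_atTop_atTop

theorem wrap2 : ∀ᶠ k : ℕ in atTop, ∀ (y : ℝ) (x : ℕ), 0 ≤ y → y ≤ Real.log k ^ 2 / 2 →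
    (x : ℝ) ≤ Real.log k / 30 →
    (∀ Y : ℕ, cst / 2 * Real.log k < Y → (Y : ℝ) ≤ 2 * y → ∃ e : ℕ → ℕ,
      (((range Y).filter (fun j => ∀ p ∈ x.primesLE.filter (fun p => ¬ p ∣ k),
        ¬ p ∣ j + e p)).card : ℝ) ≤ cst / 2 * Real.log k) →
    y * k ≤ pmax k := by
  filter_upwards [wrap, tendsto_log_nat.eventually (eventually_ge_atTop (4 / cst)),
    tendsto_log_nat.eventually (eventually_ge_atTop 4)] with k hw h1 h2 y x hy0 hy hx h
  have hc' : 2 ≤ cst / 2 * Real.log k := by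
    rw [div_le_iff₀ cst_pos] at h1
    linarith
  have hy1 := Nat.ceil_lt_add_one hy0
  have hy2 := Nat.le_ceil y
  have key : ∃ e : ℕ → ℕ, (((range ⌈y⌉₊).filter (fun j => ∀ p ∈ x.primesLE.filter (fun p => ¬ p ∣ k),
      ¬ p ∣ j + e p)).card : ℝ) ≤ cst / 2 * Real.log k := by
    by_cases hY : cst / 2 * Real.log k < ⌈y⌉₊
    · exact h _ hY (by linarith)
    · refine ⟨fun _ => 0, le_trans ?_ (not_lt.mp hY)⟩
      exact_mod_cast (card_filter_le _ _).trans (card_range _).le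
  obtain ⟨e, he⟩ := key
  have h3 := hw ⌈y⌉₊ _ e
    (fun p hp => by
      have a1 := Nat.mem_primesLE.mp (mem_filter.mp hp).1
      have a2 : (p : ℝ) ≤ x := by exact_mod_cast a1.1
      exact ⟨a1.2, (mem_filter.mp hp).2, by nlinarith⟩)
    ((prod_primes_le x _ (filter_subset _ _)).trans (Real.exp_le_exp.mpr (by linarith)))
    (by nlinarith) he
  have h4 : ((⌈y⌉₊ : ℕ) : ℝ) * k ≤ pmax k := by exact_mod_cast h3
  exact le_trans (by gcongr) h4

theorem thmA : ∀ᶠ k : ℕ in atTop,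
    cst / 8 * ((k.totient : ℝ) * Real.log k * Real.log (Real.log k)) ≤ pmax k := by
  filter_upwards [wrap2, tendsto_log_nat.eventually (eventually_ge_atTop 900),
    eventually_gt_atTop 0] with k hw h1 hk
  set ℓ := Real.log k with hℓ
  have hkr : (0 : ℝ) < k := by exact_mod_cast hk
  have hl0 : 0 < Real.log ℓ := Real.log_pos (by linarith)
  have hl1 : Real.log ℓ ≤ ℓ := (Real.log_le_sub_one_of_pos (by linarith)).trans (by linarith)
  have hφ0 : (0 : ℝ) ≤ k.totient / k := by positivity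
  have hφ : (k.totient : ℝ) / k ≤ 1 := by
    rw [div_le_one hkr]
    exact_mod_cast Nat.totient_le k
  have hc := cst_pos
  have hc' := cst_le
  have hs : √ℓ ≤ ℓ / 30 := by
    rw [Real.sqrt_le_iff]
    constructor <;> nlinarith
  have h := hw (cst / 8 * ℓ * Real.log ℓ * (k.totient / k)) ⌊√ℓ⌋₊ (by positivity)
    (by
      calc _ ≤ 1 / 30 / 8 * ℓ * ℓ * 1 := by gcongr
        _ ≤ _ := by nlinarith)
    ((Nat.floor_le (Real.sqrt_nonneg _)).trans hs)
    (fun Y _ hY => by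
      obtain ⟨e, he⟩ := greedy (range Y) ((⌊√ℓ⌋₊).primesLE.filter (fun p => ¬ p ∣ k))
        (fun p hp => (Nat.mem_primesLE.mp (mem_filter.mp hp).1).2.pos)
      refine ⟨e, he.trans ?_⟩
      have a1 := prodW hk ⌊√ℓ⌋₊
      have a2 : Real.log ℓ / 2 ≤ Real.log (⌊√ℓ⌋₊ + 1) := by
        rw [← Real.log_sqrt (by linarith)]
        exact Real.log_le_log (Real.sqrt_pos.mpr (by linarith)) (Nat.lt_floor_add_one _).le
      set Q := ∏ p ∈ (⌊√ℓ⌋₊).primesLE.filter (fun p => ¬ p ∣ k), (1 - (p : ℝ)⁻¹) with hQ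
      have a3 : 0 ≤ Q := prod_nonneg fun p hp =>
        (euler_pos (Nat.mem_primesLE.mp (mem_filter.mp hp).1).2).le
      have a4 : Q * (k.totient / k) * (Real.log ℓ / 2) ≤ 1 := le_trans (by gcongr) a1
      rw [card_range]
      calc _ ≤ 2 * (cst / 8 * ℓ * Real.log ℓ * (k.totient / k)) * Q := by gcongr
        _ = cst / 2 * ℓ * (Q * (k.totient / k) * (Real.log ℓ / 2)) := by ring
        _ ≤ cst / 2 * ℓ * 1 := by gcongr
        _ = _ := mul_one _)
  refine le_trans (le_of_eq ?_) h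
  field_simp

end Pool.Agent.Lib.MP_458f0b_nt
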