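import Pool.Agent.Lib.MP_458f0b_nt.H37Model

open Finset

namespace Pool.Agent.Lib.MP_458f0b_nt

variable {ι J α β : Type} [Fintype ι] [DecidableEq ι] [Fintype J] [DecidableEq J]
  [Fintype β] [DecidableEq β]

/-- total level of a choice of scales -/
def lev (s : Option β → ℝ) (τ : J → Option β) : ℝ := ∑ j, s (τ j)

open Classical in
/-- the cutoff -/
noncomputable def cut (Λ x : ℝ) : ℝ := if x ≤ Λ then 1 else 0

/-- the truncated weight -/
noncomputable def gfun (φ : Option β → (ι → Bool) → ℝ) (s : Option β → ℝ) (Λ : ℝ)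
    (ω : J → ι → Bool) : ℝ :=
  ∑ τ : J → Option β, cut Λ (lev s τ) * ∏ j, φ (τ j) (ω j)

/-- coefficients of the erased weight -/
noncomputable def cj (φ : Option β → (ι → Bool) → ℝ) (s : Option β → ℝ) (Λ x : ℝ) : ℝ :=
  ∑ a, cut Λ (x + s a) * φ a (fun _ => false)

/-- local factors of the erased weight -/
def psi (φ : Option β → (ι → Bool) → ℝ) (σ : (ι → Bool) → ℝ) (j i : J) (a : Option β)
    (x : ι → Bool) : ℝ :=
  if i = j then (if a = none then σ x else 0) else φ a x

/-- the erased weight -/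
noncomputable def hfun (φ : Option β → (ι → Bool) → ℝ) (σ : (ι → Bool) → ℝ) (s : Option β → ℝ)
    (Λ : ℝ) (j : J) (ω : J → ι → Bool) : ℝ :=
  ∑ τ : J → Option β, cj φ s Λ (lev s τ) * ∏ i, psi φ σ j i (τ i) (ω i)

lemma sum_update (j : J) (F : (J → Option β) → ℝ) :
    ∑ τ, F τ = ∑ τ : J → Option β, if τ j = none then ∑ a, F (Function.update τ j a) else 0 := by
  let e : (J → Option β) × Option β → (J → Option β) × Option β :=
    fun q => (Function.update q.1 j q.2, q.1 j)
  have he : Function.Involutive e := by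
    intro q
    simp [e]
  have h1 : ∑ τ, F τ = ∑ q : (J → Option β) × Option β, if q.2 = none then F q.1 else 0 := by
    rw [Fintype.sum_prod_type]
    simp
  rw [h1, ← Equiv.sum_comp he.toPerm, Fintype.sum_prod_type]
  refine sum_congr rfl fun τ _ => ?_
  show (∑ a, if τ j = none then F (Function.update τ j a) else 0) = _
  split_ifs <;> simp

omit [Fintype ι] [DecidableEq ι] in
lemma hfun_eq {φ : Option β → (ι → Bool) → ℝ} {σ : (ι → Bool) → ℝ} {s : Option β → ℝ} (Λ : ℝ)
    (hs : s none = 0) (hσ : σ (fun _ => false) = 1) (j : J) (ω : J → ι → Bool)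
    (hω : ω j = fun _ => false) : hfun φ σ s Λ j ω = gfun φ s Λ ω := by
  rw [gfun, sum_update j, hfun]
  refine sum_congr rfl fun τ _ => ?_
  rw [← mul_prod_erase _ _ (mem_univ j)]
  have h1 : ∏ i ∈ univ.erase j, psi φ σ j i (τ i) (ω i) = ∏ i ∈ univ.erase j, φ (τ i) (ω i) :=
    prod_congr rfl fun i hi => by simp only [psi, if_neg (ne_of_mem_erase hi)]
  rw [h1]
  simp only [psi, if_true]
  split_ifs with h
  · rw [hω, hσ, one_mul, cj, sum_mul]
    refine sum_congr rfl fun a _ => ?_
    have h2 : lev s (Function.update τ j a) = lev s τ + s a := by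
      simp only [lev]
      rw [← add_sum_erase _ _ (mem_univ j), ← add_sum_erase _ (fun i => s (τ i)) (mem_univ j), h,
        hs, Function.update_self, zero_add, add_comm]
      congr 1
      exact sum_congr rfl fun i hi => by rw [Function.update_of_ne (ne_of_mem_erase hi)]
    rw [h2, ← mul_prod_erase _ _ (mem_univ j), Function.update_self, hω, mul_assoc]
    congr 2
    exact prod_congr rfl fun i hi => by rw [Function.update_of_ne (ne_of_mem_erase hi)]
  · simp

lemma cut_nonneg (Λ x : ℝ) : 0 ≤ cut Λ x := by unfold cut; split_ifs <;> norm_num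

lemma cut_le_one (Λ x : ℝ) : cut Λ x ≤ 1 := by unfold cut; split_ifs <;> norm_num

omit [DecidableEq β] in
lemma sum_tensor (u : J → Option β → ℝ) :
    ∑ τ : J → Option β, ∏ j, u j (τ j) = ∏ j, ∑ a, u j a := (Fintype.prod_sum u).symm

omit [DecidableEq β] in
lemma tail_le {v s : Option β → ℝ} {Λ sm : ℝ} (hv : ∀ a, 0 ≤ v a) (hV : 1 ≤ ∑ a, v a)
    (hsm : 0 < sm) (hs0 : ∀ a, 0 ≤ s a) (hs1 : ∀ a, s a ≤ sm)
    (hE : Fintype.card J * ∑ a, s a * v a ≤ Λ / 8) :
    ∑ τ : J → Option β, (1 - cut (Λ / 2) (lev s τ)) * ∏ j, v (τ j) ≤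
      (∑ a, v a) ^ Fintype.card J * Real.exp (-(Λ / (4 * sm))) := by
  have h1 : ∀ τ : J → Option β, (1 - cut (Λ / 2) (lev s τ)) * ∏ j, v (τ j) ≤
      Real.exp (-(Λ / (2 * sm))) * ∏ j, v (τ j) * Real.exp (s (τ j) / sm) := by
    intro τ
    rw [prod_mul_distrib, ← Real.exp_sum, ← sum_div, mul_comm (∏ j, v (τ j)), ← mul_assoc,
      ← Real.exp_add]
    refine mul_le_mul_of_nonneg_right ?_ (prod_nonneg fun j _ => hv _)
    unfold cut
    split_ifs with h
    · rw [sub_self]
      exact (Real.exp_pos _).le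
    · rw [sub_zero]
      refine Real.one_le_exp ?_
      have : Λ / (2 * sm) ≤ (∑ j, s (τ j)) / sm := by
        rw [← div_div]
        exact div_le_div_of_nonneg_right (not_le.mp h).le hsm.le
      linarith
  refine (sum_le_sum fun τ _ => h1 τ).trans ?_
  rw [← mul_sum, sum_tensor (fun _ a => v a * Real.exp (s a / sm)), prod_const, card_univ]
  set D := ∑ a, s a * v a with hD
  have hD0 : 0 ≤ D := sum_nonneg fun a _ => mul_nonneg (hs0 a) (hv a)
  have h2 : ∑ a, v a * Real.exp (s a / sm) ≤ (∑ a, v a) * Real.exp (2 * D / sm) := by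
    have h3 : ∑ a, v a * Real.exp (s a / sm) ≤ ∑ a, v a + 2 * D / sm := by
      rw [hD, mul_sum, sum_div, ← sum_add_distrib]
      refine sum_le_sum fun a _ => ?_
      have b0 : 0 ≤ s a / sm := div_nonneg (hs0 a) hsm.le
      have b1 : s a / sm ≤ 1 := (div_le_one hsm).mpr (hs1 a)
      have b2 : Real.exp (s a / sm) ≤ 1 + 2 * (s a / sm) := by
        have := Real.abs_exp_sub_one_le (x := s a / sm) (by rwa [abs_of_nonneg b0])
        rw [abs_of_nonneg b0] at this
        linarith [le_abs_self (Real.exp (s a / sm) - 1)]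
      calc _ ≤ v a * (1 + 2 * (s a / sm)) := mul_le_mul_of_nonneg_left b2 (hv a)
        _ = _ := by ring
    have h4 := Real.add_one_le_exp (2 * D / sm)
    have h5 : 0 ≤ 2 * D / sm := by positivity
    nlinarith
  calc _ ≤ Real.exp (-(Λ / (2 * sm))) * ((∑ a, v a) * Real.exp (2 * D / sm)) ^ Fintype.card J := by
        gcongr
        exact sum_nonneg fun a _ => mul_nonneg (hv a) (Real.exp_pos _).le
    _ = (∑ a, v a) ^ Fintype.card J *
        Real.exp (-(Λ / (2 * sm)) + Fintype.card J * (2 * D / sm)) := by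
        rw [mul_pow, ← Real.exp_nat_mul, Real.exp_add]; ring
    _ ≤ _ := by
        refine mul_le_mul_of_nonneg_left (Real.exp_le_exp.mpr ?_) (by positivity)
        have : Fintype.card J * (2 * D / sm) ≤ Λ / (4 * sm) := by
          rw [show Fintype.card J * (2 * D / sm) = 2 * (Fintype.card J * D) / sm by ring,
            ← div_div]
          exact div_le_div_of_nonneg_right (by linarith) hsm.le
        have e : Λ / (2 * sm) = 2 * (Λ / (4 * sm)) := by field_simp; norm_num
        linarith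

omit [Fintype ι] [DecidableEq ι] [DecidableEq β] in
lemma cj_bound {φ : Option β → (ι → Bool) → ℝ} {s : Option β → ℝ} {Λ : ℝ}
    (hφ0 : φ none = fun _ => 1) (hneg : ∀ t, φ (some t) (fun _ => false) ≤ 0)
    (hsum : ∑ t, φ (some t) (fun _ => false) = -1) (hs0 : ∀ a, 0 ≤ s a)
    (hs1 : ∀ a, s a ≤ Λ / 2) (x : ℝ) :
    |cj φ s Λ x| ≤ 1 - cut (Λ / 2) x ∧ |cj φ s Λ x| ≤ cut Λ x := by
  have h0 : |cj φ s Λ x| ≤ 1 := by
    rw [cj, Fintype.sum_option, hφ0, mul_one]
    have a1 : ∑ t, cut Λ (x + s (some t)) * φ (some t) (fun _ => false) ≤ 0 :=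
      sum_nonpos fun t _ => mul_nonpos_of_nonneg_of_nonpos (cut_nonneg _ _) (hneg t)
    have a2 : -1 ≤ ∑ t, cut Λ (x + s (some t)) * φ (some t) (fun _ => false) := by
      rw [← hsum]
      exact sum_le_sum fun t _ => by nlinarith [cut_le_one Λ (x + s (some t)), hneg t]
    rw [abs_le]
    constructor <;> linarith [cut_nonneg Λ (x + s none), cut_le_one Λ (x + s none)]
  constructor
  · by_cases h : x ≤ Λ / 2
    · have : ∀ a, cut Λ (x + s a) = 1 := fun a => if_pos (by linarith [hs1 a])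
      have h' : cut (Λ / 2) x = 1 := if_pos h
      simp only [cj, this, one_mul, Fintype.sum_option, hφ0, hsum, h']
      simp
    · simpa only [cut, if_neg h, sub_zero] using h0
  · by_cases h : x ≤ Λ
    · simpa only [cut, if_pos h] using h0
    · have : ∀ a, cut Λ (x + s a) = 0 := fun a => if_neg (by linarith [hs0 a, not_le.mp h])
      simp only [cj, this, zero_mul, sum_const_zero, abs_zero]
      exact cut_nonneg _ _

omit [Fintype ι] [DecidableEq β] in
lemma polyJ_tensor {s : Option β → ℝ} {Λ : ℝ} (hs : s none = 0)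
    (hε : Fintype.card J * ∑ t, Real.exp (-s (some t)) ≤ 1) (ψ : J → Option β → (ι → Bool) → ℝ)
    (e : J → ℝ) (he : ∀ k, 0 ≤ e k) (hψ : ∀ k a, Poly (Real.exp (s a) * e k) (ψ k a))
    (c : (J → Option β) → ℝ) (hc : ∀ τ, |c τ| ≤ cut Λ (lev s τ)) :
    PolyJ (Real.exp (2 * Λ + 1) * ∏ k, e k) (fun ω => ∑ τ, c τ * ∏ k, ψ k (τ k) (ω k)) := by
  have h1 := Poly.sum (κ := J × ι) univ (fun (τ : J → Option β) _ => Poly.smul (c τ)
    (Poly.prod univ fun k _ => (hψ k (τ k)).comp (fun p => (k, p))))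
  refine h1.le ?_
  have hE : 0 ≤ ∏ k, e k := prod_nonneg fun k _ => he k
  have h2 : ∀ τ : J → Option β, |c τ| * ∏ k, Real.exp (s (τ k)) * e k ≤
      (Real.exp (2 * Λ) * ∏ k, e k) * ∏ k, Real.exp (-s (τ k)) := by
    intro τ
    rw [prod_mul_distrib, ← Real.exp_sum, ← Real.exp_sum, sum_neg_distrib, ← mul_assoc,
      mul_right_comm (Real.exp (2 * Λ)), ← Real.exp_add]
    refine mul_le_mul_of_nonneg_right ?_ hE
    have := hc τ
    unfold cut at this
    split_ifs at this with h
    · refine (mul_le_of_le_one_left (Real.exp_pos _).le this).trans (Real.exp_le_exp.mpr ?_)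
      unfold lev at h
      linarith
    · exact (mul_nonpos_of_nonpos_of_nonneg this (Real.exp_pos _).le).trans (Real.exp_pos _).le
  refine (sum_le_sum fun τ _ => h2 τ).trans ?_
  rw [← mul_sum, sum_tensor (fun _ a => Real.exp (-s a)), prod_const, card_univ,
    Fintype.sum_option, hs, neg_zero, Real.exp_zero, Real.exp_add, mul_right_comm]
  refine mul_le_mul_of_nonneg_right (mul_le_mul_of_nonneg_left ?_ (Real.exp_pos _).le) hE
  have h3 : 0 ≤ ∑ t, Real.exp (-s (some t)) := sum_nonneg fun _ _ => (Real.exp_pos _).le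
  calc _ ≤ Real.exp (∑ t, Real.exp (-s (some t))) ^ Fintype.card J := by
        gcongr
        linarith [Real.add_one_le_exp (∑ t, Real.exp (-s (some t)))]
    _ ≤ _ := by
        rw [← Real.exp_nat_mul]
        exact Real.exp_le_exp.mpr hε

lemma collision {π : ι → ℝ} (h0 : ∀ p, 0 ≤ π p) (h1 : ∀ p, π p ≤ 1)
    {φ : Option β → (ι → Bool) → ℝ} {v : Option β → ℝ}
    (horth : ∀ a b, Ex (bern π) (fun x => φ a x * φ b x) = if a = b then v a else 0)
    (hV : 1 ≤ ∑ a, v a) (s : Option β → ℝ) (Λ : ℝ) (p : ι) {K : ℝ}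
    (hK : ∀ a, Ex (bern π) (fun x => φ a x ^ 2 * ind (x p)) ≤ K) {i j : J} (hij : i ≠ j) :
    Ex (full π) (fun ω : J → ι → Bool => gfun φ s Λ ω ^ 2 * (ind (ω i p) * ind (ω j p))) ≤
      (Fintype.card β + 1) ^ 4 * K ^ 2 * (∑ a, v a) ^ Fintype.card J := by
  let ψ : Option β × Option β → J → Option β → (ι → Bool) → ℝ := fun q k a x =>
    φ a x * (if k = i then dl a q.1 * ind (x p) else 1) *
      (if k = j then dl a q.2 * ind (x p) else 1)
  let G : Option β × Option β → (J → ι → Bool) → ℝ := fun q ω =>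
    ∑ τ : J → Option β, cut Λ (lev s τ) * ∏ k, ψ q k (τ k) (ω k)
  have hb := bern_nonneg h0 h1
  have hK0 : 0 ≤ K := le_trans (Ex_nonneg hb fun x => mul_nonneg (sq_nonneg _) (ind_nonneg _))
    (hK none)
  have e1 : ∀ ω : J → ι → Bool, gfun φ s Λ ω * (ind (ω i p) * ind (ω j p)) = ∑ q, G q ω := by
    intro ω
    simp only [G, ψ]
    rw [sum_comm, gfun, sum_mul]
    refine sum_congr rfl fun τ _ => ?_
    simp only [prod_mul_distrib, prod_ite_eq', mem_univ, if_true, Fintype.sum_prod_type]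
    simp only [dl, ite_mul, mul_ite, one_mul, zero_mul, mul_zero, sum_ite_eq, mem_univ, if_true]
    ring
  have e2 : ∀ ω : J → ι → Bool, gfun φ s Λ ω ^ 2 * (ind (ω i p) * ind (ω j p)) ≤
      (Fintype.card β + 1) ^ 2 * ∑ q, G q ω ^ 2 := by
    intro ω
    have a1 : gfun φ s Λ ω ^ 2 * (ind (ω i p) * ind (ω j p)) = (∑ q, G q ω) ^ 2 := by
      rw [← e1, mul_pow, mul_pow, sq (ind _), sq (ind _), ind_mul_self, ind_mul_self]
    rw [a1]
    refine (sq_sum_le_card_mul_sum_sq (s := univ) (f := fun q => G q ω)).trans (le_of_eq ?_)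
    simp [sq]
  have e3 : ∀ q, Ex (full π) (fun ω => G q ω ^ 2) ≤ K ^ 2 * (∑ a, v a) ^ Fintype.card J := by
    intro q
    let u : J → Option β → ℝ := fun k a => Ex (bern π) (fun x => ψ q k a x * ψ q k a x)
    have hu : ∀ k a, 0 ≤ u k a := fun k a => Ex_nonneg hb fun x => mul_self_nonneg _
    have a1 := Ex_orth (full π) (ψ q) u (fun k a b => by
      show Ex (bern π) (fun x => ψ q k a x * ψ q k b x) = _
      split_ifs with hab
      · rw [← hab]
      · by_cases hi : k = i
        · have : ∀ x, ψ q k a x * ψ q k b x = 0 := by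
            intro x
            by_cases ha : a = q.1
            · have hb' : b ≠ q.1 := fun h => hab (ha.trans h.symm)
              simp [ψ, hi, dl, hb']
            · simp [ψ, hi, dl, ha]
          simp [this, Ex]
        · by_cases hj : k = j
          · have : ∀ x, ψ q k a x * ψ q k b x = 0 := by
              intro x
              by_cases ha : a = q.2
              · have hb' : b ≠ q.2 := fun h => hab (ha.trans h.symm)
                simp [ψ, hj, dl, hb']
              · simp [ψ, hj, dl, ha]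
            simp [this, Ex]
          · simp only [ψ, if_neg hi, if_neg hj, mul_one, horth, if_neg hab])
      (fun τ => cut Λ (lev s τ))
    refine a1.le.trans ?_
    have a2 : ∀ c : Option β, ∑ a, Ex (bern π)
        (fun x => φ a x * (dl a c * ind (x p)) * (φ a x * (dl a c * ind (x p)))) ≤ K := by
      intro c
      rw [sum_eq_single c]
      · refine le_trans (le_of_eq ?_) (hK c)
        congr 1
        funext x
        simp only [dl, if_true, one_mul]
        rw [mul_mul_mul_comm, ind_mul_self, sq]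
      · intro a _ ha
        simp [dl, ha, Ex]
      · simp
    have a3 : ∀ k, ∑ a, u k a ≤
        (∑ a, v a) * (if k = i then K else 1) * (if k = j then K else 1) := by
      intro k
      by_cases hi : k = i
      · have hj : k ≠ j := hi ▸ hij
        simp only [u, ψ, if_pos hi, if_neg hj, mul_one]
        exact (a2 _).trans (le_mul_of_one_le_left hK0 hV)
      · by_cases hj : k = j
        · simp only [u, ψ, if_neg hi, if_pos hj, mul_one]
          exact (a2 _).trans (le_mul_of_one_le_left hK0 hV)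
        · simp only [u, ψ, if_neg hi, if_neg hj, mul_one, horth, if_true, le_refl]
    calc _ ≤ ∑ τ : J → Option β, ∏ k, u k (τ k) := by
          refine sum_le_sum fun τ _ => mul_le_of_le_one_left (prod_nonneg fun k _ => hu _ _) ?_
          exact pow_le_one₀ (cut_nonneg _ _) (cut_le_one _ _)
      _ = ∏ k, ∑ a, u k a := sum_tensor u
      _ ≤ ∏ k : J, (∑ a, v a) * (if k = i then K else 1) * (if k = j then K else 1) :=
          prod_le_prod (fun k _ => sum_nonneg fun a _ => hu k a) fun k _ => a3 k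
      _ = _ := by
          simp only [prod_mul_distrib, prod_ite_eq', mem_univ, if_true, prod_const, card_univ]
          ring
  refine (Ex_mono (full_nonneg h0 h1) e2).trans ?_
  rw [Ex_smul, Ex_sum]
  calc _ ≤ ((Fintype.card β : ℝ) + 1) ^ 2 *
        ∑ _q : Option β × Option β, K ^ 2 * (∑ a, v a) ^ Fintype.card J := by
        gcongr with q
        exact e3 q
    _ = _ := by
        simp only [sum_const, card_univ, Fintype.card_prod, Fintype.card_option, nsmul_eq_mul]
        push_cast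
        ring

omit [DecidableEq β] in
lemma fourth {π : ι → ℝ} (h0 : ∀ p, 0 ≤ π p) (h1 : ∀ p, π p ≤ 1)
    (φ : Option β → (ι → Bool) → ℝ) (s : Option β → ℝ) (Λ : ℝ) {m : ℝ}
    (hm : Ex (bern π) (fun x => (∑ a, |φ a x|) ^ 4) ≤ 1 + m) :
    Ex (full π) (fun ω : J → ι → Bool => gfun φ s Λ ω ^ 4) ≤ Real.exp (Fintype.card J * m) := by
  have e1 : ∀ ω : J → ι → Bool, gfun φ s Λ ω ^ 4 ≤ ∏ j, (∑ a, |φ a (ω j)|) ^ 4 := by
    intro ω
    have a1 : |gfun φ s Λ ω| ≤ ∏ j, ∑ a, |φ a (ω j)| := by
      rw [← sum_tensor (fun j a => |φ a (ω j)|)]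
      refine (abs_sum_le_sum_abs _ _).trans (sum_le_sum fun τ _ => ?_)
      rw [abs_mul, abs_prod, abs_of_nonneg (cut_nonneg _ _)]
      exact mul_le_of_le_one_left (prod_nonneg fun _ _ => abs_nonneg _) (cut_le_one _ _)
    rw [prod_pow, ← Even.pow_abs (by decide : Even 4)]
    exact pow_le_pow_left₀ (abs_nonneg _) a1 4
  refine (Ex_mono (full_nonneg h0 h1) e1).trans ?_
  rw [Ex_prod (full π) (fun _ x => (∑ a, |φ a x|) ^ 4), Real.exp_nat_mul, ← card_univ,
    ← prod_const]
  refine prod_le_prod (fun j _ => Ex_nonneg (bern_nonneg h0 h1) fun x => by positivity)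
    fun j _ => hm.trans ?_
  linarith [Real.add_one_le_exp m]

open Classical in
/-- The abstract counting theorem. -/
theorem multi {P c a π : ι → ℝ} (hc : ∀ p, 0 < c p) (hπ : ∀ p, π p = (1 - π p) * a p)
    (h0 : ∀ p, 0 ≤ π p) (h1 : ∀ p, π p ≤ 1) (hw1 : ∀ p, ∑ v, wm (J := J) c a p v = 1)
    (hPw : ∀ p, P p * (c p * a p) = 1) {A : Finset α} {X : α → ι → Option J} {M err : ℝ}
    (herr : 0 ≤ err) (hM : 0 < M) (h : Equi P (wm c a) A X M err)
    {φ : Option β → (ι → Bool) → ℝ} {σ : (ι → Bool) → ℝ} {v s : Option β → ℝ} {K : ι → ℝ}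
    {Λ sm m : ℝ} (hφ0 : φ none = fun _ => 1)
    (horth : ∀ a b, Ex (bern π) (fun x => φ a x * φ b x) = if a = b then v a else 0)
    (hneg : ∀ t, φ (some t) (fun _ => false) ≤ 0)
    (hsum : ∑ t, φ (some t) (fun _ => false) = -1) (hσ : σ (fun _ => false) = 1)
    (hs : s none = 0) (hs0 : ∀ a, 0 ≤ s a) (hs1 : ∀ a, s a ≤ sm) (hsm : 0 < sm)
    (hsΛ : 16 * sm ≤ Λ) (hφ : ∀ a, Poly (Real.exp (s a)) (φ a)) (hσp : Poly (Real.exp sm) σ)
    (hε : Fintype.card J * ∑ t, Real.exp (-s (some t)) ≤ 1)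
    (hL : (Fintype.card J : ℝ) ≤ Real.exp Λ)
    (hE : Fintype.card J * ∑ a, s a * v a ≤ Λ / 8)
    (hσ2 : Fintype.card J * Ex (bern π) (fun x => σ x * σ x) * Real.exp (-(Λ / (4 * sm))) ≤ 1 / 8)
    (hK : ∀ p a, Ex (bern π) (fun x => φ a x ^ 2 * ind (x p)) ≤ K p)
    (hK2 : (Fintype.card β + 1) ^ 4 * (Fintype.card J : ℝ) ^ 2 * ∑ p, K p ^ 2 ≤ 1 / 8)
    (hm : Ex (bern π) (fun x => (∑ a, |φ a x|) ^ 4) ≤ 1 + m) (hm0 : 0 ≤ m)
    (herr2 : err * Real.exp (8 * Λ + 4) ≤ M / 8) :
    M * Real.exp (-(Fintype.card J * m)) / 32 ≤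
      (A.filter fun b => ∀ j, ∃ p, X b p = some j).card := by
  have hb := bern_nonneg h0 h1
  have hf := full_nonneg (J := J) h0 h1
  have hv : ∀ a, 0 ≤ v a := fun a => by
    have := horth a a
    rw [if_pos rfl] at this
    rw [← this]
    exact Ex_nonneg hb fun x => mul_self_nonneg _
  have hv1 : v none = 1 := by
    have := horth none none
    rw [if_pos rfl, hφ0] at this
    rw [← this]
    simpa using Ex_const (bern_sum π) 1
  have hV : 1 ≤ ∑ a, v a := hv1 ▸ single_le_sum (fun a _ => hv a) (mem_univ none)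
  set L := Fintype.card J with hLdef
  set Z := (∑ a, v a) ^ L with hZ
  have hZ1 : 1 ≤ Z := one_le_pow₀ hV
  set ρ := ∏ p, (1 - π p) ^ L / c p with hρ
  have hΛ : 0 < Λ := by linarith
  have hw0 : ∀ p (y : Option J), 0 ≤ wm c a p y := by
    intro p y
    have ha : 0 ≤ a p := by
      by_contra hh
      have b1 := hπ p
      have b2 : (1 - π p) * a p ≤ 0 :=
        mul_nonpos_of_nonneg_of_nonpos (by linarith [h1 p]) (not_le.mp hh).le
      have b3 : π p = 0 := le_antisymm (by linarith) (h0 p)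
      rw [b3] at b1
      linarith [not_le.mp hh]
    rcases y with _ | j
    · exact (hc p).le
    · exact mul_nonneg (hc p).le ha
  have hoff : ((univ : Finset J).offDiag.card : ℝ) ≤ (L : ℝ) ^ 2 := by
    rw [offDiag_card, card_univ]
    have : L * L - L ≤ L ^ 2 := by rw [sq]; exact Nat.sub_le _ _
    exact_mod_cast this
  have hρ1 : ρ ≤ 1 := by
    have := excl_le (J := J) hc hπ h0 h1 (F := fun _ => 1) (fun _ => zero_le_one)
    rwa [Ex_const hw1, Ex_const (full_sum π), mul_one] at this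
  have hSK : 0 ≤ ∑ p, K p ^ 2 := sum_nonneg fun _ _ => sq_nonneg _
  have hρ2 : 7 / 8 ≤ ρ := by
    have b1 := full_le (J := J) hc hπ h0 h1 (F := fun _ => 1) (fun _ => zero_le_one)
    rw [Ex_const hw1, Ex_const (full_sum π), mul_one] at b1
    have b2 : ∑ p, ∑ q ∈ (univ : Finset J).offDiag,
        Ex (full π) (fun ω => 1 * (ind (ω q.1 p) * ind (ω q.2 p))) ≤
        ∑ p, (L : ℝ) ^ 2 * K p ^ 2 := by
      refine sum_le_sum fun p _ => ?_
      refine (sum_le_card_nsmul _ _ (K p ^ 2) fun q hq => ?_).trans ?_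
      · have b3 := collision (β := Empty) (J := J) h0 h1 (φ := fun _ _ => 1) (v := fun _ => 1)
          (fun a b => by
            rw [if_pos (Subsingleton.elim a b)]
            simpa using Ex_const (bern_sum π) 1) (by simp) (fun _ => 0) 0 p (K := K p)
          (fun _ => by simpa only [hφ0] using hK p none) (mem_offDiag.mp hq).2.2
        simpa [gfun, cut, lev] using b3
      · rw [nsmul_eq_mul]
        gcongr
    rw [← mul_sum] at b2
    have b4 : (1 : ℝ) ≤ (Fintype.card β + 1) ^ 4 := one_le_pow₀ (by simp)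
    have b5 : (L : ℝ) ^ 2 * ∑ p, K p ^ 2 ≤ 1 / 8 := by
      refine le_trans ?_ hK2
      rw [mul_assoc]
      exact le_mul_of_one_le_left (by positivity) b4
    linarith
  have htail := tail_le (J := J) hv hV hsm hs0 hs1 hE
  set tl := ∑ τ : J → Option β, (1 - cut (Λ / 2) (lev s τ)) * ∏ j, v (τ j) with htl
  have hexp : Real.exp (-(Λ / (4 * sm))) ≤ 1 / 8 := by
    have b1 : 4 ≤ Λ / (4 * sm) := by rw [le_div_iff₀ (by positivity)]; linarith
    have b2 : Real.exp (-(Λ / (4 * sm))) ≤ Real.exp (-4) := Real.exp_le_exp.mpr (by linarith)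
    refine b2.trans ?_
    rw [Real.exp_neg, one_div]
    refine inv_anti₀ (by norm_num) ?_
    have := Real.add_one_le_exp (2 : ℝ)
    rw [show (4 : ℝ) = 2 + 2 by norm_num, Real.exp_add]
    nlinarith
  have hcj := cj_bound (Λ := Λ) hφ0 hneg hsum hs0 (fun a => by linarith [hs1 a])
  -- second moment of the weight
  have g2 : 7 / 8 * Z ≤ Ex (full π) (fun ω : J → ι → Bool => gfun φ s Λ ω ^ 2) := by
    have b1 := Ex_orth (full (J := J) π) (fun _ => φ) (fun _ => v) (fun _ a b => horth a b)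
      (fun τ => cut Λ (lev s τ))
    refine le_trans ?_ b1.ge
    have b2 : Z = ∑ τ : J → Option β, ∏ j, v (τ j) := by
      rw [sum_tensor (fun _ a => v a), prod_const, card_univ]
    have b3 : Z - tl ≤ ∑ τ : J → Option β, cut Λ (lev s τ) ^ 2 * ∏ j, v (τ j) := by
      rw [b2, htl, ← sum_sub_distrib]
      refine sum_le_sum fun τ _ => ?_
      have b4 : cut (Λ / 2) (lev s τ) ≤ cut Λ (lev s τ) ^ 2 := by
        unfold cut
        by_cases hh : lev s τ ≤ Λ / 2
        · rw [if_pos hh, if_pos (by linarith), one_pow]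
        · rw [if_neg hh]
          positivity
      have b5 : 0 ≤ ∏ j, v (τ j) := prod_nonneg fun j _ => hv _
      nlinarith
    nlinarith
  have g2' : 3 / 4 * Z ≤ Ex (wm c a) (fun y : ι → Option J => gfun φ s Λ (emb y) ^ 2) := by
    have b1 := full_le (J := J) hc hπ h0 h1 (F := fun ω => gfun φ s Λ ω ^ 2) (fun _ => sq_nonneg _)
    have b2 : ∑ p, ∑ q ∈ (univ : Finset J).offDiag,
        Ex (full π) (fun ω => gfun φ s Λ ω ^ 2 * (ind (ω q.1 p) * ind (ω q.2 p))) ≤
        ∑ p, (L : ℝ) ^ 2 * ((Fintype.card β + 1) ^ 4 * K p ^ 2 * Z) := by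
      refine sum_le_sum fun p _ => ?_
      refine (sum_le_card_nsmul _ _ _ fun q hq =>
        collision h0 h1 horth hV s Λ p (hK p) (mem_offDiag.mp hq).2.2).trans ?_
      rw [nsmul_eq_mul]
      gcongr
    have b3 : ∑ p, (L : ℝ) ^ 2 * ((Fintype.card β + 1) ^ 4 * K p ^ 2 * Z) =
        ((Fintype.card β + 1) ^ 4 * (L : ℝ) ^ 2 * ∑ p, K p ^ 2) * Z := by
      rw [mul_sum, sum_mul]
      exact sum_congr rfl fun p _ => by ring
    have b4 : 0 ≤ Ex (wm c a) (fun y : ι → Option J => gfun φ s Λ (emb y) ^ 2) :=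
      Ex_nonneg hw0 fun _ => sq_nonneg _
    rw [b3] at b2
    nlinarith
  -- second moments of the erased weights
  set S2 := Ex (bern π) (fun x => σ x * σ x) with hS2
  have hS0 : 0 ≤ S2 := Ex_nonneg hb fun x => mul_self_nonneg _
  have h2 : ∀ j, Ex (full π) (fun ω : J → ι → Bool => hfun φ σ s Λ j ω ^ 2) ≤ S2 * tl := by
    intro j
    have b1 := Ex_orth (full (J := J) π) (psi φ σ j)
      (fun i a => if i = j then (if a = none then S2 else 0) else v a) (fun i a b => by
        show Ex (bern π) (fun x => psi φ σ j i a x * psi φ σ j i b x) = _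
        by_cases hi : i = j
        · by_cases ha : a = none
          · by_cases hb' : b = none
            · simp [psi, hi, ha, hb', hS2]
            · simp [psi, hi, ha, hb', Ex, Ne.symm hb']
          · simp [psi, hi, ha, Ex]
        · simp only [psi, if_neg hi, horth]) (fun τ => cj φ s Λ (lev s τ))
    refine b1.le.trans ?_
    rw [htl, mul_sum]
    refine sum_le_sum fun τ _ => ?_
    have b2 : cj φ s Λ (lev s τ) ^ 2 ≤ 1 - cut (Λ / 2) (lev s τ) := by
      have b3 := (hcj (lev s τ)).1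
      have b4 := cut_nonneg (Λ / 2) (lev s τ)
      rw [← sq_abs]
      nlinarith [abs_nonneg (cj φ s Λ (lev s τ))]
    have b5 : (∏ i, if i = j then (if τ i = none then S2 else 0) else v (τ i)) ≤
        S2 * ∏ i, v (τ i) := by
      calc _ ≤ ∏ i, (if i = j then S2 else 1) * v (τ i) := by
            refine prod_le_prod (fun i _ => ?_) fun i _ => ?_
            · split_ifs
              exacts [hS0, le_rfl, hv _]
            · split_ifs with hi ha
              · rw [ha, hv1, mul_one]
              · exact mul_nonneg hS0 (hv _)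
              · rw [one_mul]
        _ = _ := by simp only [prod_mul_distrib, prod_ite_eq', mem_univ, if_true]
    rw [mul_left_comm]
    refine mul_le_mul b2 b5 (prod_nonneg fun i _ => ?_) ((sq_nonneg _).trans b2)
    split_ifs
    exacts [hS0, le_rfl, hv _]
  have h2' : ∑ j, Ex (wm c a) (fun y : ι → Option J => hfun φ σ s Λ j (emb y) ^ 2) ≤ Z / 7 := by
    have b1 : ρ * ∑ j, Ex (wm c a) (fun y : ι → Option J => hfun φ σ s Λ j (emb y) ^ 2) ≤
        L * (S2 * tl) := by
      rw [mul_sum]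
      refine (sum_le_card_nsmul _ _ _ fun j _ => (excl_le hc hπ h0 h1
        (F := fun ω => hfun φ σ s Λ j ω ^ 2) fun _ => sq_nonneg _).trans (h2 j)).trans ?_
      rw [nsmul_eq_mul, card_univ]
    have b2 : L * (S2 * tl) ≤ Z / 8 := by
      calc L * (S2 * tl) ≤ L * (S2 * (Z * Real.exp (-(Λ / (4 * sm))))) := by gcongr
        _ = L * S2 * Real.exp (-(Λ / (4 * sm))) * Z := by ring
        _ ≤ 1 / 8 * Z := by gcongr
        _ = _ := by ring
    have b3 : 0 ≤ ∑ j, Ex (wm c a) (fun y : ι → Option J => hfun φ σ s Λ j (emb y) ^ 2) :=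
      sum_nonneg fun j _ => Ex_nonneg hw0 fun _ => sq_nonneg _
    nlinarith
  -- polynomial norms
  have pg : PolyJ (Real.exp (2 * Λ + 1)) (gfun (J := J) φ s Λ) := by
    have := polyJ_tensor (Λ := Λ) hs hε (fun _ : J => φ) (fun _ => 1) (fun _ => zero_le_one)
      (fun _ a => by simpa using hφ a) (fun τ => cut Λ (lev s τ))
      (fun τ => (abs_of_nonneg (cut_nonneg _ _)).le)
    simp only [prod_const_one, mul_one] at this
    exact this
  have ph : ∀ j : J, PolyJ (Real.exp (3 * Λ + 1)) (hfun φ σ s Λ j) := by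
    intro j
    have := polyJ_tensor (Λ := Λ) hs hε (psi φ σ j) (fun i => if i = j then Real.exp sm else 1)
      (fun i => by split_ifs <;> positivity)
      (fun i a => by
        by_cases hi : i = j
        · by_cases ha : a = none
          · refine (hσp.congr fun x => by simp [psi, hi, ha]).le ?_
            simp [hi, ha, hs]
          · refine ((Poly.const 0).congr fun x => by simp [psi, hi, ha]).le ?_
            simp only [abs_zero, if_pos hi]
            positivity
        · refine ((hφ a).congr fun x => by simp [psi, hi]).le ?_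
          simp [hi])
      (fun τ => cj φ s Λ (lev s τ)) (fun τ => (hcj _).2)
    simp only [prod_ite_eq', mem_univ, if_true] at this
    refine Poly.le this ?_
    rw [← Real.exp_add]
    exact Real.exp_le_exp.mpr (by linarith)
  have pg2 : PolyJ (Real.exp (4 * Λ + 2)) (fun ω : J → ι → Bool => gfun φ s Λ ω ^ 2) := by
    refine ((Poly.mul pg pg).congr fun x => (sq _).symm).le ?_
    rw [← Real.exp_add]
    exact Real.exp_le_exp.mpr (by linarith)
  have pg2' : PolyJ (Real.exp (8 * Λ + 4)) (fun ω : J → ι → Bool => gfun φ s Λ ω ^ 2) :=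
    Poly.le pg2 (Real.exp_le_exp.mpr (by linarith))
  have pg4 : PolyJ (Real.exp (8 * Λ + 4)) (fun ω : J → ι → Bool => gfun φ s Λ ω ^ 4) := by
    refine ((Poly.mul pg2 pg2).congr fun x => by ring).le ?_
    rw [← Real.exp_add]
    exact Real.exp_le_exp.mpr (by linarith)
  have ph2 : PolyJ (Real.exp (8 * Λ + 4))
      (fun ω : J → ι → Bool => ∑ j, hfun φ σ s Λ j ω ^ 2) := by
    refine ((Poly.sum univ fun j _ => Poly.mul (ph j) (ph j)).congr
      fun x => sum_congr rfl fun j _ => (sq _).symm).le ?_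
    rw [sum_const, card_univ, nsmul_eq_mul, ← Real.exp_add]
    calc _ ≤ Real.exp Λ * Real.exp (3 * Λ + 1 + (3 * Λ + 1)) := by gcongr
      _ ≤ _ := by
        rw [← Real.exp_add]
        exact Real.exp_le_exp.mpr (by linarith)
  have r1 := poly_equi hw1 hPw herr h pg2'
  have r2 := poly_equi hw1 hPw herr h ph2
  have r3 := poly_equi hw1 hPw herr h pg4
  rw [Ex_sum] at r2
  have r4 : Ex (wm c a) (fun y : ι → Option J => gfun φ s Λ (emb y) ^ 4) ≤
      8 / 7 * Real.exp (L * m) := by
    have b1 := (excl_le hc hπ h0 h1 (F := fun ω : J → ι → Bool => gfun φ s Λ ω ^ 4)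
      fun _ => by positivity).trans (fourth h0 h1 φ s Λ hm)
    have b2 : 0 ≤ Ex (wm c a) (fun y : ι → Option J => gfun φ s Λ (emb y) ^ 4) :=
      Ex_nonneg hw0 fun _ => by positivity
    nlinarith
  set Gd := A.filter fun b => ∀ j, ∃ p, X b p = some j with hGd
  have e1 : 1 ≤ Real.exp (L * m) := Real.one_le_exp (by positivity)
  have k1 : ∑ b ∈ A, gfun φ s Λ (emb (X b)) ^ 4 ≤ 2 * M * Real.exp (L * m) := by
    have b1 := (abs_le.mp r3).2
    have b2 := mul_le_mul_of_nonneg_left r4 hM.le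
    have b3 := mul_le_mul_of_nonneg_left e1 hM.le
    linarith
  have k2 : M / 4 ≤ ∑ b ∈ Gd, gfun φ s Λ (emb (X b)) ^ 2 := by
    have b1 : ∑ b ∈ A, (gfun φ s Λ (emb (X b)) ^ 2 - ∑ j, hfun φ σ s Λ j (emb (X b)) ^ 2) ≤
        ∑ b ∈ Gd, gfun φ s Λ (emb (X b)) ^ 2 := by
      rw [hGd, sum_filter]
      refine sum_le_sum fun b _ => ?_
      have b2 : ∀ j, 0 ≤ hfun φ σ s Λ j (emb (X b)) ^ 2 := fun j => sq_nonneg _
      split_ifs with hh
      · linarith [sum_nonneg fun j (_ : j ∈ univ) => b2 j]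
      · push Not at hh
        obtain ⟨j, hj⟩ := hh
        have b3 := single_le_sum (fun j _ => b2 j) (mem_univ j)
        rw [hfun_eq Λ hs hσ j _ (funext fun p => decide_eq_false (hj p))] at b3
        linarith
    rw [sum_sub_distrib] at b1
    have b4 := (abs_le.mp r1).1
    have b5 := (abs_le.mp r2).2
    have b6 := mul_le_mul_of_nonneg_left g2' hM.le
    have b7 := mul_le_mul_of_nonneg_left h2' hM.le
    have b8 := mul_le_mul_of_nonneg_left hZ1 hM.le
    linarith
  have k3 : (∑ b ∈ Gd, gfun φ s Λ (emb (X b)) ^ 2) ^ 2 ≤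
      Gd.card * (2 * M * Real.exp (L * m)) := by
    refine sq_sum_le_card_mul_sum_sq.trans (mul_le_mul_of_nonneg_left ?_ (Nat.cast_nonneg _))
    refine le_trans ?_ k1
    refine (sum_le_sum_of_subset_of_nonneg (filter_subset _ _)
      fun _ _ _ => sq_nonneg _).trans (le_of_eq (sum_congr rfl fun b _ => by ring))
  have k4 : (M / 4) ^ 2 ≤ Gd.card * (2 * M * Real.exp (L * m)) :=
    (pow_le_pow_left₀ (by positivity) k2 2).trans k3
  rw [Real.exp_neg, div_le_iff₀ (by norm_num), ← div_eq_mul_inv, div_le_iff₀ (Real.exp_pos _)]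
  generalize (Gd.card : ℝ) = n at k4 ⊢
  generalize Real.exp (L * m) = E at k4 ⊢
  refine le_of_mul_le_mul_left ?_ hM
  linarith

end Pool.Agent.Lib.MP_458f0b_nt
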