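import Pool.Agent.Lib.MP_458f0b_nt.H37Single
import Pool.Agent.Lib.MP_458f0b_nt.H37Multi

open Finset

namespace Pool.Agent.Lib.MP_458f0b_nt

variable {ι J α : Type} [Fintype ι] [DecidableEq ι] [Fintype J] [DecidableEq J]

/-- the martingale increment attached to the block `u` -/
def inc (π : ι → ℝ) (bl : ι → ℕ) (u : ℕ) (x : ι → Bool) : ℝ := nuS bl u x * Dd π (blk bl u) x

/-- the orthogonal family -/
noncomputable def phi (π : ι → ℝ) (bl : ι → ℕ) (t0 T : ℕ) (Θ : ℝ) :
    Option (Fin T) → (ι → Bool) → ℝ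
  | none => fun _ => 1
  | some t => fun x => -Θ⁻¹ * inc π bl (t0 + t) x

/-- majorant of the powers of the increments -/
noncomputable def Xi (bl : ι → ℕ) (u : ℕ) (x : ι → Bool) : ℝ :=
  zeS bl u x * ∏ p ∈ blk bl u, if x p then 16 else 1

omit [DecidableEq ι] in
lemma dep_inc (π : ι → ℝ) (bl : ι → ℕ) {u u' : ℕ} (h : u < u') :
    Dep (fun p => bl p < u') (inc π bl u) :=
  ((dep_nuS bl u).mono fun _ hp => hp.trans h).mul
    ((dep_Dd π _).mono fun p hp => by rw [mem_blk.mp hp]; exact h)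

lemma Ex_mul_inc (π : ι → ℝ) (bl : ι → ℕ) (u : ℕ) {F : (ι → Bool) → ℝ}
    (hF : Dep (fun p => bl p < u) F) : Ex (bern π) (fun x => F x * inc π bl u x) = 0 := by
  have h := Ex_mul_indep (bern_sum π) (fun p => bl p < u) (hF.mul (dep_nuS bl u))
    ((dep_Dd π (blk bl u)).mono fun p hp => by rw [mem_blk.mp hp]; exact lt_irrefl _)
  rw [Ex_Dd, mul_zero] at h
  simp only [inc, ← mul_assoc]
  exact h

lemma phi_orth (π : ι → ℝ) (bl : ι → ℕ) (t0 T : ℕ) (Θ : ℝ) (a b : Option (Fin T)) :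
    Ex (bern π) (fun x => phi π bl t0 T Θ a x * phi π bl t0 T Θ b x) =
      if a = b then Ex (bern π) (fun x => phi π bl t0 T Θ a x * phi π bl t0 T Θ a x) else 0 := by
  have key : ∀ (a : Option (Fin T)) (t : Fin T), (∀ t', a = some t' → t' < t) →
      Ex (bern π) (fun x => phi π bl t0 T Θ a x * phi π bl t0 T Θ (some t) x) = 0 := by
    intro a t h
    have hd : Dep (fun p => bl p < t0 + t) (phi π bl t0 T Θ a) := by
      rcases a with _ | t'
      · exact Dep.const _ _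
      · exact (Dep.const _ _).mul (dep_inc π bl (Nat.add_lt_add_left (h t' rfl) _))
    have := Ex_mul_inc π bl (t0 + t) (hd.mul (Dep.const _ (-Θ⁻¹)))
    simp only [mul_assoc] at this
    exact this
  split_ifs with hab
  · rw [hab]
  · rcases a with _ | t
    · rcases b with _ | t'
      · exact absurd rfl hab
      · exact key _ _ (by simp)
    · rcases b with _ | t'
      · simp only [mul_comm (phi π bl t0 T Θ (some t) _)]
        exact key _ _ (by simp)
      · rcases lt_trichotomy t t' with h | h | h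
        · exact key _ _ (by simpa using h)
        · exact absurd (congrArg some h) hab
        · simp only [mul_comm (phi π bl t0 T Θ (some t) _)]
          exact key _ _ (by simpa using h)

omit [DecidableEq ι] in
lemma inc_zero (π : ι → ℝ) (bl : ι → ℕ) (u : ℕ) :
    inc π bl u (fun _ => false) = ∑ p ∈ blk bl u, π p := by
  simp [inc, nuS_zero, Dd, ind]

omit [DecidableEq ι] in
lemma inc_pow_le {π : ι → ℝ} (h0 : ∀ p, 0 ≤ π p) {bl : ι → ℕ}
    (hθ : ∀ i, ∑ p ∈ blk bl i, π p ≤ 6) (u : ℕ) (x : ι → Bool) {q : ℕ} (hq : 1 ≤ q)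
    (hq' : q ≤ 4) : |inc π bl u x| ^ q ≤ 7 ^ q * Xi bl u x := by
  rw [inc, abs_mul, mul_pow, Xi, prod_hits, mul_left_comm]
  refine mul_le_mul (nuS_pow_le bl u x hq hq') ?_ (by positivity) (zeS_nonneg _ _ _)
  calc _ ≤ (7 * 2 ^ (hits (blk bl u) x).card) ^ q :=
        pow_le_pow_left₀ (abs_nonneg _) (abs_Dd_le h0 (hθ u) x) q
    _ = 7 ^ q * (2 ^ q) ^ (hits (blk bl u) x).card := by
        rw [mul_pow, ← pow_mul, ← pow_mul, mul_comm q]
    _ ≤ _ := by
        gcongr
        calc (2 : ℝ) ^ q ≤ 2 ^ 4 := pow_le_pow_right₀ (by norm_num) hq'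
          _ = 16 := by norm_num

omit [DecidableEq ι] in
lemma Xi_nonneg (bl : ι → ℕ) (u : ℕ) (x : ι → Bool) : 0 ≤ Xi bl u x := by
  rw [Xi, prod_hits]
  exact mul_nonneg (zeS_nonneg _ _ _) (by positivity)

lemma Ex_Xi {π : ι → ℝ} (h0 : ∀ p, 0 ≤ π p) (h2 : ∀ p, π p ≤ 1 / 2) {bl : ι → ℕ}
    (hθ : ∀ i, ∑ p ∈ blk bl i, π p ≤ 6) (u : ℕ) :
    Ex (bern π) (Xi bl u) ≤ (∏ p ∈ univ.filter (fun p => bl p < u), (1 - π p)) *
      Real.exp (Real.exp 198) * Real.exp 90 := by
  have hb := bern_nonneg h0 (fun p => by linarith [h2 p])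
  have h := Ex_mul_indep (bern_sum π) (fun p => bl p < u) (dep_zeS bl u)
    ((dep_prod (blk bl u) (fun _ v => if v then 16 else 1)).mono
      fun p hp => by rw [mem_blk.mp hp]; exact lt_irrefl _)
  refine h.le.trans (mul_le_mul (Ex_zeS h0 h2 hθ u) ?_
    (Ex_nonneg hb fun x => by rw [prod_hits]; positivity)
    (mul_nonneg (prod_nonneg fun p _ => by linarith [h2 p]) (Real.exp_pos _).le))
  exact (Ex_pow_hits h0 _ (by norm_num)).trans (Real.exp_le_exp.mpr (by linarith [hθ u]))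

omit [DecidableEq ι] in
lemma inc_sq_le {π : ι → ℝ} (h0 : ∀ p, 0 ≤ π p) {bl : ι → ℕ}
    (hθ : ∀ i, ∑ p ∈ blk bl i, π p ≤ 6) (u : ℕ) (x : ι → Bool) :
    inc π bl u x ^ 2 ≤ 49 * ∏ p, if x p then 4 else 1 := by
  have h1 : |inc π bl u x| ≤ 7 * ∏ p, if x p then 2 else 1 := by
    have a1 : |nuS bl u x| ≤ ∏ i ∈ range u, ∏ p ∈ blk bl i, if x p then 2 else 1 := by
      rw [nuS, abs_prod]
      exact prod_le_prod (fun _ _ => abs_nonneg _) fun i _ => by
        rw [prod_hits]; exact abs_chi_le _ _ _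
    have a2 := abs_Dd_le h0 (hθ u) x
    rw [← prod_hits] at a2
    rw [inc, abs_mul]
    refine (mul_le_mul a1 a2 (abs_nonneg _) ((abs_nonneg _).trans a1)).trans ?_
    rw [mul_left_comm, ← prod_range_succ (fun i => ∏ p ∈ blk bl i, if x p then (2 : ℝ) else 1),
      prod_blocks bl (fun p => if x p then (2 : ℝ) else 1), prod_hits, prod_hits]
    gcongr
    · norm_num
    · exact filter_subset_filter _ (subset_univ _)
  rw [← sq_abs]
  refine (pow_le_pow_left₀ (abs_nonneg _) h1 2).trans (le_of_eq ?_)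
  rw [prod_hits, prod_hits, mul_pow, ← pow_mul, mul_comm _ 2, pow_mul]
  norm_num

lemma Ex_four_ind {π : ι → ℝ} (h0 : ∀ p, 0 ≤ π p) (p : ι) :
    Ex (bern π) (fun x => (∏ q, if x q then 4 else 1) * ind (x p)) ≤
      4 * π p * Real.exp (3 * ∑ q, π q) := by
  have h := Ex_setprod π univ (fun q v => (if v then 4 else 1) * if q = p then ind v else 1)
  simp only [prod_mul_distrib, prod_ite_eq', mem_univ, if_true] at h
  rw [h]
  calc _ ≤ ∏ q, (if q = p then 4 * π p else 1) * Real.exp (3 * π q) := by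
        refine prod_le_prod (fun q _ => ?_) fun q _ => ?_
        · split_ifs <;> simp [ind] <;> nlinarith [h0 q]
        · have a1 := Real.add_one_le_exp (3 * π q)
          split_ifs with hq h' h'
          · exact absurd h' (by simp)
          · subst hq
            simp only [ind, if_true, Bool.false_eq_true, if_false]
            nlinarith [h0 q, mul_nonneg (h0 q) (h0 q)]
          · exact absurd h' (by simp)
          · linarith
    _ = _ := by
        rw [prod_mul_distrib, ← Real.exp_sum, ← mul_sum]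
        simp only [prod_ite_eq', mem_univ, if_true]

open Classical in
theorem comb {P c a π : ι → ℝ} (hc : ∀ p, 0 < c p) (hπ : ∀ p, π p = (1 - π p) * a p)
    (h0 : ∀ p, 0 ≤ π p) (h2 : ∀ p, π p ≤ 1 / 2) (hw1 : ∀ p, ∑ v, wm (J := J) c a p v = 1)
    (hPw : ∀ p, P p * (c p * a p) = 1) {A : Finset α} {X : α → ι → Option J} {M err : ℝ}
    (herr : 0 ≤ err) (hM : 0 < M) (h : Equi P (wm c a) A X M err)
    (bl : ι → ℕ) {t0 T : ℕ} {lz CM CX Λ : ℝ} (hlz : 1 ≤ lz) (hT : 4 ≤ T)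
    (hθ : ∀ i, ∑ p ∈ blk bl i, π p ≤ 6)
    (hcard : ∀ i, ((blk bl i).card : ℝ) + 7 ≤ Real.exp (2 ^ (i + 1) * lz))
    (hP : ∀ t ≤ t0 + T, ∏ p ∈ univ.filter (fun p => bl p < t), (1 - π p) ≤ CM / 2 ^ t)
    (hCX : CX = CM * Real.exp (Real.exp 198) * Real.exp 90)
    (hΘ : (T : ℝ) / 4 ≤ ∑ t : Fin T, ∑ p ∈ blk bl (t0 + t), π p)
    (n1 : 16 * (8 * 2 ^ (t0 + T) * lz) ≤ Λ)
    (n2 : (Fintype.card J : ℝ) * (T * Real.exp (-lz)) ≤ 1)
    (n3 : (Fintype.card J : ℝ) ≤ Real.exp Λ)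
    (n4 : Fintype.card J * (6272 * CX * lz / T) ≤ Λ / 8)
    (n5 : Fintype.card J * (CX / 2 ^ (t0 + T)) *
      Real.exp (-(Λ / (4 * (8 * 2 ^ (t0 + T) * lz)))) ≤ 1 / 8)
    (n6 : ((T : ℝ) + 1) ^ 4 * (Fintype.card J : ℝ) ^ 2 *
      ((196 * Real.exp (3 * ∑ q, π q)) ^ 2 * ∑ p, π p ^ 2) ≤ 1 / 8)
    (n7 : err * Real.exp (8 * Λ + 4) ≤ M / 8) :
    M * Real.exp (-(Fintype.card J * (15 * (1 + T ^ 3) * 7 ^ 4 * (T * (CX / 2 ^ t0))))) / 32 ≤
      (A.filter fun b => ∀ j, ∃ p, X b p = some j).card := by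
  set Θ := ∑ t : Fin T, ∑ p ∈ blk bl (t0 + t), π p with hΘdef
  have h1 : ∀ p, π p ≤ 1 := fun p => by linarith [h2 p]
  have hb := bern_nonneg h0 h1
  have hTr : (4 : ℝ) ≤ T := by exact_mod_cast hT
  have hΘ1 : 1 ≤ Θ := by linarith
  have hΘi : Θ⁻¹ ≤ 1 := inv_le_one_of_one_le₀ hΘ1
  have hΘi0 : 0 < Θ⁻¹ := by positivity
  have hCM : 0 ≤ CM := by
    have := hP 0 (Nat.zero_le _)
    simp only [not_lt_zero, filter_false, prod_empty, pow_zero, div_one] at this
    linarith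
  have hCX0 : 0 ≤ CX := by rw [hCX]; positivity
  have hXi : ∀ u ≤ t0 + T, Ex (bern π) (Xi bl u) ≤ CX / 2 ^ u := fun u hu => by
    refine (Ex_Xi h0 h2 hθ u).trans ?_
    rw [hCX]
    calc _ ≤ CM / 2 ^ u * Real.exp (Real.exp 198) * Real.exp 90 := by
          gcongr
          exact hP u hu
      _ = _ := by ring
  have habs : ∀ (t : Fin T) x, |phi π bl t0 T Θ (some t) x| = Θ⁻¹ * |inc π bl (t0 + t) x| := by
    intro t x
    simp only [phi]
    rw [abs_mul, abs_neg, abs_of_pos hΘi0]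
  let s : Option (Fin T) → ℝ := fun a => a.elim 0 fun t => 8 * 2 ^ (t0 + t) * lz
  have hle : ∀ t : Fin T, (2 : ℝ) ^ (t0 + t) ≤ 2 ^ (t0 + T) := fun t =>
    pow_le_pow_right₀ (by norm_num) (Nat.add_le_add_left t.2.le _)
  have hm0 : 0 ≤ 15 * (1 + (T : ℝ) ^ 3) * 7 ^ 4 * (T * (CX / 2 ^ t0)) := by positivity
  refine multi hc hπ h0 h1 hw1 hPw herr hM h (φ := phi π bl t0 T Θ) (σ := nuS bl (t0 + T))
    (s := s) (K := fun p => 196 * Real.exp (3 * ∑ q, π q) * π p) (sm := 8 * 2 ^ (t0 + T) * lz)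
    rfl (phi_orth π bl t0 T Θ) (fun t => ?_) ?_ (nuS_zero _ _) rfl (fun a => ?_) (fun a => ?_)
    (by positivity) n1 (fun a => ?_) ?_ ?_ n3 ?_ ?_ (fun p a => ?_) ?_ ?_ hm0 n7
  · simp only [phi, inc_zero]
    exact mul_nonpos_of_nonpos_of_nonneg (by linarith) (sum_nonneg fun p _ => h0 p)
  · simp only [phi, inc_zero]
    rw [← mul_sum, ← hΘdef, neg_mul, inv_mul_cancel₀ (by linarith)]
  · rcases a with _ | t
    · exact le_rfl
    · show 0 ≤ 8 * 2 ^ (t0 + t) * lz
      positivity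
  · rcases a with _ | t
    · show 0 ≤ 8 * 2 ^ (t0 + T) * lz
      positivity
    · show 8 * 2 ^ (t0 + t) * lz ≤ 8 * 2 ^ (t0 + T) * lz
      have := hle t
      gcongr
  · rcases a with _ | t
    · exact (Poly.const 1).le (by simp [s])
    · refine (Poly.smul (-Θ⁻¹) ((poly_nuS hlz hcard (t0 + t)).mul
        ((poly_Dd h0 (hθ (t0 + t))).le (hcard _)))).le ?_
      rw [abs_neg, abs_of_pos hΘi0, ← Real.exp_add]
      refine (mul_le_of_le_one_left (Real.exp_pos _).le hΘi).trans (Real.exp_le_exp.mpr ?_)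
      show _ ≤ 8 * 2 ^ (t0 + t) * lz
      have : (0 : ℝ) ≤ 2 ^ (t0 + t) * lz := by positivity
      rw [pow_succ]
      linarith
  · refine (poly_nuS hlz hcard _).le (Real.exp_le_exp.mpr ?_)
    have : (0 : ℝ) ≤ 2 ^ (t0 + T) * lz := by positivity
    linarith
  · refine le_trans (mul_le_mul_of_nonneg_left ?_ (Nat.cast_nonneg _)) n2
    refine (sum_le_card_nsmul _ _ (Real.exp (-lz)) fun t _ => Real.exp_le_exp.mpr ?_).trans
      (by simp)
    show -(8 * 2 ^ (t0 + t) * lz) ≤ -lz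
    have : (1 : ℝ) ≤ 2 ^ (t0 + t) := one_le_pow₀ (by norm_num)
    nlinarith
  · refine le_trans (mul_le_mul_of_nonneg_left ?_ (Nat.cast_nonneg _)) n4
    rw [Fintype.sum_option]
    simp only [s, Option.elim, zero_mul, zero_add]
    refine (sum_le_card_nsmul _ _ (6272 * CX * lz / T ^ 2) fun t _ => ?_).trans (le_of_eq ?_)
    · have b1 : Ex (bern π) (fun x => phi π bl t0 T Θ (some t) x * phi π bl t0 T Θ (some t) x) ≤
          Θ⁻¹ ^ 2 * 7 ^ 2 * (CX / 2 ^ (t0 + t)) := by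
        refine le_trans (Ex_mono hb fun x => ?_) ((Ex_smul _ _ _).le.trans
          (mul_le_mul_of_nonneg_left (hXi _ (Nat.add_le_add_left t.2.le _)) (by positivity)))
        rw [← sq, ← sq_abs, habs, mul_pow, mul_assoc]
        exact mul_le_mul_of_nonneg_left (inc_pow_le h0 hθ _ x (by norm_num) (by norm_num))
          (by positivity)
      have b2 : Θ⁻¹ ≤ 4 / T := by
        rw [← inv_div]
        exact inv_anti₀ (by positivity) hΘ
      calc _ ≤ 8 * 2 ^ (t0 + t) * lz * ((4 / T) ^ 2 * 7 ^ 2 * (CX / 2 ^ (t0 + t))) := by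
            refine mul_le_mul_of_nonneg_left (b1.trans ?_) (by positivity)
            gcongr
        _ = _ := by field_simp; ring
    · simp only [card_univ, Fintype.card_fin, nsmul_eq_mul]
      field_simp
  · refine le_trans ?_ n5
    gcongr
    refine le_trans (Ex_mono hb fun x => ?_) ((Ex_zeS h0 h2 hθ (t0 + T)).trans ?_)
    · rw [← sq, ← sq_abs]
      exact nuS_pow_le bl _ x (by norm_num) (by norm_num)
    · rw [hCX]
      have : (1 : ℝ) ≤ Real.exp 90 := Real.one_le_exp (by norm_num)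
      calc _ ≤ CM / 2 ^ (t0 + T) * Real.exp (Real.exp 198) * 1 := by
            rw [mul_one]
            gcongr
            exact hP _ le_rfl
        _ ≤ CM / 2 ^ (t0 + T) * Real.exp (Real.exp 198) * Real.exp 90 := by gcongr
        _ = _ := by ring
  · have b1 : ∀ x, phi π bl t0 T Θ a x ^ 2 ≤ 49 * ∏ q, if x q then 4 else 1 := by
      intro x
      rcases a with _ | t
      · have : (1 : ℝ) ≤ ∏ q, if x q then 4 else 1 := by
          rw [prod_hits]
          exact one_le_pow₀ (by norm_num)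
        simp only [phi]
        linarith
      · rw [← sq_abs, habs, mul_pow, sq_abs]
        exact (mul_le_of_le_one_left (sq_nonneg _) (pow_le_one₀ hΘi0.le hΘi)).trans
          (inc_sq_le h0 hθ _ x)
    calc _ ≤ Ex (bern π) (fun x => 49 * ((∏ q, if x q then 4 else 1) * ind (x p))) :=
          Ex_mono hb fun x => by
            rw [← mul_assoc]
            exact mul_le_mul_of_nonneg_right (b1 x) (ind_nonneg _)
      _ ≤ 49 * (4 * π p * Real.exp (3 * ∑ q, π q)) := by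
          rw [Ex_smul]
          exact mul_le_mul_of_nonneg_left (Ex_four_ind h0 p) (by norm_num)
      _ = _ := by ring
  · simp only [mul_pow _ (π _), ← mul_sum, Fintype.card_fin]
    exact n6
  · have b1 : ∀ x, (∑ a, |phi π bl t0 T Θ a x|) ^ 4 ≤
        1 + 15 * (1 + (T : ℝ) ^ 3) * 7 ^ 4 * ∑ t : Fin T, Xi bl (t0 + t) x := by
      intro x
      rw [Fintype.sum_option]
      set η := ∑ t : Fin T, |phi π bl t0 T Θ (some t) x| with hη
      set S := ∑ t : Fin T, Xi bl (t0 + t) x with hS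
      have c0 : 0 ≤ η := sum_nonneg fun _ _ => abs_nonneg _
      have c1 : ∀ (q : ℕ), 1 ≤ q → q ≤ 4 →
          ∑ t : Fin T, |phi π bl t0 T Θ (some t) x| ^ q ≤ 7 ^ 4 * S := by
        intro q hq hq'
        rw [hS, mul_sum]
        refine sum_le_sum fun t _ => ?_
        rw [habs, mul_pow]
        refine (mul_le_of_le_one_left (by positivity) (pow_le_one₀ hΘi0.le hΘi)).trans
          ((inc_pow_le h0 hθ _ x hq hq').trans ?_)
        exact mul_le_mul_of_nonneg_right (pow_le_pow_right₀ (by norm_num) hq') (Xi_nonneg _ _ _)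
      have c2 : η ≤ 7 ^ 4 * S := by simpa only [pow_one] using c1 1 le_rfl (by norm_num)
      have c3 : η ^ 4 ≤ (T : ℝ) ^ 3 * (7 ^ 4 * S) := by
        have := pow_sum_le_card_mul_sum_pow (s := (univ : Finset (Fin T)))
          (f := fun t => |phi π bl t0 T Θ (some t) x|) (fun _ _ => abs_nonneg _) 3
        rw [card_univ, Fintype.card_fin] at this
        exact this.trans (mul_le_mul_of_nonneg_left (c1 4 (by norm_num) le_rfl) (by positivity))
      have c4 : (1 + η) ^ 4 ≤ 1 + 15 * (η + η ^ 4) := by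
        nlinarith [mul_nonneg c0 (sq_nonneg (η - 1)), mul_nonneg (mul_nonneg c0 c0)
          (sq_nonneg (η - 1)), pow_nonneg c0 4, pow_nonneg c0 2, pow_nonneg c0 3]
      simp only [phi, abs_one]
      linarith
    refine (Ex_mono hb b1).trans ?_
    rw [Ex_add, Ex_const (bern_sum π), Ex_smul, Ex_sum]
    gcongr
    refine (sum_le_card_nsmul _ _ (CX / 2 ^ t0) fun t _ =>
      (hXi _ (Nat.add_le_add_left t.2.le _)).trans ?_).trans (by simp)
    gcongr
    · norm_num
    · exact Nat.le_add_right _ _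

end Pool.Agent.Lib.MP_458f0b_nt
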