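import Pool.Agent.Lib.MP_458f0b_nt.H37Comb
import Pool.Agent.Lib.MP_458f0b_nt.Greedy

open Finset

namespace Pool.Agent.Lib.MP_458f0b_nt

lemma sum_blocks {ι : Type} [Fintype ι] (bl : ι → ℕ) (f : ι → ℝ) (t : ℕ) :
    ∑ i ∈ range t, ∑ p ∈ blk bl i, f p = ∑ p ∈ univ.filter (fun p => bl p < t), f p := by
  rw [← sum_fiberwise_of_maps_to (s := univ.filter (fun p => bl p < t)) (t := range t) (g := bl)
    (fun p hp => mem_range.mpr (mem_filter.mp hp).2)]
  refine sum_congr rfl fun i hi => sum_congr ?_ fun _ _ => rfl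
  ext p
  simp only [mem_blk, mem_filter, mem_univ, true_and]
  exact ⟨fun h => ⟨h ▸ mem_range.mp hi, h⟩, fun h => h.2⟩

lemma sum_sub_filter (s : Finset ℕ) (q : ℕ → Prop) [DecidablePred q] (f : ℕ → ℝ) :
    ∑ p ∈ univ.filter (fun p : s => q p), f p = ∑ p ∈ s.filter q, f p := by
  rw [sum_filter, sum_filter, sum_coe_sort s (fun p => if q p then f p else 0)]

lemma prod_sub_filter (s : Finset ℕ) (q : ℕ → Prop) [DecidablePred q] (f : ℕ → ℝ) :
    ∏ p ∈ univ.filter (fun p : s => q p), f p = ∏ p ∈ s.filter q, f p := by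
  rw [prod_filter, prod_filter, prod_coe_sort s (fun p => if q p then f p else 1)]

/-- the scale of a prime -/
def scl (z p : ℕ) : ℕ := Nat.log 2 (Nat.clog z p - 1)

lemma scl_lt {z p : ℕ} (hz : 2 ≤ z) (hp : z < p) (t : ℕ) : scl z p < t ↔ p ≤ z ^ 2 ^ t := by
  have h1 : 1 < Nat.clog z p := by
    rw [← not_le, Nat.clog_le_iff_le_pow (by omega), pow_one, not_le]
    exact hp
  rw [scl, Nat.log_lt_iff_lt_pow (by norm_num) (by omega), ← Nat.clog_le_iff_le_pow (by omega)]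
  omega

lemma log_tower (z t : ℕ) : Real.log ((z ^ 2 ^ t : ℕ) : ℝ) = 2 ^ t * Real.log z := by
  push_cast; rw [Real.log_pow]; push_cast; rfl

lemma block_sum_le {z : ℕ} (hz : 4 ≤ z) (i : ℕ) (F : Finset ℕ)
    (hF : ∀ p ∈ F, p.Prime ∧ z ^ 2 ^ i < p ∧ p ≤ z ^ 2 ^ (i + 1)) :
    ∑ p ∈ F, (p : ℝ)⁻¹ ≤ 3 := by
  have hzr : (4 : ℝ) ≤ z := by exact_mod_cast hz
  have h4 : Real.log 4 ≤ Real.log z := Real.log_le_log (by norm_num) hzr
  have h0 : 0 < Real.log 4 := Real.log_pos (by norm_num)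
  have h1 : (1 : ℝ) ≤ 2 ^ i := one_le_pow₀ (by norm_num)
  have h2 := sum_log_div_le (n := z ^ 2 ^ (i + 1)) (Nat.one_le_pow _ _ (by omega))
  rw [log_tower] at h2
  have h3 : (2 ^ i * Real.log z) * ∑ p ∈ F, (p : ℝ)⁻¹ ≤ ∑ p ∈ F, Real.log p / p := by
    rw [mul_sum]
    refine sum_le_sum fun p hp => ?_
    rw [div_eq_mul_inv, ← log_tower]
    refine mul_le_mul_of_nonneg_right (Real.log_le_log (by positivity) ?_) (by positivity)
    exact_mod_cast (hF p hp).2.1.le
  have h5 : ∑ p ∈ F, Real.log p / p ≤ ∑ p ∈ (z ^ 2 ^ (i + 1)).primesLE, Real.log p / p :=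
    sum_le_sum_of_subset_of_nonneg
      (fun p hp => Nat.mem_primesLE.mpr ⟨(hF p hp).2.2, (hF p hp).1⟩)
      fun p _ _ => div_nonneg (Real.log_natCast_nonneg _) (Nat.cast_nonneg _)
  have h6 : 0 < 2 ^ i * Real.log z := by nlinarith
  refine le_of_mul_le_mul_left ?_ h6
  rw [pow_succ (2 : ℝ)] at h2
  nlinarith

lemma mid_sum_ge {k z T : ℕ} (hk : 0 < k) (hz : 3 ≤ z) (hω : 2 * k.primeFactors.card ≤ z)
    (hT : 40 ≤ T) :
    (T : ℝ) / 4 ≤ ∑ p ∈ (z ^ 2 ^ T).primesLE.filter (fun p => z < p ∧ ¬ p ∣ k), (p : ℝ)⁻¹ := by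
  have h1 := mertens_lower hk hz hω (m := z ^ 2 ^ T) (Nat.le_self_pow (by positivity) z)
  set F := (z ^ 2 ^ T).primesLE.filter (fun p => z < p ∧ ¬ p ∣ k) with hF
  have hzr : (3 : ℝ) ≤ z := by exact_mod_cast hz
  have hl : 0 < Real.log z := Real.log_pos (by linarith)
  have h2 : 2 ^ T * Real.log z ≤ Real.log ((z ^ 2 ^ T : ℕ) + 1) := by
    rw [← log_tower]
    exact Real.log_le_log (by positivity) (by linarith)
  have h3 : ∏ p ∈ F, (1 - (p : ℝ)⁻¹)⁻¹ ≤ Real.exp (2 * ∑ p ∈ F, (p : ℝ)⁻¹) := by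
    rw [mul_sum, Real.exp_sum]
    have hp : ∀ p ∈ F, p.Prime := fun p hp => (Nat.mem_primesLE.mp (mem_filter.mp hp).1).2
    refine prod_le_prod (fun p h => (inv_pos.mpr (euler_pos (hp p h))).le) fun p h => ?_
    have a1 := inv_le_half (hp p h)
    have a2 : (0 : ℝ) ≤ (p : ℝ)⁻¹ := by positivity
    refine le_trans ?_ (Real.add_one_le_exp _)
    rw [inv_le_iff_one_le_mul₀ (euler_pos (hp p h))]
    nlinarith
  have h4 : (2 : ℝ) ^ T ≤ 4 * Real.exp 5 * Real.exp (2 * ∑ p ∈ F, (p : ℝ)⁻¹) := by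
    refine le_of_mul_le_mul_right ?_ hl
    calc _ ≤ _ := h2.trans h1
      _ ≤ 4 * Real.exp 5 * Real.log z * Real.exp (2 * ∑ p ∈ F, (p : ℝ)⁻¹) := by gcongr
      _ = _ := by ring
  have h5 := Real.log_le_log (by positivity) h4
  rw [Real.log_pow, Real.log_mul (by positivity) (by positivity),
    Real.log_mul (by positivity) (by positivity), Real.log_exp, Real.log_exp,
    show (4 : ℝ) = 2 ^ 2 by norm_num, Real.log_pow] at h5
  have h6 : (40 : ℝ) ≤ T := by exact_mod_cast hT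
  have h7 := Real.log_two_gt_d9
  push_cast at h5
  nlinarith

/-- the constant of the moment bounds -/
noncomputable def CX : ℝ := 4 * Real.exp 5 * Real.exp (Real.exp 198) * Real.exp 90

lemma one_le_CX : 1 ≤ CX := by
  have h1 : (1 : ℝ) ≤ Real.exp 5 := Real.one_le_exp (by norm_num)
  have h2 : (1 : ℝ) ≤ Real.exp (Real.exp 198) := Real.one_le_exp (Real.exp_pos _).le
  have h3 : (1 : ℝ) ≤ Real.exp 90 := Real.one_le_exp (by norm_num)
  exact one_le_mul_of_one_le_of_one_le (one_le_mul_of_one_le_of_one_le (by linarith) h2) h3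

open Classical in
theorem core3 {k u v W z t0 T : ℕ} {Λ M : ℝ} (a0 : ℕ) (N : Finset ℕ) (hk : 0 < k) (huv : u ≤ v)
    (hW : 0 < W) (hWk : Nat.Coprime W k) (hWz : ∀ p, p.Prime → p ∣ W → p ≤ z)
    (hMdef : M = ((v : ℝ) - u) / W * ∏ q ∈ k.primeFactors, (1 - (q : ℝ)⁻¹)) (hM : 0 < M)
    (hN : N.Nonempty) (hNz : ∀ n ∈ N, n ≤ z) (hLz : 2 * N.card ≤ z) (hz : 7 ≤ z)
    (hωz : 2 * k.primeFactors.card ≤ z) (hT : 40 ≤ T)
    (n1 : 16 * (8 * 2 ^ (t0 + T) * Real.log z) ≤ Λ)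
    (n2 : (N.card : ℝ) * T ≤ z) (n3 : (N.card : ℝ) ≤ Real.exp Λ)
    (n4 : N.card * (6272 * CX * Real.log z / T) ≤ Λ / 8)
    (n5 : N.card * (CX / 2 ^ (t0 + T)) *
      Real.exp (-(Λ / (4 * (8 * 2 ^ (t0 + T) * Real.log z)))) ≤ 1 / 8)
    (n6 : ((T : ℝ) + 1) ^ 4 * (N.card : ℝ) ^ 2 *
      ((196 * Real.exp (18 * (t0 + T : ℕ))) ^ 2 * (4 / z)) ≤ 1 / 8)
    (n7 : 2 ^ k.primeFactors.card * Real.exp (8 * Λ + 4) ≤ M / 8) :
    M * Real.exp (-(N.card * (15 * (1 + T ^ 3) * 7 ^ 4 * (T * (CX / 2 ^ t0))))) / 32 ≤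
      ((Ioc u v).filter fun a => (a ≡ a0 [MOD W] ∧ Nat.Coprime a k) ∧
        ∀ n ∈ N, ∃ p : ℕ, p.Prime ∧ p ≤ z ^ 2 ^ (t0 + T) ∧ p ∣ a + n * k).card := by
  set s := (z ^ 2 ^ (t0 + T)).primesLE.filter (fun p => z < p ∧ ¬ p ∣ k) with hs
  have hzp : ∀ p ∈ s, z < p := fun p hp => (mem_filter.mp hp).2.1
  have hpp : ∀ p ∈ s, p.Prime := fun p hp => (Nat.mem_primesLE.mp (mem_filter.mp hp).1).2
  have hyp : ∀ p ∈ s, p ≤ z ^ 2 ^ (t0 + T) :=
    fun p hp => (Nat.mem_primesLE.mp (mem_filter.mp hp).1).1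
  have hsk : ∀ p ∈ s, ¬ p ∣ k := fun p hp => (mem_filter.mp hp).2.2
  have hsW : ∀ p ∈ s, ¬ p ∣ W := fun p hp h => (hWz p (hpp p hp) h).not_gt (hzp p hp)
  have hzr : (7 : ℝ) ≤ z := by exact_mod_cast hz
  have hlz : 1 ≤ Real.log z := by
    rw [Real.le_log_iff_exp_le (by linarith)]
    linarith [Real.exp_one_lt_d9]
  have hcard : Fintype.card N = N.card := Fintype.card_coe N
  have hL1 : (1 : ℝ) ≤ N.card := by exact_mod_cast hN.card_pos
  have hpos : ∀ p ∈ s, (2 * N.card : ℝ) ≤ p := fun p hp => by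
    exact_mod_cast hLz.trans (hzp p hp).le
  have hp0 : ∀ p ∈ s, (0 : ℝ) < p := fun p hp => by exact_mod_cast (hpp p hp).pos
  have hE := equi_nt (J := N) hk huv hW hWk a0 s hpp hsk hsW (n := fun j => (j : ℕ))
    Subtype.val_injective (fun p hp j => (hNz j j.2).trans_lt (hzp p hp))
    (fun p hp => by rw [hcard]; have := hzp p hp; have := hN.card_pos; omega)
  rw [← hMdef, hcard] at hE
  set L : ℝ := (N.card : ℝ) with hL
  let π : ℕ → ℝ := fun p => ((p : ℝ) - L + 1)⁻¹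
  have hπ0 : ∀ p ∈ s, 0 < (p : ℝ) - L := fun p hp => by linarith [hpos p hp]
  have hπ1 : ∀ p ∈ s, (p : ℝ)⁻¹ ≤ π p := fun p hp =>
    inv_anti₀ (by linarith [hπ0 p hp]) (by linarith)
  have hπ2 : ∀ p ∈ s, π p ≤ 2 * (p : ℝ)⁻¹ := fun p hp => by
    simp only [π]
    rw [← div_eq_mul_inv, inv_eq_one_div, div_le_div_iff₀ (by linarith [hπ0 p hp]) (hp0 p hp)]
    linarith [hpos p hp]
  have hπ3 : ∀ p ∈ s, 0 ≤ π p := fun p hp => le_trans (by positivity) (hπ1 p hp)
  have hπ4 : ∀ p ∈ s, π p ≤ 1 / 2 := fun p hp => by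
    rw [one_div]
    exact inv_anti₀ (by norm_num) (by linarith [hpos p hp])
  have hscl : ∀ p ∈ s, ∀ t, scl z p < t ↔ p ≤ z ^ 2 ^ t := fun p hp t =>
    scl_lt (by omega) (hzp p hp) t
  have hblk : ∀ i, ∀ p ∈ s.filter (fun p => scl z p = i),
      p.Prime ∧ z ^ 2 ^ i < p ∧ p ≤ z ^ 2 ^ (i + 1) := by
    intro i p hp
    obtain ⟨a1, a2⟩ := mem_filter.mp hp
    refine ⟨hpp p a1, ?_, (hscl p a1 _).mp (by omega)⟩
    rw [← not_le, ← hscl p a1]
    omega
  have hθ : ∀ i, ∑ p ∈ blk (fun p : s => scl z p) i, π p ≤ 6 := by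
    intro i
    rw [blk, sum_sub_filter s (fun p => scl z p = i) π]
    refine (sum_le_sum fun p hp => hπ2 p (mem_filter.mp hp).1).trans ?_
    rw [← mul_sum]
    linarith [block_sum_le (by omega) i _ (hblk i)]
  have hfil : ∀ t ≤ t0 + T, s.filter (fun p => scl z p < t) =
      (z ^ 2 ^ t).primesLE.filter (fun p => z < p ∧ ¬ p ∣ k) := by
    intro t ht
    ext p
    constructor
    · intro hp
      obtain ⟨a1, a2⟩ := mem_filter.mp hp
      exact mem_filter.mpr ⟨Nat.mem_primesLE.mpr ⟨(hscl p a1 t).mp a2, hpp p a1⟩,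
        hzp p a1, hsk p a1⟩
    · intro hp
      obtain ⟨a1, a2⟩ := mem_filter.mp hp
      obtain ⟨a3, a4⟩ := Nat.mem_primesLE.mp a1
      have a5 : p ∈ s := mem_filter.mpr ⟨Nat.mem_primesLE.mpr ⟨a3.trans
        (Nat.pow_le_pow_right (by omega) (Nat.pow_le_pow_right (by norm_num) ht)), a4⟩, a2⟩
      exact mem_filter.mpr ⟨a5, (hscl p a5 t).mpr a3⟩
  have key := comb (J := N) (P := fun p : s => ((p : ℕ) : ℝ))
    (c := fun p : s => 1 - L / (p : ℕ)) (a := fun p : s => (((p : ℕ) : ℝ) - L)⁻¹)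
    (π := fun p : s => π p)
    (fun p => by
      rw [sub_pos, div_lt_one (hp0 p p.2)]
      linarith [hπ0 p p.2])
    (fun p => by
      have a1 := hπ0 p p.2
      simp only [π]
      field_simp
      ring)
    (fun p => hπ3 p p.2) (fun p => hπ4 p p.2)
    (fun p => by
      have a1 := hπ0 p p.2
      have a2 := hp0 p p.2
      simp only [Fintype.sum_option, wm, sum_const, card_univ, hcard, nsmul_eq_mul, ← hL]
      field_simp
      ring)
    (fun p => by
      have a1 := hπ0 p p.2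
      have a2 := hp0 p p.2
      field_simp)
    (by positivity) hM hE (fun p : s => scl z p) (t0 := t0) (T := T) (lz := Real.log z)
    (CM := 4 * Real.exp 5) (CX := CX) (Λ := Λ) hlz (by omega) hθ
    (fun i => by
      have a1 : ((blk (fun p : s => scl z p) i).card : ℝ) =
          (s.filter (fun p => scl z p = i)).card := by
        have := sum_sub_filter s (fun p => scl z p = i) (fun _ => 1)
        simpa [blk] using this
      have a2 : (s.filter (fun p => scl z p = i)).card ≤ (Ioc z (z ^ 2 ^ (i + 1))).card :=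
        card_le_card fun p hp => mem_Ioc.mpr ⟨hzp p (mem_filter.mp hp).1, (hblk i p hp).2.2⟩
      have a3 : z ≤ z ^ 2 ^ (i + 1) := Nat.le_self_pow (by positivity) z
      rw [Nat.card_Ioc] at a2
      rw [a1, ← log_tower, Real.exp_log (by positivity)]
      exact_mod_cast (by omega : (s.filter (fun p => scl z p = i)).card + 7 ≤ z ^ 2 ^ (i + 1)))
    (fun t ht => by
      rw [prod_sub_filter s (fun p => scl z p < t) (fun p => 1 - π p)]
      have a1 := mertens_lower hk (by omega : 3 ≤ z) hωz (m := z ^ 2 ^ t)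
        (Nat.le_self_pow (by positivity) z)
      rw [← hfil t ht, prod_inv_distrib] at a1
      have a2 : 2 ^ t * Real.log z ≤ Real.log ((z ^ 2 ^ t : ℕ) + 1) := by
        rw [← log_tower]
        exact Real.log_le_log (by positivity) (by linarith)
      have a3 : 0 < ∏ p ∈ s.filter (fun p => scl z p < t), (1 - (p : ℝ)⁻¹) :=
        prod_pos fun p hp => euler_pos (hpp p (mem_filter.mp hp).1)
      refine (prod_le_prod (g := fun p : ℕ => 1 - (p : ℝ)⁻¹)
        (fun p hp => by linarith [hπ4 p (mem_filter.mp hp).1])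
        fun p hp => by linarith [hπ1 p (mem_filter.mp hp).1]).trans ?_
      have a4 := a2.trans a1
      rw [← div_eq_mul_inv, le_div_iff₀ a3] at a4
      rw [le_div_iff₀ (by positivity)]
      refine le_of_mul_le_mul_right ?_ (by linarith : 0 < Real.log z)
      linarith)
    rfl
    (by
      have a1 := sum_blocks (fun p : s => scl z p) (fun p : s => π p) (t0 + T)
      rw [sum_range_add, sum_blocks, sum_sub_filter s (fun p => scl z p < t0 + T) π,
        sum_sub_filter s (fun p => scl z p < t0) π,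
        filter_true_of_mem (s := s) (fun p hp => (hscl p hp _).mpr (hyp p hp)),
        ← sum_filter_add_sum_filter_not s (fun p => scl z p < t0), add_right_inj] at a1
      rw [Fin.sum_univ_eq_sum_range (fun t => ∑ p ∈ blk (fun p : s => scl z p) (t0 + t), π p), a1]
      have a2 : z ≤ z ^ 2 ^ t0 := Nat.le_self_pow (by positivity) z
      have a3 := mid_sum_ge (z := z ^ 2 ^ t0) hk (by omega) (by omega) hT
      rw [← pow_mul, ← pow_add] at a3
      refine a3.trans (le_trans (sum_le_sum_of_subset_of_nonneg (fun p hp => ?_)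
        fun p _ _ => by positivity) (sum_le_sum fun p hp => hπ1 p (mem_filter.mp hp).1))
      obtain ⟨b1, b2, b3⟩ := mem_filter.mp hp
      have b4 : p ∈ s := mem_filter.mpr ⟨b1, by omega, b3⟩
      exact mem_filter.mpr ⟨b4, by rw [hscl p b4]; omega⟩)
    n1
    (by
      rw [hcard, Real.exp_neg, Real.exp_log (by linarith), ← mul_assoc, ← div_eq_mul_inv,
        div_le_one (by linarith)]
      exact n2)
    (by rw [hcard]; exact n3) (by rw [hcard]; exact n4) (by rw [hcard]; exact n5)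
    (by
      rw [hcard]
      refine le_trans ?_ n6
      have a1 : ∑ q : s, π q ≤ 6 * (t0 + T : ℕ) := by
        have := sum_blocks (fun p : s => scl z p) (fun p : s => π p) (t0 + T)
        rw [filter_true_of_mem (fun (p : s) _ => (hscl p p.2 _).mpr (hyp p p.2))] at this
        rw [← this]
        refine (sum_le_card_nsmul _ _ 6 fun i _ => hθ i).trans (le_of_eq ?_)
        rw [card_range, nsmul_eq_mul, mul_comm]
      have a2 : ∑ p : s, π p ^ 2 ≤ 4 / z := by
        rw [sum_coe_sort s (fun p => π p ^ 2), div_eq_mul_inv]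
        refine le_trans ?_ (mul_le_mul_of_nonneg_left (sum_inv_sq_le s (by omega) hzp)
          (by norm_num))
        rw [mul_sum]
        refine sum_le_sum fun p hp => (pow_le_pow_left₀ (hπ3 p hp) (hπ2 p hp) 2).trans
          (le_of_eq ?_)
        rw [← inv_pow]
        ring
      have a3 : 0 ≤ ∑ p : s, π p ^ 2 := sum_nonneg fun _ _ => sq_nonneg _
      have a4 : Real.exp (3 * ∑ q : s, π q) ≤ Real.exp (18 * (t0 + T : ℕ)) :=
        Real.exp_le_exp.mpr (by linarith)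
      gcongr)
    n7
  rw [hcard] at key
  refine key.trans (Nat.cast_le.mpr (card_le_card fun x hx => ?_))
  obtain ⟨hx, hxj⟩ := mem_filter.mp hx
  refine mem_filter.mpr ⟨(mem_filter.mp hx).1, (mem_filter.mp hx).2, fun n hn => ?_⟩
  obtain ⟨p, hp⟩ := hxj ⟨n, hn⟩
  refine ⟨p, hpp p p.2, hyp p p.2, ?_⟩
  have a1 := Xc_dvd hp
  rw [← Nat.modEq_zero_iff_dvd] at a1 ⊢
  exact ((Nat.mod_modEq _ _).symm.add_right _).trans a1

end Pool.Agent.Lib.MP_458f0b_nt
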