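import Pool.Agent.Lib.MP_458f0b_nt.ES

open Finset

namespace Pool.Agent.Lib.MP_458f0b_nt

section Prob

variable {ι V : Type} [Fintype ι] [DecidableEq ι] [Fintype V]

/-- expectation with respect to a product weight -/
def Ex (w : ι → V → ℝ) (F : (ι → V) → ℝ) : ℝ := ∑ x, Wt w x * F x

lemma Ex_prod (w f : ι → V → ℝ) :
    Ex w (fun x => ∏ p, f p (x p)) = ∏ p, ∑ v, w p v * f p v := by
  simp only [Ex, Wt, ← prod_mul_distrib]
  exact (Fintype.prod_sum (fun p v => w p v * f p v)).symm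

omit [DecidableEq ι] [Fintype V] in
lemma Wt_nonneg {w : ι → V → ℝ} (hw0 : ∀ p v, 0 ≤ w p v) (x : ι → V) : 0 ≤ Wt w x :=
  prod_nonneg fun p _ => hw0 p _

lemma sum_Wt {w : ι → V → ℝ} (hw1 : ∀ p, ∑ v, w p v = 1) : ∑ x, Wt w x = 1 := by
  have := Ex_prod w (fun _ _ => 1)
  simpa [Ex, hw1] using this

lemma Ex_const {w : ι → V → ℝ} (hw1 : ∀ p, ∑ v, w p v = 1) (c : ℝ) : Ex w (fun _ => c) = c := by
  simp only [Ex, ← sum_mul, sum_Wt hw1, one_mul]

lemma Ex_mono {w : ι → V → ℝ} (hw0 : ∀ p v, 0 ≤ w p v) {F G : (ι → V) → ℝ}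
    (h : ∀ x, F x ≤ G x) : Ex w F ≤ Ex w G :=
  sum_le_sum fun x _ => mul_le_mul_of_nonneg_left (h x) (Wt_nonneg hw0 x)

lemma Ex_nonneg {w : ι → V → ℝ} (hw0 : ∀ p v, 0 ≤ w p v) {F : (ι → V) → ℝ}
    (h : ∀ x, 0 ≤ F x) : 0 ≤ Ex w F :=
  sum_nonneg fun x _ => mul_nonneg (Wt_nonneg hw0 x) (h x)

lemma Ex_add (w : ι → V → ℝ) (F G : (ι → V) → ℝ) :
    Ex w (fun x => F x + G x) = Ex w F + Ex w G := by
  simp only [Ex, mul_add, sum_add_distrib]

lemma Ex_sub (w : ι → V → ℝ) (F G : (ι → V) → ℝ) :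
    Ex w (fun x => F x - G x) = Ex w F - Ex w G := by
  simp only [Ex, mul_sub, sum_sub_distrib]

lemma Ex_smul (w : ι → V → ℝ) (c : ℝ) (F : (ι → V) → ℝ) :
    Ex w (fun x => c * F x) = c * Ex w F := by
  simp only [Ex, mul_sum]
  exact sum_congr rfl fun x _ => by ring

lemma Ex_sum {β : Type} (w : ι → V → ℝ) (s : Finset β) (F : β → (ι → V) → ℝ) :
    Ex w (fun x => ∑ b ∈ s, F b x) = ∑ b ∈ s, Ex w (F b) := by
  simp only [Ex, mul_sum]
  exact sum_comm

/-- the function depends only on the coordinates in `S` -/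
def Dep (S : ι → Prop) (F : (ι → V) → ℝ) : Prop :=
  ∀ x y, (∀ p, S p → x p = y p) → F x = F y

omit [Fintype ι] [DecidableEq ι] [Fintype V] in
lemma Dep.mono {S S' : ι → Prop} {F : (ι → V) → ℝ} (h : Dep S F) (hS : ∀ p, S p → S' p) :
    Dep S' F := fun x y hxy => h x y fun p hp => hxy p (hS p hp)

omit [Fintype ι] [DecidableEq ι] [Fintype V] in
lemma Dep.mul {S : ι → Prop} {F G : (ι → V) → ℝ} (h : Dep S F) (h' : Dep S G) :
    Dep S (fun x => F x * G x) := fun x y hxy => by
  show F x * G x = F y * G y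
  rw [h x y hxy, h' x y hxy]

omit [Fintype ι] [DecidableEq ι] [Fintype V] in
lemma Dep.prod {β : Type} {S : ι → Prop} (s : Finset β) {F : β → (ι → V) → ℝ}
    (h : ∀ b ∈ s, Dep S (F b)) : Dep S (fun x => ∏ b ∈ s, F b x) := fun x y hxy =>
  prod_congr rfl fun b hb => h b hb x y hxy

omit [Fintype ι] [DecidableEq ι] [Fintype V] in
lemma Dep.const (S : ι → Prop) (c : ℝ) : Dep S (fun _ : ι → V => c) := fun _ _ _ => rfl

lemma Ex_mul_indep {w : ι → V → ℝ} (hw1 : ∀ p, ∑ v, w p v = 1) (S : ι → Prop)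
    {F G : (ι → V) → ℝ} (hF : Dep S F) (hG : Dep (fun p => ¬ S p) G) :
    Ex w (fun x => F x * G x) = Ex w F * Ex w G := by
  classical
  let mix : (ι → V) → (ι → V) → ι → V := fun x y p => if S p then x p else y p
  let e : (ι → V) × (ι → V) → (ι → V) × (ι → V) := fun q => (mix q.1 q.2, mix q.2 q.1)
  have he : Function.Involutive e := by
    intro q
    ext p
    · simp only [e, mix]; split_ifs <;> rfl
    · simp only [e, mix]; split_ifs <;> rfl
  have h1 : Ex w F * Ex w G = ∑ q : (ι → V) × (ι → V), Wt w q.1 * Wt w q.2 * (F q.1 * G q.2) := by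
    rw [Ex, Ex, sum_mul_sum, Fintype.sum_prod_type]
    exact sum_congr rfl fun x _ => sum_congr rfl fun y _ => by ring
  have h2 : Ex w (fun x => F x * G x) =
      ∑ q : (ι → V) × (ι → V), Wt w q.1 * Wt w q.2 * (F q.1 * G q.1) := by
    rw [Ex, Fintype.sum_prod_type]
    refine sum_congr rfl fun x _ => ?_
    simp only
    rw [← sum_mul, ← mul_sum, sum_Wt hw1, mul_one]
  rw [h1, h2, ← Equiv.sum_comp he.toPerm]
  refine sum_congr rfl fun q _ => ?_
  have a1 : Wt w (mix q.1 q.2) * Wt w (mix q.2 q.1) = Wt w q.1 * Wt w q.2 := by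
    simp only [Wt, ← prod_mul_distrib]
    refine prod_congr rfl fun p _ => ?_
    simp only [mix]
    split_ifs
    · rfl
    · exact mul_comm _ _
  have a2 : F (mix q.1 q.2) = F q.1 := hF _ _ fun p hp => by simp only [mix, if_pos hp]
  have a3 : G (mix q.1 q.2) = G q.2 := hG _ _ fun p hp => by simp only [mix, if_neg hp]
  show Wt w (mix q.1 q.2) * Wt w (mix q.2 q.1) * (F (mix q.1 q.2) * G (mix q.1 q.2)) = _
  rw [a1, a2, a3]

lemma Ex_blocks {w : ι → V → ℝ} (hw1 : ∀ p, ∑ v, w p v = 1) (bl : ι → ℕ)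
    (F : ℕ → (ι → V) → ℝ) (hF : ∀ i, Dep (fun p => bl p = i) (F i)) (t : ℕ) :
    Ex w (fun x => ∏ i ∈ range t, F i x) = ∏ i ∈ range t, Ex w (F i) := by
  induction t with
  | zero => simpa using Ex_const hw1 1
  | succ t ih =>
    simp only [prod_range_succ]
    rw [Ex_mul_indep hw1 (fun p => bl p < t)
      (Dep.prod _ fun i hi => (hF i).mono fun p hp => by rw [hp]; exact mem_range.mp hi)
      ((hF t).mono fun p hp => by rw [hp]; exact lt_irrefl _), ih]

/-- orthogonal tensor expansion -/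
lemma Ex_orth {α : Type} [Fintype α] [DecidableEq α] (w : ι → V → ℝ) (ψ : ι → α → V → ℝ)
    (u : ι → α → ℝ)
    (h : ∀ j a b, ∑ v, w j v * (ψ j a v * ψ j b v) = if a = b then u j a else 0)
    (c : (ι → α) → ℝ) :
    Ex w (fun x => (∑ τ : ι → α, c τ * ∏ j, ψ j (τ j) (x j)) ^ 2) =
      ∑ τ : ι → α, c τ ^ 2 * ∏ j, u j (τ j) := by
  have h1 : ∀ x : ι → V, (∑ τ : ι → α, c τ * ∏ j, ψ j (τ j) (x j)) ^ 2 =
      ∑ τ : ι → α, ∑ τ' : ι → α, c τ * c τ' * ∏ j, ψ j (τ j) (x j) * ψ j (τ' j) (x j) := by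
    intro x
    rw [sq, sum_mul_sum]
    refine sum_congr rfl fun τ _ => sum_congr rfl fun τ' _ => ?_
    rw [prod_mul_distrib]
    ring
  simp only [h1]
  rw [Ex_sum]
  refine sum_congr rfl fun τ _ => ?_
  rw [Ex_sum]
  have h2 : ∀ τ' : ι → α, Ex w (fun x => c τ * c τ' * ∏ j, ψ j (τ j) (x j) * ψ j (τ' j) (x j)) =
      if τ = τ' then c τ ^ 2 * ∏ j, u j (τ j) else 0 := by
    intro τ'
    rw [Ex_smul, Ex_prod w (fun j v => ψ j (τ j) v * ψ j (τ' j) v)]
    simp only [h]
    split_ifs with he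
    · subst he
      simp [sq]
    · obtain ⟨j, hj⟩ := Function.ne_iff.mp he
      rw [prod_eq_zero (mem_univ j) (if_neg hj), mul_zero]
  simp only [h2, sum_ite_eq, mem_univ, if_true]

end Prob

section Poly

variable {κ : Type} [DecidableEq κ]

/-- indicator of a boolean -/
def ind (b : Bool) : ℝ := if b then 1 else 0

lemma ind_nonneg (b : Bool) : 0 ≤ ind b := by cases b <;> simp [ind]

lemma ind_le_one (b : Bool) : ind b ≤ 1 := by cases b <;> simp [ind]

lemma ind_mul_self (b : Bool) : ind b * ind b = ind b := by cases b <;> simp [ind]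

/-- a monomial in the indicators of the coordinates -/
def mon (E : Finset κ) (x : κ → Bool) : ℝ := ∏ p ∈ E, ind (x p)

omit [DecidableEq κ] in
lemma mon_eq (E : Finset κ) (x : κ → Bool) :
    mon E x = if ∀ p ∈ E, x p = true then 1 else 0 := by
  classical
  unfold mon
  split_ifs with h
  · exact prod_eq_one fun p hp => by simp [ind, h p hp]
  · push Not at h
    obtain ⟨p, hp, hx⟩ := h
    exact prod_eq_zero hp (by simp [ind, hx])

lemma mon_union (E E' : Finset κ) (x : κ → Bool) : mon (E ∪ E') x = mon E x * mon E' x := by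
  simp only [mon_eq, forall_mem_union]
  by_cases h : ∀ p ∈ E, x p = true
  · by_cases h' : ∀ p ∈ E', x p = true
    · rw [if_pos ⟨h, h'⟩, if_pos h, if_pos h', one_mul]
    · rw [if_neg fun hh => h' hh.2, if_neg h', mul_zero]
  · rw [if_neg fun hh => h hh.1, if_neg h, zero_mul]

/-- polynomials in the indicators whose coefficients have absolute sum at most `N` -/
inductive Poly : ℝ → ((κ → Bool) → ℝ) → Prop
  | mono (c : ℝ) (E : Finset κ) : Poly |c| (fun x => c * mon E x)
  | add {N N' : ℝ} {F F' : (κ → Bool) → ℝ} : Poly N F → Poly N' F' →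
      Poly (N + N') (fun x => F x + F' x)
  | le {N N' : ℝ} {F : (κ → Bool) → ℝ} : Poly N F → N ≤ N' → Poly N' F

omit [DecidableEq κ] in
lemma Poly.nonneg {N : ℝ} {F : (κ → Bool) → ℝ} (h : Poly N F) : 0 ≤ N := by
  induction h with
  | mono c E => exact abs_nonneg _
  | add _ _ h1 h2 => linarith
  | le _ h1 h2 => linarith

omit [DecidableEq κ] in
lemma Poly.congr {N : ℝ} {F G : (κ → Bool) → ℝ} (h : Poly N F) (hFG : ∀ x, F x = G x) :
    Poly N G := by
  have : F = G := funext hFG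
  rwa [← this]

omit [DecidableEq κ] in
lemma Poly.const (c : ℝ) : Poly |c| (fun _ : κ → Bool => c) :=
  (Poly.mono c ∅).congr fun x => by simp [mon]

omit [DecidableEq κ] in
lemma Poly.smul (c : ℝ) {N : ℝ} {F : (κ → Bool) → ℝ} (h : Poly N F) :
    Poly (|c| * N) (fun x => c * F x) := by
  induction h with
  | mono c' E => exact ((Poly.mono (c * c') E).congr fun x => by ring).le (by rw [abs_mul])
  | add _ _ h1 h2 => exact ((h1.add h2).congr fun x => by ring).le (by rw [mul_add])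
  | le _ h1 h2 => exact h2.le (by gcongr)

lemma Poly.mul_mono (c : ℝ) (E : Finset κ) {N : ℝ} {F : (κ → Bool) → ℝ} (h : Poly N F) :
    Poly (|c| * N) (fun x => c * mon E x * F x) := by
  induction h with
  | mono c' E' =>
    exact ((Poly.mono (c * c') (E ∪ E')).congr fun x => by rw [mon_union]; ring).le
      (by rw [abs_mul])
  | add _ _ h1 h2 => exact ((h1.add h2).congr fun x => by ring).le (by rw [mul_add])
  | le _ h1 h2 => exact h2.le (by gcongr)

lemma Poly.mul {N N' : ℝ} {F F' : (κ → Bool) → ℝ} (h : Poly N F) (h' : Poly N' F') :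
    Poly (N * N') (fun x => F x * F' x) := by
  induction h with
  | mono c E => exact h'.mul_mono c E
  | add _ _ h1 h2 => exact ((h1.add h2).congr fun x => by ring).le (by rw [add_mul])
  | le _ h1 h2 => exact h2.le (mul_le_mul_of_nonneg_right h1 h'.nonneg)

omit [DecidableEq κ] in
lemma Poly.sum {β : Type} (s : Finset β) {N : β → ℝ} {F : β → (κ → Bool) → ℝ}
    (h : ∀ b ∈ s, Poly (N b) (F b)) : Poly (∑ b ∈ s, N b) (fun x => ∑ b ∈ s, F b x) := by
  classical
  induction s using Finset.induction_on with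
  | empty => exact ((Poly.const 0).congr fun x => by simp).le (by simp)
  | insert a s ha ih =>
    simp only [sum_insert ha]
    exact (h a (mem_insert_self _ _)).add (ih fun b hb => h b (mem_insert_of_mem hb))

lemma Poly.prod {β : Type} (s : Finset β) {N : β → ℝ} {F : β → (κ → Bool) → ℝ}
    (h : ∀ b ∈ s, Poly (N b) (F b)) : Poly (∏ b ∈ s, N b) (fun x => ∏ b ∈ s, F b x) := by
  classical
  induction s using Finset.induction_on with
  | empty => exact ((Poly.const 1).congr fun x => by simp).le (by simp)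
  | insert a s ha ih =>
    simp only [prod_insert ha]
    exact (h a (mem_insert_self _ _)).mul (ih fun b hb => h b (mem_insert_of_mem hb))

lemma Poly.comp {κ' : Type} (e : κ' → κ) {N : ℝ} {F : (κ' → Bool) → ℝ} (h : Poly N F) :
    Poly N (fun x : κ → Bool => F (fun p => x (e p))) := by
  induction h with
  | mono c E =>
    refine (Poly.mono c (E.image e)).congr fun x => ?_
    simp only [mon_eq, forall_mem_image]
  | add _ _ h1 h2 => exact h1.add h2
  | le _ h1 h2 => exact h2.le h1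

end Poly

end Pool.Agent.Lib.MP_458f0b_nt
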