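import Pool.Agent.Lib.MP_458f0b_nt.Core
import Pool.Agent.Lib.MP_458f0b_nt.H37Prob

open Finset

namespace Pool.Agent.Lib.MP_458f0b_nt

variable {ι J α : Type} [Fintype ι] [DecidableEq ι] [Fintype J] [DecidableEq J]

/-- Bernoulli weights -/
def bern (π : ι → ℝ) (p : ι) (v : Bool) : ℝ := if v then π p else 1 - π p

omit [Fintype ι] [DecidableEq ι] in
lemma bern_sum (π : ι → ℝ) (p : ι) : ∑ v, bern π p v = 1 := by simp [bern]

omit [Fintype ι] [DecidableEq ι] in
lemma bern_nonneg {π : ι → ℝ} (h0 : ∀ p, 0 ≤ π p) (h1 : ∀ p, π p ≤ 1) (p : ι) (v : Bool) :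
    0 ≤ bern π p v := by
  cases v
  · simp [bern, h1 p]
  · simp [bern, h0 p]

/-- independent positions -/
def full (π : ι → ℝ) (_ : J) (x : ι → Bool) : ℝ := Wt (bern π) x

omit [Fintype J] [DecidableEq J] in
lemma full_sum (π : ι → ℝ) (j : J) : ∑ x, full π j x = 1 := sum_Wt (bern_sum π)

omit [DecidableEq ι] [Fintype J] [DecidableEq J] in
lemma full_nonneg {π : ι → ℝ} (h0 : ∀ p, 0 ≤ π p) (h1 : ∀ p, π p ≤ 1) (j : J) (x : ι → Bool) :
    0 ≤ full π j x := Wt_nonneg (bern_nonneg h0 h1) x

/-- the table of hits of an exclusive configuration -/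
def emb (y : ι → Option J) (j : J) (p : ι) : Bool := decide (y p = some j)

/-- polynomial in the table of hits -/
def PolyJ (N : ℝ) (g : (J → ι → Bool) → ℝ) : Prop :=
  Poly N (fun x : J × ι → Bool => g (fun j p => x (j, p)))

lemma mon_equi {P c a : ι → ℝ} (hw1 : ∀ p, ∑ v, wm (J := J) c a p v = 1)
    (hPw : ∀ p, P p * (c p * a p) = 1) {A : Finset α} {X : α → ι → Option J} {M err : ℝ}
    (herr : 0 ≤ err) (h : Equi P (wm c a) A X M err) (E : Finset (J × ι)) :
    |∑ b ∈ A, mon E (fun q => emb (X b) q.1 q.2) -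
      M * Ex (wm c a) (fun y => mon E (fun q => emb y q.1 q.2))| ≤ err := by
  classical
  by_cases hE : ∃ j j' p, (j, p) ∈ E ∧ (j', p) ∈ E ∧ j ≠ j'
  · obtain ⟨j, j', p, h1, h2, h3⟩ := hE
    have : ∀ y : ι → Option J, mon E (fun q => emb y q.1 q.2) = 0 := by
      intro y
      rw [mon_eq, if_neg]
      intro hh
      have a1 := hh _ h1
      have a2 := hh _ h2
      simp only [emb, decide_eq_true_eq] at a1 a2
      exact h3 (Option.some.inj (a1.symm.trans a2))
    simp only [this, Ex, mul_zero, sum_const_zero, sub_zero, abs_zero]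
    exact herr
  · push Not at hE
    let S : ι → Bool := fun p => decide (∃ j, (j, p) ∈ E)
    let x0 : ι → Option J := fun p => if h : ∃ j, (j, p) ∈ E then some h.choose else none
    have hx0 : ∀ j p, (j, p) ∈ E → x0 p = some j := by
      intro j p hjp
      have h' : ∃ j, (j, p) ∈ E := ⟨j, hjp⟩
      simp only [x0, dif_pos h']
      rw [hE _ _ _ h'.choose_spec hjp]
    have e1 : ∀ y : ι → Option J, mon E (fun q => emb y q.1 q.2) =
        ∏ p, if S p then dl (y p) (x0 p) else 1 := by
      intro y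
      rw [mon_eq]
      split_ifs with hh
      · refine (prod_eq_one fun p _ => ?_).symm
        split_ifs with hp
        · obtain ⟨j, hj⟩ : ∃ j, (j, p) ∈ E := by simpa [S] using hp
          have := hh _ hj
          simp only [emb, decide_eq_true_eq] at this
          simp [dl, this, hx0 j p hj]
        · rfl
      · push Not at hh
        obtain ⟨⟨j, p⟩, hq, hy⟩ := hh
        refine (prod_eq_zero (mem_univ p) ?_).symm
        have hp : S p = true := by simpa [S] using ⟨j, hq⟩
        simp only [emb, ne_eq, decide_eq_true_eq] at hy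
        simp [hp, dl, hx0 j p hq, hy]
    have e2 : Ex (wm c a) (fun y : ι → Option J => ∏ p, if S p then dl (y p) (x0 p) else 1) =
        ∏ p, if S p then wm c a p (x0 p) else 1 := by
      rw [Ex_prod (wm c a) (fun p v => if S p then dl v (x0 p) else 1)]
      refine prod_congr rfl fun p _ => ?_
      cases S p
      · simp [hw1]
      · simp [dl]
    have e3 : (∏ p, if S p then P p * wm c a p (x0 p) else 1) = 1 := by
      refine prod_eq_one fun p _ => ?_
      split_ifs with hp
      · obtain ⟨j, hj⟩ : ∃ j, (j, p) ∈ E := by simpa [S] using hp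
        rw [hx0 j p hj]
        exact hPw p
      · rfl
    simp only [e1, e2]
    have := h S x0
    rwa [e3, mul_one] at this

lemma poly_equi {P c a : ι → ℝ} (hw1 : ∀ p, ∑ v, wm (J := J) c a p v = 1)
    (hPw : ∀ p, P p * (c p * a p) = 1) {A : Finset α} {X : α → ι → Option J} {M err : ℝ}
    (herr : 0 ≤ err) (h : Equi P (wm c a) A X M err) {N : ℝ} {g : (J → ι → Bool) → ℝ}
    (hg : PolyJ N g) :
    |∑ b ∈ A, g (emb (X b)) - M * Ex (wm c a) (fun y => g (emb y))| ≤ err * N := by
  have key : ∀ {N : ℝ} {G : (J × ι → Bool) → ℝ}, Poly N G →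
      |∑ b ∈ A, G (fun q => emb (X b) q.1 q.2) -
        M * Ex (wm c a) (fun y => G (fun q => emb y q.1 q.2))| ≤ err * N := by
    intro N G hG
    induction hG with
    | mono c' E =>
      rw [Ex_smul, ← mul_sum, mul_left_comm, ← mul_sub, abs_mul, mul_comm err]
      exact mul_le_mul_of_nonneg_left (mon_equi hw1 hPw herr h E) (abs_nonneg _)
    | add _ _ h1 h2 =>
      rw [Ex_add, sum_add_distrib, mul_add, mul_add, add_sub_add_comm]
      exact (abs_add_le _ _).trans (add_le_add h1 h2)
    | le _ h1 h2 => exact h2.trans (by gcongr)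
  exact key hg

omit [DecidableEq ι] in
lemma Wt_emb {c a π : ι → ℝ} (hc : ∀ p, 0 < c p) (hπ : ∀ p, π p = (1 - π p) * a p)
    (y : ι → Option J) :
    Wt (full π) (emb y) = (∏ p, (1 - π p) ^ Fintype.card J / c p) * Wt (wm c a) y := by
  simp only [Wt, full]
  rw [prod_comm, ← prod_mul_distrib]
  refine prod_congr rfl fun p _ => ?_
  have h1 : ∀ j, bern π p (emb y j p) = (1 - π p) * if y p = some j then a p else 1 := by
    intro j
    by_cases h : y p = some j
    · simp only [bern, emb, h, decide_true, if_true]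
      exact hπ p
    · simp [bern, emb, h]
  simp only [h1]
  rw [prod_mul_distrib, prod_const, card_univ]
  have := (hc p).ne'
  rcases y p with _ | j
  · simp only [wm, reduceCtorEq, if_false, prod_const_one]
    field_simp
  · simp only [wm, Option.some.injEq, prod_ite_eq, mem_univ, if_true]
    field_simp

omit [Fintype ι] [DecidableEq ι] [Fintype J] in
lemma emb_injective : Function.Injective (emb (ι := ι) (J := J)) := by
  intro y y' h
  funext p
  have h1 : ∀ j, y p = some j ↔ y' p = some j := fun j => by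
    have := congrFun (congrFun h j) p
    simpa [emb] using this
  rcases hy : y p with _ | j
  · rcases hy' : y' p with _ | j'
    · rfl
    · rw [(h1 j').mpr hy'] at hy
      exact absurd hy (by simp)
  · exact ((h1 j).mp hy).symm

lemma excl_le {c a π : ι → ℝ} (hc : ∀ p, 0 < c p) (hπ : ∀ p, π p = (1 - π p) * a p)
    (h0 : ∀ p, 0 ≤ π p) (h1 : ∀ p, π p ≤ 1) {F : (J → ι → Bool) → ℝ} (hF : ∀ ω, 0 ≤ F ω) :
    (∏ p, (1 - π p) ^ Fintype.card J / c p) * Ex (wm c a) (fun y => F (emb y)) ≤
      Ex (full π) F := by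
  classical
  have e : (∏ p, (1 - π p) ^ Fintype.card J / c p) * Ex (wm c a) (fun y => F (emb y)) =
      ∑ ω ∈ univ.image (emb (ι := ι) (J := J)), Wt (full π) ω * F ω := by
    rw [sum_image fun _ _ _ _ h => emb_injective h, Ex, mul_sum]
    exact sum_congr rfl fun y _ => by rw [Wt_emb hc hπ, mul_assoc]
  rw [e]
  exact sum_le_sum_of_subset_of_nonneg (subset_univ _) fun ω _ _ =>
    mul_nonneg (Wt_nonneg (full_nonneg h0 h1) ω) (hF ω)

lemma full_le {c a π : ι → ℝ} (hc : ∀ p, 0 < c p) (hπ : ∀ p, π p = (1 - π p) * a p)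
    (h0 : ∀ p, 0 ≤ π p) (h1 : ∀ p, π p ≤ 1) {F : (J → ι → Bool) → ℝ} (hF : ∀ ω, 0 ≤ F ω) :
    Ex (full π) F ≤
      (∏ p, (1 - π p) ^ Fintype.card J / c p) * Ex (wm c a) (fun y => F (emb y)) +
      ∑ p, ∑ q ∈ (univ : Finset J).offDiag,
        Ex (full π) (fun ω => F ω * (ind (ω q.1 p) * ind (ω q.2 p))) := by
  classical
  have e : (∏ p, (1 - π p) ^ Fintype.card J / c p) * Ex (wm c a) (fun y => F (emb y)) =
      Ex (full π) (fun ω => if ω ∈ univ.image (emb (ι := ι) (J := J)) then F ω else 0) := by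
    simp only [Ex, mul_ite, mul_zero]
    rw [← sum_filter, filter_mem_eq_inter, univ_inter,
      sum_image fun _ _ _ _ h => emb_injective h, mul_sum]
    exact sum_congr rfl fun y _ => by rw [Wt_emb hc hπ, mul_assoc]
  rw [e]
  simp only [← Ex_sum, ← Ex_add]
  refine Ex_mono (full_nonneg h0 h1) fun ω => ?_
  have hnn : ∀ (p : ι) (q : J × J), 0 ≤ F ω * (ind (ω q.1 p) * ind (ω q.2 p)) := fun p q =>
    mul_nonneg (hF ω) (mul_nonneg (ind_nonneg _) (ind_nonneg _))
  split_ifs with h
  · exact le_add_of_nonneg_right (sum_nonneg fun p _ => sum_nonneg fun q _ => hnn p q)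
  · have : ∃ p i j, i ≠ j ∧ ω i p = true ∧ ω j p = true := by
      by_contra hh
      push Not at hh
      apply h
      refine mem_image.mpr ⟨fun p => if h : ∃ j, ω j p = true then some h.choose else none,
        mem_univ _, ?_⟩
      funext j p
      rw [Bool.eq_iff_iff]
      simp only [emb, decide_eq_true_eq]
      by_cases hp : ∃ j, ω j p = true
      · rw [dif_pos hp]
        by_cases hj : hp.choose = j
        · have := hp.choose_spec
          rw [hj] at this
          simp [hj, this]
        · have := hh p _ _ hj hp.choose_spec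
          simp [hj, this]
      · rw [dif_neg hp]
        push Not at hp
        simp [hp j]
    obtain ⟨p, i, j, hij, hi, hj⟩ := this
    rw [zero_add]
    refine le_trans ?_ (single_le_sum (fun p _ => sum_nonneg fun q _ => hnn p q) (mem_univ p))
    refine le_trans ?_ (single_le_sum (fun q _ => hnn p q)
      (mem_offDiag.mpr ⟨mem_univ i, mem_univ j, hij⟩ : (i, j) ∈ _))
    simp [ind, hi, hj]

end Pool.Agent.Lib.MP_458f0b_nt
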