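import Pool.Agent.Lib.MP_458f0b_nt.H37Model

open Finset

namespace Pool.Agent.Lib.MP_458f0b_nt

variable {ι : Type} [Fintype ι] [DecidableEq ι]

/-- a block of coordinates -/
def blk (bl : ι → ℕ) (i : ℕ) : Finset ι := univ.filter fun p => bl p = i

/-- the hits inside a set of coordinates -/
def hits (s : Finset ι) (x : ι → Bool) : Finset ι := s.filter fun p => x p = true

/-- truncated inclusion exclusion on a set of coordinates -/
def chi (s : Finset ι) (D : ℕ) (x : ι → Bool) : ℝ :=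
  ∑ E ∈ s.powerset.filter (fun E => E.card ≤ D), (-1) ^ E.card * mon E x

/-- majorant of the powers of `chi` -/
noncomputable def zeta (s : Finset ι) (D : ℕ) (x : ι → Bool) : ℝ :=
  (∏ p ∈ s, if x p then 0 else 1) + (1 / 2) ^ D * ∏ p ∈ s, if x p then 32 else 1

omit [Fintype ι] [DecidableEq ι] in
lemma prod_hits (s : Finset ι) (x : ι → Bool) (r : ℝ) :
    (∏ p ∈ s, if x p then r else 1) = r ^ (hits s x).card := by
  rw [prod_ite, prod_const, prod_const_one, mul_one, hits]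

omit [Fintype ι] [DecidableEq ι] in
lemma chi_eq (s : Finset ι) (D : ℕ) (x : ι → Bool) :
    chi s D x = ∑ E ∈ (hits s x).powerset.filter (fun E => E.card ≤ D), (-1 : ℝ) ^ E.card := by
  unfold chi
  simp only [mon_eq, mul_ite, mul_one, mul_zero]
  rw [← sum_filter]
  refine sum_congr ?_ fun _ _ => rfl
  ext E
  simp only [mem_filter, mem_powerset, hits, subset_iff]
  constructor
  · rintro ⟨⟨h1, h2⟩, h3⟩
    exact ⟨fun p hp => ⟨h1 hp, h3 p hp⟩, h2⟩
  · rintro ⟨h1, h2⟩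
    exact ⟨⟨fun p hp => (h1 hp).1, h2⟩, fun p hp => (h1 hp).2⟩

omit [Fintype ι] [DecidableEq ι] in
lemma abs_chi_le (s : Finset ι) (D : ℕ) (x : ι → Bool) :
    |chi s D x| ≤ 2 ^ (hits s x).card := by
  rw [chi_eq]
  refine (abs_sum_le_sum_abs _ _).trans ?_
  simp only [abs_pow, abs_neg, abs_one, one_pow, sum_const, nsmul_eq_mul, mul_one]
  have := card_filter_le (hits s x).powerset (fun E => E.card ≤ D)
  rw [card_powerset] at this
  exact_mod_cast this

omit [Fintype ι] [DecidableEq ι] in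
lemma chi_small {s : Finset ι} {D : ℕ} {x : ι → Bool} (h : (hits s x).card ≤ D) :
    chi s D x = (0 : ℝ) ^ (hits s x).card := by
  rw [chi_eq, filter_true_of_mem fun E hE => (card_le_card (mem_powerset.mp hE)).trans h]
  have := prod_one_add (f := fun _ : ι => (-1 : ℝ)) (hits s x)
  simp only [prod_const] at this
  rw [← this]
  norm_num

omit [Fintype ι] [DecidableEq ι] in
lemma chi_zero (s : Finset ι) (D : ℕ) : chi s D (fun _ => false) = 1 := by
  have : hits s (fun _ => false) = ∅ := by simp [hits]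
  rw [chi_small (by simp [this]), this]
  simp

omit [Fintype ι] [DecidableEq ι] in
lemma chi_pow_le (s : Finset ι) (D : ℕ) (x : ι → Bool) {q : ℕ} (hq : 1 ≤ q) (hq' : q ≤ 4) :
    |chi s D x| ^ q ≤ zeta s D x := by
  unfold zeta
  rw [prod_hits, prod_hits]
  set n := (hits s x).card
  by_cases h : n ≤ D
  · rw [chi_small h]
    refine le_add_of_le_of_nonneg ?_ (by positivity)
    rw [abs_of_nonneg (by positivity)]
    exact pow_le_of_le_one (by positivity) (pow_le_one₀ le_rfl zero_le_one) (by omega)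
  · refine le_add_of_nonneg_of_le (by positivity) ?_
    calc |chi s D x| ^ q ≤ (2 ^ n) ^ q := pow_le_pow_left₀ (abs_nonneg _) (abs_chi_le s D x) q
      _ ≤ (2 ^ n) ^ 4 := pow_le_pow_right₀ (one_le_pow₀ (by norm_num)) hq'
      _ = (1 / 2) ^ n * 32 ^ n := by rw [← pow_mul, mul_comm, pow_mul, ← mul_pow]; norm_num
      _ ≤ _ := by
        gcongr ?_ * _
        exact pow_le_pow_of_le_one (by norm_num) (by norm_num) (by omega)

omit [Fintype ι] [DecidableEq ι] in
lemma zeta_nonneg (s : Finset ι) (D : ℕ) (x : ι → Bool) : 0 ≤ zeta s D x := by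
  unfold zeta
  rw [prod_hits, prod_hits]
  positivity

omit [Fintype ι] [DecidableEq ι] in
lemma dep_prod (s : Finset ι) (f : ι → Bool → ℝ) :
    Dep (fun p => p ∈ s) (fun x : ι → Bool => ∏ p ∈ s, f p (x p)) := fun x y h =>
  prod_congr rfl fun p hp => by rw [h p hp]

omit [Fintype ι] [DecidableEq ι] in
lemma dep_chi (s : Finset ι) (D : ℕ) : Dep (fun p => p ∈ s) (chi s D) := fun x y h => by
  have : hits s x = hits s y := filter_congr fun p hp => by rw [h p hp]
  rw [chi_eq, chi_eq, this]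

omit [Fintype ι] [DecidableEq ι] in
lemma dep_zeta (s : Finset ι) (D : ℕ) : Dep (fun p => p ∈ s) (zeta s D) := fun x y h => by
  have : hits s x = hits s y := filter_congr fun p hp => by rw [h p hp]
  unfold zeta
  rw [prod_hits, prod_hits, prod_hits, prod_hits, this]

lemma Ex_setprod (π : ι → ℝ) (s : Finset ι) (f : ι → Bool → ℝ) :
    Ex (bern π) (fun x => ∏ p ∈ s, f p (x p)) =
      ∏ p ∈ s, (π p * f p true + (1 - π p) * f p false) := by
  have h := Ex_prod (bern π) (fun p v => if p ∈ s then f p v else 1)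
  simp only [prod_ite_mem, univ_inter] at h
  rw [h, ← univ_inter s, ← prod_ite_mem, univ_inter]
  refine prod_congr rfl fun p _ => ?_
  split_ifs
  · simp [bern]
  · simp [bern]

lemma Ex_pow_hits {π : ι → ℝ} (h0 : ∀ p, 0 ≤ π p) (s : Finset ι) {r : ℝ} (hr : 1 ≤ r) :
    Ex (bern π) (fun x => ∏ p ∈ s, if x p then r else 1) ≤
      Real.exp ((r - 1) * ∑ p ∈ s, π p) := by
  rw [Ex_setprod π s (fun _ v => if v then r else 1), mul_sum, Real.exp_sum]
  simp only [if_true, Bool.false_eq_true, if_false]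
  refine prod_le_prod (fun p _ => ?_) fun p _ => ?_
  · nlinarith [h0 p]
  · linarith [Real.add_one_le_exp ((r - 1) * π p)]

lemma Ex_zeta {π : ι → ℝ} (h0 : ∀ p, 0 ≤ π p) (h2 : ∀ p, π p ≤ 1 / 2) {s : Finset ι}
    (hs : ∑ p ∈ s, π p ≤ 6) (D : ℕ) :
    Ex (bern π) (zeta s D) ≤ (∏ p ∈ s, (1 - π p)) * Real.exp (Real.exp 198 * (1 / 2) ^ D) := by
  have e1 : Ex (bern π) (zeta s D) = (∏ p ∈ s, (1 - π p)) +
      (1 / 2) ^ D * Ex (bern π) (fun x => ∏ p ∈ s, if x p then 32 else 1) := by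
    unfold zeta
    rw [Ex_add, Ex_smul, Ex_setprod π s (fun _ v => if v then 0 else 1)]
    simp
  have e2 : Ex (bern π) (fun x => ∏ p ∈ s, if x p then 32 else 1) ≤ Real.exp 186 :=
    (Ex_pow_hits h0 s (by norm_num)).trans (Real.exp_le_exp.mpr (by linarith))
  have e3 : Real.exp (-12) ≤ ∏ p ∈ s, (1 - π p) := by
    refine le_trans (Real.exp_le_exp.mpr (by rw [← mul_sum]; linarith :
      (-12 : ℝ) ≤ ∑ p ∈ s, -2 * π p)) ?_
    rw [Real.exp_sum]
    refine prod_le_prod (fun p _ => (Real.exp_pos _).le) fun p _ => ?_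
    have a1 := Real.add_one_le_exp (2 * π p)
    have a2 : Real.exp (-2 * π p) * Real.exp (2 * π p) = 1 := by rw [← Real.exp_add]; simp
    have a3 := Real.exp_pos (-2 * π p)
    nlinarith [h0 p, h2 p, mul_nonneg (h0 p) (sub_nonneg.mpr (h2 p))]
  have e4 : Real.exp 186 ≤ (∏ p ∈ s, (1 - π p)) * Real.exp 198 := by
    calc Real.exp 186 = Real.exp (-12) * Real.exp 198 := by rw [← Real.exp_add]; norm_num
      _ ≤ _ := by gcongr
  have e5 := Real.add_one_le_exp (Real.exp 198 * (1 / 2) ^ D)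
  have e6 : 0 ≤ ∏ p ∈ s, (1 - π p) := (Real.exp_pos _).le.trans e3
  rw [e1]
  calc _ ≤ (∏ p ∈ s, (1 - π p)) + (1 / 2) ^ D * ((∏ p ∈ s, (1 - π p)) * Real.exp 198) := by
        gcongr
        exact e2.trans e4
    _ = (∏ p ∈ s, (1 - π p)) * (Real.exp 198 * (1 / 2) ^ D + 1) := by ring
    _ ≤ _ := by gcongr

omit [Fintype ι] [DecidableEq ι] in
lemma poly_chi (s : Finset ι) (D : ℕ) {Q : ℝ} (hQ : (s.card : ℝ) + 1 ≤ Q) :
    Poly (Real.exp 1 * Q ^ D) (chi s D) := by
  have h := Poly.sum (s.powerset.filter (fun E => E.card ≤ D))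
    (fun E _ => Poly.mono ((-1 : ℝ) ^ E.card) E)
  refine h.le ?_
  have hc : (0 : ℝ) ≤ s.card := Nat.cast_nonneg _
  have hQ0 : 0 < Q := by linarith
  calc _ ≤ ∑ E ∈ s.powerset.filter (fun E => E.card ≤ D), Q ^ D * ∏ _p ∈ E, Q⁻¹ := by
        refine sum_le_sum fun E hE => ?_
        rw [abs_pow, abs_neg, abs_one, one_pow, prod_const, inv_pow, ← div_eq_mul_inv,
          one_le_div (by positivity)]
        exact pow_le_pow_right₀ (by linarith) (mem_filter.mp hE).2
    _ ≤ ∑ E ∈ s.powerset, Q ^ D * ∏ _p ∈ E, Q⁻¹ :=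
        sum_le_sum_of_subset_of_nonneg (filter_subset _ _) fun _ _ _ => by positivity
    _ = Q ^ D * (1 + Q⁻¹) ^ s.card := by rw [← mul_sum, ← prod_one_add, prod_const]
    _ ≤ Q ^ D * Real.exp Q⁻¹ ^ s.card := by
        gcongr
        linarith [Real.add_one_le_exp Q⁻¹]
    _ ≤ _ := by
        rw [mul_comm, ← Real.exp_nat_mul]
        gcongr
        rw [← div_eq_mul_inv, div_le_one hQ0]
        linarith

/-- the sieve weight below the block `t` -/
def nuS (bl : ι → ℕ) (t : ℕ) (x : ι → Bool) : ℝ := ∏ i ∈ range t, chi (blk bl i) (t - i) x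

/-- its majorant -/
noncomputable def zeS (bl : ι → ℕ) (t : ℕ) (x : ι → Bool) : ℝ :=
  ∏ i ∈ range t, zeta (blk bl i) (t - i) x

omit [DecidableEq ι] in
lemma mem_blk {bl : ι → ℕ} {i : ℕ} {p : ι} : p ∈ blk bl i ↔ bl p = i := by simp [blk]

omit [DecidableEq ι] in
lemma nuS_zero (bl : ι → ℕ) (t : ℕ) : nuS bl t (fun _ => false) = 1 :=
  prod_eq_one fun _ _ => chi_zero _ _

omit [DecidableEq ι] in
lemma nuS_pow_le (bl : ι → ℕ) (t : ℕ) (x : ι → Bool) {q : ℕ} (hq : 1 ≤ q) (hq' : q ≤ 4) :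
    |nuS bl t x| ^ q ≤ zeS bl t x := by
  rw [nuS, abs_prod, ← prod_pow]
  exact prod_le_prod (fun _ _ => by positivity) fun i _ => chi_pow_le _ _ _ hq hq'

omit [DecidableEq ι] in
lemma zeS_nonneg (bl : ι → ℕ) (t : ℕ) (x : ι → Bool) : 0 ≤ zeS bl t x :=
  prod_nonneg fun _ _ => zeta_nonneg _ _ _

omit [DecidableEq ι] in
lemma dep_nuS (bl : ι → ℕ) (t : ℕ) : Dep (fun p => bl p < t) (nuS bl t) :=
  Dep.prod _ fun i hi => (dep_chi _ _).mono fun p hp => by
    rw [mem_blk.mp hp]; exact mem_range.mp hi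

omit [DecidableEq ι] in
lemma dep_zeS (bl : ι → ℕ) (t : ℕ) : Dep (fun p => bl p < t) (zeS bl t) :=
  Dep.prod _ fun i hi => (dep_zeta _ _).mono fun p hp => by
    rw [mem_blk.mp hp]; exact mem_range.mp hi

lemma sum_half_le (t : ℕ) : ∑ i ∈ range t, (1 / 2 : ℝ) ^ (t - i) ≤ 1 := by
  have : ∑ i ∈ range t, (1 / 2 : ℝ) ^ (t - i) = 1 - (1 / 2) ^ t := by
    induction t with
    | zero => simp
    | succ t ih =>
      rw [sum_range_succ', Nat.sub_zero]
      simp only [Nat.add_sub_add_right, ih]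
      ring
  rw [this]
  linarith [pow_pos (show (0 : ℝ) < 1 / 2 by norm_num) t]

omit [DecidableEq ι] in
lemma prod_blocks (bl : ι → ℕ) (f : ι → ℝ) (t : ℕ) :
    ∏ i ∈ range t, ∏ p ∈ blk bl i, f p = ∏ p ∈ univ.filter (fun p => bl p < t), f p := by
  rw [← prod_fiberwise_of_maps_to (s := univ.filter (fun p => bl p < t)) (t := range t) (g := bl)
    (fun p hp => mem_range.mpr (mem_filter.mp hp).2)]
  refine prod_congr rfl fun i hi => prod_congr ?_ fun _ _ => rfl
  ext p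
  simp only [mem_blk, mem_filter, mem_univ, true_and]
  exact ⟨fun h => ⟨h ▸ mem_range.mp hi, h⟩, fun h => h.2⟩

lemma Ex_zeS {π : ι → ℝ} (h0 : ∀ p, 0 ≤ π p) (h2 : ∀ p, π p ≤ 1 / 2) {bl : ι → ℕ}
    (hθ : ∀ i, ∑ p ∈ blk bl i, π p ≤ 6) (t : ℕ) :
    Ex (bern π) (zeS bl t) ≤
      (∏ p ∈ univ.filter (fun p => bl p < t), (1 - π p)) * Real.exp (Real.exp 198) := by
  have h := Ex_blocks (bern_sum π) bl (fun i => zeta (blk bl i) (t - i))
    (fun i => (dep_zeta _ _).mono fun p hp => mem_blk.mp hp) t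
  refine h.le.trans ?_
  have hb := bern_nonneg h0 (fun p => by linarith [h2 p])
  refine (prod_le_prod (fun i _ => Ex_nonneg hb (zeta_nonneg _ _))
    fun i _ => Ex_zeta h0 h2 (hθ i) _).trans ?_
  rw [prod_mul_distrib, prod_blocks, ← Real.exp_sum, ← mul_sum]
  refine mul_le_mul_of_nonneg_left (Real.exp_le_exp.mpr ?_)
    (prod_nonneg fun p _ => by linarith [h2 p])
  exact mul_le_of_le_one_right (Real.exp_pos _).le (sum_half_le t)

lemma sum_lin_le (t : ℕ) : ∑ i ∈ range t, (1 + ((t - i : ℕ) : ℝ) * 2 ^ (i + 1)) ≤ 5 * 2 ^ t := by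
  have : ∑ i ∈ range t, (1 + ((t - i : ℕ) : ℝ) * 2 ^ (i + 1)) = 4 * 2 ^ t - t - 4 := by
    induction t with
    | zero => simp
    | succ t ih =>
      rw [sum_range_succ', Nat.sub_zero]
      simp only [Nat.add_sub_add_right]
      have e : ∑ i ∈ range t, (1 + ((t - i : ℕ) : ℝ) * 2 ^ (i + 1 + 1)) =
          2 * ∑ i ∈ range t, (1 + ((t - i : ℕ) : ℝ) * 2 ^ (i + 1)) - t := by
        rw [mul_sum, eq_sub_iff_add_eq]
        have : (t : ℝ) = ∑ _i ∈ range t, (1 : ℝ) := by simp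
        conv_lhs => rw [this]
        rw [← sum_add_distrib]
        exact sum_congr rfl fun i _ => by ring
      rw [e, ih]
      push_cast
      ring
  rw [this]
  have h1 : (0 : ℝ) < 2 ^ t := by positivity
  have h2 : (0 : ℝ) ≤ t := Nat.cast_nonneg _
  linarith

lemma poly_nuS {bl : ι → ℕ} {lz : ℝ} (hlz : 1 ≤ lz)
    (hcard : ∀ i, ((blk bl i).card : ℝ) + 7 ≤ Real.exp (2 ^ (i + 1) * lz)) (t : ℕ) :
    Poly (Real.exp (5 * 2 ^ t * lz)) (nuS bl t) := by
  refine (Poly.prod (range t) fun i _ => poly_chi (blk bl i) (t - i)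
    (Q := Real.exp (2 ^ (i + 1) * lz)) (by linarith [hcard i])).le ?_
  simp only [← Real.exp_nat_mul, ← Real.exp_add]
  rw [← Real.exp_sum]
  refine Real.exp_le_exp.mpr (le_trans ?_ (mul_le_mul_of_nonneg_right (sum_lin_le t)
    (by linarith)))
  rw [sum_mul]
  exact sum_le_sum fun i _ => by nlinarith

/-- centred number of hits of a block -/
def Dd (π : ι → ℝ) (s : Finset ι) (x : ι → Bool) : ℝ := ∑ p ∈ s, (π p - ind (x p))

omit [Fintype ι] [DecidableEq ι] in
lemma dep_Dd (π : ι → ℝ) (s : Finset ι) : Dep (fun p => p ∈ s) (Dd π s) := fun x y h =>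
  sum_congr rfl fun p hp => by rw [h p hp]

lemma Ex_Dd (π : ι → ℝ) (s : Finset ι) : Ex (bern π) (Dd π s) = 0 := by
  unfold Dd
  rw [Ex_sum]
  refine sum_eq_zero fun p _ => ?_
  have := Ex_setprod π {p} (fun q v => π q - ind v)
  simp only [prod_singleton] at this
  rw [this]
  simp only [ind, if_true, Bool.false_eq_true, if_false]
  ring

omit [Fintype ι] [DecidableEq ι] in
lemma abs_Dd_le {π : ι → ℝ} (h0 : ∀ p, 0 ≤ π p) {s : Finset ι} (hs : ∑ p ∈ s, π p ≤ 6)
    (x : ι → Bool) : |Dd π s x| ≤ 7 * 2 ^ (hits s x).card := by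
  have h1 : ∑ p ∈ s, ind (x p) = (hits s x).card := by
    simp [ind, hits]
  have h2 : ((hits s x).card : ℝ) ≤ 2 ^ (hits s x).card := by
    exact_mod_cast Nat.lt_two_pow_self.le
  have h3 : (1 : ℝ) ≤ 2 ^ (hits s x).card := one_le_pow₀ (by norm_num)
  have h4 : 0 ≤ ∑ p ∈ s, π p := sum_nonneg fun p _ => h0 p
  have h5 : (0 : ℝ) ≤ (hits s x).card := Nat.cast_nonneg _
  rw [Dd, sum_sub_distrib, h1, abs_le]
  constructor <;> linarith

omit [Fintype ι] [DecidableEq ι] in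
lemma poly_Dd {π : ι → ℝ} (h0 : ∀ p, 0 ≤ π p) {s : Finset ι} (hs : ∑ p ∈ s, π p ≤ 6) :
    Poly ((s.card : ℝ) + 7) (Dd π s) := by
  refine ((Poly.sum s fun p _ => (Poly.const (π p)).add (Poly.mono (-1) {p})).congr
    fun x => sum_congr rfl fun p _ => by simp [mon, sub_eq_add_neg]).le ?_
  simp only [abs_of_nonneg (h0 _), abs_neg, abs_one, sum_add_distrib, sum_const, nsmul_eq_mul,
    mul_one]
  linarith

end Pool.Agent.Lib.MP_458f0b_nt
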