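import Pool.Agent.Lib.MP_458f0b_nt.H37Core

open Finset Filter

namespace Pool.Agent.Lib.MP_458f0b_nt

/-- the number of scales per unit of the parameter -/
noncomputable def CT : ℝ := 501760000 * CX

lemma CT_ge : 501760000 ≤ CT := by
  unfold CT
  linarith [one_le_CX]

lemma ev_basic : ∀ᶠ ℓ : ℝ in atTop, 100 ≤ ℓ ∧ 1 ≤ Real.log ℓ ∧ 5680 * Real.log ℓ ^ 2 ≤ √ℓ ∧
    ℓ ^ 2 ≤ Real.exp (ℓ / 20) := by
  have e1 := Real.tendsto_log_atTop.eventually (ev_pow_exp 5680 2 (b := 1 / 2) (by norm_num))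
  filter_upwards [e1, ev_pow_exp 1 2 (b := 1 / 20) (by norm_num), eventually_ge_atTop 100,
    Real.tendsto_log_atTop.eventually (eventually_ge_atTop 1)] with ℓ h1 h2 h3 h4
  refine ⟨h3, h4, h1.trans (le_of_eq ?_), ?_⟩
  · rw [Real.sqrt_eq_rpow, Real.rpow_def_of_pos (by linarith), mul_comm]
  · rw [one_mul, show 1 / 20 * ℓ = ℓ / 20 by ring] at h2
    exact h2

lemma params {ℓ lam : ℝ} (hℓ : 100 ≤ ℓ) (hl : 1 ≤ Real.log ℓ) (hs : 5680 * Real.log ℓ ^ 2 ≤ √ℓ)
    (h1 : 1 ≤ lam) (h2 : lam ≤ 1 / (4 * CT) * Real.log ℓ) :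
    ∃ z t0 T : ℕ, ℓ ^ 70 ≤ z ∧ Real.log z ≤ 71 * Real.log ℓ ∧ 1 ≤ Real.log z ∧
      CT * lam ≤ T ∧ T ≤ 2 * CT * lam ∧ (2 : ℝ) ^ (t0 + T) ≤ ℓ ∧
      T * (8 * 2 ^ (t0 + T) * Real.log z) ≤ ℓ / 20 ∧
      ℓ / 20 ≤ 2 * T * (8 * 2 ^ (t0 + T) * Real.log z) := by
  have hC := CT_ge
  set z := ⌈ℓ ^ 70⌉₊ with hz
  set T := ⌈CT * lam⌉₊ with hT
  have a1 : ℓ ^ 70 ≤ z := Nat.le_ceil _
  have a0 : (1 : ℝ) ≤ ℓ ^ 70 := one_le_pow₀ (by linarith)
  have a2 : (z : ℝ) ≤ ℓ ^ 71 := by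
    have := Nat.ceil_lt_add_one (a := ℓ ^ 70) (by positivity)
    rw [pow_succ ℓ 70]
    nlinarith
  have a3 : Real.log z ≤ 71 * Real.log ℓ := by
    have := Real.log_le_log (by linarith) a2
    rw [Real.log_pow] at this
    exact_mod_cast this
  have a4 : 1 ≤ Real.log z := by
    refine hl.trans (Real.log_le_log (by linarith) (le_trans ?_ a1))
    exact le_self_pow₀ (by linarith) (by norm_num)
  have a5 : CT * lam ≤ T := Nat.le_ceil _
  have a5' : 1 ≤ CT * lam := by nlinarith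
  have a6 : (T : ℝ) ≤ 2 * CT * lam := by
    have := Nat.ceil_lt_add_one (a := CT * lam) (by positivity)
    linarith
  have a7 : (T : ℝ) ≤ Real.log ℓ / 2 := by
    refine a6.trans ?_
    calc 2 * CT * lam ≤ 2 * CT * (1 / (4 * CT) * Real.log ℓ) := by gcongr
      _ = _ := by field_simp; norm_num
  have a8 : (2 : ℝ) ^ T ≤ √ℓ := by
    calc (2 : ℝ) ^ T ≤ Real.exp 1 ^ T := by
          gcongr
          linarith [Real.add_one_le_exp 1]
      _ = Real.exp (T * 1) := by rw [Real.exp_nat_mul]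
      _ ≤ Real.exp (Real.log ℓ * (1 / 2)) := Real.exp_le_exp.mpr (by linarith)
      _ = _ := by rw [Real.sqrt_eq_rpow, Real.rpow_def_of_pos (by linarith)]
  have hT1 : (1 : ℝ) ≤ T := a5'.trans a5
  set D := T * (8 * Real.log z) with hD
  have hD0 : 1 ≤ D := by nlinarith
  have a9 : 2 ^ T ≤ ℓ / 20 / D := by
    rw [le_div_iff₀ (by linarith)]
    have b1 : D ≤ √ℓ / 20 := by
      calc D ≤ Real.log ℓ / 2 * (8 * (71 * Real.log ℓ)) := by rw [hD]; gcongr
        _ ≤ _ := by nlinarith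
    calc _ ≤ √ℓ * (√ℓ / 20) := by gcongr
      _ = _ := by rw [← mul_div_assoc, Real.mul_self_sqrt (by linarith)]
  set Q := ⌊ℓ / 20 / D⌋₊ with hQ
  have b1 : 2 ^ T ≤ Q := Nat.le_floor (by exact_mod_cast a9)
  have b2 : Q ≠ 0 := by have := Nat.two_pow_pos T; omega
  have b3 : T ≤ Nat.log 2 Q := Nat.le_log_of_pow_le (by norm_num) b1
  have b4 : (2 : ℝ) ^ Nat.log 2 Q ≤ ℓ / 20 / D :=
    le_trans (by exact_mod_cast Nat.pow_log_le_self 2 b2) (Nat.floor_le (by positivity))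
  have b5 : ℓ / 20 / D ≤ (2 : ℝ) ^ (Nat.log 2 Q + 1) := by
    have c1 : Q + 1 ≤ 2 ^ (Nat.log 2 Q + 1) := Nat.lt_pow_succ_log_self (by norm_num) Q
    exact (Nat.lt_floor_add_one _).le.trans (by exact_mod_cast c1)
  refine ⟨z, Nat.log 2 Q - T, T, a1, a3, a4, a5, a6, ?_, ?_, ?_⟩ <;>
    rw [Nat.sub_add_cancel b3]
  · refine b4.trans ?_
    rw [div_le_iff₀ (by linarith)]
    nlinarith
  · rw [le_div_iff₀ (by linarith), hD] at b4
    linarith
  · rw [div_le_iff₀ (by linarith), hD, pow_succ] at b5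
    linarith

lemma numerics {ℓ lam L lz : ℝ} {z t0 T : ℕ} (hℓ : 100 ≤ ℓ) (hl : 1 ≤ Real.log ℓ)
    (h1 : 1 ≤ lam) (h2 : lam ≤ 1 / (4 * CT) * Real.log ℓ) (hL0 : 0 ≤ L)
    (hL : L ≤ 7 * lam * ℓ / Real.log ℓ) (p1 : ℓ ^ 70 ≤ z) (p2 : lz ≤ 71 * Real.log ℓ)
    (p3 : 1 ≤ lz) (p4 : CT * lam ≤ T) (p5 : T ≤ 2 * CT * lam) (p6 : (2 : ℝ) ^ (t0 + T) ≤ ℓ)
    (p7 : T * (8 * 2 ^ (t0 + T) * lz) ≤ ℓ / 20) (p8 : ℓ / 20 ≤ 2 * T * (8 * 2 ^ (t0 + T) * lz)) :
    L ≤ ℓ ∧ L * T ≤ z ∧ L * (6272 * CX * lz / T) ≤ ℓ / 20 / 8 ∧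
    L * (CX / 2 ^ (t0 + T)) * Real.exp (-(ℓ / 20 / (4 * (8 * 2 ^ (t0 + T) * lz)))) ≤ 1 / 8 ∧
    ((T : ℝ) + 1) ^ 4 * L ^ 2 * ((196 * Real.exp (18 * (t0 + T : ℕ))) ^ 2 * (4 / z)) ≤ 1 / 8 ∧
    L * (15 * (1 + T ^ 3) * 7 ^ 4 * (T * (CX / 2 ^ t0))) + 6 ≤ Real.exp (16 * CT * lam) := by
  have hC := CT_ge
  have hX := one_le_CX
  have hT : (501760000 : ℝ) ≤ T := by nlinarith
  have hLl : L * lz ≤ 500 * lam * ℓ := by
    calc L * lz ≤ 7 * lam * ℓ / Real.log ℓ * (71 * Real.log ℓ) := by gcongr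
      _ = 497 * (lam * ℓ) := by field_simp; norm_num
      _ ≤ _ := by nlinarith [mul_pos (by linarith : 0 < lam) (by linarith : 0 < ℓ)]
  have q1 : L ≤ ℓ := by
    refine hL.trans ?_
    rw [div_le_iff₀ (by linarith)]
    have : lam ≤ 1 / 7 * Real.log ℓ := by
      refine h2.trans ?_
      gcongr
      linarith
    nlinarith
  have hT2 : (T : ℝ) + 1 ≤ 2 ^ T := by exact_mod_cast Nat.lt_two_pow_self
  have hTB : (2 : ℝ) ^ T ≤ 2 ^ (t0 + T) := pow_le_pow_right₀ (by norm_num) (Nat.le_add_left _ _)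
  have hTl : (T : ℝ) + 1 ≤ ℓ := hT2.trans (hTB.trans p6)
  set sm := 8 * 2 ^ (t0 + T) * lz with hsm
  have hsm0 : 0 < sm := by positivity
  have hLB : L / 2 ^ (t0 + T) ≤ 80000 * lam * (ℓ / 20 / sm) := by
    calc L / 2 ^ (t0 + T) = 8 * (L * lz) / sm := by rw [hsm]; field_simp
      _ ≤ 8 * (500 * lam * ℓ) / sm := by gcongr
      _ = _ := by ring
  set R := ℓ / 20 / sm with hR
  have hR1 : T ≤ R := by rw [hR, le_div_iff₀ hsm0]; exact p7
  have hR2 : R ≤ 2 * T := by rw [hR, div_le_iff₀ hsm0]; exact p8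
  have hCT : CT = 501760000 * CX := rfl
  refine ⟨q1, ?_, ?_, ?_, ?_, ?_⟩
  · refine le_trans ?_ p1
    calc L * T ≤ ℓ * ℓ := by gcongr; linarith
      _ = ℓ ^ 2 := by ring
      _ ≤ _ := pow_le_pow_right₀ (by linarith) (by norm_num)
  · calc L * (6272 * CX * lz / T) = 6272 * CX * (L * lz) / T := by ring
      _ ≤ 6272 * CX * (500 * lam * ℓ) / T := by gcongr
      _ = CT * lam / T * (ℓ / 20 / 8) := by rw [hCT]; ring
      _ ≤ 1 * (ℓ / 20 / 8) := by
          gcongr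
          rwa [div_le_one (by linarith)]
      _ = _ := one_mul _
  · have b1 : ℓ / 20 / (4 * sm) = R / 4 := by rw [hR]; field_simp
    have b2 : R ^ 2 / 32 ≤ Real.exp (R / 4) := by
      have := Real.pow_div_factorial_le_exp (R / 4) (by linarith) 2
      norm_num [Nat.factorial] at this
      linarith
    rw [b1, Real.exp_neg, ← div_eq_mul_inv, div_le_iff₀ (Real.exp_pos _)]
    calc L * (CX / 2 ^ (t0 + T)) = CX * (L / 2 ^ (t0 + T)) := by ring
      _ ≤ CX * (80000 * lam * R) := by gcongr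
      _ = CT * lam * R / 6272 := by rw [hCT]; ring
      _ ≤ R * R / 6272 := by
          gcongr
          linarith
      _ ≤ 1 / 8 * (R ^ 2 / 32) := by nlinarith
      _ ≤ _ := by gcongr
  · have b1 : Real.exp (18 * (t0 + T : ℕ)) ≤ ℓ ^ 27 := by
      have c1 : Real.exp 18 ≤ 2 ^ 27 := by
        rw [← Real.le_log_iff_exp_le (by norm_num), Real.log_pow]
        have := Real.log_two_gt_d9
        push_cast
        linarith
      calc _ = Real.exp 18 ^ (t0 + T) := by rw [mul_comm, Real.exp_nat_mul]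
        _ ≤ (2 ^ 27) ^ (t0 + T) := by gcongr
        _ = (2 ^ (t0 + T)) ^ 27 := by rw [← pow_mul, ← pow_mul, mul_comm]
        _ ≤ _ := by gcongr
    have b2 : (100 : ℝ) ^ 10 ≤ ℓ ^ 10 := by gcongr
    calc _ ≤ ℓ ^ 4 * ℓ ^ 2 * ((196 * ℓ ^ 27) ^ 2 * (4 / ℓ ^ 70)) := by gcongr
      _ = 153664 / ℓ ^ 10 := by field_simp; norm_num
      _ ≤ 153664 / 100 ^ 10 := by gcongr
      _ ≤ _ := by norm_num
  · have b0 : lam ≤ T := by nlinarith
    set E : ℝ := 2 ^ T with hE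
    have b1 : (T : ℝ) ≤ E := by linarith
    have b2 : L / 2 ^ (t0 + T) ≤ 160000 * T ^ 2 := by
      calc _ ≤ 80000 * lam * R := hLB
        _ ≤ 80000 * T * (2 * T) := by gcongr
        _ = _ := by ring
    have b3 : 1 + (T : ℝ) ^ 3 ≤ 2 * T ^ 3 := by
      linarith [one_le_pow₀ (n := 3) (by linarith : (1 : ℝ) ≤ T)]
    have b4 : 11524800000 * CX ≤ (T : ℝ) ^ 2 := by nlinarith
    have b5 : L * (15 * (1 + T ^ 3) * 7 ^ 4 * (T * (CX / 2 ^ t0))) ≤ E ^ 9 := by
      calc _ = L / 2 ^ (t0 + T) * (15 * (1 + T ^ 3) * 7 ^ 4 * (T * CX * E)) := by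
            rw [hE, pow_add]; field_simp
        _ ≤ 160000 * T ^ 2 * (15 * (2 * T ^ 3) * 7 ^ 4 * (T * CX * E)) := by gcongr
        _ = 11524800000 * CX * T ^ 6 * E := by ring
        _ ≤ T ^ 2 * T ^ 6 * E := by gcongr
        _ ≤ E ^ 2 * E ^ 6 * E := by gcongr
        _ = _ := by ring
    have b6 : E ^ 9 ≤ Real.exp (7 * T) := by
      have c1 : (2 : ℝ) ^ 9 ≤ Real.exp 7 := by
        rw [← Real.log_le_iff_le_exp (by norm_num), Real.log_pow]
        have := Real.log_two_lt_d9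
        push_cast
        linarith
      calc E ^ 9 = (2 ^ 9) ^ T := by rw [hE, ← pow_mul, ← pow_mul, mul_comm]
        _ ≤ Real.exp 7 ^ T := by gcongr
        _ = _ := by rw [← Real.exp_nat_mul, mul_comm]
    have b7 : Real.exp (7 * T) + 6 ≤ Real.exp (8 * T) := by
      rw [show 8 * (T : ℝ) = 7 * T + T by ring, Real.exp_add]
      have c1 : 1 ≤ Real.exp (7 * T) := Real.one_le_exp (by linarith)
      have c2 := Real.add_one_le_exp (T : ℝ)
      nlinarith
    have b8 : Real.exp (8 * T) ≤ Real.exp (16 * CT * lam) := Real.exp_le_exp.mpr (by linarith)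
    linarith

lemma least_prime_ge {k a Y : ℕ} (hk : 2 ≤ k) (ha : a ∈ Ioc (k / 2) k) (hak : Nat.Coprime a k)
    (h : ∀ j < Y, ∃ p : ℕ, p.Prime ∧ 2 * p < k ∧ p ∣ a + j * k) :
    a < k ∧ Y * k ≤ sInf {p : ℕ | p.Prime ∧ p % k = a} := by
  obtain ⟨ha1, ha2⟩ := mem_Ioc.mp ha
  have halt : a < k := by
    refine lt_of_le_of_ne ha2 fun h => ?_
    rw [h, Nat.coprime_self] at hak
    omega
  refine ⟨halt, ?_⟩
  have hne : {p : ℕ | p.Prime ∧ p % k = a}.Nonempty := by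
    obtain ⟨p, -, hp, hpa⟩ := Nat.forall_exists_prime_gt_and_modEq 0 (q := k) (by omega) hak
    exact ⟨p, hp, by rw [hpa, Nat.mod_eq_of_lt halt]⟩
  obtain ⟨hq, hqa⟩ := Nat.sInf_mem hne
  set q := sInf {p : ℕ | p.Prime ∧ p % k = a}
  have hqe : a + q / k * k = q := by rw [← hqa]; exact Nat.mod_add_div' q k
  by_contra hlt
  have hj : q / k < Y := by
    by_contra h
    exact hlt ((Nat.mul_le_mul_right k (not_lt.mp h)).trans (Nat.div_mul_le_self q k))
  obtain ⟨p, hp, hpl, hpd⟩ := h _ hj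
  rw [hqe, Nat.prime_dvd_prime_iff_eq hp hq] at hpd
  omega

lemma half_classes {W : ℕ} (hW : 0 < W) (k Y : ℕ) (hY : 0 < Y) :
    (W : ℝ) / 2 ≤ ((range W).filter fun a0 =>
      (((range Y).filter fun j => W.Coprime (a0 + j * k)).card : ℝ) ≤
        2 * (Y * (W.totient / W))).card := by
  set S : ℕ → ℝ := fun a0 => (((range Y).filter fun j => W.Coprime (a0 + j * k)).card : ℝ)
  have hWr : (0 : ℝ) < W := by exact_mod_cast hW
  have h1 : ∑ a0 ∈ range W, S a0 = Y * W.totient := by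
    simp only [S, card_filter]
    push_cast
    rw [sum_comm]
    have : ∀ j, ∑ a0 ∈ range W, (if W.Coprime (a0 + j * k) then (1 : ℝ) else 0) = W.totient := by
      intro j
      rw [range_eq_Ico, sum_Ico_add' (fun x => if W.Coprime x then (1 : ℝ) else 0), zero_add,
        add_comm W, ← Nat.filter_coprime_Ico_eq_totient W (j * k), card_filter]
      push_cast
      rfl
    simp only [this, sum_const, card_range, nsmul_eq_mul]
  set m : ℝ := Y * (W.totient / W) with hm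
  have hm0 : 0 < m := by
    have : 0 < W.totient := Nat.totient_pos.mpr hW
    positivity
  have h2 : (((range W).filter fun a0 => ¬ S a0 ≤ 2 * m).card : ℝ) * (2 * m) ≤ m * W := by
    calc _ = ∑ _a0 ∈ (range W).filter fun a0 => ¬ S a0 ≤ 2 * m, 2 * m := by
          rw [sum_const, nsmul_eq_mul]
      _ ≤ ∑ a0 ∈ (range W).filter fun a0 => ¬ S a0 ≤ 2 * m, S a0 :=
          sum_le_sum fun a0 h => (not_le.mp (mem_filter.mp h).2).le
      _ ≤ ∑ a0 ∈ range W, S a0 :=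
          sum_le_sum_of_subset_of_nonneg (filter_subset _ _) fun _ _ _ => Nat.cast_nonneg _
      _ = _ := by rw [h1, hm]; field_simp
  have h3 := card_filter_add_card_filter_not (s := range W) (fun a0 => S a0 ≤ 2 * m)
  rw [card_range] at h3
  have h4 : (((range W).filter fun a0 => S a0 ≤ 2 * m).card : ℝ) +
      ((range W).filter fun a0 => ¬ S a0 ≤ 2 * m).card = W := by exact_mod_cast h3
  have h5 : (((range W).filter fun a0 => ¬ S a0 ≤ 2 * m).card : ℝ) * 2 ≤ W :=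
    le_of_mul_le_mul_left (by linarith) hm0
  linarith

theorem tail : ∀ᶠ k : ℕ in atTop, ∀ lam : ℝ, 1 ≤ lam →
    lam ≤ 1 / (4 * CT) * Real.log (Real.log k) →
    (k.totient : ℝ) * Real.exp (-Real.exp (16 * CT * lam)) ≤
      ((range k).filter fun a => Nat.Coprime a k ∧ lam * (k.totient * Real.log k) <
        ((sInf {p : ℕ | p.Prime ∧ p % k = a} : ℕ) : ℝ)).card := by
  classical
  filter_upwards [tendsto_log_nat.eventually ev_basic, tendsto_log_nat.eventually ev_omega,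
    eventually_ge_atTop 16] with k hb hω hk lam h1 h2
  obtain ⟨hℓ, hl, hs, he⟩ := hb
  set ℓ := Real.log k with hℓdef
  have hk0 : 0 < k := by omega
  have hkr : (16 : ℝ) ≤ k := by exact_mod_cast hk
  have hek : Real.exp ℓ = k := Real.exp_log (by linarith)
  have hω' := hω k hk0 le_rfl
  obtain ⟨z, t0, T, p1, p2, p3, p4, p5, p6, p7, p8⟩ := params hℓ hl hs h1 h2
  have hC := CT_ge
  have hT : (501760000 : ℝ) ≤ T :=
    hC.trans ((le_mul_of_one_le_right (by linarith) h1).trans p4)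
  have hz2 : ℓ ^ 2 ≤ z := (pow_le_pow_right₀ (by linarith) (by norm_num)).trans p1
  have hz3 : 100 * ℓ ≤ ℓ ^ 2 := by
    rw [sq]
    exact mul_le_mul_of_nonneg_right hℓ (by linarith)
  have hlℓ : Real.log ℓ ≤ ℓ := (Real.log_le_sub_one_of_pos (by linarith)).trans (by linarith)
  have hlam : lam ≤ ℓ / 2 := by
    refine h2.trans ?_
    calc _ ≤ 1 / 2 * ℓ := by gcongr; linarith
      _ = _ := by ring
  have hsq' : √ℓ ≤ ℓ / 30 := by
    have a1 : (5680 : ℝ) ≤ √ℓ := by linarith [one_le_pow₀ (n := 2) hl]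
    have a2 := Real.mul_self_sqrt (by linarith : 0 ≤ ℓ)
    have a3 := mul_le_mul_of_nonneg_right a1 (Real.sqrt_nonneg ℓ)
    linarith
  set w := ⌊√ℓ⌋₊ with hw
  have hw1 : (w : ℝ) ≤ √ℓ := Nat.floor_le (Real.sqrt_nonneg _)
  set 𝒲 := w.primesLE.filter (fun p => ¬ p ∣ k) with h𝒲
  have h𝒲p : ∀ p ∈ 𝒲, p.Prime := fun p hp => (Nat.mem_primesLE.mp (mem_filter.mp hp).1).2
  set W := ∏ p ∈ 𝒲, p with hW
  have hW0 : 0 < W := prod_pos fun p hp => (h𝒲p p hp).pos
  have hWr : (0 : ℝ) < W := by exact_mod_cast hW0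
  have hWk : Nat.Coprime W k := Nat.Coprime.prod_left fun p hp =>
    (Nat.Prime.coprime_iff_not_dvd (h𝒲p p hp)).mpr (mem_filter.mp hp).2
  have hWw : ∀ p, p.Prime → p ∣ W → p ≤ w := by
    intro p hp hpW
    obtain ⟨q, hq, hpq⟩ := (Prime.dvd_finsetProd_iff hp.prime _).mp hpW
    rw [(Nat.prime_dvd_prime_iff_eq hp (h𝒲p q hq)).mp hpq]
    exact (Nat.mem_primesLE.mp (mem_filter.mp hq).1).1
  have hWl : (W : ℝ) ≤ Real.exp (ℓ / 20) :=
    (prod_primes_le w _ (filter_subset _ _)).trans (Real.exp_le_exp.mpr (by linarith))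
  have hwz : w ≤ z := by
    have : (w : ℝ) ≤ z := by linarith
    exact_mod_cast this
  set F := ∏ q ∈ k.primeFactors, (1 - (q : ℝ)⁻¹) with hF
  have hFφ : (k.totient : ℝ) / k = F := by
    have := congrArg (fun x : ℚ => (x : ℝ)) (Nat.totient_eq_mul_prod_factors k)
    push_cast at this
    rw [this, ← hF]
    field_simp
  have hF0 : Real.exp (-(ℓ / 40)) ≤ F := by
    refine le_trans ?_ (show ((2 : ℝ) ^ k.primeFactors.card)⁻¹ ≤ F from ?_)
    · rw [Real.exp_neg]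
      exact inv_anti₀ (by positivity) hω'
    · rw [← inv_pow, ← prod_const]
      refine prod_le_prod (fun _ _ => by norm_num) fun q hq => ?_
      linarith [inv_le_half (Nat.prime_of_mem_primeFactors hq)]
  have hFpos : 0 < F := (Real.exp_pos _).trans_le hF0
  have hF1 : F ≤ 1 := by
    rw [← hFφ, div_le_one (by linarith)]
    exact_mod_cast Nat.totient_le k
  have hQ : (W.totient : ℝ) / W * F * (Real.log ℓ / 2) ≤ 1 := by
    have a1 := prodW hk0 w
    have a2 : (W.totient : ℝ) / W = ∏ p ∈ 𝒲, (1 - (p : ℝ)⁻¹) := by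
      have := congrArg (fun x : ℚ => (x : ℝ)) (Nat.totient_eq_mul_prod_factors W)
      push_cast at this
      rw [this, hW, Nat.primeFactors_prod h𝒲p, ← hW]
      field_simp
    have a3 : Real.log ℓ / 2 ≤ Real.log (w + 1) := by
      rw [← Real.log_sqrt (by linarith)]
      exact Real.log_le_log (Real.sqrt_pos.mpr (by linarith)) (Nat.lt_floor_add_one _).le
    rw [hFφ, ← a2] at a1
    exact le_trans (by gcongr) a1
  have hQ1 : (W.totient : ℝ) / W ≤ 1 := by
    rw [div_le_one hWr]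
    exact_mod_cast Nat.totient_le W
  set Y := ⌊lam * F * ℓ⌋₊ + 1 with hY
  have hY1 : lam * F * ℓ < Y := by rw [hY]; push_cast; exact Nat.lt_floor_add_one _
  have hY2 : (Y : ℝ) ≤ lam * F * ℓ + 1 := by
    rw [hY]; push_cast
    linarith [Nat.floor_le (by positivity : 0 ≤ lam * F * ℓ)]
  have hYz : Y ≤ z := by
    have a1 : lam * F * ℓ ≤ ℓ / 2 * 1 * ℓ := by gcongr
    have : (Y : ℝ) ≤ z := by linarith
    exact_mod_cast this
  set M := ((k : ℝ) - (k / 2 : ℕ)) / W * F with hM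
  have hk2 : ((k / 2 : ℕ) : ℝ) ≤ k / 2 := Nat.cast_div_le
  have hM1 : k / 2 / W * F ≤ M := by rw [hM]; gcongr; linarith
  have hM0 : 0 < M := lt_of_lt_of_le (by positivity) hM1
  have hωz : 2 * k.primeFactors.card ≤ z := by
    have a1 : (k.primeFactors.card : ℝ) * Real.log 2 ≤ ℓ / 40 := by
      rw [← Real.log_pow, Real.log_le_iff_le_exp (by positivity)]
      exact hω'
    have a2 := Real.log_two_gt_d9
    have a3 : (0 : ℝ) ≤ k.primeFactors.card := by positivity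
    have a4 := mul_le_mul_of_nonneg_left a2.le a3
    have : (2 * k.primeFactors.card : ℝ) ≤ z := by linarith
    exact_mod_cast this
  have n7 : 2 ^ k.primeFactors.card * Real.exp (8 * (ℓ / 20) + 4) ≤ M / 8 := by
    have a1 : (16 : ℝ) ≤ Real.exp (ℓ / 2 - 4) := by
      linarith [Real.add_one_le_exp (ℓ / 2 - 4)]
    calc _ ≤ Real.exp (ℓ / 40) * Real.exp (8 * (ℓ / 20) + 4) * (Real.exp (ℓ / 2 - 4) / 16) := by
          refine le_trans ?_ (le_mul_of_one_le_right (by positivity) (by linarith))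
          gcongr
      _ = Real.exp (ℓ / 40 + (8 * (ℓ / 20) + 4) + (ℓ / 2 - 4)) / 16 := by
          rw [Real.exp_add _ (ℓ / 2 - 4), Real.exp_add (ℓ / 40)]; ring
      _ = Real.exp ℓ / 2 / Real.exp (ℓ / 20) * Real.exp (-(ℓ / 40)) / 8 := by
          rw [show ℓ / 40 + (8 * (ℓ / 20) + 4) + (ℓ / 2 - 4) = ℓ - ℓ / 20 + -(ℓ / 40) by ring,
            Real.exp_add, Real.exp_sub]
          ring
      _ ≤ k / 2 / W * F / 8 := by rw [hek]; gcongr
      _ ≤ _ := by gcongr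
  have p9 : 16 * (8 * 2 ^ (t0 + T) * Real.log z) ≤ ℓ / 20 :=
    (mul_le_mul_of_nonneg_right (by linarith) (by positivity)).trans p7
  have hsmall : ∀ p : ℕ, p ≤ z ^ 2 ^ (t0 + T) → 2 * p < k := by
    intro p hp
    have a1 : (p : ℝ) ≤ Real.exp (ℓ / 2) := by
      have b1 : (0 : ℝ) < (z ^ 2 ^ (t0 + T) : ℕ) := by
        have : (0 : ℝ) < z := by linarith
        push_cast
        positivity
      have b2 : (0 : ℝ) ≤ 2 ^ (t0 + T) * Real.log z := by positivity
      calc (p : ℝ) ≤ (z ^ 2 ^ (t0 + T) : ℕ) := by exact_mod_cast hp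
        _ = Real.exp (2 ^ (t0 + T) * Real.log z) := by rw [← log_tower, Real.exp_log b1]
        _ ≤ _ := Real.exp_le_exp.mpr (by linarith)
    have a2 : Real.exp (ℓ / 2) * Real.exp (ℓ / 2) = k := by
      rw [← Real.exp_add, ← hek]; congr 1; ring
    have a3 := Real.add_one_le_exp (ℓ / 2)
    have a4 := mul_lt_mul_of_pos_right (by linarith : 2 < Real.exp (ℓ / 2)) (Real.exp_pos (ℓ / 2))
    have : (2 * p : ℝ) < k := by linarith
    exact_mod_cast this
  set Tg := (range k).filter fun a => Nat.Coprime a k ∧ lam * (k.totient * ℓ) <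
        ((sInf {p : ℕ | p.Prime ∧ p % k = a} : ℕ) : ℝ) with hTg
  set E := Real.exp (16 * CT * lam) with hE
  have key : ∀ a0 ∈ (range W).filter fun a0 =>
      (((range Y).filter fun j => W.Coprime (a0 + j * k)).card : ℝ) ≤
        2 * (Y * (W.totient / W)),
      M * Real.exp (6 - E) / 32 ≤ (Tg.filter fun a => a % W = a0).card := by
    intro a0 ha0
    obtain ⟨ha1, ha2⟩ := mem_filter.mp ha0
    set S := (range Y).filter fun j => W.Coprime (a0 + j * k) with hS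
    have hL : ((insert 0 S).card : ℝ) ≤ 7 * lam * ℓ / Real.log ℓ := by
      have a1 : ((insert 0 S).card : ℝ) ≤ S.card + 1 := by exact_mod_cast card_insert_le 0 S
      have a2 : (Y : ℝ) * (W.totient / W) ≤ 2 * (lam * ℓ / Real.log ℓ) + 1 := by
        have b1 : lam * F * ℓ * (W.totient / W) ≤ 2 * (lam * ℓ / Real.log ℓ) := by
          rw [← mul_div_assoc 2, le_div_iff₀ (by linarith)]
          have := mul_le_mul_of_nonneg_left hQ (by positivity : 0 ≤ 2 * (lam * ℓ))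
          linarith
        calc _ ≤ (lam * F * ℓ + 1) * (W.totient / W) := by gcongr
          _ ≤ _ := by linarith
      have a3 : 1 ≤ lam * ℓ / Real.log ℓ := by
        rw [le_div_iff₀ (by linarith)]
        linarith [le_mul_of_one_le_left (by linarith : 0 ≤ ℓ) h1]
      rw [mul_assoc, mul_div_assoc]
      linarith
    obtain ⟨q1, q2, q3, q4, q5, q6⟩ := numerics hℓ hl h1 h2 (Nat.cast_nonneg _) hL p1 p2 p3 p4 p5
      p6 p7 p8
    have hc := core3 (u := k / 2) (v := k) (Λ := ℓ / 20) (t0 := t0) (T := T) (z := z) a0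
      (insert 0 S) hk0 (Nat.div_le_self _ _) hW0 hWk (fun p hp h => (hWw p hp h).trans hwz) hM hM0
      (insert_nonempty _ _)
      (fun n hn => by
        rcases mem_insert.mp hn with rfl | hn
        · exact Nat.zero_le _
        · exact (mem_range.mp (mem_filter.mp hn).1).le.trans hYz)
      (by
        have : (2 * (insert 0 S).card : ℝ) ≤ z := by linarith
        exact_mod_cast this)
      (by
        have : (7 : ℝ) ≤ z := by linarith
        exact_mod_cast this)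
      hωz
      (by
        have : (40 : ℝ) ≤ T := by linarith
        exact_mod_cast this)
      p9 q2 (by linarith) q3 q4 q5 n7
    refine le_trans ?_ (hc.trans (Nat.cast_le.mpr (card_le_card fun a ha => ?_)))
    · gcongr
      linarith
    · obtain ⟨b1, ⟨b2, b3⟩, b4⟩ := mem_filter.mp ha
      obtain ⟨c1, c2⟩ := least_prime_ge (Y := Y) (by omega) b1 b3 fun j hj => by
        by_cases hjS : j ∈ S
        · obtain ⟨p, d1, d2, d3⟩ := b4 j (mem_insert_of_mem hjS)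
          exact ⟨p, d1, hsmall p d2, d3⟩
        · have d0 : ¬ W.Coprime (a0 + j * k) := fun h =>
            hjS (mem_filter.mpr ⟨mem_range.mpr hj, h⟩)
          obtain ⟨p, d1, d2, d3⟩ := Nat.Prime.not_coprime_iff_dvd.mp d0
          refine ⟨p, d1, hsmall p (((hWw p d1 d2).trans hwz).trans
            (Nat.le_self_pow (by positivity) z)), ?_⟩
          rw [← Nat.modEq_zero_iff_dvd] at d3 ⊢
          exact ((b2.of_dvd d2).add_right _).trans d3
      refine mem_filter.mpr ⟨mem_filter.mpr ⟨mem_range.mpr c1, b3, ?_⟩, ?_⟩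
      · have d1 : ((Y * k : ℕ) : ℝ) ≤ (sInf {p : ℕ | p.Prime ∧ p % k = a} : ℕ) := by
          exact_mod_cast c2
        refine lt_of_lt_of_le ?_ d1
        have d2 : (k.totient : ℝ) = F * k := by rw [← hFφ]; field_simp
        rw [d2]
        push_cast
        linarith [mul_lt_mul_of_pos_right hY1 (by linarith : (0 : ℝ) < k)]
      · rw [b2, Nat.mod_eq_of_lt (mem_range.mp ha1)]
  have h3 := half_classes hW0 k Y (Nat.succ_pos _)
  have h4 : (Tg.card : ℝ) = ∑ a0 ∈ range W, ((Tg.filter fun a => a % W = a0).card : ℝ) := by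
    exact_mod_cast card_eq_sum_card_fiberwise (f := fun a => a % W) (s := Tg) (t := range W)
      fun a _ => mem_range.mpr (Nat.mod_lt _ hW0)
  have h5 := card_nsmul_le_sum _ _ _ key
  rw [nsmul_eq_mul] at h5
  rw [h4]
  refine le_trans ?_ (h5.trans (sum_le_sum_of_subset_of_nonneg (filter_subset _ _)
    fun _ _ _ => Nat.cast_nonneg _))
  have h6 : (128 : ℝ) ≤ Real.exp 6 := by
    have := Real.add_one_le_exp (1 : ℝ)
    rw [show (6 : ℝ) = (6 : ℕ) * 1 by norm_num, Real.exp_nat_mul]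
    calc (128 : ℝ) ≤ 2.7 ^ 6 := by norm_num
      _ ≤ _ := by gcongr; linarith [Real.exp_one_gt_d9]
  calc (k.totient : ℝ) * Real.exp (-E) = W / 2 * (k / 2 / W * F * (128 * Real.exp (-E)) / 32) := by
        rw [← hFφ]; field_simp; norm_num
    _ ≤ W / 2 * (M * (Real.exp 6 * Real.exp (-E)) / 32) := by gcongr
    _ ≤ _ := by
        rw [← Real.exp_add, ← sub_eq_add_neg]
        gcongr

end Pool.Agent.Lib.MP_458f0b_nt
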