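import Pool.Agent.Lib.MP_458f0b_nt.LxDefs

/-! The weight agrees with its model on most short progressions; an exceptional set. -/

namespace Pool.Agent.Lib.MP_9227d9_nt.Mob

open Polynomial

open scoped Classical

namespace Lx

variable {k : Type} [Field k] [Fintype k]

open PT in
theorem bt (hM1 : StM1) (hM2 : StM2) (c : Lx k) {K : ℝ} (hK : KB2 k c.U c.τ K) {M : k[X]}
    (hM : M ≠ 0) (hdeg : M.natDegree + 180 * c.τ ≤ c.dl) :
    ∃ β₀ : k[X] → ℝ, avm c.dl (fun b => β₀ b ^ 2) ≤ 4 * K / c.Q ^ 180 ∧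
      ∀ b, MD c.dl b → |avg (180 * c.τ) fun t => c.Wm (b + M * t)| ≤
        |β₀ b| + 2 * K ^ 2 / c.Q ^ 6 +
          if ∃ p ∈ pf M, 12 * c.τ ≤ p.natDegree ∧ p ∣ b then 2 * K else 0 := by
  have hτ := c.τ_pos
  have hd := c.dl_le
  have hd' := c.d_le
  have hK1 : 1 ≤ K := by linarith [hK.ten_le]
  have hQ1 : 2 ≤ c.Q := c.two_le_Q
  have hQ : 0 < c.Q := by linarith
  have hq : ∀ n : ℕ, 0 < qR k ^ n := fun n => pow_pos qR_pos n
  have hc0 : 0 ≤ cM M := zero_le_one.trans (one_le_cM M)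
  have hMU : M.natDegree ≤ 4 * c.U * c.τ := by rw [mul_assoc]; omega
  have hcK : cM M ≤ K := hK.cM_le hM hMU
  obtain ⟨θ, h1, h2⟩ := hK.var (c.r + 1) c.I M (180 * c.τ) c.r_le c.I_ge c.I_le hM hdeg
  have h3 := hM2 k (180 * c.τ) (12 * c.τ) c.dl M hM (by omega)
  let A : k[X] → ℝ := fun b => avg (180 * c.τ) fun t => Wt c.I (b + M * t)
  let P : k[X] → ℝ := fun b => ∏ p ∈ (pf M).filter (fun p => p.natDegree < 12 * c.τ), (1 + psi p b)
  let T : k[X] → ℝ := fun b =>
    ∑ S ∈ (SS k (180 * c.τ) (12 * c.τ)).filter (fun S => ∀ p ∈ S, p ∣ M), ∏ p ∈ S, psi p b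
  refine ⟨fun b => (if IsCoprime b M then A b - θ * cM M else 0) + (P b - T b), ?_, fun b hb => ?_⟩
  · have h4 : avm c.dl (fun b => ((if IsCoprime b M then A b - θ * cM M else 0) + (P b - T b)) ^ 2) ≤
        avm c.dl fun b => 2 * Ph c.I (180 * c.τ) θ M b ^ 2 + 2 * (P b - T b) ^ 2 := by
      refine avm_mono fun b _ => (add_sq_le' _ _ _).trans (le_of_eq ?_)
      unfold Ph
      split_ifs
      · rw [sq_abs]
      · simp
    rw [avm_add, avm_mul_left, avm_mul_left] at h4
    have h6 : (4 : ℝ) ^ (pf M).card / qR k ^ (180 * c.τ) ≤ K / c.Q ^ 180 := by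
      rw [c.Q_pow]
      refine div_le_div_of_nonneg_right (le_trans ?_ (hK.om M hM hMU)) (hq _).le
      exact pow_le_pow_left₀ (by norm_num) (by norm_num) _
    have h7 : avm c.dl (fun b => Ph c.I (180 * c.τ) θ M b ^ 2) ≤ K / c.Q ^ 180 := by
      rw [c.Q_pow]
      exact h2
    have h8 := h3.trans h6
    calc _ ≤ _ := h4
      _ ≤ 2 * (K / c.Q ^ 180) + 2 * (K / c.Q ^ 180) :=
        add_le_add (mul_le_mul_of_nonneg_left h7 zero_le_two)
          (mul_le_mul_of_nonneg_left h8 zero_le_two)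
      _ = 4 * K / c.Q ^ 180 := by ring
  · have hnn : 0 ≤ 2 * K ^ 2 / c.Q ^ 6 := by positivity
    by_cases hex : ∃ p ∈ pf M, 12 * c.τ ≤ p.natDegree ∧ p ∣ b
    · rw [if_pos hex]
      have h4 : |avg (180 * c.τ) fun t => c.Wm (b + M * t)| ≤ 2 * K :=
        abs_avg_le_of_le fun t ht => c.abs_Wm_le hK (hb.add (degree_mul_lt ht hdeg))
      exact h4.trans (le_add_of_nonneg_left (add_nonneg (abs_nonneg _) hnn))
    · simp only [Wm]
      rw [if_neg hex, add_zero, avg_sub]
      have hw : avg (180 * c.τ) (fun t => wm (180 * c.τ) (12 * c.τ) (b + M * t)) = T b :=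
        hM1 k (180 * c.τ) (12 * c.τ) (180 * c.τ) b M le_rfl
      have hP := prod_one_add_psi (S := (pf M).filter fun p => p.natDegree < 12 * c.τ)
        (fun p hp => isP_of_mem_pf (Finset.mem_filter.1 hp).1) b
      rw [hw]
      change |A b - T b| ≤ |(if IsCoprime b M then A b - θ * cM M else 0) + (P b - T b)| + _
      by_cases hcop : IsCoprime b M
      · rw [if_pos fun p hp => (isCoprime_iff_pf hM).1 hcop p (Finset.mem_filter.1 hp).1] at hP
        have h4 := cM_sub hM (12 * c.τ)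
        rw [← hP] at h4
        have h5 : cM M * (M.natDegree / qR k ^ (12 * c.τ)) ≤ K * (K / c.Q ^ 6) := by
          refine mul_le_mul hcK ?_ (div_nonneg (Nat.cast_nonneg _) (hq _).le) (by linarith)
          rw [c.Q_pow]
          refine div_le_div₀ (by linarith) ?_ (hq _) (pow_le_pow_right₀ one_le_qR (by omega))
          have h6 : (M.natDegree : ℝ) ≤ c.d := by exact_mod_cast (by omega)
          have h7 := c.d_le_K hK
          have h8 : (0 : ℝ) ≤ c.d := Nat.cast_nonneg _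
          linarith
        have h6 : |(θ - 1) * cM M| ≤ K / c.Q ^ 6 * K := by
          rw [abs_mul, abs_of_nonneg hc0, c.Q_pow]
          exact mul_le_mul h1 hcK hc0 (div_nonneg (by linarith) (hq _).le)
        rw [if_pos hcop]
        calc |A b - T b|
            = |(A b - θ * cM M + (P b - T b)) + ((θ - 1) * cM M + (cM M - P b))| := by ring_nf
          _ ≤ |A b - θ * cM M + (P b - T b)| + (K / c.Q ^ 6 * K + K * (K / c.Q ^ 6)) :=
            (abs_add_le _ _).trans (add_le_add le_rfl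
              ((abs_add_le _ _).trans (add_le_add h6 (h4.trans h5))))
          _ = _ := by ring
      · obtain ⟨p, hp, hpb⟩ : ∃ p ∈ pf M, p ∣ b := by
          by_contra hc
          push Not at hc
          exact hcop ((isCoprime_iff_pf hM).2 hc)
        have hlt : p.natDegree < 12 * c.τ := not_le.1 fun h => hex ⟨p, hp, h, hpb⟩
        have h0 : A b = 0 := avg_Wt_eq_zero (isP_of_mem_pf hp) hpb ((mem_pf hM).1 hp).2
          (fun i => hlt.trans_le (c.I_ge i)) _
        rw [if_neg fun h => h p (Finset.mem_filter.2 ⟨hp, hlt⟩) hpb] at hP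
        rw [if_neg hcop, zero_add, h0, show P b = 0 from hP]
        exact le_add_of_nonneg_right hnn

/-- One prime rarely divides the odd part. -/
theorem exo_one [CharP k 2] {H p : k[X]} {s nu : ℕ} (hp : IsP p) (h : ¬ p ^ 2 ∣ H)
    (hs : s ≤ p.natDegree) (hn : 2 * s ≤ nu) :
    avm nu (fun u => if p ∣ od (H * u) then (1 : ℝ) else 0) ≤ 1 / qR k ^ s := by
  obtain ⟨e, he, hd⟩ := exists_not_dvd_od hp h
  rw [avm_avg_shift s (fun σ => X ^ e * σ ^ 2) fun σ hσ => degree_mul_sq_lt hσ (by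
    rw [natDegree_X_pow]; omega)]
  refine avm_le_of_le fun u _ => ?_
  have h1 := avg_dvd_le (n := s) hp.1.ne_zero le_rfl hs (hp.isCoprime_iff.2 hd) (od (H * u))
  refine le_trans (le_of_eq (avg_congr fun σ _ => ?_)) h1
  rw [show H * (u + X ^ e * σ ^ 2) = H * u + H * X ^ e * σ ^ 2 by ring, od_add, od_mul_sq,
    mul_comm σ]

/-- A large prime factor of `N` rarely divides the odd part. -/
theorem exo [CharP k 2] {H N : k[X]} {s nu : ℕ} (hN : N ≠ 0)
    (h : ∀ p ∈ pf N, ¬ p ^ 2 ∣ H) (hn : 2 * s ≤ nu) :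
    avm nu (fun u => if ∃ p ∈ pf N, s ≤ p.natDegree ∧ p ∣ od (H * u) then (1 : ℝ) else 0) ≤
      N.natDegree / qR k ^ s := by
  set T := (pf N).filter fun p => s ≤ p.natDegree with hT
  refine le_trans (avm_mono (G := fun u => ∑ p ∈ T, if p ∣ od (H * u) then (1 : ℝ) else 0)
    fun u _ => ?_) ?_
  · have h0 : ∀ p ∈ T, (0 : ℝ) ≤ if p ∣ od (H * u) then (1 : ℝ) else 0 := fun p _ => by
      split_ifs <;> norm_num
    split_ifs with hex
    · obtain ⟨p, hp, h1, h2⟩ := hex
      have := Finset.single_le_sum h0 (Finset.mem_filter.2 ⟨hp, h1⟩)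
      rwa [if_pos h2] at this
    · exact Finset.sum_nonneg h0
  · rw [avm_sum]
    refine (Finset.sum_le_card_nsmul _ _ (1 / qR k ^ s) fun p hp => ?_).trans ?_
    · obtain ⟨h1, h2⟩ := Finset.mem_filter.1 hp
      exact exo_one (isP_of_mem_pf h1) (h p h1) h2 hn
    · rw [nsmul_eq_mul, mul_one_div]
      refine div_le_div_of_nonneg_right ?_ (qR_pow_pos s).le
      exact_mod_cast (Finset.card_filter_le _ _).trans (card_pf_le hN)

end Lx

end Pool.Agent.Lib.MP_9227d9_nt.Mob
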