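import Pool.Agent.Lib.MP_458f0b_nt.LxBT
import Pool.Agent.Lib.MP_9227d9_nt.TwCell

/-! The mean of weight minus model on a cell. -/

namespace Pool.Agent.Lib.MP_9227d9_nt.Mob

open Polynomial

open scoped Classical

namespace Lx

variable {k : Type} [Field k] [Fintype k]

/-- `β` controls the weight minus its model on short progressions. -/
def Ctl (c : Lx k) (K : ℝ) (β : k[X] → k[X] → ℝ) : Prop :=
  ∀ M : k[X], M ≠ 0 → M.natDegree + 180 * c.τ ≤ c.dl →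
    avm c.dl (fun b => β M b ^ 2) ≤ 4 * K / c.Q ^ 180 ∧
      ∀ b, MD c.dl b → |avg (180 * c.τ) fun t => c.Wm (b + M * t)| ≤
        |β M b| + 2 * K ^ 2 / c.Q ^ 6 +
          if ∃ p ∈ pf M, 12 * c.τ ≤ p.natDegree ∧ p ∣ b then 2 * K else 0

theorem exists_ctl (hM1 : StM1) (hM2 : StM2) (c : Lx k) {K : ℝ} (hK : KB2 k c.U c.τ K) :
    ∃ β, c.Ctl K β := by
  have key : ∀ M : k[X], ∃ β₀ : k[X] → ℝ, M ≠ 0 → M.natDegree + 180 * c.τ ≤ c.dl →
      avm c.dl (fun b => β₀ b ^ 2) ≤ 4 * K / c.Q ^ 180 ∧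
      ∀ b, MD c.dl b → |avg (180 * c.τ) fun t => c.Wm (b + M * t)| ≤
        |β₀ b| + 2 * K ^ 2 / c.Q ^ 6 +
          if ∃ p ∈ pf M, 12 * c.τ ≤ p.natDegree ∧ p ∣ b then 2 * K else 0 := by
    intro M
    by_cases h : M ≠ 0 ∧ M.natDegree + 180 * c.τ ≤ c.dl
    · obtain ⟨β₀, h1⟩ := bt hM1 hM2 c hK h.1 h.2
      exact ⟨β₀, fun _ _ => h1⟩
    · exact ⟨0, fun h1 h2 => absurd ⟨h1, h2⟩ h⟩
  choose β hβ using key
  exact ⟨β, hβ⟩

theorem cell_MD (c : Lx k) {R G₀ v : k[X]} (hR : R.Monic) (hRd : R.natDegree < c.τ)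
    (hG : MD c.n1 G₀) (hv : v.degree < (c.nu + 2 * (76 * c.τ) - 4 * c.τ : ℕ)) :
    MD c.n1 (G₀ + R ^ 2 * v) := by
  refine hG.add (degree_mul_lt hv ?_)
  have h1 := c.nu_add
  rw [hR.natDegree_pow]
  omega

theorem not_sq_dvd (c : Lx k) {x p : k[X]} (hx : IsCoprime x c.D) (hp : p ∈ pf c.E) :
    ¬ p ^ 2 ∣ x * c.D₁ := by
  obtain ⟨h1, h2⟩ := (mem_pf c.MD_E.ne_zero).1 hp
  have h3 : p ∣ c.D := h2.trans ⟨c.D₂, by rw [D, E]; ring⟩
  have h4 : IsCoprime p x := (hx.of_isCoprime_of_dvd_right h3).symm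
  intro h
  have h5 := (h4.pow_left (m := 2)).dvd_of_dvd_mul_left h
  rw [sq] at h5
  exact h1.2.not_isUnit (c.D₁_sqf p h5)

variable [CharP k 2]

/-- the bound for a small square part -/
theorem small (hS : StS) (c : Lx k) {K : ℝ} {β : k[X] → k[X] → ℝ} (hβ : c.Ctl K β)
    {c₀ R G₀ g u₁ : k[X]} (hcd : c₀.degree < c.m) (hR : R.Monic) (hRd : R.natDegree < c.τ)
    (hG : MD c.n1 G₀) (hg : g.Monic) (h1 : u₁.Monic) (hs : Squarefree u₁)
    (hu : MD c.nu (g ^ 2 * u₁)) (hgd : g.natDegree ≤ 3 * c.τ)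
    (hex : ¬ ∃ p ∈ pf c.E, 12 * c.τ ≤ p.natDegree ∧ p ∣ od (c₀ * c.D₁ * (g ^ 2 * u₁))) :
    |avg (c.nu + 2 * (76 * c.τ) - 4 * c.τ) fun v =>
      c.Wm (c.l c₀ (G₀ + R ^ 2 * v) (g ^ 2 * u₁))| ≤ 2 * K ^ 2 / c.Q ^ 6 +
      c.Q ^ 5 * avm (c.dl - c.e) fun x =>
        |β (c.E * R * g) (c.E * x + od (c₀ * c.D₁ * (g ^ 2 * u₁)))| := by
  have hdeg : 2 * g.natDegree + u₁.natDegree = c.nu := by
    rw [← hu.2, (hg.pow 2).natDegree_mul h1, hg.natDegree_pow]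
  have hτ := c.τ_pos
  have d3 := c.nu_add
  have d4 := c.dl_add
  have d5 := c.nu_ge
  have hl : MD (c.dl - c.e) (od (G₀ * (g ^ 2 * u₁))) := by
    refine MD.od ?_
    have := hG.mul hu
    rwa [show c.n1 + c.nu = 2 * (c.dl - c.e) + 1 by omega] at this
  have hl2 := (c.MD_line hcd hG hu).2.2
  rw [l_eq] at hl2
  set l₀ := od (G₀ * (g ^ 2 * u₁)) with hl₀
  set e := od (c₀ * c.D₁ * (g ^ 2 * u₁)) with he
  have hN : (R * g).Monic := hR.mul hg
  have hNd : (R * g).natDegree = R.natDegree + g.natDegree := hR.natDegree_mul hg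
  have hM : (c.E * R * g).Monic := (c.MD_E.1.mul hR).mul hg
  have hMd : (c.E * R * g).natDegree = c.e + R.natDegree + g.natDegree := by
    rw [(c.MD_E.1.mul hR).natDegree_mul hg, c.MD_E.1.natDegree_mul hR, c.MD_E.2]
  set m' := c.nu + 76 * c.τ - 2 * c.τ - g.natDegree with hm'
  have e1 := hS k u₁ (c.nu + 2 * (76 * c.τ) - 4 * c.τ) m'
    (fun t => c.Wm (c.E * (l₀ + R * g * t) + e)) h1 hs (by omega) (by omega)
  have e2 : ∀ v, c.l c₀ (G₀ + R ^ 2 * v) (g ^ 2 * u₁) =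
      c.E * (l₀ + R * g * od (v * u₁)) + e := fun v => by
    rw [l_eq, TwCell.od_cell]
  simp only [e2]
  rw [e1, avg_avg_shift (180 * c.τ) (fun t => t)
    fun t ht => ht.trans_le (by exact_mod_cast by omega)]
  refine abs_avg_le.trans ((avg_mono (G := fun t => 2 * K ^ 2 / c.Q ^ 6 +
    |β (c.E * R * g) (c.E * (l₀ + R * g * t) + e)|) fun t ht => ?_).trans ?_)
  · have hb : MD c.dl (c.E * (l₀ + R * g * t) + e) := by
      rw [show c.E * (l₀ + R * g * t) + e = c.E * l₀ + e + c.E * R * g * t by ring]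
      exact hl2.add (degree_mul_lt ht (by omega))
    have a1 := (hβ _ hM.ne_zero (by omega)).2 _ hb
    rw [if_neg, add_zero, add_comm _ (2 * K ^ 2 / c.Q ^ 6)] at a1
    · refine le_trans (le_of_eq ?_) a1
      refine congrArg _ (avg_congr fun t' _ => congrArg _ ?_)
      ring
    · rintro ⟨p, hp, h2, h3⟩
      obtain ⟨h4, h5⟩ := (mem_pf hM.ne_zero).1 hp
      rw [mul_assoc] at h5
      rcases h4.prime.dvd_or_dvd h5 with h6 | h6
      · exact hex ⟨p, (mem_pf c.MD_E.ne_zero).2 ⟨h4, h6⟩, h2,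
          (dvd_add_right (h6.mul_right _)).1 h3⟩
      · have := natDegree_le_of_dvd h6 hN.ne_zero
        omega
  · rw [avg_add, avg_const]
    refine add_le_add le_rfl ?_
    have a1 := avg_le_avm (Φ := fun x => |β (c.E * R * g) (c.E * x + e)|) (len := m')
      hN.ne_zero hl (by omega) fun _ _ => abs_nonneg _
    refine a1.trans (mul_le_mul_of_nonneg_right ?_ (avm_nonneg fun _ _ => abs_nonneg _))
    rw [c.Q_pow]
    exact pow_le_pow_right₀ one_le_qR (by omega)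

/-- The contribution of one cell type. -/
noncomputable def T (c : Lx k) (β : k[X] → k[X] → ℝ) (c₀ R g : k[X]) : ℝ :=
  avm c.nu fun u => avm (c.dl - c.e) fun x => |β (c.E * R * g) (c.E * x + od (c₀ * c.D₁ * u))|

theorem T_nonneg (c : Lx k) (β : k[X] → k[X] → ℝ) (c₀ R g : k[X]) : 0 ≤ c.T β c₀ R g :=
  avm_nonneg fun _ _ => avm_nonneg fun _ _ => abs_nonneg _

theorem cell (hS : StS) (hSQ : StSQ) (c : Lx k) {K : ℝ} (hK : KB2 k c.U c.τ K)
    {β : k[X] → k[X] → ℝ} (hβ : c.Ctl K β) {c₀ R G₀ : k[X]} (hc : IsCoprime c₀ c.D)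
    (hcd : c₀.degree < c.m) (hR : R.Monic) (hRd : R.natDegree < c.τ) (hG : MD c.n1 G₀) :
    |avm c.nu fun u => avg (c.nu + 2 * (76 * c.τ) - 4 * c.τ) fun v =>
      c.Wm (c.l c₀ (G₀ + R ^ 2 * v) u)| ≤ 6 * K ^ 3 / c.Q ^ 3 +
      c.Q ^ 5 * ∑ g ∈ Mo k (3 * c.τ), c.T β c₀ R g := by
  have hK0 := hK.ten_le
  have hQ := c.two_le_Q
  have hQ0 : 0 < c.Q := by linarith
  have hτ := c.τ_pos
  have d5 := c.nu_ge
  have hPh : ∀ g u : k[X], 0 ≤ avm (c.dl - c.e) fun x =>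
      |β (c.E * R * g) (c.E * x + od (c₀ * c.D₁ * u))| :=
    fun _ _ => avm_nonneg fun _ _ => abs_nonneg _
  refine abs_avm_le.trans ((avm_mono (G := fun u => 2 * K ^ 2 / c.Q ^ 6 + 2 * K *
    (((Mo k c.nu).filter fun g => 3 * c.τ < g.natDegree ∧ g ^ 2 ∣ u).card : ℝ) + 2 * K *
    (if ∃ p ∈ pf c.E, 12 * c.τ ≤ p.natDegree ∧ p ∣ od (c₀ * c.D₁ * u) then 1 else 0) +
    c.Q ^ 5 * ∑ g ∈ Mo k (3 * c.τ), avm (c.dl - c.e) fun x =>
      |β (c.E * R * g) (c.E * x + od (c₀ * c.D₁ * u))|)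
    fun u hu => ?_).trans ?_)
  · have b0 : 0 ≤ 2 * K ^ 2 / c.Q ^ 6 := by positivity
    have b1 : 0 ≤ 2 * K *
        (((Mo k c.nu).filter fun g => 3 * c.τ < g.natDegree ∧ g ^ 2 ∣ u).card : ℝ) := by
      positivity
    have b2 : 0 ≤ 2 * K * (if ∃ p ∈ pf c.E, 12 * c.τ ≤ p.natDegree ∧ p ∣ od (c₀ * c.D₁ * u)
        then (1 : ℝ) else 0) := by
      positivity
    have b3 : 0 ≤ c.Q ^ 5 * ∑ g ∈ Mo k (3 * c.τ), avm (c.dl - c.e) fun x =>
        |β (c.E * R * g) (c.E * x + od (c₀ * c.D₁ * u))| :=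
      mul_nonneg (by positivity) (Finset.sum_nonneg fun g _ => hPh g u)
    have b4 : |avg (c.nu + 2 * (76 * c.τ) - 4 * c.τ) fun v =>
        c.Wm (c.l c₀ (G₀ + R ^ 2 * v) u)| ≤ 2 * K :=
      abs_avg_le_of_le fun _ hv =>
        c.abs_Wm_le hK (c.MD_line hcd (cell_MD c hR hRd hG hv) hu).2.2
    by_cases hex : ∃ p ∈ pf c.E, 12 * c.τ ≤ p.natDegree ∧ p ∣ od (c₀ * c.D₁ * u)
    · rw [if_pos hex]
      linarith
    obtain ⟨g, u₁, hg, h1, hs, rfl⟩ := exists_sq_mul hu.1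
    by_cases hgd : g.natDegree ≤ 3 * c.τ
    · have b5 := small hS c hβ hcd hR hRd hG hg h1 hs hu hgd hex
      have b6 := mul_le_mul_of_nonneg_left (Finset.single_le_sum
        (f := fun g' => avm (c.dl - c.e) fun x => |β (c.E * R * g')
          (c.E * x + od (c₀ * c.D₁ * (g ^ 2 * u₁)))|) (fun g' _ => hPh g' _) (mem_Mo.2 ⟨hg, hgd⟩))
        (pow_pos hQ0 5).le
      linarith
    · have hdeg : 2 * g.natDegree + u₁.natDegree = c.nu := by
        rw [← hu.2, (hg.pow 2).natDegree_mul h1, hg.natDegree_pow]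
      have h2 : (1 : ℝ) ≤ (((Mo k c.nu).filter fun g' =>
          3 * c.τ < g'.natDegree ∧ g' ^ 2 ∣ g ^ 2 * u₁).card : ℝ) := by
        rw [Nat.one_le_cast]
        exact Finset.card_pos.2 ⟨g, Finset.mem_filter.2
          ⟨mem_Mo.2 ⟨hg, by omega⟩, by omega, dvd_mul_right _ _⟩⟩
      have h3 := mul_le_mul_of_nonneg_left h2 (by linarith : 0 ≤ 2 * K)
      linarith
  · rw [avm_add, avm_add, avm_add, avm_const, avm_mul_left, avm_mul_left, avm_mul_left, avm_sum]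
    refine add_le_add ?_ le_rfl
    have h1 := hSQ k c.nu (3 * c.τ)
    rw [← c.Q_pow] at h1
    have h2 : avm c.nu (fun u : k[X] =>
        if ∃ p ∈ pf c.E, 12 * c.τ ≤ p.natDegree ∧ p ∣ od (c₀ * c.D₁ * u) then (1 : ℝ) else 0) ≤
        K / c.Q ^ 3 := by
      refine (exo c.MD_E.ne_zero (fun p hp => c.not_sq_dvd hc hp) (by omega)).trans ?_
      rw [← c.Q_pow, c.MD_E.2]
      refine div_le_div₀ (by linarith) ?_ (by positivity)
        (pow_le_pow_right₀ (by linarith) (by norm_num))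
      have a3 : (c.e : ℝ) ≤ c.d := by
        have := c.dl_add
        have := c.dl_le
        exact_mod_cast (by omega)
      have a4 := c.d_le_K hK
      have a5 : (0 : ℝ) ≤ c.d := Nat.cast_nonneg _
      linarith
    have h3 : 2 * K ^ 2 / c.Q ^ 6 ≤ 2 * K ^ 3 / c.Q ^ 3 :=
      div_le_div₀ (by positivity) (by nlinarith [sq_nonneg K]) (by positivity)
        (pow_le_pow_right₀ (by linarith) (by norm_num))
    have h4 : 2 * K * (1 / c.Q ^ 3) ≤ 2 * K ^ 3 / c.Q ^ 3 := by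
      rw [mul_one_div]
      exact div_le_div_of_nonneg_right (by nlinarith [sq_nonneg K]) (by positivity)
    have h5 : 2 * K * (K / c.Q ^ 3) ≤ 2 * K ^ 3 / c.Q ^ 3 := by
      rw [← mul_div_assoc]
      exact div_le_div_of_nonneg_right (by nlinarith [sq_nonneg K]) (by positivity)
    have h6 := mul_le_mul_of_nonneg_left h1 (by linarith : 0 ≤ 2 * K)
    have h7 := mul_le_mul_of_nonneg_left h2 (by linarith : 0 ≤ 2 * K)
    calc _ ≤ 2 * K ^ 3 / c.Q ^ 3 + 2 * K ^ 3 / c.Q ^ 3 + 2 * K ^ 3 / c.Q ^ 3 := by linarith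
      _ = _ := by ring

end Lx

end Pool.Agent.Lib.MP_9227d9_nt.Mob
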