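import Pool.Agent.Lib.MP_458f0b_nt.LxDefs
import Pool.Agent.Lib.MP_9227d9_nt.TwColl
import Pool.Agent.Lib.MP_9227d9_nt.TwPar

/-! The residue classes are well distributed in mean square. -/

namespace Pool.Agent.Lib.MP_9227d9_nt.Mob

open Polynomial

open scoped Classical

namespace Lx

variable {k : Type} [Field k] [Fintype k]

/-- The number of monic divisors of degree `b`. -/
noncomputable def dd (b : ℕ) (N : k[X]) : ℝ := ((MoD k b).filter fun A => A ∣ N).card

theorem rep (b nu : ℕ) (G : k[X] → ℝ) :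
    (avm b fun B => avm nu fun u => G (B * u)) = avm (b + nu) fun N => dd b N * G N := by
  have h := stPar1 k (b + nu) b (fun _ F => G F) (Nat.le_add_right _ _)
  rw [Nat.add_sub_cancel_left] at h
  rw [← h]
  refine avm_congr fun N _ => ?_
  rw [Finset.sum_const, nsmul_eq_mul, dd]

omit [Fintype k] in
theorem exists_gcd {B B' : k[X]} (hB : B.Monic) :
    ∃ g B₀ : k[X], g.Monic ∧ B₀.Monic ∧ B = g * B₀ ∧ g ∣ B' ∧ ∀ u, B ∣ B' * u → B₀ ∣ u := by
  obtain ⟨x, y, hx, hy, hu⟩ := extract_gcd B B'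
  have h0 : gcd B B' ≠ 0 := fun h => hB.ne_zero (by rw [hx, h, zero_mul])
  have hg : (gcd B B').Monic := by
    rw [← normalize_gcd]
    exact monic_normalize h0
  refine ⟨gcd B B', x, hg, hg.of_mul_monic_left (hx ▸ hB), hx, gcd_dvd_right _ _, fun u h => ?_⟩
  have h1 : gcd B B' * x ∣ gcd B B' * (y * u) := by
    rw [← mul_assoc, ← hx, ← hy]
    exact h
  exact ((gcd_isUnit_iff x y).1 hu).dvd_of_dvd_mul_left ((mul_dvd_mul_iff_left h0).1 h1)

theorem avm_dvd_le' {g : k[X]} {j : ℕ} (hg : MD j g) (n : ℕ) :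
    avm n (fun m => if g ∣ m then (1 : ℝ) else 0) ≤ 1 / qR k ^ j := by
  by_cases h : j ≤ n
  · have := avm_dvd_le (n := n) (s := j) hg.ne_zero h hg.2.ge isCoprime_one_left 0
    simpa only [one_mul, add_zero] using this
  · refine avm_le_of_le fun m hm => ?_
    rw [if_neg fun hd => h (by
      have := natDegree_le_of_dvd hd hm.ne_zero
      rwa [hg.2, hm.2] at this)]
    exact (one_div_pos.2 (qR_pow_pos j)).le

theorem dd_sq (b nu : ℕ) : avm (b + nu) (fun N : k[X] => dd b N * dd b N) ≤ b + 1 := by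
  rw [← rep]
  have h1 : ∀ N : k[X], dd b N = avm b fun B => qR k ^ b * if B ∣ N then 1 else 0 := fun N => by
    rw [avm_mul_left, ← TwPar.sum_dvd b N fun _ => 1, dd]
    simp
  simp only [h1]
  refine le_trans (avm_mono (G := fun B' => avm b fun B => ∑ j ∈ Finset.range (b + 1),
    ∑ g ∈ MoD k j, qR k ^ j * ((if g ∣ B' then 1 else 0) * if g ∣ B then 1 else 0))
    fun B' _ => ?_) ?_
  · rw [avm_comm]
    refine avm_mono fun B hB => ?_
    obtain ⟨g, B₀, hg, h0, he, hd, hu⟩ := exists_gcd (B' := B') hB.1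
    have hdeg : g.natDegree + B₀.natDegree = b := by rw [← hB.2, he, hg.natDegree_mul h0]
    have h2 : (avm nu fun u => qR k ^ b * if B ∣ B' * u then (1 : ℝ) else 0) ≤
        qR k ^ g.natDegree := by
      rw [avm_mul_left]
      have h3 : (avm nu fun u => if B ∣ B' * u then (1 : ℝ) else 0) ≤ 1 / qR k ^ B₀.natDegree := by
        refine le_trans (avm_mono fun u _ => ?_) (avm_dvd_le' ⟨h0, rfl⟩ nu)
        by_cases h4 : B ∣ B' * u
        · rw [if_pos h4, if_pos (hu u h4)]
        · rw [if_neg h4]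
          split_ifs <;> norm_num
      refine (mul_le_mul_of_nonneg_left h3 (qR_pow_pos b).le).trans (le_of_eq ?_)
      have := qR_pow_pos (k := k) B₀.natDegree
      rw [← hdeg, pow_add]
      field_simp
    refine h2.trans ?_
    have hn : ∀ j : ℕ, ∀ g : k[X], 0 ≤ qR k ^ j * ((if g ∣ B' then (1 : ℝ) else 0) *
        if g ∣ B then 1 else 0) := fun j g =>
      mul_nonneg (qR_pow_pos j).le (by split_ifs <;> norm_num)
    refine le_trans ?_ (Finset.single_le_sum (fun j _ => Finset.sum_nonneg fun g _ => hn j g)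
      (Finset.mem_range.2 (by omega : g.natDegree < b + 1)))
    refine le_trans ?_ (Finset.single_le_sum (fun g' _ => hn _ g') (mem_MoD.2 ⟨hg, rfl⟩))
    rw [if_pos hd, if_pos ⟨B₀, he⟩, mul_one, mul_one]
  · simp only [avm_sum, avm_mul_left, avm_mul_right]
    refine (Finset.sum_le_card_nsmul _ _ 1 fun j _ => ?_).trans (by simp)
    refine (Finset.sum_le_card_nsmul _ _ (1 / qR k ^ j) fun g hg => ?_).trans ?_
    · have h2 := avm_dvd_le' (mem_MoD.1 hg) b
      have h3 : 0 ≤ avm b fun m => if g ∣ m then (1 : ℝ) else 0 :=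
        avm_nonneg fun _ _ => by split_ifs <;> norm_num
      have h4 := qR_pow_pos (k := k) j
      calc _ ≤ qR k ^ j * (1 / qR k ^ j * (1 / qR k ^ j)) := by gcongr
        _ = _ := by field_simp
    · rw [nsmul_eq_mul, card_MoD, mul_one_div_cancel (qR_pow_pos j).ne']

theorem energy {D : k[X]} (hD : D ≠ 0) {b nu s : ℕ} (h1 : s ≤ D.natDegree) (h2 : s ≤ b + nu) :
    (avm b fun B : k[X] => avm nu fun u => avm b fun B' => avm nu fun u' =>
      if D ∣ B' * u - B * u' then (1 : ℝ) else 0) ≤ (b + 1) / qR k ^ s := by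
  have e1 : (avm b fun B : k[X] => avm nu fun u => avm b fun B' => avm nu fun u' =>
      if D ∣ B' * u - B * u' then (1 : ℝ) else 0) =
      avm b fun B' : k[X] => avm nu fun u => avm b fun B => avm nu fun u' =>
        if D ∣ B' * u - B * u' then (1 : ℝ) else 0 := by
    rw [avm_comm, avm_congr fun u _ => avm_comm b b _, avm_comm]
  have e2 : ∀ N : k[X], (avm b fun B => avm nu fun u' => if D ∣ N - B * u' then (1 : ℝ) else 0) =
      avm (b + nu) fun N' => dd b N' * if D ∣ N - N' then (1 : ℝ) else 0 := fun N =>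
    rep b nu fun N' => if D ∣ N - N' then (1 : ℝ) else 0
  rw [e1]
  simp only [e2]
  rw [rep b nu fun N => avm (b + nu) fun N' => dd b N' * if D ∣ N - N' then (1 : ℝ) else 0]
  have h3 : ∀ N : k[X], avm (b + nu) (fun N' => if D ∣ N' - N then (1 : ℝ) else 0) ≤
      1 / qR k ^ s := fun N => by
    have := avm_dvd_le (n := b + nu) hD h2 h1 isCoprime_one_left (-N)
    simpa only [one_mul, ← sub_eq_add_neg] using this
  have h4 : (avm (b + nu) fun N : k[X] => avm (b + nu) fun N' =>
      dd b N * dd b N * if D ∣ N' - N then (1 : ℝ) else 0) ≤ (b + 1) / qR k ^ s := by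
    refine le_trans (avm_mono (G := fun N => dd b N * dd b N * (1 / qR k ^ s)) fun N _ => ?_) ?_
    · rw [avm_mul_left]
      exact mul_le_mul_of_nonneg_left (h3 N) (mul_self_nonneg _)
    · rw [avm_mul_right, mul_one_div]
      exact div_le_div_of_nonneg_right (dd_sq b nu) (qR_pow_pos s).le
  have h5 : (avm (b + nu) fun N : k[X] => dd b N * avm (b + nu) fun N' =>
      dd b N' * if D ∣ N - N' then (1 : ℝ) else 0) ≤
      avm (b + nu) fun N : k[X] => (1 / 2 * avm (b + nu) fun N' =>
        dd b N * dd b N * if D ∣ N' - N then (1 : ℝ) else 0) + 1 / 2 * avm (b + nu) fun N' =>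
        dd b N' * dd b N' * if D ∣ N - N' then (1 : ℝ) else 0 := by
    refine avm_mono fun N _ => ?_
    rw [← avm_mul_left, ← avm_mul_left, ← avm_mul_left, ← avm_add]
    refine avm_mono fun N' _ => ?_
    by_cases h : D ∣ N - N'
    · rw [if_pos h, if_pos (dvd_sub_comm.1 h)]
      nlinarith [sq_nonneg (dd b N - dd b N')]
    · rw [if_neg h, if_neg fun h' => h (dvd_sub_comm.1 h')]
      simp
  refine h5.trans ?_
  rw [avm_add, avm_mul_left, avm_mul_left, avm_comm (b + nu) (b + nu) fun N N' : k[X] =>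
    dd b N' * dd b N' * if D ∣ N - N' then (1 : ℝ) else 0]
  linarith

theorem coll [CharP k 2] (hS : StS) (c : Lx k) {a : k[X]} {b s : ℕ} {B₀ : ℝ} {c₀ : k[X] → k[X]}
    (Ψ : k[X] → ℝ) (ha : IsCoprime a c.D)
    (hc : ∀ B, MD b B → IsCoprime B c.D → c.D ∣ B * c₀ B - a ∧ (c₀ B).degree < c.m)
    (hΨ : avm c.dl (fun x => Ψ x ^ 2) ≤ B₀) (h1 : s ≤ c.m) (h2 : s ≤ b + c.nu) :
    (avm b fun B => if IsCoprime B c.D then avm c.nu (fun u => avm (c.dl - c.e) fun x =>
      Ψ (c.E * x + od (c₀ B * c.D₁ * u))) else 0) ^ 2 ≤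
      qR k ^ c.m * ((b + 1) / qR k ^ s) * B₀ := by
  have hD := c.MD_D
  have hq := qR_pow_pos (k := k) c.m
  have d1 := c.dl_add
  have d2 := c.τ_pos
  have d3 := c.m_eq
  have d4 := c.e_eq
  set w : k[X] → ℝ := fun B => if IsCoprime B c.D then 1 else 0 with hw
  set ρ : k[X] → k[X] → k[X] := fun B u => (c₀ B * u) %ₘ c.D with hρ
  set f : k[X] → ℝ := fun r => avm (c.dl - c.e) fun x => Ψ (c.E * x + od (r * c.D₁)) with hf
  have hdeg : ∀ B u, (ρ B u).degree < c.m := fun B u => by
    have := degree_modByMonic_lt (c₀ B * u) hD.1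
    rwa [degree_eq_natDegree hD.ne_zero, hD.2] at this
  have e1 : (avm b fun B => if IsCoprime B c.D then avm c.nu (fun u => avm (c.dl - c.e) fun x =>
      Ψ (c.E * x + od (c₀ B * c.D₁ * u))) else 0) =
      avm b fun B => avm c.nu fun u => w B * f (ρ B u) := by
    refine avm_congr fun B hB => ?_
    rw [avm_mul_left]
    simp only [hw]
    split_ifs with hco
    · rw [one_mul]
      refine avm_congr fun u hu => ?_
      have h3 : ((c₀ B * u) /ₘ c.D).degree < (2 * (c.dl - c.e) + 1 : ℕ) := by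
        refine degree_lt_of_natDegree fun h0 => ?_
        have h4 : c₀ B ≠ 0 := fun h5 => h0 (by rw [h5, zero_mul, zero_divByMonic])
        have h5 := natDegree_lt_of_degree h4 (hc B hB hco).2
        rw [natDegree_divByMonic _ hD.1, natDegree_mul h4 hu.ne_zero, hu.2, hD.2]
        omega
      simp only [hf]
      rw [← avm_shift (F := fun x => Ψ (c.E * x + od (ρ B u * c.D₁))) (degree_od_lt h3)]
      refine avm_congr fun x _ => congrArg Ψ ?_
      have h4 := modByMonic_add_div (c₀ B * u) c.D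
      have h5 : c₀ B * c.D₁ * u = ρ B u * c.D₁ + (c₀ B * u) /ₘ c.D * c.E ^ 2 := by
        have h6 : c.E ^ 2 = c.D * c.D₁ := by rw [D, E]; ring
        rw [h6]
        simp only [hρ]
        linear_combination (-c.D₁) * h4
      rw [h5, od_add, od_mul_sq]
      ring
    · rw [zero_mul]
  have e2 : avg c.m (fun r => f r ^ 2) ≤ B₀ := by
    have h3 := hS k c.D₁ c.m c.e (fun r => (avm (c.dl - c.e) fun x => Ψ (c.E * x + r)) ^ 2)
      c.D₁_monic c.D₁_sqf (by omega) (by omega)
    refine (le_of_eq h3).trans (le_trans ?_ hΨ)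
    rw [TwColl.avm_split c.MD_E (by omega : c.e ≤ c.dl)]
    exact avg_mono fun r _ => sq_avm_le
  have e3 : (avm b fun B => avm c.nu fun u =>
      w B * (qR k ^ c.m * TwColl.Pd b c.nu w ρ (ρ B u))) ≤ qR k ^ c.m * ((b + 1) / qR k ^ s) := by
    refine le_trans ?_ (mul_le_mul_of_nonneg_left
      (energy (b := b) (nu := c.nu) hD.ne_zero (hD.2 ▸ h1) h2) hq.le)
    rw [← avm_mul_left]
    refine avm_mono fun B hB => ?_
    rw [← avm_mul_left]
    refine avm_mono fun u _ => ?_
    rw [mul_left_comm]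
    refine mul_le_mul_of_nonneg_left ?_ hq.le
    unfold TwColl.Pd
    rw [← avm_mul_left]
    refine avm_mono fun B' hB' => ?_
    rw [← avm_mul_left]
    refine avm_mono fun u' _ => ?_
    have h0 : (0 : ℝ) ≤ if c.D ∣ B' * u - B * u' then 1 else 0 := by split_ifs <;> norm_num
    by_cases he : ρ B' u' = ρ B u
    swap
    · rwa [if_neg he, mul_zero]
    rw [if_pos he]
    by_cases hco : IsCoprime B c.D
    swap
    · simp only [hw, if_neg hco, zero_mul]
      exact h0
    by_cases hco' : IsCoprime B' c.D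
    swap
    · simp only [hw, if_neg hco', mul_zero]
      exact h0
    have h3 : c.D ∣ c₀ B * u - c₀ B' * u' := by
      rw [← modByMonic_eq_zero_iff_dvd hD.1, sub_modByMonic]
      exact sub_eq_zero.2 he.symm
    have hd : c.D ∣ B' * u - B * u' := by
      refine ha.symm.dvd_of_dvd_mul_left ?_
      rw [show a * (B' * u - B * u') = B * B' * (c₀ B * u - c₀ B' * u') -
        B' * u * (B * c₀ B - a) + B * u' * (B' * c₀ B' - a) by ring]
      exact dvd_add (dvd_sub (h3.mul_left _) ((hc B hB hco).1.mul_left _))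
        ((hc B' hB' hco').1.mul_left _)
    simp only [hw, if_pos hco, if_pos hco', if_pos hd, mul_one, le_refl]
  rw [e1]
  refine (TwColl.cs b c.nu w hdeg f).trans (mul_le_mul e3 e2 (avg_nonneg fun r _ => sq_nonneg _) ?_)
  have := qR_pow_pos (k := k) s
  positivity

end Lx

end Pool.Agent.Lib.MP_9227d9_nt.Mob
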