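import Mathlib

open Polynomial

namespace Pool.Agent.Lib.MP_458f0b_nt.LxCor

theorem phi_bounds (k : Type) [Field k] [Fintype k] (D a : k[X]) (hD : D.Monic)
    (ha : IsCoprime a D) :
    0 < Set.ncard {r : k[X] | r.degree < D.degree ∧ IsCoprime r D} ∧
      Set.ncard {r : k[X] | r.degree < D.degree ∧ IsCoprime r D} ≤
        Fintype.card k ^ D.natDegree := by
  classical
  have e := (degreeLTEquiv k D.natDegree).toEquiv
  have : Finite (degreeLT k D.natDegree) := Finite.of_equiv _ e.symm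
  have hfin : ((degreeLT k D.natDegree : Submodule k k[X]) : Set k[X]).Finite := Set.toFinite _
  have hsub : {r : k[X] | r.degree < D.degree ∧ IsCoprime r D} ⊆
      ((degreeLT k D.natDegree : Submodule k k[X]) : Set k[X]) := by
    intro r hr
    have := hr.1
    rw [degree_eq_natDegree hD.ne_zero] at this
    exact mem_degreeLT.2 this
  refine ⟨?_, ?_⟩
  · rw [Set.ncard_pos (hfin.subset hsub)]
    refine ⟨a %ₘ D, degree_modByMonic_lt a hD, ?_⟩
    have h1 : a %ₘ D = a + D * (-(a /ₘ D)) := by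
      have := modByMonic_add_div a D
      linear_combination this
    rw [h1]
    exact ha.add_mul_left_left _
  · refine (Set.ncard_le_ncard hsub hfin).trans (le_of_eq ?_)
    have : Set.ncard ((degreeLT k D.natDegree : Submodule k k[X]) : Set k[X]) =
        Nat.card (degreeLT k D.natDegree) := rfl
    rw [this, Nat.card_congr e]
    simp

theorem linnik_of
    (h : ∃ δ : ℝ, 0 < δ ∧ ∀ (k : Type) [Field k] [Fintype k] [CharP k 2], ∃ C : ℝ,
      ∀ (D a : k[X]) (n : ℕ), D.Monic → IsCoprime a D → (2 - δ) * D.natDegree ≤ n →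
        |(n : ℝ) *
            (Set.ncard {P : k[X] | P.Monic ∧ Irreducible P ∧ P.natDegree = n ∧ D ∣ P - a} : ℝ) -
          (Fintype.card k : ℝ) ^ n /
            (Set.ncard {r : k[X] | r.degree < D.degree ∧ IsCoprime r D} : ℝ)| ≤
          C * (Fintype.card k : ℝ) ^ ((1 - δ) * n - D.natDegree)) :
    ∃ δ : ℝ, 0 < δ ∧ ∀ (k : Type) [Field k] [Fintype k] [CharP k 2], ∃ C : ℝ,
      (∀ (D a : k[X]) (n : ℕ), D.Monic → IsCoprime a D → (2 - δ) * D.natDegree ≤ n →
        |(n : ℝ) *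
            (Set.ncard {P : k[X] | P.Monic ∧ Irreducible P ∧ P.natDegree = n ∧ D ∣ P - a} : ℝ) -
          (Fintype.card k : ℝ) ^ n /
            (Set.ncard {r : k[X] | r.degree < D.degree ∧ IsCoprime r D} : ℝ)| ≤
          C * (Fintype.card k : ℝ) ^ ((1 - δ) * n - D.natDegree)) ∧
      ∀ D a : k[X], D.Monic → IsCoprime a D →
        ∃ P : k[X], P.Monic ∧ Irreducible P ∧ D ∣ P - a ∧
          (Fintype.card k : ℝ) ^ P.natDegree ≤
            C * (Fintype.card k : ℝ) ^ ((2 - δ) * D.natDegree) := by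
  obtain ⟨δ₀, hδ₀, H⟩ := h
  set δ := min δ₀ 1 with hδdef
  have hδ : 0 < δ := lt_min hδ₀ one_pos
  have hδ1 : δ ≤ 1 := min_le_right _ _
  have hδ2 : δ ≤ δ₀ := min_le_left _ _
  refine ⟨δ, hδ, fun k _ _ _ => ?_⟩
  obtain ⟨C₀, hC₀⟩ := H k
  set q : ℝ := (Fintype.card k : ℝ) with hq
  have hq1 : 1 < q := by
    rw [hq]; exact_mod_cast Fintype.one_lt_card
  have hq0 : 0 < q := by linarith
  have hlog : 0 < Real.log q := Real.log_pos hq1
  set C₁ := max C₀ 0 with hC₁
  have hC₁0 : 0 ≤ C₁ := le_max_right _ _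
  have main : ∀ (D a : k[X]) (n : ℕ), D.Monic → IsCoprime a D → (2 - δ) * D.natDegree ≤ n →
      |(n : ℝ) *
          (Set.ncard {P : k[X] | P.Monic ∧ Irreducible P ∧ P.natDegree = n ∧ D ∣ P - a} : ℝ) -
        q ^ n / (Set.ncard {r : k[X] | r.degree < D.degree ∧ IsCoprime r D} : ℝ)| ≤
        C₁ * q ^ ((1 - δ) * n - D.natDegree) := by
    intro D a n hD ha hn
    have hd : (0 : ℝ) ≤ D.natDegree := Nat.cast_nonneg _
    have hn0 : (0 : ℝ) ≤ n := Nat.cast_nonneg _
    have h1 := hC₀ D a n hD ha (le_trans (by nlinarith) hn)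
    refine h1.trans ?_
    have h2 : q ^ ((1 - δ₀) * n - D.natDegree) ≤ q ^ ((1 - δ) * n - D.natDegree) :=
      Real.rpow_le_rpow_of_exponent_le hq1.le (by nlinarith)
    have h3 : 0 ≤ q ^ ((1 - δ₀) * n - D.natDegree) := Real.rpow_nonneg hq0.le _
    calc C₀ * q ^ ((1 - δ₀) * n - D.natDegree) ≤ C₁ * q ^ ((1 - δ₀) * n - D.natDegree) :=
          mul_le_mul_of_nonneg_right (le_max_left _ _) h3
      _ ≤ _ := mul_le_mul_of_nonneg_left h2 hC₁0
  obtain ⟨N, hN⟩ := exists_nat_ge (C₁ / (δ * Real.log q))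
  have hqN : 0 ≤ q ^ (N + 1) := by positivity
  refine ⟨C₁ + q ^ (N + 1), fun D a n hD ha hn => ?_, fun D a hD ha => ?_⟩
  · refine (main D a n hD ha hn).trans ?_
    exact mul_le_mul_of_nonneg_right (by linarith) (Real.rpow_nonneg hq0.le _)
  · have hd : (0 : ℝ) ≤ D.natDegree := Nat.cast_nonneg _
    have hx : 0 ≤ (2 - δ) * D.natDegree := by nlinarith
    set n := ⌈(2 - δ) * D.natDegree⌉₊ + N with hn
    have hN0 : (0 : ℝ) ≤ N := Nat.cast_nonneg _
    have hc1 := Nat.le_ceil ((2 - δ) * (D.natDegree : ℝ))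
    have hc2 := Nat.ceil_lt_add_one hx
    have hnr : (n : ℝ) = (⌈(2 - δ) * D.natDegree⌉₊ : ℝ) + N := by rw [hn]; push_cast; ring
    have h1 := main D a n hD ha (by linarith)
    by_cases hE : {P : k[X] | P.Monic ∧ Irreducible P ∧ P.natDegree = n ∧ D ∣ P - a}.Nonempty
    · obtain ⟨P, hP1, hP2, hP3, hP4⟩ := hE
      refine ⟨P, hP1, hP2, hP4, ?_⟩
      rw [hP3, ← Real.rpow_natCast]
      have h2 : q ^ (n : ℝ) ≤ q ^ (((N + 1 : ℕ) : ℝ) + (2 - δ) * D.natDegree) :=
        Real.rpow_le_rpow_of_exponent_le hq1.le (by push_cast; linarith)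
      rw [Real.rpow_add hq0, Real.rpow_natCast q (N + 1)] at h2
      refine h2.trans ?_
      exact mul_le_mul_of_nonneg_right (by linarith) (Real.rpow_nonneg hq0.le _)
    · exfalso
      rw [Set.not_nonempty_iff_eq_empty] at hE
      rw [hE, Set.ncard_empty, Nat.cast_zero, mul_zero, zero_sub, abs_neg] at h1
      obtain ⟨hp, hle⟩ := phi_bounds k D a hD ha
      have hp' : (0 : ℝ) < Set.ncard {r : k[X] | r.degree < D.degree ∧ IsCoprime r D} := by
        exact_mod_cast hp
      have hle' : (Set.ncard {r : k[X] | r.degree < D.degree ∧ IsCoprime r D} : ℝ) ≤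
          q ^ D.natDegree := by
        rw [hq]; exact_mod_cast hle
      have h2 : q ^ n / q ^ D.natDegree ≤
          q ^ n / (Set.ncard {r : k[X] | r.degree < D.degree ∧ IsCoprime r D} : ℝ) :=
        div_le_div_of_nonneg_left (by positivity) hp' hle'
      have h3 := h2.trans ((le_abs_self _).trans h1)
      have h4 : q ^ n / q ^ D.natDegree =
          q ^ (δ * n) * q ^ ((1 - δ) * n - D.natDegree) := by
        rw [← Real.rpow_natCast, ← Real.rpow_natCast, ← Real.rpow_sub hq0, ← Real.rpow_add hq0]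
        congr 1
        ring
      rw [h4] at h3
      have h5 : q ^ (δ * n) ≤ C₁ := le_of_mul_le_mul_right h3 (Real.rpow_pos_of_pos hq0 _)
      have h6 : Real.log q * (δ * n) + 1 ≤ q ^ (δ * n) := by
        rw [Real.rpow_def_of_pos hq0]; exact Real.add_one_le_exp _
      have h7 : C₁ ≤ N * (δ * Real.log q) := (div_le_iff₀ (by positivity)).1 hN
      have h8 : (N : ℝ) ≤ n := by
        have : (0 : ℝ) ≤ ⌈(2 - δ) * D.natDegree⌉₊ := Nat.cast_nonneg _
        linarith
      have h9 : 0 < δ * Real.log q := by positivity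
      nlinarith

end Pool.Agent.Lib.MP_458f0b_nt.LxCor

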