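import Pool.Agent.Lib.MP_9227d9_nt.TwA
import Pool.Agent.Lib.MP_9227d9_nt.MobPT

/-!
Primes in progressions to large moduli over finite fields of characteristic two:
the parameters of the Moebius estimate.
-/

namespace Pool.Agent.Lib.MP_9227d9_nt.Mob

open Polynomial

open scoped Classical

/-- The parameters. -/
structure Lx (k : Type) [Field k] [Fintype k] where
  τ : ℕ
  U : ℕ
  D₁ : k[X]
  D₂ : k[X]
  d : ℕ
  r : ℕ
  I : Fin (r + 1) → ℕ
  τ_pos : 2 ≤ τ
  D₁_monic : D₁.Monic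
  D₁_sqf : Squarefree D₁
  D₂_monic : D₂.Monic
  d_ge : D₁.natDegree + 2 * D₂.natDegree + 512 * τ ≤ d
  d_le : d ≤ U * τ
  r_le : r + 1 ≤ U
  I_inj : Function.Injective I
  I_zero : I 0 = 12 * τ
  I_ge : ∀ i, 12 * τ ≤ I i
  I_le : ∀ i, I i ≤ 32 * τ
  I_sum : ∑ i, I i + D₂.natDegree + 76 * τ = d

namespace Lx

variable {k : Type} [Field k] [Fintype k] (c : Lx k) {K : ℝ}

/-- The modulus. -/
noncomputable def D : k[X] := c.D₁ * c.D₂ ^ 2

/-- The modulus of the odd part. -/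
noncomputable def E : k[X] := c.D₁ * c.D₂

/-- The degree of the modulus. -/
def m : ℕ := c.D₁.natDegree + 2 * c.D₂.natDegree

/-- The degree of `E`. -/
def e : ℕ := c.D₁.natDegree + c.D₂.natDegree

/-- The degree of the free variable. -/
def n1 : ℕ := c.d - c.m

/-- The degree of the direction. -/
def nu : ℕ := c.n1 + 1 - 152 * c.τ

/-- The degree of the weighted polynomial. -/
def dl : ℕ := ∑ i, c.I i

/-- `q ^ τ`. -/
noncomputable def Q : ℝ := qR k ^ c.τ

/-- The weight. -/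
noncomputable def W (l : k[X]) : ℝ := Wt c.I l

/-- The weight minus its model. -/
noncomputable def Wm (l : k[X]) : ℝ := Wt c.I l - wm (180 * c.τ) (12 * c.τ) l

/-- The weighted polynomial. -/
noncomputable def l [CharP k 2] (c₀ G u : k[X]) : k[X] := od ((c.D * G + c₀) * c.D₁ * u)

theorem MD_D : MD c.m c.D :=
  ⟨c.D₁_monic.mul (c.D₂_monic.pow 2), by
    rw [D, c.D₁_monic.natDegree_mul (c.D₂_monic.pow 2), c.D₂_monic.natDegree_pow, m]⟩

theorem MD_E : MD c.e c.E :=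
  ⟨c.D₁_monic.mul c.D₂_monic, by rw [E, c.D₁_monic.natDegree_mul c.D₂_monic, e]⟩

theorem MD_D₁ : MD c.D₁.natDegree c.D₁ := ⟨c.D₁_monic, rfl⟩

theorem m_eq : c.m = c.D₁.natDegree + 2 * c.D₂.natDegree := rfl

theorem e_eq : c.e = c.D₁.natDegree + c.D₂.natDegree := rfl

theorem n1_add : c.m + c.n1 = c.d := by
  have := c.d_ge
  have := c.m_eq
  unfold n1
  omega

theorem nu_add : c.nu + 152 * c.τ = c.n1 + 1 := by
  have := c.d_ge
  have := c.m_eq
  have := c.n1_add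
  unfold nu
  omega

theorem nu_ge : 360 * c.τ ≤ c.nu := by
  have := c.d_ge
  have := c.m_eq
  have := c.n1_add
  have := c.nu_add
  omega

theorem dl_add : c.dl + 1 = c.e + c.nu + 76 * c.τ := by
  have := c.I_sum
  have := c.m_eq
  have := c.e_eq
  have := c.n1_add
  have := c.nu_add
  unfold dl
  omega

theorem dl_le : c.dl ≤ c.d := by
  have := c.I_sum
  unfold dl
  omega

theorem U_ge : 512 ≤ c.U := by
  have h1 := c.d_ge
  have h2 := c.d_le
  have h3 := c.τ_pos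
  refine Nat.le_of_mul_le_mul_right (c := c.τ) ?_ (by omega)
  omega

theorem Q_pow (j : ℕ) : c.Q ^ j = qR k ^ (j * c.τ) := by
  rw [Q, ← pow_mul, mul_comm]

theorem qR_le_Q : qR k ≤ c.Q := by
  have := c.τ_pos
  exact le_self_pow₀ one_le_qR (by omega)

theorem two_le_Q : 2 ≤ c.Q := two_le_qR.trans c.qR_le_Q

theorem d_le_K (H : KB2 k c.U c.τ K) : (4 * c.d + 10 : ℝ) ≤ K := by
  have h1 := H.lin
  have h2 : (c.d : ℝ) ≤ c.U * c.τ := by exact_mod_cast c.d_le
  linarith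

theorem abs_W_le (H : KB2 k c.U c.τ K) (l : k[X]) : |c.W l| ≤ K := by
  rw [W, abs_of_nonneg (Wt_nonneg _ _)]
  exact H.wt _ _ _ c.r_le c.I_le

theorem abs_Wm_le (H : KB2 k c.U c.τ K) {l : k[X]} (hl : MD c.dl l) : |c.Wm l| ≤ 2 * K := by
  have h1 := c.abs_W_le H l
  have h2 := c.dl_le
  have h3 := c.d_le
  have h4 := c.d_ge
  have h6 := (abs_wm_le (180 * c.τ) (12 * c.τ) l).trans (H.wa _ _ l hl.ne_zero
    (by rw [hl.2, mul_assoc]; omega) (by omega))
  rw [W] at h1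
  rw [Wm]
  linarith [abs_sub (Wt c.I l) (wm (180 * c.τ) (12 * c.τ) l)]

theorem isCoprime_D₁ {x : k[X]} (h : IsCoprime x c.D) : IsCoprime x c.D₁ :=
  h.of_mul_right_left

variable [CharP k 2]

/-- Degrees along the parametrisation. -/
theorem MD_line {c₀ G u : k[X]} (hc : c₀.degree < c.m) (hG : MD c.n1 G) (hu : MD c.nu u) :
    MD c.d (c.D * G + c₀) ∧ MD (2 * c.dl + 1) ((c.D * G + c₀) * c.D₁ * u) ∧
      MD c.dl (c.l c₀ G u) := by
  have := c.n1_add
  have := c.nu_add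
  have := c.dl_add
  have := c.m_eq
  have := c.e_eq
  have h1 : MD c.d (c.D * G + c₀) := by
    have h := c.MD_D.mul hG
    rw [c.n1_add] at h
    exact h.add (hc.trans_le (by exact_mod_cast by omega))
  have h2 : MD (2 * c.dl + 1) ((c.D * G + c₀) * c.D₁ * u) := by
    have := (h1.mul c.MD_D₁).mul hu
    rwa [show c.d + c.D₁.natDegree + c.nu = 2 * c.dl + 1 by omega] at this
  exact ⟨h1, h2, h2.od⟩

theorem l_eq (c₀ G u : k[X]) : c.l c₀ G u = c.E * od (G * u) + od (c₀ * c.D₁ * u) := by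
  rw [l, show (c.D * G + c₀) * c.D₁ * u = G * u * c.E ^ 2 + c₀ * c.D₁ * u by
    rw [D, E]; ring, od_add, od_mul_sq]

theorem H_line (c₀ G u σ : k[X]) :
    (c.D * (G + u * σ ^ 2) + c₀) * c.D₁ * u =
      (c.D * G + c₀) * c.D₁ * u + (c.E * u * σ) ^ 2 := by
  rw [D, E]
  ring

theorem l_line (c₀ G u σ : k[X]) : c.l c₀ (G + u * σ ^ 2) u = c.l c₀ G u := by
  rw [l, H_line, od_add, od_sq, add_zero, l]

end Lx

/-- The degrees of the primes can be chosen. -/
theorem exists_I {τ U T : ℕ} (h1 : 2 ≤ τ) (h2 : 412 * τ ≤ T) (h3 : T ≤ U * τ) (h4 : U ^ 2 ≤ τ) :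
    ∃ (r : ℕ) (I : Fin (r + 1) → ℕ), r + 1 ≤ U ∧ Function.Injective I ∧ I 0 = 12 * τ ∧
      (∀ i, 12 * τ ≤ I i) ∧ (∀ i, I i ≤ 32 * τ) ∧ ∑ i, I i = T := by
  obtain ⟨D, hD⟩ : ∃ D, D + 12 * τ = T := ⟨T - 12 * τ, by omega⟩
  obtain ⟨r, hr⟩ : ∃ r, r = D / (20 * τ) := ⟨_, rfl⟩
  have r1 : r * (20 * τ) ≤ D := hr ▸ Nat.div_mul_le_self _ _
  have r2 : D < r * (20 * τ) + 20 * τ := hr ▸ Nat.lt_div_mul_add (by omega)
  have r3 : 20 ≤ r := by
    rw [hr, Nat.le_div_iff_mul_le (by omega)]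
    omega
  have r4 : 20 * r ≤ U := by
    refine Nat.le_of_mul_le_mul_right (c := τ) ?_ (by omega)
    nlinarith
  have r5 : r * r ≤ τ := by nlinarith
  have r6 : r ≤ τ := by nlinarith
  obtain ⟨q, hq⟩ : ∃ q, q = D / r := ⟨_, rfl⟩
  have q1 : q * r ≤ D := hq ▸ Nat.div_mul_le_self _ _
  have q2 : D < q * r + r := hq ▸ Nat.lt_div_mul_add (by omega)
  have q3 : 20 * τ ≤ q := by
    rw [hq, Nat.le_div_iff_mul_le (by omega), mul_comm]
    exact r1
  have q4 : q ≤ 21 * τ := by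
    refine Nat.le_of_mul_le_mul_right (c := r) ?_ (by omega)
    nlinarith
  obtain ⟨S, hS⟩ : ∃ S, S = ∑ i ∈ Finset.Ico 1 r, (q - i) := ⟨_, rfl⟩
  obtain ⟨r', hr'⟩ : ∃ r', r = r' + 1 := ⟨r - 1, by omega⟩
  have s1 : S ≤ r' * q := by
    have := Finset.sum_le_card_nsmul (Finset.Ico 1 r) (fun i => q - i) q fun i _ => Nat.sub_le _ _
    rwa [← hS, Nat.card_Ico, hr', Nat.add_sub_cancel, smul_eq_mul] at this
  have s2 : r' * (q - r) ≤ S := by
    have := Finset.card_nsmul_le_sum (Finset.Ico 1 r) (fun i => q - i) (q - r) fun i hi =>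
      Nat.sub_le_sub_left (Finset.mem_Ico.1 hi).2.le _
    rwa [← hS, Nat.card_Ico, smul_eq_mul, show r - 1 = r' by omega] at this
  have s3 : S + q ≤ D := by
    rw [hr'] at q1
    nlinarith
  have s4 : D ≤ S + 23 * τ := by
    obtain ⟨c, hc⟩ : ∃ c, q = c + r := ⟨q - r, by omega⟩
    rw [hc, Nat.add_sub_cancel] at s2
    rw [hc] at q2 q4
    subst hr'
    nlinarith
  let g : ℕ → ℕ := fun i => if i = 0 then 12 * τ else if i = r then D - S else q - i
  refine ⟨r, fun i => g i, by omega, fun i j hij => ?_, rfl, fun i => ?_, fun i => ?_, ?_⟩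
  · have hi := i.2
    have hj := j.2
    simp only [g] at hij
    refine Fin.ext ?_
    split_ifs at hij <;> omega
  · have hi := i.2
    simp only [g]
    split_ifs <;> omega
  · have hi := i.2
    simp only [g]
    split_ifs <;> omega
  · rw [Fin.sum_univ_eq_sum_range g, Finset.sum_range_succ, Finset.range_eq_Ico,
      Finset.sum_eq_sum_Ico_succ_bot (by omega), zero_add,
      Finset.sum_congr rfl (g := fun i => q - i) fun i hi => by
        have := Finset.mem_Ico.1 hi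
        simp only [g]
        rw [if_neg (by omega), if_neg (by omega)], ← hS]
    simp only [g, if_true]
    rw [if_neg (by omega)]
    omega

end Pool.Agent.Lib.MP_9227d9_nt.Mob
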