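import Pool.Agent.Lib.MP_458f0b_nt.LxCell
import Pool.Agent.Lib.MP_458f0b_nt.LxColl
import Pool.Agent.Lib.MP_9227d9_nt.TwIns
import Pool.Agent.Lib.MP_9227d9_nt.TwUse

/-! Cancellation of the Moebius function on progressions, on average over the classes. -/

namespace Pool.Agent.Lib.MP_9227d9_nt.Mob

open Polynomial

open scoped Classical

namespace Lx

variable {k : Type} [Field k] [Fintype k] [CharP k 2]

theorem pair_le (hD : StD) (hS : StS) (hSQ : StSQ) (c : Lx k) {K : ℝ} (H : KB2 k c.U c.τ K)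
    {β : k[X] → k[X] → ℝ} (hβ : c.Ctl K β) {c₀ : k[X]} (hc : IsCoprime c₀ c.D)
    (hd : c₀.degree < c.m) :
    avm c.n1 (fun G => (avm c.nu fun u => c.Wm (c.l c₀ G u)) ^ 2) ≤
      (2 * K) ^ 2 / c.Q + 2 * K * √c.Q * (6 * K ^ 3 / c.Q ^ 3 +
        c.Q ^ 5 * ∑ R ∈ Mo k c.τ, ∑ g ∈ Mo k (3 * c.τ), c.T β c₀ R g) := by
  have hK := H.ten_le
  have hQ := c.two_le_Q
  have h1 := c.nu_add
  have h2 := c.nu_ge
  have h5 := c.τ_pos
  have hn : c.nu + 2 * (76 * c.τ) - 1 = c.n1 := by omega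
  have hS' : 0 ≤ ∑ R ∈ Mo k c.τ, ∑ g ∈ Mo k (3 * c.τ), c.T β c₀ R g :=
    Finset.sum_nonneg fun _ _ => Finset.sum_nonneg fun _ _ => T_nonneg _ _ _ _ _
  have := hD k c.nu (76 * c.τ) c.τ (fun u G => c.Wm (c.l c₀ G u)) (2 * K)
    (6 * K ^ 3 / c.Q ^ 3 + c.Q ^ 5 * ∑ R ∈ Mo k c.τ, ∑ g ∈ Mo k (3 * c.τ), c.T β c₀ R g)
    (by omega) (by omega) (by omega) (by positivity) (by positivity)
    (fun u G hu hG => c.abs_Wm_le H (c.MD_line hd (hn ▸ hG) hu).2.2)
    (fun u G σ => by rw [l_line])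
    (fun R G₀ hR hRd hG => by
      refine (cell hS hSQ c H hβ hc hd hR hRd (hn ▸ hG)).trans ?_
      refine add_le_add le_rfl (mul_le_mul_of_nonneg_left ?_ (by positivity))
      exact Finset.single_le_sum (f := fun R => ∑ g ∈ Mo k (3 * c.τ), c.T β c₀ R g)
        (fun _ _ => Finset.sum_nonneg fun _ _ => T_nonneg _ _ _ _ _)
        (mem_Mo.2 ⟨hR, hRd.le⟩))
  rw [hn] at this
  exact this

theorem cell_le (hS : StS) (c : Lx k) {K : ℝ} (H : KB2 k c.U c.τ K)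
    {β : k[X] → k[X] → ℝ} (hβ : c.Ctl K β) {a : k[X]} {b : ℕ} {c₀ : k[X] → k[X]}
    (ha : IsCoprime a c.D)
    (hc : ∀ B, MD b B → IsCoprime B c.D → c.D ∣ B * c₀ B - a ∧ (c₀ B).degree < c.m)
    (hb : c.m ≤ b + c.nu + 156 * c.τ) (hb' : b ≤ c.U * c.τ)
    {R g : k[X]} (hR : R ∈ Mo k c.τ) (hg : g ∈ Mo k (3 * c.τ)) :
    (avm b fun B => if IsCoprime B c.D then c.T β (c₀ B) R g else 0) ≤ 2 * K / c.Q ^ 12 := by
  have hK := H.ten_le
  have hQ := c.two_le_Q
  have h2 := c.nu_ge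
  have h6 := c.dl_add
  have h7 := c.τ_pos
  have hq := qR_pos (k := k)
  obtain ⟨hR1, hR2⟩ := mem_Mo.1 hR
  obtain ⟨hg1, hg2⟩ := mem_Mo.1 hg
  have hM : (c.E * R * g).Monic := (c.MD_E.1.mul hR1).mul hg1
  have hMd : (c.E * R * g).natDegree = c.e + R.natDegree + g.natDegree := by
    rw [(c.MD_E.1.mul hR1).natDegree_mul hg1, c.MD_E.1.natDegree_mul hR1, c.MD_E.2]
  have h1 := (hβ _ hM.ne_zero (by omega)).1
  have key := coll hS c (s := min c.m (b + c.nu)) (B₀ := 4 * K / c.Q ^ 180)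
    (fun x => |β (c.E * R * g) x|) ha hc (by simpa only [sq_abs] using h1) (min_le_left _ _)
    (min_le_right _ _)
  refine (le_abs_self _).trans (abs_le_of_sq_le_sq (key.trans ?_) (by positivity))
  have e1 : (b + 1 : ℝ) ≤ K := by
    have h3 := H.lin
    have h4 : (b : ℝ) ≤ c.U * c.τ := by exact_mod_cast hb'
    have h5 : (0 : ℝ) ≤ b := Nat.cast_nonneg _
    linarith
  have e2 : qR k ^ c.m / qR k ^ min c.m (b + c.nu) ≤ c.Q ^ 156 := by
    rw [c.Q_pow, div_le_iff₀ (by positivity), ← pow_add]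
    exact pow_le_pow_right₀ one_le_qR (by omega)
  calc qR k ^ c.m * ((b + 1) / qR k ^ min c.m (b + c.nu)) * (4 * K / c.Q ^ 180)
      = qR k ^ c.m / qR k ^ min c.m (b + c.nu) * (b + 1) * (4 * K / c.Q ^ 180) := by ring
    _ ≤ c.Q ^ 156 * K * (4 * K / c.Q ^ 180) := by gcongr
    _ = (2 * K / c.Q ^ 12) ^ 2 := by field_simp; ring

theorem ins (hD : StD) (hS : StS) (hSQ : StSQ) (hM1 : StM1) (hM2 : StM2) (c : Lx k) {K : ℝ}
    (H : KB2 k c.U c.τ K) {a : k[X]} {b : ℕ} {c₀ : k[X] → k[X]} (ha : IsCoprime a c.D)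
    (hc : ∀ B, MD b B → IsCoprime B c.D → c.D ∣ B * c₀ B - a ∧ (c₀ B).degree < c.m)
    (hb : c.m ≤ b + c.nu + 156 * c.τ) (hb' : b ≤ c.U * c.τ) :
    (avm b fun B => if IsCoprime B c.D then
      avm c.n1 (fun G => (avm c.nu fun u => c.Wm (c.l (c₀ B) G u)) ^ 2) else 0) ≤
      15 * K ^ 4 / c.Q := by
  have hK := H.ten_le
  have hQ := c.two_le_Q
  obtain ⟨β, hβ⟩ := exists_ctl hM1 hM2 c H
  have hs : √c.Q ≤ c.Q := by
    rw [Real.sqrt_le_left (by linarith)]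
    nlinarith
  have hstep : (avm b fun B => if IsCoprime B c.D then
      avm c.n1 (fun G => (avm c.nu fun u => c.Wm (c.l (c₀ B) G u)) ^ 2) else 0) ≤
      avm b fun B => ((2 * K) ^ 2 / c.Q + 2 * K * √c.Q * (6 * K ^ 3 / c.Q ^ 3)) +
        2 * K * √c.Q * c.Q ^ 5 * ∑ R ∈ Mo k c.τ, ∑ g ∈ Mo k (3 * c.τ),
          if IsCoprime B c.D then c.T β (c₀ B) R g else 0 := by
    refine avm_mono fun B hB => ?_
    by_cases hAB : IsCoprime B c.D
    · simp only [if_pos hAB]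
      obtain ⟨⟨t, ht⟩, h2⟩ := hc B hB hAB
      have h3 : IsCoprime (c₀ B) c.D := by
        have h4 := ha.add_mul_left_left t
        rw [show a + c.D * t = B * c₀ B by linear_combination -ht] at h4
        exact h4.of_mul_left_right
      refine (pair_le hD hS hSQ c H hβ h3 h2).trans (le_of_eq ?_)
      ring
    · simp only [if_neg hAB, Finset.sum_const_zero, mul_zero, add_zero]
      positivity
  refine hstep.trans ?_
  simp only [avm_add, avm_const, avm_mul_left, avm_sum]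
  refine le_trans ?_ (TwIns.final hK hQ hs)
  refine add_le_add le_rfl (mul_le_mul_of_nonneg_left ?_ (by positivity))
  have hM1 : ((Mo k c.τ).card : ℝ) ≤ 2 * c.Q := card_Mo_le _
  have hM3 : ((Mo k (3 * c.τ)).card : ℝ) ≤ 2 * c.Q ^ 3 := by
    rw [c.Q_pow]
    exact card_Mo_le _
  calc _ ≤ ∑ _R ∈ Mo k c.τ, ∑ _g ∈ Mo k (3 * c.τ), 2 * K / c.Q ^ 12 :=
        Finset.sum_le_sum fun R hR => Finset.sum_le_sum fun g hg =>
          cell_le hS c H hβ ha hc hb hb' hR hg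
    _ = (Mo k c.τ).card * ((Mo k (3 * c.τ)).card * (2 * K / c.Q ^ 12)) := by
        simp only [Finset.sum_const, nsmul_eq_mul]
    _ ≤ _ := by gcongr

omit [CharP k 2] in
theorem sqf (c : Lx k) {c₀ G : k[X]} (hc : IsCoprime c₀ c.D) (h : mu (c.D * G + c₀) ≠ 0) :
    IsCoprime (c.D * G + c₀) c.D ∧ Squarefree ((c.D * G + c₀) * c.D₁) := by
  have h1 : IsCoprime (c.D * G + c₀) c.D := by
    rw [add_comm]
    exact hc.add_mul_left_left G
  exact ⟨h1, squarefree_mul_iff.2 ⟨(c.isCoprime_D₁ h1).isRelPrime, mu_ne_zero_iff.1 h, c.D₁_sqf⟩⟩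

omit [CharP k 2] in
theorem small' (c : Lx k) {K x : ℝ} (hK : KB2 k c.U c.τ K) (hx : x ≤ c.Q + 2 * c.d) :
    x / qR k ^ (12 * c.τ) ≤ K / c.Q := by
  have h1 := c.two_le_Q
  have h2 := c.d_le_K hK
  have h3 := hK.ten_le
  have h4 : (0 : ℝ) ≤ c.d := Nat.cast_nonneg _
  have hQ : (0 : ℝ) < c.Q := by linarith
  rw [← c.Q_pow, div_le_div_iff₀ (pow_pos hQ _) hQ]
  have h5 : c.Q ^ 2 ≤ c.Q ^ 12 := pow_le_pow_right₀ (by linarith) (by norm_num)
  have h6 : x ≤ K * c.Q := by nlinarith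
  calc x * c.Q ≤ K * c.Q * c.Q := mul_le_mul_of_nonneg_right h6 hQ.le
    _ = K * c.Q ^ 2 := by ring
    _ ≤ K * c.Q ^ 12 := mul_le_mul_of_nonneg_left h5 (by linarith)

/-- Good pairs. -/
def Good (c : Lx k) (c₀ G u : k[X]) : Prop :=
  IsCoprime (c.D₁ * u) (c.l c₀ G u) ∧
    ∀ p, IsP p → p.natDegree = 12 * c.τ → p ∣ c.l c₀ G u → ¬ p ∣ c.E

omit [CharP k 2] in
theorem abs_le' (c : Lx k) {K : ℝ} (hK : KB2 k c.U c.τ K) (F l : k[X]) : |mu F * c.W l| ≤ K := by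
  rw [abs_mul]
  exact (mul_le_of_le_one_left (abs_nonneg _) (abs_mu_le F)).trans (c.abs_W_le hK l)

theorem good_line (c : Lx k) {K sv : ℝ} (hK : KB2 k c.U c.τ K) (hL : LineOK k c.U c.τ sv)
    (hsv : 0 ≤ sv) {c₀ G u : k[X]} (hd : c₀.degree < c.m) (hG : MD c.n1 G) (hu : MD c.nu u)
    (hg : c.Good c₀ G u) :
    |avg (76 * c.τ) fun σ => mu (c.D * (G + u * σ ^ 2) + c₀) * c.W (c.l c₀ G u)| ≤ K * sv := by
  have hK10 := hK.ten_le
  have h2 : avg (76 * c.τ) (fun σ => mu (c.D * (G + u * σ ^ 2) + c₀) * c.W (c.l c₀ G u)) =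
      (mu (c.D₁ * u) * c.W (c.l c₀ G u)) *
        avg (76 * c.τ) fun σ => mu ((c.D * G + c₀) * c.D₁ * u + (c.E * u * σ) ^ 2) := by
    rw [← avg_mul_left]
    refine avg_congr fun σ _ => ?_
    have h3 : IsCoprime (c.D₁ * u) (od ((c.D * (G + u * σ ^ 2) + c₀) * (c.D₁ * u))) := by
      have h4 := hg.1
      rwa [← c.l_line c₀ G u σ, l, mul_assoc] at h4
    rw [mu_eq_of_isCoprime_od h3, ← mul_assoc (c.D * (G + u * σ ^ 2) + c₀), H_line]
    ring
  rw [h2, abs_mul]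
  by_cases hW : c.W (c.l c₀ G u) = 0
  · rw [hW, mul_zero, abs_zero, zero_mul]
    positivity
  refine mul_le_mul (abs_le' c hK _ _) (hL c.r c.I c.dl _ _ c.r_le c.I_inj c.I_zero c.I_le
    (c.MD_line hd hG hu).2.1 hW ?_ fun p hp h3 h4 h5 => ?_).1 (abs_nonneg _) (by linarith)
  · rw [(c.MD_E.mul hu).2, c.dl_add]
  · rcases hp.prime.dvd_or_dvd h5 with h6 | h6
    · exact hg.2 p hp h3 h4 h6
    · exact hp.prime.not_isUnit (hg.1.isUnit_of_dvd' (h6.mul_left _) h4)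

theorem bad (h1 : StEX1) (c : Lx k) {K : ℝ} (hK : KB2 k c.U c.τ K) {c₀ G : k[X]}
    (hc : IsCoprime c₀ c.D) (hd : c₀.degree < c.m) (hG : MD c.n1 G) :
    avm c.nu (fun u => if c.Good c₀ G u then 0 else |mu (c.D * G + c₀) * c.W (c.l c₀ G u)|) ≤
      K * (2 * K / c.Q) := by
  have hK10 := hK.ten_le
  have hQ : (0 : ℝ) < c.Q := lt_of_lt_of_le two_pos c.two_le_Q
  by_cases hmu : mu (c.D * G + c₀) = 0
  · refine avm_le_of_le fun u _ => ?_
    rw [hmu, zero_mul, abs_zero, ite_self]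
    positivity
  obtain ⟨h2, h3⟩ := c.sqf hc hmu
  have d1 := c.τ_pos
  have d2 := c.nu_ge
  have d3 := c.dl_add
  have d4 := c.dl_le
  have d5 := c.d_ge
  have e1 := (h1 k _ c.D₁ (12 * c.τ) c.nu h3 (dvd_mul_left _ _) (by omega) (by omega)).trans
    (c.small' hK (by
      have h4 := ((c.MD_line hd hG ⟨monic_X_pow c.nu, natDegree_X_pow _⟩).1.mul c.MD_D₁).2
      have h5 : (((c.D * G + c₀) * c.D₁).natDegree : ℝ) ≤ 2 * c.d := by
        rw [h4]
        exact_mod_cast (by omega)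
      linarith [c.qR_le_Q]))
  have e2 := (exo (nu := c.nu) (s := 12 * c.τ) c.MD_E.ne_zero (fun p hp => c.not_sq_dvd h2 hp)
    (by omega)).trans (c.small' hK (by
      have h5 : (c.E.natDegree : ℝ) ≤ 2 * c.d := by
        rw [c.MD_E.2]
        exact_mod_cast (by omega)
      linarith))
  refine le_trans (avm_mono (G := fun u => K * ((if ∃ p, IsP p ∧ 12 * c.τ ≤ p.natDegree ∧
    p ∣ c.D₁ * u ∧ p ∣ od ((c.D * G + c₀) * c.D₁ * u) then 1 else 0) +
    if ∃ p ∈ pf c.E, 12 * c.τ ≤ p.natDegree ∧ p ∣ od ((c.D * G + c₀) * c.D₁ * u) then 1 else 0))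
    fun u hu => ?_) ?_
  · have i1 : (0 : ℝ) ≤ if ∃ p, IsP p ∧ 12 * c.τ ≤ p.natDegree ∧
        p ∣ c.D₁ * u ∧ p ∣ od ((c.D * G + c₀) * c.D₁ * u) then 1 else 0 := by
      split_ifs <;> norm_num
    have i2 : (0 : ℝ) ≤ if ∃ p ∈ pf c.E, 12 * c.τ ≤ p.natDegree ∧
        p ∣ od ((c.D * G + c₀) * c.D₁ * u) then 1 else 0 := by
      split_ifs <;> norm_num
    by_cases hg : c.Good c₀ G u
    · rw [if_pos hg]
      positivity
    rw [if_neg hg]
    by_cases hW : c.W (c.l c₀ G u) = 0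
    · rw [hW, mul_zero, abs_zero]
      positivity
    refine (abs_le' c hK _ _).trans (le_mul_of_one_le_right (by linarith) ?_)
    by_cases g1 : IsCoprime (c.D₁ * u) (c.l c₀ G u)
    · have g3 : ∃ p ∈ pf c.E, 12 * c.τ ≤ p.natDegree ∧ p ∣ od ((c.D * G + c₀) * c.D₁ * u) := by
        by_contra g4
        exact hg ⟨g1, fun p hp q1 q2 q3 =>
          g4 ⟨p, (mem_pf c.MD_E.ne_zero).2 ⟨hp, q3⟩, q1.ge, q2⟩⟩
      rw [if_pos g3]
      linarith
    · obtain ⟨p, hp, q1, q2⟩ := exists_isP_of_not_isCoprime (c.MD_D₁.mul hu).ne_zero g1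
      obtain ⟨i, hi⟩ := natDegree_of_Wt_ne_zero hW hp q2
      rw [if_pos ⟨p, hp, hi ▸ c.I_ge i, q1, q2⟩]
      linarith
  · rw [avm_mul_left, avm_add]
    refine mul_le_mul_of_nonneg_left ?_ (by linarith)
    rw [show 2 * K / c.Q = K / c.Q + K / c.Q by ring]
    exact add_le_add e1 e2

theorem on (h1 : StEX1) (c : Lx k) {K sv : ℝ} (hK : KB2 k c.U c.τ K) (hL : LineOK k c.U c.τ sv)
    (hsv : 0 ≤ sv) {c₀ : k[X]} (hc : IsCoprime c₀ c.D) (hd : c₀.degree < c.m) :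
    |avm c.nu fun u => avm c.n1 fun G => mu (c.D * G + c₀) * c.W (c.l c₀ G u)| ≤
      K * sv + K * (2 * K / c.Q) := by
  have hK10 := hK.ten_le
  have key : ∀ u, MD c.nu u → |avm c.n1 fun G => mu (c.D * G + c₀) * c.W (c.l c₀ G u)| ≤
      K * sv + avm c.n1 fun G =>
        if c.Good c₀ G u then 0 else |mu (c.D * G + c₀) * c.W (c.l c₀ G u)| := by
    intro u hu
    have e1 : (avm c.n1 fun G => mu (c.D * G + c₀) * c.W (c.l c₀ G u)) =
        (avm c.n1 fun G => if c.Good c₀ G u then mu (c.D * G + c₀) * c.W (c.l c₀ G u) else 0) +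
          avm c.n1 fun G => if c.Good c₀ G u then 0 else mu (c.D * G + c₀) * c.W (c.l c₀ G u) := by
      rw [← avm_add]
      refine avm_congr fun G _ => ?_
      split_ifs <;> ring
    rw [e1]
    refine (abs_add_le _ _).trans (add_le_add ?_ (abs_avm_le.trans (avm_mono fun G _ => ?_)))
    · rw [avm_avg_shift (76 * c.τ) (fun σ => u * σ ^ 2) fun σ hσ => degree_mul_sq_lt hσ (by
        have := c.nu_add
        rw [hu.2]
        omega)]
      refine abs_avm_le_of_le fun G hG => ?_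
      have e2 : ∀ σ, c.Good c₀ (G + u * σ ^ 2) u ↔ c.Good c₀ G u := fun σ => by
        unfold Good
        rw [l_line]
      simp only [e2, l_line]
      by_cases hg : c.Good c₀ G u
      · simp only [if_pos hg]
        exact good_line c hK hL hsv hd hG hu hg
      · simp only [if_neg hg, avg_const, abs_zero]
        positivity
    · split_ifs
      · simp
      · exact le_rfl
  refine (abs_avm_le.trans (avm_mono key)).trans ?_
  rw [avm_add, avm_const, avm_comm]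
  exact add_le_add le_rfl (avm_le_of_le fun G hG => bad h1 c hK hc hd hG)

/-- The Moebius function cancels on most of the progressions. -/
theorem z3 (hD : StD) (hS : StS) (hSQ : StSQ) (hM1 : StM1) (hM2 : StM2) (hM4 : StM4)
    (h1 : StEX1) (c : Lx k) {K sv : ℝ} (H : KB2 k c.U c.τ K) (hL : LineOK k c.U c.τ sv)
    (hsv : 0 ≤ sv) {a : k[X]} {b : ℕ} {c₀ : k[X] → k[X]} (ha : IsCoprime a c.D)
    (hc : ∀ B, MD b B → IsCoprime B c.D → c.D ∣ B * c₀ B - a ∧ (c₀ B).degree < c.m)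
    (hb : c.m ≤ b + c.nu + 156 * c.τ) (hb' : b ≤ c.U * c.τ) :
    (avm b fun B => if IsCoprime B c.D then |avm c.n1 fun G => mu (c.D * G + c₀ B)| else 0) ≤
      6 * K ^ 2 * (1 / √c.Q + sv) := by
  have hK := H.ten_le
  have hQ2 := c.two_le_Q
  have hQ : 0 < c.Q := by linarith
  have hi := ins hD hS hSQ hM1 hM2 c H ha hc hb hb'
  set Y : k[X] → ℝ := fun B => if IsCoprime B c.D then
    avm c.n1 (fun G => |avm c.nu fun u => c.Wm (c.l (c₀ B) G u)|) else 0 with hY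
  have e1 : avm b Y ≤ 4 * K ^ 2 / √c.Q := by
    have h2 : avm b Y ^ 2 ≤ 15 * K ^ 4 / c.Q := by
      refine sq_avm_le.trans ((avm_mono fun B _ => ?_).trans hi)
      simp only [hY]
      split_ifs
      · refine sq_avm_le.trans (le_of_eq ?_)
        simp only [sq_abs]
      · simp
    have h3 : (4 * K ^ 2 / √c.Q) ^ 2 = 16 * K ^ 4 / c.Q := by
      rw [div_pow, Real.sq_sqrt hQ.le]
      ring
    have h4 : 15 * K ^ 4 / c.Q ≤ 16 * K ^ 4 / c.Q :=
      div_le_div_of_nonneg_right (by nlinarith [pow_two_nonneg (K ^ 2)]) hQ.le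
    exact (le_abs_self _).trans (abs_le_of_sq_le_sq (h3 ▸ h2.trans h4) (by positivity))
  have e2 : ∀ B, MD b B → (if IsCoprime B c.D then |avm c.n1 fun G => mu (c.D * G + c₀ B)| else 0) ≤
      Y B + (K * sv + K * (2 * K / c.Q)) := by
    intro B hB
    simp only [hY]
    split_ifs with hco
    swap
    · positivity
    obtain ⟨⟨t, ht⟩, h2⟩ := hc B hB hco
    have h3 : IsCoprime (c₀ B) c.D := by
      have h4 := ha.add_mul_left_left t
      rw [show a + c.D * t = B * c₀ B by linear_combination -ht] at h4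
      exact h4.of_mul_left_right
    have h4 := on h1 c H hL hsv h3 h2
    have h5 : (avm c.n1 fun G => mu (c.D * G + c₀ B)) =
        (avm c.nu fun u => avm c.n1 fun G => mu (c.D * G + c₀ B) * c.W (c.l (c₀ B) G u)) -
          avm c.n1 fun G => mu (c.D * G + c₀ B) * avm c.nu fun u => c.Wm (c.l (c₀ B) G u) := by
      rw [avm_comm, ← avm_sub]
      refine avm_congr fun G _ => ?_
      by_cases hmu : mu (c.D * G + c₀ B) = 0
      · simp only [hmu, zero_mul, avm_const, sub_zero]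
      have h6 := c.nu_ge
      have h7 := hM4 k (180 * c.τ) 0 (12 * c.τ) c.nu _ 1 (c.sqf h3 hmu).2 squarefree_one
        (Nat.zero_le _) (by omega)
      simp only [TwUse.f0_zero, TwUse.wm_zero, mul_one] at h7
      simp only [Wm, W]
      rw [avm_mul_left, avm_sub]
      unfold l
      rw [h7]
      ring
    rw [h5, add_comm]
    refine (abs_sub _ _).trans (add_le_add h4 (abs_avm_le.trans (avm_mono fun G _ => ?_)))
    rw [abs_mul]
    exact mul_le_of_le_one_left (abs_nonneg _) (abs_mu_le _)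
  refine (avm_mono e2).trans ?_
  rw [avm_add, avm_const]
  have h4 : 1 / c.Q ≤ 1 / √c.Q := by
    refine one_div_le_one_div_of_le (Real.sqrt_pos.2 hQ) ?_
    rw [Real.sqrt_le_left hQ.le]
    nlinarith
  have h6 : 4 * K ^ 2 / √c.Q = 4 * K ^ 2 * (1 / √c.Q) := by ring
  have h7 : K * (2 * K / c.Q) = 2 * K ^ 2 * (1 / c.Q) := by ring
  have h8 : 2 * K ^ 2 * (1 / c.Q) ≤ 2 * K ^ 2 * (1 / √c.Q) :=
    mul_le_mul_of_nonneg_left h4 (by positivity)
  have h9 : K * sv ≤ 6 * K ^ 2 * sv := mul_le_mul_of_nonneg_right (by nlinarith) hsv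
  linarith

end Lx

end Pool.Agent.Lib.MP_9227d9_nt.Mob
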