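import Pool.Agent.Lib.MP_458f0b_nt.MkDefs

/-! The additive energy of reciprocals. -/

namespace Pool.Agent.Lib.MP_9227d9_nt.Mob.MK

open Polynomial

open scoped Classical

namespace MkJ4

variable {k : Type} [Field k] [Fintype k]

/-- The relation between four reciprocals. -/
def Good (M P S x y : k[X]) : Prop := IsCoprime (x * y * P) M ∧ M ∣ (x + y) * P + S * (x * y)

/-- A large common divisor. -/
def Bad (M S : k[X]) (c : ℕ) : Prop := ∃ g : k[X], g.Monic ∧ g ∣ M ∧ c ≤ g.natDegree ∧ g ∣ S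

theorem inner_le {M : k[X]} (P S x : k[X]) {ρ : ℕ} (hM : M ≠ 0) (hρ : ρ ≤ M.natDegree) :
    avm ρ (fun y => if Good M P S x y then (1 : ℝ) else 0) ≤
      1 / qR k ^ ρ * if ∃ y, MD ρ y ∧ Good M P S x y then 1 else 0 := by
  split_ifs with h
  · obtain ⟨y₀, -, h1, w, h2⟩ := h
    have h3 : IsCoprime (x * P) M := by
      rw [mul_right_comm] at h1
      exact h1.of_mul_left_left
    have h4 : IsCoprime (P + S * x) M := by
      obtain ⟨a, b, h5⟩ := h3
      exact ⟨-(a * y₀), a * w + b, by linear_combination h5 - a * h2⟩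
    rw [mul_one]
    refine le_trans (avm_mono fun y _ => ?_) (avm_dvd_le hM le_rfl hρ h4 (x * P))
    by_cases h5 : Good M P S x y
    · rw [if_pos h5, if_pos (by
        have h6 := h5.2
        rwa [show (x + y) * P + S * (x * y) = (P + S * x) * y + x * P by ring] at h6)]
    · rw [if_neg h5]
      split_ifs <;> norm_num
  · rw [mul_zero]
    exact avm_le_of_le fun y hy => (if_neg fun h1 => h ⟨y, hy, h1⟩).le

theorem div_count {l W : k[X]} (t : k[X]) (hl : l ≠ 0) (hW : W ≠ 0) (n : ℕ) :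
    avm n (fun x => if l * x + t ∣ W then (1 : ℝ) else 0) ≤ qR k * dv W / qR k ^ n := by
  rw [avm_eq_MoD, Finset.sum_boole]
  refine div_le_div_of_nonneg_right ?_ (qR_pow_pos n).le
  have h := Finset.card_le_card_of_injOn (s := (MoD k n).filter fun x => l * x + t ∣ W)
    (t := (Finset.univ : Finset k) ×ˢ (Mo k W.natDegree).filter fun g => g ∣ W)
    (fun x => ((l * x + t).leadingCoeff, (l * x + t) * C (l * x + t).leadingCoeff⁻¹)) ?_ ?_
  · rw [Finset.card_product, Finset.card_univ] at h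
    unfold qR dv
    exact_mod_cast h
  · intro x hx
    have h1 : l * x + t ∣ W := (Finset.mem_filter.1 hx).2
    have h2 : l * x + t ≠ 0 := ne_zero_of_dvd_ne_zero hW h1
    have h3 : (l * x + t) * C (l * x + t).leadingCoeff⁻¹ ∣ W :=
      (IsUnit.mul_right_dvd (isUnit_C.2 (IsUnit.mk0 _
        (inv_ne_zero (leadingCoeff_ne_zero.2 h2))))).2 h1
    exact Finset.mem_coe.2 (Finset.mem_product.2 ⟨Finset.mem_univ _, Finset.mem_filter.2
      ⟨mem_Mo.2 ⟨monic_mul_leadingCoeff_inv h2, natDegree_le_of_dvd h3 hW⟩, h3⟩⟩)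
  · intro x hx y _ hxy
    obtain ⟨h1, h2⟩ := Prod.ext_iff.1 hxy
    dsimp only at h1 h2
    have h3 : l * x + t ≠ 0 := ne_zero_of_dvd_ne_zero hW (Finset.mem_filter.1 hx).2
    rw [← h1] at h2
    have h4 := mul_right_cancel₀ (C_ne_zero.2 (inv_ne_zero (leadingCoeff_ne_zero.2 h3))) h2
    exact mul_left_cancel₀ hl (add_right_cancel h4)

/-- The lemma of Thue. -/
theorem thue {M P : k[X]} (S : k[X]) (hM : M.Monic) (hP : IsCoprime P M) {a b : ℕ}
    (hab : a + b = M.natDegree) : ∃ t l : k[X], t ≠ 0 ∧ t.natDegree ≤ a ∧ l.degree < b ∧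
      M ∣ l * P - t * S := by
  have hc : (Pn k M.natDegree).card < (Pn k (a + 1) ×ˢ Pn k b).card := by
    have h1 : ((Pn k M.natDegree).card : ℝ) < ((Pn k (a + 1) ×ˢ Pn k b).card : ℕ) := by
      rw [Finset.card_product, Nat.cast_mul, card_Pn, card_Pn, card_Pn, ← pow_add]
      exact pow_lt_pow_right₀ (lt_of_lt_of_le one_lt_two two_le_qR) (by omega)
    exact_mod_cast h1
  obtain ⟨u, hu, v, hv, huv, h⟩ := Finset.exists_ne_map_eq_of_card_lt_of_maps_to hc
    (f := fun u : k[X] × k[X] => (u.2 * P - u.1 * S) %ₘ M) fun u _ => by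
      refine Finset.mem_coe.2 (mem_Pn.2 ?_)
      rw [← degree_eq_natDegree hM.ne_zero]
      exact degree_modByMonic_lt _ hM
  obtain ⟨h1, h2⟩ := Finset.mem_product.1 hu
  obtain ⟨h3, h4⟩ := Finset.mem_product.1 hv
  rw [mem_Pn] at h1 h2 h3 h4
  have h5 : M ∣ (u.2 - v.2) * P - (u.1 - v.1) * S := by
    rw [← modByMonic_eq_zero_iff_dvd hM, show (u.2 - v.2) * P - (u.1 - v.1) * S =
      (u.2 * P - u.1 * S) - (v.2 * P - v.1 * S) by ring, sub_modByMonic]
    exact sub_eq_zero.2 h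
  have h6 : (u.2 - v.2).degree < b := (degree_sub_le _ _).trans_lt (max_lt h2 h4)
  have h7 : u.1 - v.1 ≠ 0 := fun h0 => by
    rw [h0, zero_mul, sub_zero] at h5
    have h8 := hP.symm.dvd_of_dvd_mul_right h5
    by_cases h9 : u.2 - v.2 = 0
    · exact huv (Prod.ext (sub_eq_zero.1 h0) (sub_eq_zero.1 h9))
    · have h10 := natDegree_le_of_dvd h8 h9
      have h11 := natDegree_lt_of_degree h9 h6
      omega
  refine ⟨_, _, h7, ?_, h6, h5⟩
  have h8 := natDegree_lt_of_degree h7 ((degree_sub_le _ _).trans_lt (max_lt h1 h3))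
  omega

omit [Fintype k] in
theorem bad_of_dvd {M S t : k[X]} {c : ℕ} (hM : M.Monic) (ht : t ≠ 0)
    (hd : t.natDegree + c ≤ M.natDegree) (h : M ∣ t * S) : Bad M S c := by
  obtain ⟨g, t', h1, h2, h3⟩ := extract_gcd M t
  have h4 : gcd M t ≠ 0 := fun h0 => ht ((gcd_eq_zero_iff _ _).1 h0).2
  have h5 : (gcd M t).Monic := by
    rw [← normalize_gcd]
    exact monic_normalize h4
  have h6 : g.Monic := h5.of_mul_monic_left (h1 ▸ hM)
  have h7 : (gcd M t).natDegree ≤ t.natDegree := natDegree_le_of_dvd (gcd_dvd_right _ _) ht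
  have h8 : M.natDegree = (gcd M t).natDegree + g.natDegree := by
    rw [← h5.natDegree_mul h6, ← h1]
  refine ⟨g, h6, Dvd.intro_left _ h1.symm, by omega, ?_⟩
  have h9 : gcd M t * g ∣ gcd M t * (t' * S) := by rwa [← mul_assoc, ← h1, ← h2]
  exact ((gcd_isUnit_iff _ _).1 h3).dvd_of_dvd_mul_left ((mul_dvd_mul_iff_left h4).1 h9)

theorem exists_z [CharP k 2] {M P S t l x y : k[X]} {ρ c : ℕ} (hM : M.Monic) (h1 : 1 ≤ c)
    (hc : c ≤ ρ) (hm : ρ + 2 * c ≤ M.natDegree) (ht : t ≠ 0) (htd : t.natDegree ≤ ρ + c)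
    (hld : l.natDegree + ρ + c < M.natDegree) (hd : M ∣ l * P - t * S) (hx : MD ρ x)
    (hy : MD ρ y) (hg : Good M P S x y) : ∃ z ∈ Pn k (ρ - c),
      (l * M * z + t ^ 2 ≠ 0 ∧ (l * M * z + t ^ 2).natDegree ≤ 2 * M.natDegree) ∧
        l * x + t ∣ l * M * z + t ^ 2 := by
  obtain ⟨hg1, hg2⟩ := hg
  have h2 : M ∣ (l * (x * y) + t * (x + y)) * P := by
    have h3 := dvd_add (hg2.mul_left t) (hd.mul_left (x * y))
    rwa [show t * ((x + y) * P + S * (x * y)) + x * y * (l * P - t * S) =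
      (l * (x * y) + t * (x + y)) * P by ring] at h3
  obtain ⟨z, hz⟩ := hg1.of_mul_left_right.symm.dvd_of_dvd_mul_right h2
  have h3 : (l * x + t) * (l * y + t) = l * M * z + t ^ 2 := by linear_combination l * hz
  have h4 : ∀ u v : k[X], IsCoprime v M → l * (u * v) + t * (u + v) = M * z → l * v + t ≠ 0 :=
    fun u v hv h h0 => by
      have h5 : M ∣ t * v := ⟨z, by linear_combination h - u * h0⟩
      have h6 := natDegree_le_of_dvd (hv.symm.dvd_of_dvd_mul_right h5) ht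
      omega
  have h5 : ∀ v : k[X], MD ρ v → (l * v + t).natDegree ≤ M.natDegree := fun v hv => by
    refine natDegree_add_le_of_degree_le (natDegree_mul_le.trans ?_) (by omega)
    rw [hv.2]
    omega
  have h6 : (x + y).degree < ρ := by
    rw [show x + y = (x - X ^ ρ) - (y - X ^ ρ) by
      linear_combination y * CharTwo.two_eq_zero (R := k[X])]
    exact (degree_sub_le _ _).trans_lt (max_lt hx.degree_sub hy.degree_sub)
  have h7 : (M * z).degree < (M.natDegree + (ρ - c) : ℕ) := by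
    rw [← hz]
    refine (degree_add_le _ _).trans_lt (max_lt (degree_lt_of_natDegree fun _ => ?_)
      (degree_mul_lt h6 (by omega)))
    refine natDegree_mul_le.trans_lt ?_
    rw [(hx.mul hy).2]
    omega
  refine ⟨z, mem_Pn.2 (degree_lt_of_natDegree fun h0 => ?_), ⟨?_, ?_⟩, Dvd.intro _ h3⟩
  · have h8 := natDegree_lt_of_degree (mul_ne_zero hM.ne_zero h0) h7
    rw [natDegree_mul hM.ne_zero h0] at h8
    omega
  · rw [← h3]
    exact mul_ne_zero (h4 y x hg1.of_mul_left_left.of_mul_left_left (by linear_combination hz))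
      (h4 x y hg1.of_mul_left_left.of_mul_left_right hz)
  · rw [← h3]
    have h8 := h5 x hx
    have h9 := h5 y hy
    exact natDegree_mul_le.trans (by omega)

theorem count_le [CharP k 2] {M P S : k[X]} {ρ c : ℕ} {K : ℝ} (hM : M.Monic) (h1 : 1 ≤ c)
    (hc : c ≤ ρ) (hm : ρ + 2 * c ≤ M.natDegree) (hK : DB k (2 * M.natDegree) K) (h0 : 0 ≤ K)
    (hb : ¬ Bad M S c) :
    avm ρ (fun x => if ∃ y, MD ρ y ∧ Good M P S x y then (1 : ℝ) else 0) ≤
      qR k * K / qR k ^ c := by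
  have hq := qR_pos (k := k)
  by_cases hP : IsCoprime P M
  swap
  · refine avm_le_of_le fun x _ => ?_
    rw [if_neg fun ⟨y, _, h⟩ => hP h.1.of_mul_left_right]
    positivity
  obtain ⟨t, l, ht, htd, hld, hd⟩ := thue S hM hP (a := ρ + c) (b := M.natDegree - (ρ + c))
    (by omega)
  have hl : l ≠ 0 := fun h => hb (bad_of_dvd hM ht (by omega) (by
    rwa [h, zero_mul, zero_sub, dvd_neg] at hd))
  have hld' := natDegree_lt_of_degree hl hld
  refine le_trans (avm_mono (G := fun x => ∑ z ∈ Pn k (ρ - c), if (l * M * z + t ^ 2 ≠ 0 ∧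
    (l * M * z + t ^ 2).natDegree ≤ 2 * M.natDegree) ∧ l * x + t ∣ l * M * z + t ^ 2
      then (1 : ℝ) else 0) fun x hx => ?_) ?_
  · have h2 : ∀ z ∈ Pn k (ρ - c), (0 : ℝ) ≤ if (l * M * z + t ^ 2 ≠ 0 ∧
        (l * M * z + t ^ 2).natDegree ≤ 2 * M.natDegree) ∧ l * x + t ∣ l * M * z + t ^ 2
        then (1 : ℝ) else 0 := fun z _ => by split_ifs <;> norm_num
    split_ifs with h
    · obtain ⟨y, hy, hg⟩ := h
      obtain ⟨z, hz, h3⟩ := exists_z hM h1 hc hm ht htd (by omega) hd hx hy hg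
      exact le_trans (if_pos h3).ge (Finset.single_le_sum h2 hz)
    · exact Finset.sum_nonneg h2
  · rw [avm_sum]
    refine le_trans (Finset.sum_le_card_nsmul _ _ (qR k * K / qR k ^ ρ) fun z _ => ?_) ?_
    · by_cases h2 : l * M * z + t ^ 2 ≠ 0 ∧ (l * M * z + t ^ 2).natDegree ≤ 2 * M.natDegree
      · simp only [h2, true_and, ne_eq, not_false_eq_true]
        refine (div_count t hl h2.1 ρ).trans ?_
        have h3 := hK _ h2.1 h2.2
        gcongr
      · refine avm_le_of_le fun x _ => ?_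
        rw [if_neg fun h3 => h2 h3.1]
        positivity
    · obtain ⟨e, rfl⟩ := Nat.exists_eq_add_of_le hc
      rw [nsmul_eq_mul, card_Pn, Nat.add_sub_cancel_left, pow_add]
      refine le_of_eq ?_
      field_simp

theorem pair_le [CharP k 2] {M : k[X]} (P S : k[X]) {ρ c : ℕ} {K : ℝ} (hM : M.Monic) (h1 : 1 ≤ c)
    (hc : c ≤ ρ) (hm : ρ + 2 * c ≤ M.natDegree) (hK : DB k (2 * M.natDegree) K) (h0 : 0 ≤ K) :
    (avm ρ fun x => avm ρ fun y => if Good M P S x y then (1 : ℝ) else 0) ≤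
      1 / qR k ^ ρ * ((if Bad M S c then 1 else 0) + qR k * K / qR k ^ c) := by
  have hq := qR_pos (k := k)
  refine (avm_mono fun x _ => inner_le P S x hM.ne_zero (by omega)).trans ?_
  rw [avm_mul_left]
  refine mul_le_mul_of_nonneg_left ?_ (by positivity)
  by_cases hb : Bad M S c
  · rw [if_pos hb]
    refine le_trans (avm_le_of_le (B := 1) fun x _ => ?_) (le_add_of_nonneg_right (by positivity))
    split_ifs <;> norm_num
  · rw [if_neg hb, zero_add]
    exact count_le hM h1 hc hm hK h0 hb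

end MkJ4

theorem stJ4 (hG : StGD) : StJ4 := by
  intro k _ _ _ M ρ c K hM h1 hc hm hK
  have hq := qR_pos (k := k)
  have hMK : dv M ≤ K := hK M hM.ne_zero (by omega)
  have h0 : 0 ≤ K := le_trans (Nat.cast_nonneg _) hMK
  unfold J4
  refine avm_le_of_le fun x₃ _ => ?_
  refine le_trans (avm_mono (G := fun x₄ => 1 / qR k ^ ρ *
    ((if MkJ4.Bad M (x₃ + x₄) c then 1 else 0) + qR k * K / qR k ^ c)) fun x₄ _ => ?_) ?_
  · refine le_trans (le_of_eq ?_) (MkJ4.pair_le (x₃ * x₄) (x₃ + x₄) hM h1 hc hm hK h0)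
    exact avm_congr fun x₁ _ => avm_congr fun x₂ _ => if_congr Iff.rfl rfl rfl
  rw [avm_mul_left, avm_add, avm_const]
  have h2 : avm ρ (fun x₄ => if MkJ4.Bad M (x₃ + x₄) c then (1 : ℝ) else 0) ≤ K / qR k ^ c := by
    refine le_trans (le_of_eq ?_) ((hG k M (x₃ + X ^ ρ) c ρ hM.ne_zero hc).trans
      (div_le_div_of_nonneg_right hMK (qR_pow_pos c).le))
    refine avg_congr fun v _ => if_congr ?_ rfl rfl
    rw [add_assoc]
    exact Iff.rfl
  have h3 : K / qR k ^ c ≤ qR k * K / qR k ^ c :=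
    div_le_div_of_nonneg_right (le_mul_of_one_le_left h0 one_le_qR) (qR_pow_pos c).le
  refine (mul_le_mul_of_nonneg_left (add_le_add (h2.trans h3) le_rfl) (by positivity)).trans
    (le_of_eq ?_)
  rw [pow_add]
  field_simp
  norm_num

end Pool.Agent.Lib.MP_9227d9_nt.Mob.MK
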