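import Pool.Agent.Lib.MP_458f0b_nt.MkFin
import Pool.Agent.Lib.MP_458f0b_nt.MkJ4

/-! The Moebius function is orthogonal to Kloosterman fractions, for every modulus. -/

namespace Pool.Agent.Lib.MP_9227d9_nt.Mob.MK

theorem stMK : StMK := stMK' (stJ4 stGD)

end Pool.Agent.Lib.MP_9227d9_nt.Mob.MK
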