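import Pool.Agent.Lib.MP_458f0b_nt.LxWin
import Pool.Agent.Lib.MP_458f0b_nt.MkAll
import Pool.Agent.Lib.MP_9227d9_nt.MobA
import Pool.Agent.Lib.MP_9227d9_nt.MobA1
import Pool.Agent.Lib.MP_9227d9_nt.MobA2
import Pool.Agent.Lib.MP_9227d9_nt.MobB
import Pool.Agent.Lib.MP_9227d9_nt.MobB0
import Pool.Agent.Lib.MP_9227d9_nt.MobD
import Pool.Agent.Lib.MP_9227d9_nt.MobDa
import Pool.Agent.Lib.MP_9227d9_nt.MobVar
import Pool.Agent.Lib.MP_9227d9_nt.MobK
import Pool.Agent.Lib.MP_9227d9_nt.MobS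
import Pool.Agent.Lib.MP_9227d9_nt.MobM1
import Pool.Agent.Lib.MP_9227d9_nt.MobM4
import Pool.Agent.Lib.MP_9227d9_nt.TwK2
import Pool.Agent.Lib.MP_9227d9_nt.TwEX
import Pool.Agent.Lib.MP_9227d9_nt.TwLine

/-! Primes in all progressions to large moduli. -/

namespace Pool.Agent.Lib.MP_9227d9_nt.Mob

open Polynomial

open scoped Classical

namespace Lx

variable {k : Type} [Field k] [Fintype k]

theorem allZ3 [CharP k 2] : Z3 k := fun c _ _ H hL hsv _ _ hg hb hb' =>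
  z3' (stD stDa) stS stSQ stM1 stM2 stM4 (stEX1 stSQ stEX) c H hL hsv hg hb hb'

theorem final_le {q e δ K C C' : ℝ} (τ : ℕ) (hq : 2 ≤ q) (he : 0 < e) (he' : e ≤ 1 / 4)
    (hδ : 2 * e ≤ δ) (hC : 0 ≤ C) (hK0 : 0 ≤ K) (hK : K ≤ C' * ((2 : ℝ) ^ (e / 4)) ^ τ) :
    K ^ 4 * (1 / √(q ^ τ) + C / q ^ (δ * τ)) ≤ C' ^ 4 * (1 + C) / q ^ (e * τ) := by
  have hq0 : 0 < q := by linarith
  have hq1 : 1 ≤ q := by linarith
  have hτ : (0 : ℝ) ≤ τ := Nat.cast_nonneg _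
  have hP : 0 < q ^ (e * τ) := Real.rpow_pos_of_pos hq0 _
  have e1 : q ^ (e * τ) * q ^ (e * τ) ≤ q ^ (δ * τ) := by
    rw [← Real.rpow_add hq0]
    exact Real.rpow_le_rpow_of_exponent_le hq1 (by nlinarith)
  have e2 : q ^ (e * τ) * q ^ (e * τ) ≤ √(q ^ τ) := by
    rw [Real.sqrt_eq_rpow, ← Real.rpow_natCast, ← Real.rpow_mul hq0.le, ← Real.rpow_add hq0]
    exact Real.rpow_le_rpow_of_exponent_le hq1 (by nlinarith)
  have e3 : K ^ 4 ≤ C' ^ 4 * q ^ (e * τ) := by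
    have h1 : K ^ 4 ≤ (C' * ((2 : ℝ) ^ (e / 4)) ^ τ) ^ 4 := pow_le_pow_left₀ hK0 hK 4
    have h2 : (((2 : ℝ) ^ (e / 4)) ^ τ) ^ 4 = (2 : ℝ) ^ (e * τ) := by
      rw [← pow_mul, ← Real.rpow_natCast, ← Real.rpow_mul (by norm_num)]
      congr 1
      push_cast
      ring
    have h3 : (2 : ℝ) ^ (e * τ) ≤ q ^ (e * τ) :=
      Real.rpow_le_rpow (by norm_num) hq (by positivity)
    rw [mul_pow, h2] at h1
    calc K ^ 4 ≤ C' ^ 4 * (2 : ℝ) ^ (e * τ) := h1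
      _ ≤ _ := by gcongr
  have e4 : 1 / √(q ^ τ) ≤ 1 / (q ^ (e * τ) * q ^ (e * τ)) :=
    one_div_le_one_div_of_le (by positivity) e2
  have e5 : C / q ^ (δ * τ) ≤ C / (q ^ (e * τ) * q ^ (e * τ)) :=
    div_le_div_of_nonneg_left hC (by positivity) e1
  calc _ ≤ C' ^ 4 * q ^ (e * τ) *
        (1 / (q ^ (e * τ) * q ^ (e * τ)) + C / (q ^ (e * τ) * q ^ (e * τ))) := by gcongr
    _ = _ := by field_simp

theorem ncard_primes (D a : k[X]) (n : ℕ) :
    {P : k[X] | P.Monic ∧ Irreducible P ∧ P.natDegree = n ∧ D ∣ P - a}.ncard =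
      ((PrD k n).filter fun P => D ∣ P + -a).card := by
  rw [← Set.ncard_coe_finset]
  congr 1
  ext P
  simp only [Set.mem_ofPred_eq, Finset.coe_filter, mem_PrD, IsP, sub_eq_add_neg, and_assoc]

theorem ncard_units {D : k[X]} (hD : D.Monic) :
    ({r : k[X] | r.degree < D.degree ∧ IsCoprime r D}.ncard : ℝ) = qR k ^ D.natDegree * ph D := by
  have h1 : {r : k[X] | r.degree < D.degree ∧ IsCoprime r D} =
      ((Pn k D.natDegree).filter fun r => IsCoprime r D : Finset k[X]) := by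
    ext r
    simp only [Set.mem_ofPred_eq, Finset.coe_filter, mem_Pn, degree_eq_natDegree hD.ne_zero]
  rw [h1, Set.ncard_coe_finset, ph, avg, ← Finset.sum_filter, Finset.sum_const, nsmul_eq_mul,
    mul_one, mul_div_cancel₀ _ (qR_pow_pos _).ne']

end Lx

open Lx in
theorem lxMain : ∃ δ : ℝ, 0 < δ ∧ ∀ (k : Type) [Field k] [Fintype k] [CharP k 2], ∃ C : ℝ,
    ∀ (D a : k[X]) (n : ℕ), D.Monic → IsCoprime a D → (2 - δ) * D.natDegree ≤ n →
      |(n : ℝ) * ({P : k[X] | P.Monic ∧ Irreducible P ∧ P.natDegree = n ∧ D ∣ P - a}.ncard : ℝ) -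
        (Fintype.card k : ℝ) ^ n / ({r : k[X] | r.degree < D.degree ∧ IsCoprime r D}.ncard : ℝ)| ≤
        C * (Fintype.card k : ℝ) ^ ((1 - δ) * n - D.natDegree) := by
  obtain ⟨CL, δL, hCL, hδL, hL⟩ := stLine (stA stA1 (stA2 stA2n)) (stB stB0) 480000
  obtain ⟨e, he0, he1, he2⟩ : ∃ e : ℝ, 0 < e ∧ e ≤ 1 / 4 ∧ 2 * e ≤ δL :=
    ⟨min δL (1 / 2) / 2, by positivity, by linarith [min_le_right δL (1 / 2)],
      by linarith [min_le_left δL (1 / 2)]⟩
  refine ⟨e / 480000, by positivity, fun k _ _ _ => ?_⟩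
  have hθ : (1 : ℝ) < (2 : ℝ) ^ (e / 4) := Real.one_lt_rpow (by norm_num) (by positivity)
  obtain ⟨C', hC'⟩ := stK2 stVar stM5 stOm k 480000 _ hθ
  obtain ⟨C, hC⟩ := MK.stMK k
  have hq2 : (2 : ℝ) ≤ qR k := two_le_qR
  have hq : (0 : ℝ) < qR k := qR_pos
  have hq1 : (1 : ℝ) ≤ qR k := one_le_qR
  have h2 : Z2 k |C| := fun A b d t h1 h2 h3 h4 h5 =>
    (hC A b d t h1 h2 h3 h4 h5).trans
      (div_le_div_of_nonneg_right (le_abs_self C) (qR_pow_pos t).le)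
  obtain ⟨N, hN⟩ : ∃ N : ℕ, 320000 * 480000 ^ 2 ≤ N := ⟨_, le_rfl⟩
  refine ⟨qR k ^ (2 * N) + (|C| + 14) * (C' ^ 4 * (1 + CL)), fun D a n hD ha hn => ?_⟩
  change |_ - qR k ^ n / _| ≤ _ * qR k ^ ((1 - e / 480000) * n - D.natDegree)
  rw [ncard_primes, ncard_units hD]
  have hph := ph_mul hD
  have hc1 := one_le_cM D
  have hph0 : 0 < ph D := by
    by_contra h
    nlinarith
  have hm0 : (0 : ℝ) ≤ D.natDegree := Nat.cast_nonneg _
  have hn0 : (0 : ℝ) ≤ n := Nat.cast_nonneg _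
  have hmn : (D.natDegree : ℝ) ≤ n := by nlinarith
  have hP : 0 < qR k ^ ((1 - e / 480000) * n - D.natDegree) := Real.rpow_pos_of_pos hq _
  have hA : (0 : ℝ) ≤ qR k ^ (2 * N) := by positivity
  have hB : (0 : ℝ) ≤ (|C| + 14) * (C' ^ 4 * (1 + CL)) := by positivity
  set π : ℝ := (((PrD k n).filter fun P => D ∣ P + -a).card : ℝ) with hπ
  by_cases hs : n < N
  · have h3 : n * π ≤ qR k ^ n :=
      (mul_le_mul_of_nonneg_left (Nat.cast_le.2 (Finset.card_filter_le _ _)) hn0).trans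
        (card_PrD_le n)
    have h4 : 1 ≤ qR k ^ D.natDegree * ph D := by
      have h5 : 0 < qR k ^ D.natDegree * ph D := by positivity
      rw [← ncard_units hD] at h5 ⊢
      exact_mod_cast h5
    have h5 : qR k ^ n / (qR k ^ D.natDegree * ph D) ≤ qR k ^ n := div_le_self (by positivity) h4
    have h6 : 0 ≤ qR k ^ n / (qR k ^ D.natDegree * ph D) := by positivity
    have h7 : 0 ≤ n * π := by positivity
    have h8 : qR k ^ n ≤ qR k ^ (2 * N) * qR k ^ ((1 - e / 480000) * n - D.natDegree) := by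
      rw [← Real.rpow_natCast, ← Real.rpow_natCast, ← Real.rpow_add hq]
      refine Real.rpow_le_rpow_of_exponent_le hq1 ?_
      have h9 : (n : ℝ) ≤ N := by exact_mod_cast hs.le
      push_cast
      nlinarith
    have h9 := mul_nonneg hB hP.le
    rw [add_mul, abs_le]
    constructor <;> linarith
  obtain ⟨τ, hτ⟩ : ∃ τ, τ = n / 320000 := ⟨_, rfl⟩
  have t1 : 480000 ^ 2 ≤ τ := by omega
  have t2 : 320000 * τ ≤ n := by omega
  have t3 : n ≤ 480000 * τ := by omega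
  have t3' : (n : ℝ) ≤ 480000 * τ := by exact_mod_cast t3
  have t4 : 2 * D.natDegree ≤ n + 4 * τ := by
    have : (2 * D.natDegree : ℝ) ≤ n + 4 * τ := by nlinarith
    exact_mod_cast this
  obtain ⟨K, hK1, hK2⟩ := hC' τ (by omega)
  have h3 := win allZ3 (abs_nonneg C) h2 t1 t2 t3 hD ha.neg_left t4 hK2 (hL k τ (by omega))
    (by positivity)
  have h4 := final_le τ hq2 he0 he1 he2 hCL.le (by linarith [hK2.ten_le]) hK1
  have h5 : qR k ^ n / qR k ^ D.natDegree / qR k ^ (e * τ) ≤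
      qR k ^ ((1 - e / 480000) * n - D.natDegree) := by
    rw [← Real.rpow_natCast, ← Real.rpow_natCast, ← Real.rpow_sub hq, ← Real.rpow_sub hq]
    refine Real.rpow_le_rpow_of_exponent_le hq1 ?_
    nlinarith
  have h6 : n * π - qR k ^ n / (qR k ^ D.natDegree * ph D) =
      (n * π * (qR k ^ D.natDegree / qR k ^ n) - 1 / ph D) * (qR k ^ n / qR k ^ D.natDegree) := by
    field_simp
  rw [h6, abs_mul, abs_of_pos (by positivity : 0 < qR k ^ n / qR k ^ D.natDegree)]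
  rw [mul_assoc (|C| + 14)] at h3
  calc _ ≤ (|C| + 14) * (C' ^ 4 * (1 + CL) / qR k ^ (e * τ)) * (qR k ^ n / qR k ^ D.natDegree) :=
        mul_le_mul_of_nonneg_right
          (h3.trans (mul_le_mul_of_nonneg_left h4 (by positivity))) (by positivity)
    _ = (|C| + 14) * (C' ^ 4 * (1 + CL)) * (qR k ^ n / qR k ^ D.natDegree / qR k ^ (e * τ)) := by
        ring
    _ ≤ (|C| + 14) * (C' ^ 4 * (1 + CL)) * qR k ^ ((1 - e / 480000) * n - D.natDegree) :=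
        mul_le_mul_of_nonneg_left h5 hB
    _ ≤ _ := mul_le_mul_of_nonneg_right (le_add_of_nonneg_left hA) hP.le

end Pool.Agent.Lib.MP_9227d9_nt.Mob
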