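import Pool.Agent.Lib.MP_9227d9_nt.TwKI

/-!
The Moebius function against Kloosterman fractions, for every modulus
(definitions and statements of the modules).
-/

namespace Pool.Agent.Lib.MP_9227d9_nt.Mob.MK

open Polynomial

open scoped Classical

section Defs

variable {k : Type} [Field k] [Fintype k]

/-- The number of monic divisors. -/
noncomputable def dv (W : k[X]) : ℝ := ((Mo k W.natDegree).filter fun g => g ∣ W).card

/-- `K` bounds the divisor function in degrees at most `N`. -/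
def DB (k : Type) [Field k] [Fintype k] (N : ℕ) (K : ℝ) : Prop :=
  ∀ W : k[X], W ≠ 0 → W.natDegree ≤ N → dv W ≤ K

/-- The density of solutions of `1/x₁ + 1/x₂ + 1/x₃ + 1/x₄ = 0` modulo `M`. -/
noncomputable def J4 (M : k[X]) (ρ : ℕ) : ℝ :=
  avm ρ fun x₃ => avm ρ fun x₄ => avm ρ fun x₁ => avm ρ fun x₂ =>
    if IsCoprime (x₁ * x₂ * (x₃ * x₄)) M ∧ M ∣ (x₁ + x₂) * (x₃ * x₄) + (x₃ + x₄) * (x₁ * x₂)
      then 1 else 0

/-- The truncated sum of the Moebius function over divisors. -/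
noncomputable def cV (V : ℕ) (W : k[X]) : ℝ := ∑ C ∈ (Mo k V).filter (fun C => C ∣ W), mu C

end Defs

/-- Div: the divisor bound. -/
def StDiv : Prop :=
  ∀ (k : Type) [Field k] [Fintype k] (θ : ℝ), 1 < θ → ∃ C : ℝ, ∀ W : k[X], W ≠ 0 →
    dv W ≤ C * θ ^ W.natDegree

/-- GD: a large common divisor is rare. -/
def StGD : Prop :=
  ∀ (k : Type) [Field k] [Fintype k] (M c : k[X]) (s j : ℕ), M ≠ 0 → s ≤ j →
    avg j (fun v => if ∃ g : k[X], g.Monic ∧ g ∣ M ∧ s ≤ g.natDegree ∧ g ∣ c + v then 1 else 0) ≤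
      dv M / qR k ^ s

/-- J4: the additive energy of reciprocals. -/
def StJ4 : Prop :=
  ∀ (k : Type) [Field k] [Fintype k] [CharP k 2] (M : k[X]) (ρ c : ℕ) (K : ℝ), M.Monic → 1 ≤ c →
    c ≤ ρ → ρ + 2 * c ≤ M.natDegree → DB k (2 * M.natDegree) K →
    J4 M ρ ≤ 2 * qR k * K / qR k ^ (ρ + c)

/-- Bil: bilinear forms with Kloosterman fractions. -/
def StBil : Prop :=
  ∀ (k : Type) [Field k] [Fintype k] [CharP k 2] (A M b : k[X]) (ρ σ : ℕ) (α γ : k[X] → ℝ),
    A.Monic → M ∣ A → (∀ w, A ∣ b * w → M ∣ w) → σ ≤ A.natDegree → (∀ x, MD ρ x → |α x| ≤ 1) →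
    (∀ y, MD σ y → |γ y| ≤ 1) →
    (avm ρ fun x => avm σ fun y => α x * γ y * kl A b (x * y)) ^ 4 ≤
      qR k ^ (A.natDegree - σ) * J4 M ρ

/-- K4: complete Kloosterman sums by the fourth moment. -/
def StK4 : Prop :=
  ∀ (k : Type) [Field k] [Fintype k] [CharP k 2] (A M b c : k[X]) (s : ℕ) (K : ℝ),
    A.Monic → M ∣ A → (∀ w, A ∣ b * w → M ∣ w) → 3 * s ≤ M.natDegree → DB k A.natDegree K →
    (avg A.natDegree fun x => kl A b x * eM A (c * x)) ^ 4 ≤ 3 * K ^ 2 / qR k ^ s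

/-- Vau: Vaughan's identity. -/
def StVau : Prop :=
  ∀ (k : Type) [Field k] [Fintype k] (V d : ℕ) (Φ : k[X] → ℝ), V < d →
    (avm d (fun D => mu D * Φ D) =
      -∑ i ∈ Finset.range (d - V), avm i fun B => avm (d - i) fun W => mu B * cV V W * Φ (B * W)) ∧
    avm d (fun W => cV V W * Φ W) =
      ∑ j ∈ Finset.range (V + 1), avm j fun C => avm (d - j) fun E => mu C * Φ (C * E)

/-- The Moebius function is orthogonal to Kloosterman fractions. -/
def StMK : Prop :=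
  ∀ (k : Type) [Field k] [Fintype k] [CharP k 2], ∃ C : ℝ, ∀ (A b : k[X]) (d t : ℕ), A.Monic →
    300 * t ≤ A.natDegree → A.natDegree ≤ d + t → d ≤ A.natDegree + t →
    (∀ g : k[X], g.Monic → g ∣ A → g ∣ b → g.natDegree ≤ t) →
    |avm d fun D => mu D * kl A b D| ≤ C / qR k ^ t

end Pool.Agent.Lib.MP_9227d9_nt.Mob.MK
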