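import Pool.Agent.Lib.MP_458f0b_nt.LxIns
import Pool.Agent.Lib.MP_458f0b_nt.MkDefs
import Pool.Agent.Lib.MP_9227d9_nt.TwKF
import Pool.Agent.Lib.MP_9227d9_nt.TwSm1
import Pool.Agent.Lib.MP_9227d9_nt.MobLam

/-! The three zones and the von Mangoldt function on a progression. -/

namespace Pool.Agent.Lib.MP_9227d9_nt.Mob

open Polynomial

open scoped Classical

namespace Lx

variable {k : Type} [Field k] [Fintype k]

/-- The contribution of the divisors of degree `d`. -/
noncomputable def TT (D g : k[X]) (d b : ℕ) : ℝ :=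
  avm d fun A => mu A * (qR k ^ D.natDegree * avm b fun B => if D ∣ A * B + g then 1 else 0)

/-- Its main term. -/
noncomputable def M0 (D : k[X]) (d : ℕ) : ℝ := avm d fun A => if IsCoprime A D then mu A else 0

/-- The von Mangoldt function on a progression. -/
noncomputable def SS' (D g : k[X]) (n : ℕ) : ℝ :=
  qR k ^ D.natDegree * avm n fun F => if D ∣ F + g then Lam.vm n F else 0

omit [Fintype k] in
theorem cop_of_dvd {D g A B : k[X]} (hg : IsCoprime g D) (h : D ∣ A * B + g) :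
    IsCoprime A D ∧ IsCoprime B D := by
  obtain ⟨t, ht⟩ := h
  have h1 := hg.neg_left.add_mul_left_left t
  rw [show -g + D * t = A * B by linear_combination -ht] at h1
  exact ⟨h1.of_mul_left_left, h1.of_mul_left_right⟩

theorem vm_split (n : ℕ) (F : k[X]) : Lam.vm n F = ∑ i ∈ Finset.range (n + 1),
    ∑ A ∈ (MoD k i).filter (fun A => A ∣ F), mu A * ((n : ℝ) - i) := by
  rw [Lam.vm, ← Finset.sum_fiberwise_of_maps_to (s := (Mo k n).filter fun A => A ∣ F)
    (t := Finset.range (n + 1)) (g := natDegree) fun A hA =>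
      Finset.mem_range.2 (Nat.lt_succ_of_le (mem_Mo.1 (Finset.mem_filter.1 hA).1).2)]
  refine Finset.sum_congr rfl fun i hi => Finset.sum_congr ?_ fun A hA => ?_
  · have := Finset.mem_range.1 hi
    ext A
    simp only [Finset.mem_filter, mem_MoD, mem_Mo, MD]
    exact ⟨fun h => ⟨⟨h.1.1.1, h.2⟩, h.1.2⟩, fun h => ⟨⟨⟨h.1.1, by omega⟩, h.2⟩, h.1.2⟩⟩
  · rw [(mem_MoD.1 (Finset.mem_filter.1 hA).1).2]

theorem SS'_eq (D g : k[X]) (n : ℕ) :
    SS' D g n = ∑ d ∈ Finset.range (n + 1), ((n : ℝ) - d) * TT D g d (n - d) := by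
  have h1 : ∀ F : k[X], (if D ∣ F + g then Lam.vm n F else 0) = ∑ i ∈ Finset.range (n + 1),
      ∑ A ∈ (MoD k i).filter (fun A => A ∣ F),
        mu A * ((n : ℝ) - i) * if D ∣ F + g then 1 else 0 := by
    intro F
    split_ifs
    · simp only [mul_one]
      exact vm_split n F
    · simp
  unfold SS'
  simp only [h1]
  rw [avm_sum, Finset.mul_sum]
  refine Finset.sum_congr rfl fun d hd => ?_
  rw [stPar1 k n d (fun A F => mu A * ((n : ℝ) - d) * if D ∣ F + g then 1 else 0)
    (Nat.le_of_lt_succ (Finset.mem_range.1 hd)), TT, ← avm_mul_left, ← avm_mul_left]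
  refine avm_congr fun A _ => ?_
  rw [avm_mul_left]
  ring

theorem avm_vm {n : ℕ} (hn : 1 ≤ n) : avm n (Lam.vm n : k[X] → ℝ) = 1 := by
  have h1 : ∀ j, ∑ i ∈ Finset.range (j + 1), avm i (mu : k[X] → ℝ) = if j = 0 then 1 else 0 := by
    intro j
    have h2 := (stSm1 stPar1 k 1).2 j
    have h3 : ∀ i, mm k 1 i = avm i (mu : k[X] → ℝ) := fun i => avm_congr fun D _ => by
      rw [rI, if_pos (show Rough 1 D from fun p hp _ => hp.natDegree_pos), mul_one]
    simp only [h3] at h2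
    rw [h2, ← TwSm1.avm_ind_empty (k := k) j]
    refine avm_congr fun D _ => if_congr ⟨fun h p hp hd => ?_, fun h p hp hd => ?_⟩ rfl rfl
    · have := h p hp hd
      have := hp.natDegree_pos
      omega
    · exact absurd (h p hp hd) (Finset.notMem_empty _)
  have h2 : ∀ n : ℕ, ∑ i ∈ Finset.range (n + 1), ((n : ℝ) - i) * avm i (mu : k[X] → ℝ) =
      if n = 0 then 0 else 1 := by
    intro n
    induction n with
    | zero => simp
    | succ n ih =>
      rw [Finset.sum_range_succ, sub_self, zero_mul, add_zero, if_neg (by omega)]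
      have h3 : ∑ i ∈ Finset.range (n + 1), (((n + 1 : ℕ) : ℝ) - i) * avm i (mu : k[X] → ℝ) =
          ∑ i ∈ Finset.range (n + 1), ((n : ℝ) - i) * avm i (mu : k[X] → ℝ) +
            ∑ i ∈ Finset.range (n + 1), avm i (mu : k[X] → ℝ) := by
        rw [← Finset.sum_add_distrib]
        refine Finset.sum_congr rfl fun i _ => ?_
        push_cast
        ring
      rw [h3, ih, h1]
      split_ifs <;> norm_num
  have h3 := SS'_eq (1 : k[X]) 0 n
  simp only [SS', TT, natDegree_one, pow_zero, one_dvd, if_true, avm_const, mul_one, one_mul] at h3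
  rw [h2 n, if_neg (by omega)] at h3
  exact h3

variable [CharP k 2]

theorem TT_eq {D g : k[X]} (hD : D.Monic) (hg : IsCoprime g D) (d b : ℕ) :
    TT D g d b = ∑ f ∈ Pn k (D.natDegree - b),
      eM D (f * X ^ b) * avm d fun A => mu A * kl D (f * g) A := by
  simp only [← avm_mul_left]
  rw [← avm_sum]
  refine avm_congr fun A _ => ?_
  by_cases hA : IsCoprime A D
  · rw [TwKF.count ⟨hD, rfl⟩ hA g b, Finset.mul_sum]
    refine Finset.sum_congr rfl fun f _ => ?_
    rw [mul_add, eM_add, kl, if_pos hA, mul_assoc f g]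
    ring
  · rw [avm_congr (G := fun _ => 0) fun B _ => if_neg fun h => hA (cop_of_dvd hg h).1, avm_const]
    simp only [kl_of_not hA, mul_zero, Finset.sum_const_zero]

/-- The first two zones. -/
theorem z12 {D g : k[X]} (hD : D.Monic) (hg : IsCoprime g D) (d b : ℕ) {ε : ℝ} (hε : 0 ≤ ε)
    (h : ∀ f : k[X], f ≠ 0 → f.natDegree + b < D.natDegree →
      |avm d fun A => mu A * kl D (f * g) A| ≤ ε) :
    |TT D g d b - M0 D d| ≤ (if b < D.natDegree then qR k ^ (D.natDegree - b) else 0) * ε := by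
  have h0 : (0 : k[X]) ∈ Pn k (D.natDegree - b) := mem_Pn.2 (by simp)
  have h1 : eM D (0 * X ^ b) * (avm d fun A => mu A * kl D (0 * g) A) = M0 D d := by
    rw [zero_mul, zero_mul, eM_zero, one_mul]
    refine avm_congr fun A _ => ?_
    unfold kl
    split_ifs
    · rw [zero_mul, eM_zero, mul_one]
    · rw [mul_zero]
  rw [TT_eq hD hg, ← Finset.add_sum_erase _ _ h0, h1, add_sub_cancel_left]
  have h2 : ∀ f ∈ (Pn k (D.natDegree - b)).erase 0, f ≠ 0 ∧ f.natDegree + b < D.natDegree :=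
    fun f hf => by
      obtain ⟨h3, h4⟩ := Finset.mem_erase.1 hf
      have := natDegree_lt_of_degree h3 (mem_Pn.1 h4)
      exact ⟨h3, by omega⟩
  split_ifs with hb
  · refine (Finset.abs_sum_le_sum_abs _ _).trans
      ((Finset.sum_le_card_nsmul _ _ ε fun f hf => ?_).trans ?_)
    · rw [abs_mul, abs_eM, one_mul]
      exact h f (h2 f hf).1 (h2 f hf).2
    · rw [nsmul_eq_mul, ← card_Pn]
      exact mul_le_mul_of_nonneg_right (by exact_mod_cast Finset.card_erase_le) hε
  · rw [Finset.sum_eq_zero fun f hf => absurd (h2 f hf).2 (by omega), abs_zero, zero_mul]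

/-- The third zone. -/
theorem z3' (hD : StD) (hS : StS) (hSQ : StSQ) (hM1 : StM1) (hM2 : StM2) (hM4 : StM4)
    (h1 : StEX1) (c : Lx k) {K sv : ℝ} (H : KB2 k c.U c.τ K) (hL : LineOK k c.U c.τ sv)
    (hsv : 0 ≤ sv) {g : k[X]} {b : ℕ} (hg : IsCoprime g c.D)
    (hb : c.m ≤ b + c.nu + 156 * c.τ) (hb' : b ≤ c.U * c.τ) :
    |TT c.D g c.d b| ≤ 6 * K ^ 2 * (1 / √c.Q + sv) := by
  have key : ∀ B : k[X], ∃ m₀ : k[X], IsCoprime B c.D → (c.D ∣ B * m₀ - -g ∧ m₀.degree < c.m) ∧
      qR k ^ c.m * avm c.d (fun A => if c.D ∣ B * A + g then mu A else 0) =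
        avm c.n1 fun G => mu (c.D * G + m₀) := by
    intro B
    by_cases h : IsCoprime B c.D
    · obtain ⟨m₀, t, h2, h3, -, h4⟩ := stPar2 k B c.D g c.m c.MD_D h
      refine ⟨m₀, fun _ => ⟨⟨⟨t, by rw [h3]; ring⟩, h2⟩, ?_⟩⟩
      rw [h4 c.d mu (by have := c.n1_add; omega)]
      exact avm_congr fun G _ => by rw [add_comm]
    · exact ⟨0, fun h2 => absurd h2 h⟩
  choose c₀ hc using key
  refine le_trans ?_ (z3 hD hS hSQ hM1 hM2 hM4 h1 c H hL hsv hg.neg_left
    (fun B _ hB => (hc B hB).1) hb hb')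
  have e1 : TT c.D g c.d b = avm b fun B =>
      qR k ^ c.m * avm c.d fun A => if c.D ∣ B * A + g then mu A else 0 := by
    unfold TT
    simp only [← avm_mul_left]
    rw [avm_comm, c.MD_D.2]
    refine avm_congr fun B _ => avm_congr fun A _ => ?_
    rw [mul_comm A B]
    split_ifs <;> ring
  rw [e1]
  refine abs_avm_le.trans (avm_mono fun B _ => ?_)
  split_ifs with hB
  · rw [(hc B hB).2]
  · rw [avm_congr (G := fun _ => 0) fun A _ => if_neg fun h => hB (cop_of_dvd hg h).1, avm_const,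
      mul_zero, abs_zero]

/-- The mean over all the classes. -/
theorem avg_SS' {D : k[X]} (hD : D.Monic) (n : ℕ) :
    avg D.natDegree (fun g => if IsCoprime g D then SS' D g n else 0) =
      avm n fun F => if IsCoprime F D then Lam.vm n F else 0 := by
  have h1 : ∀ g : k[X], g.degree < D.natDegree → (if IsCoprime g D then SS' D g n else 0) =
      avm n fun F => qR k ^ D.natDegree *
        if F %ₘ D = g then (if IsCoprime g D then Lam.vm n F else 0) else 0 := by
    intro g hg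
    rw [← degree_eq_natDegree hD.ne_zero] at hg
    split_ifs with hc
    · rw [SS', ← avm_mul_left]
      refine avm_congr fun F _ => ?_
      rw [add_comm, if_congr ((TwKF.dvd_iff_mod hD hg).trans eq_comm) rfl rfl]
    · simp [avm_const]
  rw [avg_congr h1, ← avm_avg_comm]
  refine avm_congr fun F _ => ?_
  have h2 : (F %ₘ D).degree < D.natDegree := by
    rw [← degree_eq_natDegree hD.ne_zero]
    exact degree_modByMonic_lt F hD
  rw [TwColl.avg_delta h2 fun g => if IsCoprime g D then Lam.vm n F else 0]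
  refine if_congr ?_ rfl rfl
  conv_rhs => rw [← modByMonic_add_div F D]
  exact (IsCoprime.add_mul_left_left_iff).symm

omit [CharP k 2] in
theorem avm_not_cop {D : k[X]} (hD : D ≠ 0) {n : ℕ} (hn : 1 ≤ n) :
    |(avm n fun F => if IsCoprime F D then Lam.vm n F else 0) - 1| ≤
      n * D.natDegree / qR k ^ n := by
  rw [← avm_vm (k := k) hn, ← avm_sub]
  refine abs_avm_le.trans (le_trans (avm_mono (G := fun F => ∑ p ∈ pf D,
    n * if F = p ^ (n / p.natDegree) then (1 : ℝ) else 0) fun F hF => ?_) ?_)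
  · have h0 : ∀ p ∈ pf D, (0 : ℝ) ≤ n * if F = p ^ (n / p.natDegree) then (1 : ℝ) else 0 :=
      fun p _ => by positivity
    split_ifs with hc
    · rw [sub_self, abs_zero]
      exact Finset.sum_nonneg h0
    obtain ⟨p, hp, h1, h2⟩ := exists_isP_of_not_isCoprime hF.ne_zero hc
    rw [zero_sub, abs_neg, Lam.vm_eq hF.ne_zero hF.2.le ((mem_pf hF.ne_zero).2 ⟨hp, h1⟩)]
    split_ifs with h3
    · obtain ⟨j, hj⟩ := Lam.eq_pow_of_pf hF.1 h3
      have h4 : n = j * p.natDegree := by rw [← hF.2, hj, hp.1.natDegree_pow]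
      refine le_trans ?_ (Finset.single_le_sum h0 ((mem_pf hD).2 ⟨hp, h2⟩))
      rw [if_pos (by rw [hj, h4, Nat.mul_div_cancel _ hp.natDegree_pos]), mul_one,
        abs_of_nonneg (Nat.cast_nonneg _)]
      exact_mod_cast hF.2 ▸ natDegree_le_of_dvd h1 hF.ne_zero
    · rw [abs_zero]
      exact Finset.sum_nonneg h0
  · rw [avm_sum]
    refine (Finset.sum_le_card_nsmul _ _ (n * (1 / qR k ^ n)) fun p _ => ?_).trans ?_
    · rw [avm_mul_left]
      exact mul_le_mul_of_nonneg_left (avm_eq_one_le _) (Nat.cast_nonneg _)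
    · have h1 : ((pf D).card : ℝ) ≤ D.natDegree := by exact_mod_cast card_pf_le hD
      have h2 := qR_pow_pos (k := k) n
      rw [nsmul_eq_mul]
      calc _ ≤ D.natDegree * (n * (1 / qR k ^ n)) := by gcongr
        _ = _ := by ring

/-- Squares in a progression. -/
theorem card_sq {D₁ D₂ g : k[X]} (h1 : D₁.Monic) (hs : Squarefree D₁) (h2 : D₂.Monic) {j s : ℕ}
    (hj : s ≤ j) (hs' : s ≤ D₁.natDegree + D₂.natDegree) :
    (((MoD k j).filter fun p => D₁ * D₂ ^ 2 ∣ p ^ 2 + g).card : ℝ) ≤ qR k ^ j / qR k ^ s := by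
  rcases ((MoD k j).filter fun p => D₁ * D₂ ^ 2 ∣ p ^ 2 + g).eq_empty_or_nonempty with h | h
  · rw [h, Finset.card_empty, Nat.cast_zero]
    exact div_nonneg (qR_pow_pos _).le (qR_pow_pos _).le
  obtain ⟨p₀, hp₀⟩ := h
  have h3 := avm_dvd_le (n := j) (h1.mul h2).ne_zero hj (by rw [h1.natDegree_mul h2]; exact hs')
    isCoprime_one_left p₀
  rw [avm_eq_MoD, div_le_iff₀ (qR_pow_pos j), ← Finset.sum_filter, Finset.sum_const, nsmul_eq_mul,
    mul_one, one_div_mul_eq_div] at h3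
  refine le_trans (Nat.cast_le.2 (Finset.card_le_card fun p hp => ?_)) h3
  obtain ⟨h4, h5⟩ := Finset.mem_filter.1 hp
  refine Finset.mem_filter.2 ⟨h4, ?_⟩
  have h6 : D₁ * D₂ ^ 2 ∣ (p + p₀) ^ 2 := by
    have h7 := dvd_add h5 (Finset.mem_filter.1 hp₀).2
    rwa [show p ^ 2 + g + (p₀ ^ 2 + g) = (p + p₀) ^ 2 by
      linear_combination (g - p * p₀) * (CharTwo.two_eq_zero (R := k[X]))] at h7
  obtain ⟨z, hz⟩ : D₂ ∣ p + p₀ :=
    (UniqueFactorizationMonoid.pow_dvd_pow_iff_dvd two_ne_zero).1 ((dvd_mul_left _ _).trans h6)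
  rw [hz, mul_pow, mul_comm D₁] at h6
  have h7 := (hs.dvd_pow_iff_dvd two_ne_zero).1
    ((mul_dvd_mul_iff_left (pow_ne_zero 2 h2.ne_zero)).1 h6)
  rw [one_mul, hz, mul_comm D₁]
  exact mul_dvd_mul_left _ h7

/-- Prime powers in a progression. -/
theorem prime_powers {D₁ D₂ g : k[X]} (h1 : D₁.Monic) (hs : Squarefree D₁) (h2 : D₂.Monic)
    {n s : ℕ} (hn : 1 ≤ n) (hj : s ≤ n / 2) (hs' : s ≤ D₁.natDegree + D₂.natDegree) :
    |(∑ F ∈ MoD k n, if D₁ * D₂ ^ 2 ∣ F + g then Lam.vm n F else 0) -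
      n * (((PrD k n).filter fun P => D₁ * D₂ ^ 2 ∣ P + g).card : ℝ)| ≤
      n * (2 * qR k ^ (n / 3) + qR k ^ (n / 2) / qR k ^ s) := by
  set D := D₁ * D₂ ^ 2 with hD
  have hsub : PrD k n ⊆ MoD k n := fun P hP =>
    mem_MoD.2 ⟨(mem_PrD.1 hP).1.1, (mem_PrD.1 hP).2⟩
  have e1 : ∑ F ∈ PrD k n, (if D ∣ F + g then Lam.vm n F else 0) =
      n * (((PrD k n).filter fun P => D ∣ P + g).card : ℝ) := by
    rw [← Finset.sum_filter, Finset.sum_congr rfl fun P hP =>
      Lam.vm_prime (Finset.mem_filter.1 hP).1, Finset.sum_const, nsmul_eq_mul, mul_comm]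
  rw [← Finset.sum_sdiff hsub, e1, add_sub_cancel_right]
  set T := (Mo k (n / 3)).image (fun p => p ^ (n / p.natDegree)) ∪
    ((MoD k (n / 2)).filter fun p => D ∣ p ^ 2 + g).image (fun p => p ^ 2) with hT
  have e2 : ∀ F ∈ MoD k n \ PrD k n, |if D ∣ F + g then Lam.vm n F else 0| ≤
      if F ∈ T then (n : ℝ) else 0 := by
    intro F hF
    obtain ⟨h3, h4⟩ := Finset.mem_sdiff.1 hF
    have h5 := mem_MoD.1 h3
    have h6 := Lam.vm_other hn h5 h4
    by_cases h7 : D ∣ F + g
    swap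
    · rw [if_neg h7, abs_zero]
      positivity
    rw [if_pos h7]
    refine h6.trans ?_
    by_cases h8 : F ∈ (Mo k (n / 2)).image (fun p => p ^ (n / p.natDegree))
    swap
    · rw [if_neg h8]
      positivity
    rw [if_pos h8, if_pos]
    obtain ⟨p, hp, rfl⟩ := Finset.mem_image.1 h8
    obtain ⟨h9, h10⟩ := mem_Mo.1 hp
    by_cases h11 : p.natDegree ≤ n / 3
    · exact Finset.mem_union_left _ (Finset.mem_image.2 ⟨p, mem_Mo.2 ⟨h9, h11⟩, rfl⟩)
    · have h12 : n / p.natDegree = 2 := Nat.div_eq_of_lt_le (by omega) (by omega)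
      have h13 := h5.2
      rw [h12] at h7 h13 ⊢
      rw [h9.natDegree_pow] at h13
      exact Finset.mem_union_right _ (Finset.mem_image.2
        ⟨p, Finset.mem_filter.2 ⟨mem_MoD.2 ⟨h9, by omega⟩, h7⟩, rfl⟩)
  refine (Finset.abs_sum_le_sum_abs _ _).trans ((Finset.sum_le_sum e2).trans ?_)
  rw [← Finset.sum_filter, Finset.sum_const, nsmul_eq_mul, mul_comm]
  refine mul_le_mul_of_nonneg_left ?_ (Nat.cast_nonneg _)
  have e3 : (((MoD k n \ PrD k n).filter fun F => F ∈ T).card : ℝ) ≤ (Mo k (n / 3)).card +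
      (((MoD k (n / 2)).filter fun p => D ∣ p ^ 2 + g).card : ℝ) := by
    exact_mod_cast (Finset.card_le_card fun F hF => (Finset.mem_filter.1 hF).2).trans
      ((Finset.card_union_le _ _).trans (add_le_add Finset.card_image_le Finset.card_image_le))
  exact e3.trans (add_le_add (card_Mo_le _) (card_sq h1 hs h2 hj hs'))

end Lx

end Pool.Agent.Lib.MP_9227d9_nt.Mob
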