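import Pool.Agent.Lib.MP_458f0b_nt.LxTop

/-! The estimate for fixed parameters. -/

namespace Pool.Agent.Lib.MP_9227d9_nt.Mob

open Polynomial

open scoped Classical

namespace Lx

variable {k : Type} [Field k] [Fintype k]

/-- The bound for the third zone, for all parameters. -/
def Z3 (k : Type) [Field k] [Fintype k] [CharP k 2] : Prop :=
  ∀ (c : Lx k) (K sv : ℝ), KB2 k c.U c.τ K → LineOK k c.U c.τ sv → 0 ≤ sv → ∀ (g : k[X]) (b : ℕ),
    IsCoprime g c.D → c.m ≤ b + c.nu + 156 * c.τ → b ≤ c.U * c.τ →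
    |TT c.D g c.d b| ≤ 6 * K ^ 2 * (1 / √c.Q + sv)

/-- The bound for the second zone. -/
def Z2 (k : Type) [Field k] [Fintype k] (C : ℝ) : Prop :=
  ∀ (A b : k[X]) (d t : ℕ), A.Monic →
    300 * t ≤ A.natDegree → A.natDegree ≤ d + t → d ≤ A.natDegree + t →
    (∀ g : k[X], g.Monic → g ∣ A → g ∣ b → g.natDegree ≤ t) →
    |avm d fun D => mu D * kl A b D| ≤ C / qR k ^ t

/-- The density of the reduced classes. -/
noncomputable def ph (D : k[X]) : ℝ := avg D.natDegree fun g => if IsCoprime g D then 1 else 0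

theorem ph_mul {D : k[X]} (hD : D.Monic) : ph D * cM D = 1 := by
  rw [← avm_isCoprime hD.ne_zero le_rfl, ph,
    ← avm_shift (F := fun b => if IsCoprime b D then (1 : ℝ) else 0)
      (MD.degree_sub (n := D.natDegree) ⟨hD, rfl⟩)]
  congr 1
  refine avg_congr fun v _ => if_congr ?_ rfl rfl
  rw [show X ^ D.natDegree + v + (D - X ^ D.natDegree) = v + D * 1 by ring]
  exact IsCoprime.add_mul_left_left_iff.symm

variable [CharP k 2]

theorem near (h3 : Z3 k) {C K sv : ℝ} (hC : 0 ≤ C) (h2 : Z2 k C) {τ n : ℕ} {D₁ D₂ : k[X]}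
    (hτ : 480000 ^ 2 ≤ τ) (hn : 320000 * τ ≤ n) (hn' : n ≤ 480000 * τ) (m₁ : D₁.Monic)
    (hs : Squarefree D₁) (m₂ : D₂.Monic) (hm : 2 * (D₁.natDegree + 2 * D₂.natDegree) ≤ n + 4 * τ)
    (H : KB2 k 480000 τ K) (hL : LineOK k 480000 τ sv) (hsv : 0 ≤ sv) :
    ∃ c₀ : ℝ, ∀ g, IsCoprime g (D₁ * D₂ ^ 2) → |SS' (D₁ * D₂ ^ 2) g n - c₀| ≤
      (n + 1) * (n * (C / qR k ^ τ + 6 * K ^ 2 * (1 / √(qR k ^ τ) + sv))) := by
  have hD : (D₁ * D₂ ^ 2).Monic := m₁.mul (m₂.pow 2)
  have hd : (D₁ * D₂ ^ 2).natDegree = D₁.natDegree + 2 * D₂.natDegree := by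
    rw [m₁.natDegree_mul (m₂.pow 2), m₂.natDegree_pow]
  have hq := qR_pos (k := k)
  refine ⟨∑ d ∈ Finset.range (n + 1), ((n : ℝ) - d) *
    if d < D₁.natDegree + 2 * D₂.natDegree + 512 * τ then M0 (D₁ * D₂ ^ 2) d else 0,
    fun g hg => ?_⟩
  rw [SS'_eq, ← Finset.sum_sub_distrib]
  refine (Finset.abs_sum_le_sum_abs _ _).trans ((Finset.sum_le_card_nsmul _ _
    (n * (C / qR k ^ τ + 6 * K ^ 2 * (1 / √(qR k ^ τ) + sv))) fun d hd' => ?_).trans (by simp))
  have hdn : d ≤ n := Nat.le_of_lt_succ (Finset.mem_range.1 hd')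
  have hdn' : (d : ℝ) ≤ n := by exact_mod_cast hdn
  rw [← mul_sub, abs_mul, abs_of_nonneg (sub_nonneg.2 hdn')]
  refine mul_le_mul (sub_le_self _ (Nat.cast_nonneg _)) ?_ (abs_nonneg _) (Nat.cast_nonneg _)
  split_ifs with h
  · refine le_trans ?_ (le_add_of_nonneg_right (by positivity))
    refine (z12 hD hg d (n - d) (ε := C / qR k ^ (517 * τ)) (by positivity)
      fun f hf hfd => ?_).trans ?_
    · refine h2 _ _ d (517 * τ) hD (by omega) (by omega) (by omega) fun g' _ h4 h5 => ?_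
      have h6 := natDegree_le_of_dvd
        ((hg.of_isCoprime_of_dvd_right h4).symm.dvd_of_dvd_mul_right h5) hf
      omega
    · split_ifs with h4
      · rw [← mul_div_assoc, div_le_div_iff₀ (by positivity) (by positivity), mul_comm _ C,
          mul_assoc, ← pow_add]
        exact mul_le_mul_of_nonneg_left (pow_le_pow_right₀ one_le_qR (by omega)) hC
      · rw [zero_mul]
        positivity
  · refine le_trans ?_ (le_add_of_nonneg_left (by positivity))
    obtain ⟨r, I, i1, i2, i3, i4, i5, i6⟩ := exists_I (τ := τ) (U := 480000)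
      (T := d - D₂.natDegree - 76 * τ) (by omega) (by omega) (by omega) hτ
    let c : Lx k := ⟨τ, 480000, D₁, D₂, d, r, I, by omega, m₁, hs, m₂, by omega, by omega, i1, i2,
      i3, i4, i5, by omega⟩
    have e1 : c.nu + 152 * τ = c.n1 + 1 := c.nu_add
    have e2 : c.m + c.n1 = d := c.n1_add
    have e3 : c.m = D₁.natDegree + 2 * D₂.natDegree := rfl
    rw [sub_zero]
    exact h3 c K sv H hL hsv g (n - d) hg (show c.m ≤ n - d + c.nu + 156 * τ by omega)
      (show n - d ≤ 480000 * τ by omega)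

theorem win (h3 : Z3 k) {C K sv : ℝ} (hC : 0 ≤ C) (h2 : Z2 k C) {τ n : ℕ} {D g : k[X]}
    (hτ : 480000 ^ 2 ≤ τ) (hn : 320000 * τ ≤ n) (hn' : n ≤ 480000 * τ) (hD : D.Monic)
    (hg : IsCoprime g D) (hm : 2 * D.natDegree ≤ n + 4 * τ)
    (H : KB2 k 480000 τ K) (hL : LineOK k 480000 τ sv) (hsv : 0 ≤ sv) :
    |n * (((PrD k n).filter fun P => D ∣ P + g).card : ℝ) * (qR k ^ D.natDegree / qR k ^ n) -
      1 / ph D| ≤ (C + 14) * K ^ 4 * (1 / √(qR k ^ τ) + sv) := by
  have hph := ph_mul hD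
  have hc1 := one_le_cM D
  have hcK : cM D ≤ K := H.cM_le hD.ne_zero (by omega)
  have hK := H.ten_le
  have hq := qR_pos (k := k)
  have hq1 := one_le_qR (k := k)
  have hnK : (4 * n + 10 : ℝ) ≤ K := by
    have h4 := H.lin
    have h5 : (n : ℝ) ≤ 480000 * τ := by exact_mod_cast hn'
    push_cast at h4
    linarith
  have hn0 : (0 : ℝ) ≤ n := Nat.cast_nonneg _
  have hph0 : 0 < ph D := by
    by_contra h
    nlinarith
  have hinv : 1 / ph D = cM D := by
    rw [div_eq_iff hph0.ne', mul_comm, hph]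
  obtain ⟨D₂, D₁, m₂, m₁, hs, he⟩ := exists_sq_mul hD
  rw [mul_comm] at he
  have hd : D.natDegree = D₁.natDegree + 2 * D₂.natDegree := by
    rw [he, m₁.natDegree_mul (m₂.pow 2), m₂.natDegree_pow]
  obtain ⟨c₀, hc⟩ := near h3 hC h2 hτ hn hn' m₁ hs m₂ (by omega) H hL hsv
  have hp := prime_powers (g := g) (n := n) (s := min (n / 2) (D₁.natDegree + D₂.natDegree))
    m₁ hs m₂ (by omega) (min_le_left _ _) (min_le_right _ _)
  rw [← he] at hc hp
  set Q := qR k ^ τ with hQ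
  have hQ1 : 1 ≤ Q := one_le_pow₀ hq1
  have hsq : 1 / Q ≤ 1 / √Q := by
    refine one_div_le_one_div_of_le (Real.sqrt_pos.2 (by linarith)) ?_
    rw [Real.sqrt_le_left (by linarith)]
    nlinarith
  set ε := (n + 1 : ℝ) * (n * (C / Q + 6 * K ^ 2 * (1 / √Q + sv))) with hε
  set V := avm n fun F => if IsCoprime F D then Lam.vm n F else 0 with hV
  have e1 : |V - c₀ * ph D| ≤ ε * ph D := by
    rw [hV, ← avg_SS' hD, ph, ← avg_mul_left, ← avg_mul_left, ← avg_sub]
    refine abs_avg_le.trans (avg_mono fun v _ => ?_)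
    split_ifs with h
    · simpa only [mul_one] using hc v h
    · simp
  have e2 : |V * cM D - c₀| ≤ ε := by
    have h4 : V * cM D - c₀ = (V - c₀ * ph D) * cM D := by
      rw [sub_mul, mul_assoc, hph, mul_one]
    rw [h4, abs_mul, abs_of_nonneg (by linarith : 0 ≤ cM D)]
    refine (mul_le_mul_of_nonneg_right e1 (by linarith)).trans (le_of_eq ?_)
    rw [mul_assoc, hph, mul_one]
  have e3 : |V - 1| ≤ K ^ 2 * (1 / Q) := by
    refine (avm_not_cop hD.ne_zero (by omega)).trans ?_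
    rw [mul_one_div]
    refine div_le_div₀ (by positivity) ?_ (by positivity) (pow_le_pow_right₀ hq1 (by omega))
    have h4 : (D.natDegree : ℝ) ≤ n := by exact_mod_cast (by omega)
    have h5 : (0 : ℝ) ≤ D.natDegree := Nat.cast_nonneg _
    nlinarith
  have e4 : |V * cM D - cM D| ≤ K ^ 3 * (1 / Q) := by
    rw [← sub_one_mul, abs_mul, abs_of_nonneg (by linarith : 0 ≤ cM D)]
    calc _ ≤ K ^ 2 * (1 / Q) * K := mul_le_mul e3 hcK (by linarith) (by positivity)
      _ = _ := by ring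
  have e5 : |n * (((PrD k n).filter fun P => D ∣ P + g).card : ℝ) *
      (qR k ^ D.natDegree / qR k ^ n) - SS' D g n| ≤ K * (1 / Q) := by
    rw [SS', avm_eq_MoD, mul_comm (qR k ^ D.natDegree), div_mul_eq_mul_div, mul_div_assoc,
      ← sub_mul, abs_mul, abs_sub_comm,
      abs_of_pos (by positivity : 0 < qR k ^ D.natDegree / qR k ^ n)]
    refine (mul_le_mul_of_nonneg_right hp (by positivity)).trans ?_
    have h4 : qR k ^ (n / 3) * (qR k ^ D.natDegree / qR k ^ n) ≤ 1 / Q := by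
      rw [← mul_div_assoc, div_le_div_iff₀ (by positivity) (by positivity), one_mul, hQ, ← pow_add,
        ← pow_add]
      exact pow_le_pow_right₀ hq1 (by omega)
    have h5 : qR k ^ (n / 2) / qR k ^ min (n / 2) (D₁.natDegree + D₂.natDegree) *
        (qR k ^ D.natDegree / qR k ^ n) ≤ 1 / Q := by
      rw [div_mul_div_comm, div_le_div_iff₀ (by positivity) (by positivity), one_mul, hQ, ← pow_add,
        ← pow_add, ← pow_add]
      exact pow_le_pow_right₀ hq1 (by omega)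
    calc _ = n * (2 * (qR k ^ (n / 3) * (qR k ^ D.natDegree / qR k ^ n)) +
          qR k ^ (n / 2) / qR k ^ min (n / 2) (D₁.natDegree + D₂.natDegree) *
            (qR k ^ D.natDegree / qR k ^ n)) := by ring
      _ ≤ n * (2 * (1 / Q) + 1 / Q) := by gcongr
      _ = 3 * n * (1 / Q) := by ring
      _ ≤ K * (1 / Q) := mul_le_mul_of_nonneg_right (by linarith) (by positivity)
  have e6 := hc g hg
  have hx : 0 ≤ 1 / √Q := by positivity
  have hy : 0 ≤ 1 / Q := by positivity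
  have e7 : 2 * ε ≤ K ^ 2 * (C * (1 / √Q + sv) + 6 * K ^ 2 * (1 / √Q + sv)) := by
    have h4 : C / Q ≤ C * (1 / √Q + sv) := by
      rw [div_eq_mul_one_div]
      exact mul_le_mul_of_nonneg_left (by linarith) hC
    calc 2 * ε = 2 * (n + 1) * n * (C / Q + 6 * K ^ 2 * (1 / √Q + sv)) := by rw [hε]; ring
      _ ≤ K ^ 2 * (C * (1 / √Q + sv) + 6 * K ^ 2 * (1 / √Q + sv)) :=
        mul_le_mul (by nlinarith) (by linarith) (by positivity) (by positivity)
  have h24 : K ^ 2 ≤ K ^ 4 := pow_le_pow_right₀ (by linarith) (by norm_num)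
  have h34 : K ^ 3 ≤ K ^ 4 := pow_le_pow_right₀ (by linarith) (by norm_num)
  have h14 : K ≤ K ^ 4 := le_self_pow₀ (by linarith) (by norm_num)
  have e8 : K ^ 3 * (1 / Q) ≤ K ^ 4 * (1 / √Q + sv) :=
    mul_le_mul h34 (by linarith) hy (by positivity)
  have e9 : K * (1 / Q) ≤ K ^ 4 * (1 / √Q + sv) :=
    mul_le_mul h14 (by linarith) hy (by positivity)
  have e10 : K ^ 2 * (C * (1 / √Q + sv)) ≤ K ^ 4 * (C * (1 / √Q + sv)) :=
    mul_le_mul_of_nonneg_right h24 (by positivity)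
  have e11 : 0 ≤ K ^ 4 * (1 / √Q + sv) := by positivity
  rw [hinv, abs_le] at *
  constructor <;> nlinarith [e2.1, e2.2, e4.1, e4.2, e5.1, e5.2, e6.1, e6.2]

end Lx

end Pool.Agent.Lib.MP_9227d9_nt.Mob
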