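import Pool.Agent.Lib.MP_458f0b_nt.ES

open Finset

namespace Pool.Agent.Lib.MP_458f0b_nt

variable {ι J : Type} [Fintype ι] [DecidableEq ι] [Fintype J] [DecidableEq J]

/-- coefficients of the multi-scale cutoff -/
noncomputable def kap (T : ℕ) : Option (Fin T) → ℝ
  | none => 1
  | some _ => -1 / T

/-- whether the coordinate `p` is active at a given scale -/
def act {T : ℕ} (B : ℕ → ι → Bool) : Option (Fin T) → ι → ℝ
  | none, _ => 0
  | some t, p => if B t p then 1 else 0

/-- local factor -/
def cc : Option Bool → ℝ → ℝ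
  | none, _ => 1
  | some false, a => 1 - a
  | some true, a => -a

/-- the cutoff function and its discrete derivatives -/
noncomputable def Kf (T : ℕ) (B : ℕ → ι → Bool) (η : ι → Option Bool) : ℝ :=
  ∑ θ : Option (Fin T), kap T θ * ∏ p, cc (η p) (act B θ p)

/-- local state of a marked configuration -/
def loc (j : J) : Option (J × Bool) → Option Bool
  | none => none
  | some (i, b) => if i = j then some b else none

/-- local state of an unmarked configuration -/
def loc0 (j : J) (v : Option J) : Option Bool := if v = some j then some false else none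

/-- the product weight function -/
noncomputable def Gf (T : ℕ) (B : ℕ → ι → Bool) (y : ι → Option J) : ℝ :=
  ∏ j, Kf T B (fun p => loc0 j (y p))

lemma coord_func (a : J → ℝ) (i : Option (J × Bool)) :
    ∑ v, (∏ j, cc (loc0 j v) (a j)) * bI i v = ∏ j, cc (loc j i) (a j) := by
  have h0 : ∏ j, cc (loc0 j (none : Option J)) (a j) = 1 := by simp [loc0, cc]
  have h1 : ∀ i : J, ∏ j, cc (loc0 j (some i)) (a j) = 1 - a i := by
    intro i
    rw [Finset.prod_eq_single i]
    · simp [loc0, cc]
    · intro j _ hj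
      have : ¬ i = j := fun h => hj h.symm
      simp [loc0, cc, this]
    · simp
  have h2 : ∀ (i : J) (b : Bool), ∏ j, cc (loc j (some (i, b))) (a j) = cc (some b) (a i) := by
    intro i b
    rw [Finset.prod_eq_single i]
    · simp [loc]
    · intro j _ hj
      have : ¬ i = j := fun h => hj h.symm
      simp [loc, cc, this]
    · simp
  rcases i with _ | ⟨i, _ | _⟩
  · simp [bI, dl, h0, loc]; simp [cc]
  · rw [h2]; simp [bI, dl, h1]; simp [cc]
  · rw [h2]; simp [bI, dl, mul_sub, Finset.sum_sub_distrib, h0, h1]; simp [cc]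

lemma func_Gf (T : ℕ) (B : ℕ → ι → Bool) (ω : ι → Option (J × Bool)) :
    ∑ y, Gf T B y * ∏ p, bI (ω p) (y p) = ∏ j, Kf T B (fun p => loc j (ω p)) := by
  simp only [Gf, Kf]
  rw [Fintype.prod_sum]
  have h1 : ∀ y : ι → Option J,
      ∏ j, ∑ θ : Option (Fin T), kap T θ * ∏ p, cc (loc0 j (y p)) (act B θ p) =
      ∑ θ : J → Option (Fin T), ∏ j, kap T (θ j) * ∏ p, cc (loc0 j (y p)) (act B (θ j) p) :=
    fun y => Fintype.prod_sum _
  simp only [h1, Finset.sum_mul]
  rw [Finset.sum_comm]
  refine Finset.sum_congr rfl fun θ _ => ?_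
  rw [Finset.prod_mul_distrib, Finset.prod_comm]
  simp only [← coord_func]
  rw [Fintype.prod_sum, Finset.mul_sum]
  refine Finset.sum_congr rfl fun y _ => ?_
  rw [Finset.prod_mul_distrib, Finset.prod_mul_distrib, Finset.prod_comm]
  ring

/-- the model weights -/
def wm (c a : ι → ℝ) (p : ι) : Option J → ℝ
  | none => c p
  | some _ => c p * a p

/-- single position weights -/
def nu (a r : ι → ℝ) (p : ι) : Option Bool → ℝ
  | none => 1
  | some false => a p
  | some true => (r p - 1) * a p

/-- single position summand -/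
noncomputable def Fs (T : ℕ) (B : ℕ → ι → Bool) (a r : ι → ℝ) (η : ι → Option Bool) : ℝ :=
  (∏ p, nu a r p (η p)) * Kf T B η ^ 2

omit [Fintype ι] [DecidableEq ι] in
lemma mI_wm (c a r : ι → ℝ) (p : ι) (i : Option (J × Bool)) :
    mI (wm c a) r p i = c p * ∏ j, nu a r p (loc j i) := by
  have h2 : ∀ (i : J) (b : Bool), ∏ j, nu a r p (loc j (some (i, b))) = nu a r p (some b) := by
    intro i b
    rw [Finset.prod_eq_single i]
    · simp [loc]
    · intro j _ hj
      have : ¬ i = j := fun h => hj h.symm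
      simp [loc, nu, this]
    · simp
  rcases i with _ | ⟨i, _ | _⟩
  · simp [mI, wm, loc, nu]
  · rw [h2]; simp [mI, wm, nu]
  · rw [h2]; simp [mI, wm, nu]; ring

lemma Qt_Gf (T : ℕ) (B : ℕ → ι → Bool) (c a r : ι → ℝ) :
    Qt (wm (J := J) c a) r (Gf T B) =
      (∏ p, c p) * ∑ ω : ι → Option (J × Bool), ∏ j, Fs T B a r (fun p => loc j (ω p)) := by
  simp only [Qt, func_Gf, mI_wm, Fs, Finset.mul_sum, Finset.prod_mul_distrib, Finset.prod_pow]
  refine Finset.sum_congr rfl fun ω _ => ?_
  rw [Finset.prod_comm (s := Finset.univ) (t := Finset.univ)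
    (f := fun p j => nu a r p (loc j (ω p)))]
  ring

omit [Fintype ι] [DecidableEq ι] [Fintype J] in
lemma loc_injective : Function.Injective
    (fun (ω : ι → Option (J × Bool)) (j : J) (p : ι) => loc j (ω p)) := by
  intro ω ω' h
  funext p
  have h' : ∀ j, loc j (ω p) = loc j (ω' p) := fun j => congrFun (congrFun h j) p
  rcases hω : ω p with _ | ⟨i, b⟩ <;> rcases hω' : ω' p with _ | ⟨i', b'⟩
  · rfl
  · have := h' i'; simp [hω, hω', loc] at this
  · have := h' i; simp [hω, hω', loc] at this
  · have := h' i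
    simp only [hω, hω', loc, if_true] at this
    split_ifs at this with hi
    subst hi
    simp_all

lemma real_le_full (F : (ι → Option Bool) → ℝ) (hF : ∀ η, 0 ≤ F η) :
    ∑ ω : ι → Option (J × Bool), ∏ j, F (fun p => loc j (ω p)) ≤
      (∑ η, F η) ^ Fintype.card J := by
  classical
  have h1 : (∑ η, F η) ^ Fintype.card J = ∑ η : J → ι → Option Bool, ∏ j, F (η j) := by
    rw [← Fintype.prod_sum (fun (_ : J) η => F η)]; simp
  rw [h1, ← Finset.sum_image (f := fun η : J → ι → Option Bool => ∏ j, F (η j))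
    (loc_injective (ι := ι) (J := J)).injOn]
  exact Finset.sum_le_sum_of_subset_of_nonneg (Finset.subset_univ _) fun η _ _ =>
    Finset.prod_nonneg fun j _ => hF _

lemma full_le_real (F : (ι → Option Bool) → ℝ) (hF : ∀ η, 0 ≤ F η) (e : ι → ℝ)
    (he : ∀ p, ∑ η, (if η p = none then 0 else F η) ≤ e p * ∑ η, F η) :
    (∑ η, F η) ^ Fintype.card J ≤
      ∑ ω : ι → Option (J × Bool), ∏ j, F (fun p => loc j (ω p)) +
        (Fintype.card J : ℝ) ^ 2 * (∑ p, e p ^ 2) * (∑ η, F η) ^ Fintype.card J := by
  classical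
  set Z := ∑ η, F η with hZ
  have hZ0 : 0 ≤ Z := Finset.sum_nonneg fun η _ => hF η
  have h1 : Z ^ Fintype.card J = ∑ η : J → ι → Option Bool, ∏ j, F (η j) := by
    rw [← Fintype.prod_sum (fun (_ : J) η => F η)]; simp [hZ]
  let Φ := fun (ω : ι → Option (J × Bool)) (j : J) (p : ι) => loc j (ω p)
  let H : ι → J × J → J → (ι → Option Bool) → ℝ := fun p q k η =>
    if k = q.1 ∨ k = q.2 then (if η p = none then 0 else F η) else F η
  have hH : ∀ p q k η, 0 ≤ H p q k η := by
    intro p q k η
    simp only [H]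
    split_ifs
    · exact le_rfl
    · exact hF η
    · exact hF η
  have hbad : ∀ η : J → ι → Option Bool, η ∉ Finset.univ.image Φ →
      ∏ j, F (η j) ≤ ∑ p, ∑ q ∈ (Finset.univ : Finset J).offDiag, ∏ k, H p q k (η k) := by
    intro η hη
    have hex : ∃ p i j, i ≠ j ∧ η i p ≠ none ∧ η j p ≠ none := by
      by_contra hcon
      apply hη
      have hc : ∀ p i j, η i p ≠ none → η j p ≠ none → i = j := by
        intro p i j hi hj
        by_contra hij
        exact hcon ⟨p, i, j, hij, hi, hj⟩
      have hω : ∀ p, ∃ o : Option (J × Bool), ∀ j, loc j o = η j p := by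
        intro p
        by_cases hp : ∃ i, η i p ≠ none
        · obtain ⟨i, hi⟩ := hp
          obtain ⟨b, hb⟩ := Option.ne_none_iff_exists'.mp hi
          refine ⟨some (i, b), fun j => ?_⟩
          by_cases hij : i = j
          · subst hij; simp [loc, hb]
          · have : η j p = none := by
              by_contra hj
              exact hij (hc p i j hi hj)
            simp [loc, hij, this]
        · refine ⟨none, fun j => ?_⟩
          by_contra hj
          exact hp ⟨j, fun h => hj (by simp [loc, h])⟩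
      choose ω hω using hω
      exact Finset.mem_image.mpr ⟨ω, Finset.mem_univ _, by
        funext j p; exact hω p j⟩
    obtain ⟨p, i, j, hij, hi, hj⟩ := hex
    have e1 : ∏ k, F (η k) = ∏ k, H p (i, j) k (η k) := by
      refine Finset.prod_congr rfl fun k _ => ?_
      simp only [H]
      split_ifs with h1 h2
      · rcases h1 with rfl | rfl
        · exact absurd h2 hi
        · exact absurd h2 hj
      · rfl
      · rfl
    rw [e1]
    refine le_trans ?_ (Finset.single_le_sum (f := fun p =>
      ∑ q ∈ (Finset.univ : Finset J).offDiag, ∏ k, H p q k (η k))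
      (fun p _ => Finset.sum_nonneg fun q _ => Finset.prod_nonneg fun k _ => hH _ _ _ _)
      (Finset.mem_univ p))
    exact Finset.single_le_sum (f := fun q => ∏ k, H p q k (η k))
      (fun q _ => Finset.prod_nonneg fun k _ => hH _ _ _ _)
      (Finset.mem_offDiag.mpr ⟨Finset.mem_univ _, Finset.mem_univ _, hij⟩)
  have hone : ∀ p, ∀ q ∈ (Finset.univ : Finset J).offDiag,
      ∑ η : J → ι → Option Bool, ∏ k, H p q k (η k) ≤ e p ^ 2 * Z ^ Fintype.card J := by
    intro p q hq
    have hne : q.1 ≠ q.2 := (Finset.mem_offDiag.mp hq).2.2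
    rw [← Fintype.prod_sum (fun k η => H p q k η)]
    calc ∏ k, ∑ η, H p q k η ≤ ∏ k : J, (if k = q.1 ∨ k = q.2 then e p else 1) * Z := by
          refine Finset.prod_le_prod (fun k _ => Finset.sum_nonneg fun η _ => hH _ _ _ _)
            fun k _ => ?_
          simp only [H]
          split_ifs
          · exact he p
          · rw [one_mul]
      _ = e p ^ 2 * Z ^ Fintype.card J := by
          rw [Finset.prod_mul_distrib, Finset.prod_const, Finset.card_univ, Finset.prod_ite,
            Finset.prod_const_one, mul_one, Finset.prod_const]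
          congr 2
          have : (Finset.univ.filter fun k : J => k = q.1 ∨ k = q.2) = {q.1, q.2} := by
            ext k; simp
          rw [this, Finset.card_pair hne]
  have hcard : (((Finset.univ : Finset J).offDiag.card : ℕ) : ℝ) ≤ (Fintype.card J : ℝ) ^ 2 := by
    rw [Finset.offDiag_card, Finset.card_univ, sq]
    exact_mod_cast Nat.sub_le _ _
  calc Z ^ Fintype.card J
      = ∑ η ∈ Finset.univ.image Φ, ∏ j, F (η j) +
          ∑ η ∈ (Finset.univ.image Φ)ᶜ, ∏ j, F (η j) := by
        rw [h1, Finset.sum_add_sum_compl]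
    _ ≤ ∑ ω : ι → Option (J × Bool), ∏ j, F (fun p => loc j (ω p)) +
          ∑ η : J → ι → Option Bool,
            ∑ p, ∑ q ∈ (Finset.univ : Finset J).offDiag, ∏ k, H p q k (η k) := by
        refine add_le_add (le_of_eq ?_) ?_
        · exact Finset.sum_image (f := fun η : J → ι → Option Bool => ∏ j, F (η j))
            (loc_injective (ι := ι) (J := J)).injOn
        · refine (Finset.sum_le_sum fun η hη => hbad η (Finset.mem_compl.mp hη)).trans ?_
          exact Finset.sum_le_sum_of_subset_of_nonneg (Finset.subset_univ _) fun η _ _ =>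
            Finset.sum_nonneg fun p _ => Finset.sum_nonneg fun q _ =>
              Finset.prod_nonneg fun k _ => hH _ _ _ _
    _ ≤ _ := by
        gcongr
        rw [Finset.sum_comm, Finset.mul_sum, Finset.sum_mul]
        refine Finset.sum_le_sum fun p _ => ?_
        rw [Finset.sum_comm]
        refine (Finset.sum_le_sum (hone p)).trans ?_
        rw [Finset.sum_const, nsmul_eq_mul, mul_assoc]
        gcongr

lemma sum_Fs (T : ℕ) (B : ℕ → ι → Bool) (a r : ι → ℝ) :
    ∑ η, Fs T B a r η = ∑ θ : Option (Fin T), ∑ θ' : Option (Fin T), kap T θ * kap T θ' *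
      ∏ p, (1 + a p * ((1 - act B θ p) * (1 - act B θ' p)) +
        (r p - 1) * a p * (act B θ p * act B θ' p)) := by
  have h1 : ∀ θ θ' : Option (Fin T), ∏ p, (1 + a p * ((1 - act B θ p) * (1 - act B θ' p)) +
        (r p - 1) * a p * (act B θ p * act B θ' p)) =
      ∑ η : ι → Option Bool, ∏ p, nu a r p (η p) * cc (η p) (act B θ p) * cc (η p) (act B θ' p) := by
    intro θ θ'
    rw [← Fintype.prod_sum (fun p e => nu a r p e * cc e (act B θ p) * cc e (act B θ' p))]
    refine Finset.prod_congr rfl fun p _ => ?_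
    simp only [Fintype.sum_option, Fintype.sum_bool, nu, cc]
    ring
  simp only [h1, Fs, Kf, sq, Finset.sum_mul_sum]
  simp only [Finset.mul_sum, Finset.prod_mul_distrib]
  rw [Finset.sum_comm]
  refine Finset.sum_congr rfl fun θ _ => ?_
  rw [Finset.sum_comm]
  refine Finset.sum_congr rfl fun θ' _ => Finset.sum_congr rfl fun η _ => by ring

omit [DecidableEq ι] in
lemma abs_Kf_le_two (T : ℕ) (B : ℕ → ι → Bool) (η : ι → Option Bool) : |Kf T B η| ≤ 2 := by
  have hc : ∀ θ : Option (Fin T), |∏ p, cc (η p) (act B θ p)| ≤ 1 := by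
    intro θ
    rw [Finset.abs_prod]
    refine Finset.prod_le_one (fun _ _ => abs_nonneg _) fun p _ => ?_
    rcases θ with _ | t <;> rcases η p with _ | _ | _ <;> simp only [cc, act] <;>
      (try split_ifs) <;> norm_num
  refine (Finset.abs_sum_le_sum_abs _ _).trans ?_
  calc ∑ θ : Option (Fin T), |kap T θ * ∏ p, cc (η p) (act B θ p)|
      ≤ ∑ θ : Option (Fin T), |kap T θ| := by
        refine Finset.sum_le_sum fun θ _ => ?_
        rw [abs_mul]
        exact mul_le_of_le_one_right (abs_nonneg _) (hc θ)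
    _ ≤ 2 := by
        simp only [Fintype.sum_option, kap, abs_one, Finset.sum_const, Finset.card_univ,
          Fintype.card_fin, nsmul_eq_mul, abs_div, abs_neg, Nat.abs_cast]
        have : (T : ℝ) * (1 / T) ≤ 1 := by
          rw [mul_one_div]; exact div_self_le_one _
        linarith

omit [DecidableEq ι] [Fintype J] in
lemma abs_Kf_loc0 (T : ℕ) (B : ℕ → ι → Bool) (j : J) (y : ι → Option J) :
    |Kf T B (fun p => loc0 j (y p))| ≤ 1 := by
  have hc : ∀ t : Fin T, 0 ≤ ∏ p, cc (loc0 j (y p)) (act B (some t) p) ∧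
      ∏ p, cc (loc0 j (y p)) (act B (some t) p) ≤ 1 := by
    intro t
    have h : ∀ p, 0 ≤ cc (loc0 j (y p)) (act B (some t) p) ∧
        cc (loc0 j (y p)) (act B (some t) p) ≤ 1 := by
      intro p
      simp only [loc0, act]
      split_ifs <;> simp [cc]
    exact ⟨Finset.prod_nonneg fun p _ => (h p).1,
      Finset.prod_le_one (fun p _ => (h p).1) fun p _ => (h p).2⟩
  have h0 : ∏ p, cc (loc0 j (y p)) (act (T := T) B none p) = 1 := by
    refine Finset.prod_eq_one fun p _ => ?_
    simp only [loc0, act]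
    split_ifs <;> simp [cc]
  simp only [Kf, Fintype.sum_option, kap, h0, mul_one, ← Finset.mul_sum]
  have h1 : 0 ≤ ∑ t : Fin T, ∏ p, cc (loc0 j (y p)) (act B (some t) p) :=
    Finset.sum_nonneg fun t _ => (hc t).1
  have h2 : ∑ t : Fin T, ∏ p, cc (loc0 j (y p)) (act B (some t) p) ≤ T := by
    refine (Finset.sum_le_sum fun t _ => (hc t).2).trans (by simp)
  have h3 : (∑ t : Fin T, ∏ p, cc (loc0 j (y p)) (act B (some t) p)) / T ≤ 1 :=
    div_le_one_of_le₀ h2 (Nat.cast_nonneg _)
  have h4 : 0 ≤ (∑ t : Fin T, ∏ p, cc (loc0 j (y p)) (act B (some t) p)) / T := by positivity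
  rw [abs_le, neg_div, neg_mul, one_div, inv_mul_eq_div]
  constructor <;> linarith

omit [DecidableEq ι] in
lemma abs_Gf_le (T : ℕ) (B : ℕ → ι → Bool) (y : ι → Option J) : |Gf T B y| ≤ 1 := by
  rw [Gf, Finset.abs_prod]
  exact Finset.prod_le_one (fun _ _ => abs_nonneg _) fun j _ => abs_Kf_loc0 T B j y

omit [DecidableEq ι] in
lemma Gf_erz {T : ℕ} (hT : 0 < T) (B : ℕ → ι → Bool) (j : J) (y : ι → Option J) :
    Gf T B (fun p => erz j (y p)) = 0 := by
  refine Finset.prod_eq_zero (Finset.mem_univ j) ?_
  have h : ∀ p, loc0 j (erz j (y p)) = none := by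
    intro p
    simp only [loc0, erz]
    split_ifs with h1 h2 <;> simp_all
  have hT' : (T : ℝ) ≠ 0 := by exact_mod_cast hT.ne'
  simp only [Kf, h, cc, Finset.prod_const_one, mul_one, Fintype.sum_option, kap,
    Finset.sum_const, Finset.card_univ, Fintype.card_fin, nsmul_eq_mul]
  field_simp
  ring

end Pool.Agent.Lib.MP_458f0b_nt
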