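import Pool.Agent.Lib.MP_458f0b_nt.MkDefs

/-! Fourth moments of Kloosterman fractions: common tools and bilinear forms. -/

namespace Pool.Agent.Lib.MP_9227d9_nt.Mob.MK

open Polynomial

open scoped Classical

variable {k : Type} [Field k] [Fintype k] {A M b : k[X]}

theorem avg_le_pow {Φ : k[X] → ℝ} {len : ℕ} (hA : A ≠ 0) (hl : len ≤ A.natDegree)
    (h0 : ∀ x, 0 ≤ Φ x) (hp : ∀ v t, Φ (v + A * t) = Φ v) (c : k[X]) :
    avg len (fun v => Φ (c + v)) ≤ qR k ^ (A.natDegree - len) * avg A.natDegree Φ := by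
  rw [TwKI.avg_cut len (A.natDegree - len), Nat.add_sub_cancel' hl,
    ← avg_periodic hA le_rfl hp c]
  refine mul_le_mul_of_nonneg_left (avg_mono fun u _ => ?_) (qR_pow_pos _).le
  split_ifs
  · rw [mul_one]
  · rw [mul_zero]
    exact h0 _

theorem avg_zero (F : k[X] → ℝ) : avg 0 F = F 0 := by
  rw [← avg_const (k := k) 0 (F 0)]
  refine avg_congr fun v hv => ?_
  rw [show v = 0 from degree_eq_bot.1 (Nat.WithBot.lt_zero_iff.1 (by simpa using hv))]

theorem avg_mul_avg (m n : ℕ) (f g : k[X] → ℝ) :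
    avg m f * avg n g = avg m fun x => avg n fun y => f x * g y := by
  rw [← avg_mul_right]
  refine avg_congr fun x _ => ?_
  rw [avg_mul_left]

theorem avg_pow_four (n : ℕ) (f : k[X] → ℝ) : avg n f ^ 4 =
    avg n fun x₃ => avg n fun x₄ => avg n fun x₁ => avg n fun x₂ =>
      f x₁ * f x₂ * (f x₃ * f x₄) := by
  rw [show avg n f ^ 4 = avg n f * avg n f * (avg n f * avg n f) by ring, avg_mul_avg,
    ← avg_mul_left]
  refine avg_congr fun x₃ _ => ?_
  rw [← avg_mul_left]
  refine avg_congr fun x₄ _ => ?_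
  rw [← avg_mul_right]
  refine avg_congr fun x₁ _ => ?_
  rw [← avg_mul_right]

theorem pow_four_avm_le (n : ℕ) (f : k[X] → ℝ) : avm n f ^ 4 ≤ avm n fun x => f x ^ 4 := by
  have h1 : avm n f ^ 2 ≤ avm n fun x => f x ^ 2 := sq_avm_le
  have h2 : avm n (fun x => f x ^ 2) ^ 2 ≤ avm n fun x => (f x ^ 2) ^ 2 := sq_avm_le
  calc avm n f ^ 4 = (avm n f ^ 2) ^ 2 := by ring
    _ ≤ _ := pow_le_pow_left₀ (sq_nonneg _) h1 2
    _ ≤ _ := h2
    _ = _ := avm_congr fun x _ => by ring

theorem avg_inv {Φ : k[X] → ℝ} (hA : A ≠ 0) (hp : ∀ v t, Φ (v + A * t) = Φ v) :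
    avg A.natDegree (fun y => if IsCoprime y A then Φ (invM A y) else 0) =
      avg A.natDegree fun w => if IsCoprime w A then Φ w else 0 := by
  have hN := (Nm_pos A).ne'
  have h1 : ∀ y : k[X], (if IsCoprime y A then Φ (invM A y) else 0) =
      Nm A * avg A.natDegree fun w => if A ∣ -1 + y * w then Φ w else 0 := by
    intro y
    split_ifs with hy
    · have h2 : ∀ w, (if A ∣ -1 + y * w then Φ w else 0) =
          Φ (invM A y) * if A ∣ -1 + y * w then 1 else 0 := by
        intro w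
        split_ifs with hw
        · obtain ⟨s, hs⟩ := hw
          obtain ⟨s', hs'⟩ := invM_spec hy
          rw [mul_one, ← hp (invM A y) (s * invM A y - s' * w)]
          congr 1
          linear_combination invM A y * hs - w * hs'
        · rw [mul_zero]
      simp only [h2]
      rw [avg_mul_left, avg_dvd hA le_rfl hy]
      field_simp
    · rw [avg_congr (G := fun _ => 0), avg_const, mul_zero]
      intro w _
      refine if_neg ?_
      rintro ⟨s, hs⟩
      exact hy ⟨w, -s, by linear_combination hs⟩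
  have h3 : ∀ w : k[X], (if IsCoprime w A then Φ w else 0) =
      Nm A * avg A.natDegree fun y => if A ∣ -1 + y * w then Φ w else 0 := by
    intro w
    split_ifs with hw
    · have h2 : ∀ y, (if A ∣ -1 + y * w then Φ w else 0) =
          Φ w * if A ∣ -1 + w * y then 1 else 0 := by
        intro y
        rw [mul_comm y w]
        split_ifs <;> simp
      simp only [h2]
      rw [avg_mul_left, avg_dvd hA le_rfl hw]
      field_simp
    · rw [avg_congr (G := fun _ => 0), avg_const, mul_zero]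
      intro y _
      refine if_neg ?_
      rintro ⟨s, hs⟩
      exact hw ⟨y, -s, by linear_combination hs⟩
  simp only [h1]
  conv_rhs => simp only [h3]
  rw [avg_mul_left, avg_mul_left, avg_comm]

omit [Fintype k] in
theorem dvd_e3 {x₁ x₂ x₃ x₄ : k[X]} (hM : M ∣ A) (h : IsCoprime (x₁ * x₂ * (x₃ * x₄)) A)
    (hd : M ∣ invM A x₁ + invM A x₂ + (invM A x₃ + invM A x₄)) :
    M ∣ (x₁ + x₂) * (x₃ * x₄) + (x₃ + x₄) * (x₁ * x₂) := by
  obtain ⟨s₁, h₁⟩ := hM.trans (invM_spec h.of_mul_left_left.of_mul_left_left)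
  obtain ⟨s₂, h₂⟩ := hM.trans (invM_spec h.of_mul_left_left.of_mul_left_right)
  obtain ⟨s₃, h₃⟩ := hM.trans (invM_spec h.of_mul_left_right.of_mul_left_left)
  obtain ⟨s₄, h₄⟩ := hM.trans (invM_spec h.of_mul_left_right.of_mul_left_right)
  obtain ⟨s, hs⟩ := hd
  exact ⟨x₁ * x₂ * x₃ * x₄ * s - x₂ * x₃ * x₄ * s₁ - x₁ * x₃ * x₄ * s₂ - x₁ * x₂ * x₄ * s₃ -
    x₁ * x₂ * x₃ * s₄, by
    linear_combination x₁ * x₂ * x₃ * x₄ * hs - x₂ * x₃ * x₄ * h₁ - x₁ * x₃ * x₄ * h₂ -
      x₁ * x₂ * x₄ * h₃ - x₁ * x₂ * x₃ * h₄⟩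

variable [CharP k 2]

theorem avg_eM_dvd (hA : A.Monic) (x : k[X]) :
    avg A.natDegree (fun w => eM A (w * x)) = if A ∣ x then 1 else 0 := by
  have h := avg_eM hA (Nat.zero_le _) x
  rw [Nat.sub_zero] at h
  rw [h]
  refine if_congr ?_ rfl rfl
  rw [Nat.cast_zero, Nat.WithBot.lt_zero_iff, degree_eq_bot, modByMonic_eq_zero_iff_dvd hA]

theorem kl_four (A b x₁ x₂ x₃ x₄ : k[X]) :
    kl A b x₁ * kl A b x₂ * (kl A b x₃ * kl A b x₄) =
      if IsCoprime (x₁ * x₂ * (x₃ * x₄)) A then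
        eM A (b * (invM A x₁ + invM A x₂ + (invM A x₃ + invM A x₄))) else 0 := by
  split_ifs with h
  · unfold kl
    rw [if_pos h.of_mul_left_left.of_mul_left_left, if_pos h.of_mul_left_left.of_mul_left_right,
      if_pos h.of_mul_left_right.of_mul_left_left, if_pos h.of_mul_left_right.of_mul_left_right,
      mul_add, mul_add, mul_add, eM_add, eM_add, eM_add]
  · by_contra h0
    have h1 : ∀ x, kl A b x ≠ 0 → IsCoprime x A := fun x hx => by
      by_contra hc
      exact hx (kl_of_not hc b)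
    simp only [mul_eq_zero, not_or] at h0
    exact h (((h1 _ h0.1.1).mul_left (h1 _ h0.1.2)).mul_left
      ((h1 _ h0.2.1).mul_left (h1 _ h0.2.2)))

omit [Fintype k] [CharP k 2] in
theorem kl_congr_left (hA : A.Monic) {b' : k[X]} (h : A ∣ b - b') (x : k[X]) :
    kl A b x = kl A b' x := by
  unfold kl
  split_ifs
  · refine eM_congr hA ?_
    rw [← sub_mul]
    exact h.mul_right _
  · rfl

omit [Fintype k] [CharP k 2] in
theorem kl_mul (hA : A.Monic) {y : k[X]} (hy : IsCoprime y A) (b x : k[X]) :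
    kl A b (x * y) = kl A (b * invM A y) x := by
  by_cases hx : IsCoprime x A
  · obtain ⟨s, hs⟩ := invM_spec hx
    obtain ⟨s', hs'⟩ := invM_spec hy
    rw [kl_eq (y := b * invM A y * invM A x) hA (hx.mul_left hy)
      ⟨b * (s * y * invM A y + s'), by linear_combination b * y * invM A y * hs + b * hs'⟩]
    exact (if_pos hx).symm
  · rw [kl_of_not hx, kl_of_not fun h => hx h.of_mul_left_left]

theorem stBil : StBil := by
  intro k _ _ _ A M b ρ σ α γ hA hM hb hσ hα hγ
  obtain ⟨F, hF⟩ : ∃ F : k[X] → ℝ, F = fun y => avm ρ fun x => α x * kl A b (x * y) := ⟨_, rfl⟩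
  obtain ⟨G, hG⟩ : ∃ G : k[X] → ℝ, G = fun w => avm ρ fun x => α x * kl A (b * w) x := ⟨_, rfl⟩
  have h1 : (avm ρ fun x => avm σ fun y => α x * γ y * kl A b (x * y)) =
      avm σ fun y => γ y * F y := by
    rw [avm_comm, hF]
    refine avm_congr fun y _ => ?_
    rw [← avm_mul_left]
    exact avm_congr fun x _ => by ring
  have h2 : avm σ (fun y => (γ y * F y) ^ 4) ≤ avm σ fun y => F y ^ 4 := by
    refine avm_mono fun y hy => ?_
    rw [mul_pow]
    refine mul_le_of_le_one_left (by positivity) ?_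
    rw [← abs_of_nonneg (a := γ y ^ 4) (by positivity), abs_pow]
    exact pow_le_one₀ (abs_nonneg _) (hγ y hy)
  have h3 : avm σ (fun y => F y ^ 4) ≤ qR k ^ (A.natDegree - σ) *
      avg A.natDegree fun y => F y ^ 4 := by
    refine avg_le_pow (Φ := fun y => F y ^ 4) hA.ne_zero hσ (fun _ => by positivity)
      (fun v t => ?_) (X ^ σ)
    rw [hF]
    congr 1
    refine avm_congr fun x _ => ?_
    rw [kl_congr (y := x * v) hA ⟨x * t, by ring⟩]
  have h4 : avg A.natDegree (fun y => F y ^ 4) ≤ avg A.natDegree fun w => G w ^ 4 := by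
    have h5 : ∀ y, F y ^ 4 = if IsCoprime y A then G (invM A y) ^ 4 else 0 := by
      intro y
      rw [hF, hG]
      split_ifs with hy
      · simp only [kl_mul hA hy]
      · beta_reduce
        rw [avm_congr (G := fun _ => 0) fun x _ => by
          rw [kl_of_not fun h => hy h.of_mul_left_right, mul_zero], avm_const]
        norm_num
    simp only [h5]
    rw [avg_inv (Φ := fun w => G w ^ 4) hA.ne_zero fun v t => ?_]
    · refine avg_mono fun w _ => ?_
      split_ifs
      · exact le_rfl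
      · positivity
    · rw [hG]
      congr 1
      refine avm_congr fun x _ => ?_
      rw [kl_congr_left (b' := b * v) hA ⟨b * t, by ring⟩]
  have h6 : avg A.natDegree (fun w => G w ^ 4) ≤ J4 M ρ := by
    have h7 : ∀ w, G w ^ 4 = avm ρ fun x₃ => avm ρ fun x₄ => avm ρ fun x₁ => avm ρ fun x₂ =>
        α x₁ * kl A (b * w) x₁ * (α x₂ * kl A (b * w) x₂) *
          (α x₃ * kl A (b * w) x₃ * (α x₄ * kl A (b * w) x₄)) := fun w => by
      rw [hG]
      exact avg_pow_four ρ _
    simp only [h7]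
    rw [← avm_avg_comm]
    refine avm_mono fun x₃ h₃ => ?_
    rw [← avm_avg_comm]
    refine avm_mono fun x₄ h₄ => ?_
    rw [← avm_avg_comm]
    refine avm_mono fun x₁ h₁ => ?_
    rw [← avm_avg_comm]
    refine avm_mono fun x₂ h₂ => ?_
    have h8 : ∀ w, α x₁ * kl A (b * w) x₁ * (α x₂ * kl A (b * w) x₂) *
        (α x₃ * kl A (b * w) x₃ * (α x₄ * kl A (b * w) x₄)) =
        α x₁ * α x₂ * (α x₃ * α x₄) * if IsCoprime (x₁ * x₂ * (x₃ * x₄)) A then
          eM A (w * (b * (invM A x₁ + invM A x₂ + (invM A x₃ + invM A x₄)))) else 0 := by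
      intro w
      rw [← mul_assoc w, mul_comm w b, ← kl_four]
      ring
    simp only [h8]
    rw [avg_mul_left]
    by_cases hc : IsCoprime (x₁ * x₂ * (x₃ * x₄)) A
    · simp only [if_pos hc]
      rw [avg_eM_dvd hA]
      by_cases hd : A ∣ b * (invM A x₁ + invM A x₂ + (invM A x₃ + invM A x₄))
      · rw [if_pos hd, if_pos ⟨hc.of_isCoprime_of_dvd_right hM, dvd_e3 hM hc (hb _ hd)⟩, mul_one]
        refine (le_abs_self _).trans ?_
        rw [abs_mul, abs_mul, abs_mul]
        exact mul_le_one₀ (mul_le_one₀ (hα _ h₁) (abs_nonneg _) (hα _ h₂)) (by positivity)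
          (mul_le_one₀ (hα _ h₃) (abs_nonneg _) (hα _ h₄))
      · rw [if_neg hd, mul_zero]
        split_ifs <;> norm_num
    · simp only [if_neg hc]
      rw [avg_const, mul_zero]
      split_ifs <;> norm_num
  rw [h1]
  exact (pow_four_avm_le σ _).trans (h2.trans (h3.trans
    (mul_le_mul_of_nonneg_left (h4.trans h6) (qR_pow_pos _).le)))

end Pool.Agent.Lib.MP_9227d9_nt.Mob.MK
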