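import Pool.Agent.Lib.MP_458f0b_nt.MkDefs
import Pool.Agent.Lib.MP_9227d9_nt.MobK

/-!
The divisor function.
-/

namespace Pool.Agent.Lib.MP_9227d9_nt.Mob.MK

open Polynomial

open scoped Classical

variable {k : Type} [Field k] [Fintype k] {U W g p : k[X]}

namespace MkDiv

theorem mem_dv (hW : W ≠ 0) :
    g ∈ (Mo k W.natDegree).filter (fun g => g ∣ W) ↔ g.Monic ∧ g ∣ W := by
  rw [Finset.mem_filter, mem_Mo]
  exact ⟨fun h => ⟨h.1.1, h.2⟩, fun h => ⟨⟨h.1, natDegree_le_of_dvd h.2 hW⟩, h.2⟩⟩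

theorem dv_nonneg (W : k[X]) : 0 ≤ dv W := Nat.cast_nonneg _

theorem dv_pow_mul (hp : IsP p) (hW : W ≠ 0) (e : ℕ) : dv (p ^ e * W) ≤ (e + 1) * dv W := by
  have h0 : p ^ e * W ≠ 0 := mul_ne_zero (pow_ne_zero _ hp.1.ne_zero) hW
  have h1 : (Mo k (p ^ e * W).natDegree).filter (fun g => g ∣ p ^ e * W) ⊆
      (Finset.range (e + 1) ×ˢ (Mo k W.natDegree).filter fun g => g ∣ W).image
        fun x => p ^ x.1 * x.2 := by
    intro g hg
    obtain ⟨hm, hd⟩ := (mem_dv h0).1 hg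
    obtain ⟨d₁, d₂, h1, h2, rfl⟩ := exists_dvd_and_dvd_of_dvd_mul hd
    obtain ⟨i, hi, u, hu⟩ := (dvd_prime_pow hp.prime e).1 h1
    have h3 : p ^ i * ((u⁻¹ : k[X]ˣ) * d₂) = d₁ * d₂ := by
      rw [← hu, ← mul_assoc, Units.mul_inv_cancel_right]
    refine Finset.mem_image.2 ⟨(i, (u⁻¹ : k[X]ˣ) * d₂), Finset.mem_product.2
      ⟨Finset.mem_range.2 (Nat.lt_succ_of_le hi), (mem_dv hW).2 ⟨?_, ?_⟩⟩, h3⟩
    · exact (hp.1.pow i).of_mul_monic_left (h3 ▸ hm)
    · exact Units.mul_left_dvd.2 h2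
  have h2 := (Finset.card_le_card h1).trans Finset.card_image_le
  rw [Finset.card_product, Finset.card_range] at h2
  unfold dv
  exact_mod_cast h2

theorem dv_le_one (hW : W.natDegree = 0) : dv W ≤ 1 := by
  have h1 : (Mo k W.natDegree).filter (fun g => g ∣ W) ⊆ {1} := fun g hg => by
    rw [Finset.mem_filter, mem_Mo, hW] at hg
    exact Finset.mem_singleton.2 (hg.1.1.natDegree_eq_zero.1 (Nat.le_zero.1 hg.1.2))
  have h2 := Finset.card_le_card h1
  rw [Finset.card_singleton] at h2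
  unfold dv
  exact_mod_cast h2

theorem dv_le {θ B : ℝ} {T : ℕ} (hθ : 1 < θ) (hT : 2 ≤ θ ^ T) (hB1 : 1 ≤ B)
    (hB : ∀ e : ℕ, (e : ℝ) + 1 ≤ B * θ ^ e) (n : ℕ) :
    ∀ (W : k[X]) (S : Finset k[X]), W ≠ 0 → W.natDegree = n →
      (∀ p, IsP p → p ∣ W → p.natDegree < T → p ∈ S) → dv W ≤ B ^ S.card * θ ^ n := by
  induction n using Nat.strong_induction_on with
  | _ n ih =>
    intro W S hW hn hS
    have hθ0 : 0 < θ := by linarith
    by_cases h0 : n = 0
    · rw [h0, pow_zero, mul_one]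
      exact (dv_le_one (hn.trans h0)).trans (one_le_pow₀ hB1)
    obtain ⟨p, hp, hpW, -⟩ := exists_isP_of_not_isCoprime (G := W) hW fun h =>
      h0 (hn.symm.trans (natDegree_eq_zero_of_isUnit (isCoprime_self.1 h)))
    obtain ⟨e, W', hW', rfl⟩ := WfDvdMonoid.max_power_factor hW hp.2
    have h1 : W' ≠ 0 := right_ne_zero_of_mul hW
    have he : e ≠ 0 := fun h => hW' (by simpa [h] using hpW)
    have hd := hp.natDegree_pos
    rw [natDegree_mul (pow_ne_zero _ hp.1.ne_zero) h1, natDegree_pow] at hn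
    have hlt : W'.natDegree < n := by
      have := Nat.mul_pos (Nat.pos_of_ne_zero he) hd
      omega
    have h2 := ih _ hlt W' (S.erase p) h1 rfl fun p' hp' h3 h4 =>
      Finset.mem_erase.2 ⟨fun h5 => hW' (h5 ▸ h3), hS p' hp' (h3.mul_left _) h4⟩
    refine (dv_pow_mul hp h1 e).trans ?_
    rw [← hn, pow_add]
    by_cases hs : p.natDegree < T
    · have h3 := Finset.card_erase_add_one (hS p hp hpW hs)
      have h4 : (e : ℝ) + 1 ≤ B * θ ^ (e * p.natDegree) := (hB e).trans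
        (mul_le_mul_of_nonneg_left (pow_le_pow_right₀ hθ.le (Nat.le_mul_of_pos_right e hd))
          (by linarith))
      calc _ ≤ B * θ ^ (e * p.natDegree) * (B ^ (S.erase p).card * θ ^ W'.natDegree) :=
            mul_le_mul h4 h2 (dv_nonneg _) (by positivity)
        _ = _ := by rw [← h3]; ring
    · have h3 : (e : ℝ) + 1 ≤ 2 ^ e := by exact_mod_cast Nat.lt_two_pow_self
      have h4 : (e : ℝ) + 1 ≤ θ ^ (e * p.natDegree) := by
        rw [mul_comm, pow_mul]
        exact h3.trans (pow_le_pow_left₀ zero_le_two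
          (hT.trans (pow_le_pow_right₀ hθ.le (not_lt.1 hs))) e)
      have h5 : B ^ (S.erase p).card ≤ B ^ S.card := pow_le_pow_right₀ hB1 Finset.card_erase_le
      calc _ ≤ θ ^ (e * p.natDegree) * (B ^ S.card * θ ^ W'.natDegree) :=
            mul_le_mul h4 (h2.trans (mul_le_mul_of_nonneg_right h5 (by positivity)))
              (dv_nonneg _) (by positivity)
        _ = _ := by ring

end MkDiv

theorem two_pow_le_dv (hW : W ≠ 0) : (2 : ℝ) ^ (pf W).card ≤ dv W := by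
  have hP : ∀ S ∈ (pf W).powerset, ∀ p ∈ S, IsP p ∧ p ∣ W := fun S hS p hp =>
    (mem_pf hW).1 (Finset.mem_powerset.1 hS hp)
  have h1 : (pf W).powerset.card ≤ ((Mo k W.natDegree).filter fun g => g ∣ W).card := by
    refine Finset.card_le_card_of_injOn (fun S => ∏ p ∈ S, p) (fun S hS => ?_)
      fun S hS S' hS' h => ?_
    · have h2 := hP S hS
      exact (MkDiv.mem_dv hW).2 ⟨monic_prod fun p hp => (h2 p hp).1,
        (prod_dvd_iff fun p hp => (h2 p hp).1).2 fun p hp => (h2 p hp).2⟩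
    · rw [← pf_prod fun p hp => (hP S hS p hp).1, ← pf_prod fun p hp => (hP S' hS' p hp).1]
      exact congrArg pf h
  rw [Finset.card_powerset] at h1
  unfold dv
  exact_mod_cast h1

theorem one_le_dv (W : k[X]) : 1 ≤ dv W := by
  have h1 : 0 < ((Mo k W.natDegree).filter fun g => g ∣ W).card :=
    Finset.card_pos.2 ⟨1, Finset.mem_filter.2 ⟨mem_Mo.2 ⟨monic_one, by simp⟩, one_dvd W⟩⟩
  unfold dv
  exact_mod_cast h1

theorem dv_mono (hW : W ≠ 0) (h : U ∣ W) : dv U ≤ dv W := by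
  unfold dv
  refine Nat.cast_le.2 (Finset.card_le_card fun g hg => ?_)
  have h1 := (MkDiv.mem_dv (ne_zero_of_dvd_ne_zero hW h)).1 hg
  exact (MkDiv.mem_dv hW).2 ⟨h1.1, h1.2.trans h⟩

theorem abs_cV_le {V : ℕ} (hW : W ≠ 0) : |cV V W| ≤ dv W := by
  refine (Finset.abs_sum_le_sum_abs _ _).trans
    ((Finset.sum_le_card_nsmul _ _ 1 fun C _ => abs_mu_le C).trans ?_)
  rw [nsmul_eq_mul, mul_one]
  refine Nat.cast_le.2 (Finset.card_le_card fun g hg => ?_)
  rw [Finset.mem_filter, mem_Mo] at hg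
  exact (MkDiv.mem_dv hW).2 ⟨hg.1.1, hg.2⟩

theorem stDiv : StDiv := by
  intro k _ _ θ hθ
  obtain ⟨T, hT⟩ := pow_unbounded_of_one_lt (2 : ℝ) hθ
  obtain ⟨B, -, hB⟩ := K.poly_le hθ 1
  simp only [pow_one] at hB
  have hB1 : 1 ≤ B := by simpa using hB 0
  exact ⟨B ^ (PrL k T).card, fun W hW => MkDiv.dv_le hθ hT.le hB1 hB _ W _ hW rfl
    fun p hp _ h => mem_PrL.2 ⟨hp, h⟩⟩

theorem stGD : StGD := by
  intro k _ _ M c s j hM hs
  have hq := qR_pow_pos (k := k) s
  calc _ ≤ avg j fun v => ∑ g ∈ ((Mo k M.natDegree).filter fun g => g ∣ M).filter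
        (fun g => s ≤ g.natDegree), if g ∣ c + 1 * v then (1 : ℝ) else 0 := by
        refine avg_mono fun v _ => ?_
        have h0 : ∀ g ∈ ((Mo k M.natDegree).filter fun g => g ∣ M).filter
            (fun g => s ≤ g.natDegree), (0 : ℝ) ≤ if g ∣ c + 1 * v then (1 : ℝ) else 0 :=
          fun g _ => by split_ifs <;> norm_num
        split_ifs with h
        · obtain ⟨g, h1, h2, h3, h4⟩ := h
          refine le_trans ?_ (Finset.single_le_sum h0
            (Finset.mem_filter.2 ⟨(MkDiv.mem_dv hM).2 ⟨h1, h2⟩, h3⟩))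
          rw [one_mul, if_pos h4]
        · exact Finset.sum_nonneg h0
    _ ≤ dv M / qR k ^ s := by
        rw [avg_sum]
        refine (Finset.sum_le_card_nsmul _ _ (1 / qR k ^ s) fun g hg => ?_).trans ?_
        · rw [Finset.mem_filter, MkDiv.mem_dv hM] at hg
          exact avg_dvd_le hg.1.1.ne_zero hs hg.2 isCoprime_one_left c
        · rw [nsmul_eq_mul, mul_one_div]
          exact div_le_div_of_nonneg_right (Nat.cast_le.2 (Finset.card_filter_le _ _)) hq.le

end Pool.Agent.Lib.MP_9227d9_nt.Mob.MK
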