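import Pool.Agent.Lib.MP_458f0b_nt.MkDefs
import Pool.Agent.Lib.MP_9227d9_nt.TwPar

/-! Vaughan's identity. -/

namespace Pool.Agent.Lib.MP_9227d9_nt.Mob.MK

open Polynomial

open scoped Classical

namespace MkVau

variable {k : Type} [Field k] [Fintype k]

theorem sum_zero {F : k[X]} {n : ℕ} (hF : F ≠ 0) (hn : F.natDegree ≤ n) (h0 : 0 < F.natDegree) :
    ∑ g ∈ (Mo k n).filter (fun g => g ∣ F), mu g = 0 := by
  have h1 := sum_mu_dvd hF hn fun _ => 1
  simp only [mul_one] at h1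
  obtain ⟨p, hp, hd, -⟩ := exists_isP_of_not_isCoprime (G := 0) hF fun h =>
    not_isUnit_of_natDegree_pos F h0 (isCoprime_zero_right.1 h)
  rw [h1]
  exact_mod_cast Finset.sum_powerset_neg_one_pow_card_of_nonempty ⟨p, (mem_pf hF).2 ⟨hp, hd⟩⟩

theorem cV_one (V : ℕ) : cV V (1 : k[X]) = 1 := by
  have h1 := sum_mu_dvd (k := k) (F := 1) (n := V) one_ne_zero (by simp) fun _ => 1
  have h2 : pf (1 : k[X]) = ∅ := by simpa using pf_prod (k := k) (S := ∅) (by simp)
  simp only [mul_one, h2] at h1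
  rw [cV, h1]
  simp

theorem fib (n m : ℕ) (hm : m ≤ n + 1) (P : k[X] → Prop) (g : k[X] → ℝ) :
    ∑ B ∈ ((Mo k n).filter P).filter (fun B => B.natDegree < m), g B =
      ∑ i ∈ Finset.range m, ∑ B ∈ (MoD k i).filter P, g B := by
  rw [← Finset.sum_fiberwise_of_maps_to (g := natDegree) (t := Finset.range m)
    fun B hB => Finset.mem_range.2 (Finset.mem_filter.1 hB).2]
  refine Finset.sum_congr rfl fun i hi => Finset.sum_congr ?_ fun _ _ => rfl
  have := Finset.mem_range.1 hi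
  ext B
  simp only [Finset.mem_filter, mem_Mo, mem_MoD, MD]
  exact ⟨fun h => ⟨⟨h.1.1.1.1, h.2⟩, h.1.1.2⟩,
    fun h => ⟨⟨⟨⟨h.1.1, by omega⟩, h.2⟩, by omega⟩, h.1.2⟩⟩

omit [Fintype k] in
theorem dvd_div {B C D : k[X]} (hB : B ≠ 0) : B ∣ D ∧ C ∣ D / B ↔ B * C ∣ D := by
  constructor
  · rintro ⟨⟨W, rfl⟩, h⟩
    rw [mul_div_cancel_left₀ _ hB] at h
    exact mul_dvd_mul_left B h
  · rintro ⟨W, rfl⟩
    rw [mul_assoc, mul_div_cancel_left₀ _ hB]
    exact ⟨dvd_mul_right _ _, dvd_mul_right _ _⟩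

theorem conv_zero {V d : ℕ} {D : k[X]} (hD : MD d D) (hV : V < d) :
    ∑ B ∈ (Mo k d).filter (fun B => B ∣ D), mu B * cV V (D / B) = 0 := by
  have h1 : ∀ B ∈ Mo k d, (if B ∣ D then mu B * cV V (D / B) else 0) =
      ∑ C ∈ Mo k V, if C ∣ D then mu C * if B ∣ D / C then mu B else 0 else 0 := by
    intro B hB
    have hB0 := (mem_Mo.1 hB).1.ne_zero
    have h2 : ∀ C ∈ Mo k V, (if C ∣ D then mu C * if B ∣ D / C then mu B else 0 else 0) =
        if B ∣ D then mu B * if C ∣ D / B then mu C else 0 else 0 := by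
      intro C hC
      have h3 : B ∣ D ∧ C ∣ D / B ↔ C ∣ D ∧ B ∣ D / C := by
        rw [dvd_div hB0, dvd_div (mem_Mo.1 hC).1.ne_zero, mul_comm]
      by_cases h4 : B ∣ D ∧ C ∣ D / B
      · rw [if_pos h4.1, if_pos h4.2, if_pos (h3.1 h4).1, if_pos (h3.1 h4).2, mul_comm]
      · have h5 := fun h => h4 (h3.2 h)
        split_ifs <;> simp_all
    rw [Finset.sum_congr rfl h2, cV, Finset.sum_filter, Finset.mul_sum]
    split_ifs <;> simp
  rw [Finset.sum_filter, Finset.sum_congr rfl h1, Finset.sum_comm]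
  refine Finset.sum_eq_zero fun C hC => ?_
  obtain ⟨hC1, hC2⟩ := mem_Mo.1 hC
  by_cases h : C ∣ D
  · obtain ⟨W, rfl⟩ := h
    have hW : W ≠ 0 := right_ne_zero_of_mul hD.ne_zero
    have h3 := natDegree_mul hC1.ne_zero hW
    have h4 := hD.2
    simp only [if_pos (dvd_mul_right C W), mul_div_cancel_left₀ _ hC1.ne_zero]
    rw [← Finset.mul_sum, ← Finset.sum_filter, sum_zero hW (by omega) (by omega), mul_zero]
  · simp [h]

theorem point {V d : ℕ} {D : k[X]} (hD : MD d D) (hV : V < d) :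
    mu D = -∑ i ∈ Finset.range (d - V), ∑ B ∈ (MoD k i).filter (fun B => B ∣ D),
      mu B * cV V (D / B) := by
  have h1 := conv_zero hD hV
  rw [← Finset.sum_filter_add_sum_filter_not _ fun B => B.natDegree < d - V,
    fib d (d - V) (by omega), Finset.sum_eq_single D] at h1
  · rw [EuclideanDomain.div_self hD.ne_zero, cV_one, mul_one] at h1
    linarith
  · intro B hB hne
    simp only [Finset.mem_filter, mem_Mo] at hB
    obtain ⟨⟨⟨hB1, -⟩, W, rfl⟩, hB2⟩ := hB
    have hW : W.Monic := hB1.of_mul_monic_left hD.1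
    have h3 := hB1.natDegree_mul hW
    have h4 := hD.2
    have h5 : W.natDegree ≠ 0 := fun h => hne (by rw [hW.natDegree_eq_zero.1 h, mul_one])
    rw [mul_div_cancel_left₀ _ hB1.ne_zero, cV, sum_zero hW.ne_zero (by omega) (by omega),
      mul_zero]
  · intro h
    refine absurd ?_ h
    have h4 := hD.2
    simp only [Finset.mem_filter, mem_Mo]
    exact ⟨⟨⟨hD.1, h4.le⟩, dvd_rfl⟩, by omega⟩

theorem cV_eq (V : ℕ) (W : k[X]) :
    cV V W = ∑ j ∈ Finset.range (V + 1), ∑ C ∈ (MoD k j).filter (fun C => C ∣ W), mu C := by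
  rw [← fib V (V + 1) le_rfl, Finset.filter_true_of_mem, cV]
  intro C hC
  exact Nat.lt_succ_of_le (mem_Mo.1 (Finset.mem_filter.1 hC).1).2

end MkVau

theorem stVau : StVau := by
  intro k _ _ V d Φ hV
  constructor
  · rw [avm_congr (G := fun D => -1 * ∑ i ∈ Finset.range (d - V),
      ∑ B ∈ (MoD k i).filter (fun B => B ∣ D), mu B * cV V (D / B) * Φ D), avm_mul_left, avm_sum,
      neg_one_mul]
    · congr 1
      refine Finset.sum_congr rfl fun i hi => ?_
      have := Finset.mem_range.1 hi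
      rw [stPar1 k d i (fun B D => mu B * cV V (D / B) * Φ D) (by omega)]
      refine avm_congr fun B hB => ?_
      simp only [mul_div_cancel_left₀ _ hB.ne_zero]
    · intro D hD
      rw [MkVau.point hD hV]
      simp only [← Finset.sum_mul]
      ring
  · simp only [MkVau.cV_eq, Finset.sum_mul]
    rw [avm_sum]
    refine Finset.sum_congr rfl fun j hj => ?_
    have := Finset.mem_range.1 hj
    exact stPar1 k d j (fun C W => mu C * Φ W) (by omega)

end Pool.Agent.Lib.MP_9227d9_nt.Mob.MK
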