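import Pool.Agent.Lib.MP_458f0b_nt.MkK4
import Pool.Agent.Lib.MP_458f0b_nt.MkVau
import Pool.Agent.Lib.MP_9227d9_nt.MobK

/-! The Moebius function against Kloosterman fractions: assembly. -/

namespace Pool.Agent.Lib.MP_9227d9_nt.Mob.MK

open Polynomial

open scoped Classical

variable {k : Type} [Field k] [Fintype k] {A M b : k[X]} {T d : ℕ} {K : ℝ}

omit [Fintype k] in
theorem exists_reduced (hA : A.Monic) (hg : ∀ g : k[X], g.Monic → g ∣ A → g ∣ b → g.natDegree ≤ T) :
    ∃ M : k[X], M.Monic ∧ M ∣ A ∧ (∀ w, A ∣ b * w → M ∣ w) ∧ A.natDegree ≤ M.natDegree + T := by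
  obtain ⟨b', M, g, h1, h2, h3⟩ := UniqueFactorizationMonoid.exists_reduced_factors' b A hA.ne_zero
  have h0 : g * M ≠ 0 := h3 ▸ hA.ne_zero
  have hg0 := left_ne_zero_of_mul h0
  have hM0 := right_ne_zero_of_mul h0
  refine ⟨normalize M, monic_normalize hM0, normalize_dvd_iff.2 ⟨g, by rw [← h3, mul_comm]⟩,
    fun w hw => normalize_dvd_iff.2 ?_, ?_⟩
  · rw [← h2, ← h3, mul_assoc, mul_dvd_mul_iff_left hg0] at hw
    exact h1.symm.dvd_of_dvd_mul_left hw
  · have h4 := hg (normalize g) (monic_normalize hg0) (normalize_dvd_iff.2 ⟨M, h3.symm⟩)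
      (normalize_dvd_iff.2 ⟨b', h2.symm⟩)
    rw [natDegree_eq_of_degree_eq (degree_normalize (p := g))] at h4
    rw [natDegree_eq_of_degree_eq (degree_normalize (p := M)), ← h3, natDegree_mul hg0 hM0]
    omega

theorem DB.one_le {N : ℕ} (h : DB k N K) : 1 ≤ K :=
  (one_le_dv 1).trans (h 1 one_ne_zero (by simp))

theorem DB.mono {N N' : ℕ} (h : DB k N K) (hN : N' ≤ N) : DB k N' K := fun W hW hd =>
  h W hW (hd.trans hN)

variable [CharP k 2]

theorem typeI (hA : A.Monic) (hM : M ∣ A) (hb : ∀ w, A ∣ b * w → M ∣ w)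
    (hm : 276 * T ≤ M.natDegree) (hK : DB k A.natDegree K) {w : k[X]} {σ : ℕ}
    (hσ : A.natDegree ≤ σ + 21 * T) :
    |avm σ fun E => kl A b (w * E)| ≤ 2 * K / qR k ^ (2 * T) := by
  have h1 := hK.one_le
  have hq := qR_pow_pos (k := k)
  by_cases hw : IsCoprime w A
  · have h2 : ∀ c, |Kc A b c| ≤ 2 * K / qR k ^ (23 * T) := by
      intro c
      refine abs_le_of_sq_le_sq' ?_ (by have := hq (23 * T); positivity) |> abs_le.2
      refine abs_le_of_sq_le_sq' ?_ (by positivity) |>.2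
      rw [← pow_mul, ← pow_mul]
      refine (stK4 k A M b c (92 * T) K hA hM hb (by omega) hK).trans ?_
      rw [div_pow, ← pow_mul, show 23 * T * (2 * 2) = 92 * T by ring]
      refine div_le_div_of_nonneg_right ?_ (hq _).le
      have : K ^ 2 ≤ K ^ 4 := pow_le_pow_right₀ h1 (by norm_num)
      have : 0 ≤ K ^ 2 := by positivity
      rw [show (2 * K) ^ (2 * 2) = 16 * K ^ 4 by ring]
      linarith
    have h3 := abs_avg_kl_le (x₀ := w * X ^ σ) hA h2 hw σ
    simp only [← mul_add] at h3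
    refine h3.trans ?_
    have h4 : qR k ^ (A.natDegree - σ) ≤ qR k ^ (21 * T) := pow_le_pow_right₀ one_le_qR (by omega)
    refine (mul_le_mul_of_nonneg_right h4 (by have := hq (23 * T); positivity)).trans (le_of_eq ?_)
    rw [show 23 * T = 21 * T + 2 * T by ring, pow_add]
    have := hq (21 * T)
    have := hq (2 * T)
    field_simp
  · rw [avm_congr (G := fun _ => 0) fun E _ => kl_of_not (fun h => hw h.of_mul_left_left) b,
      avm_const, abs_zero]
    have := hq (2 * T)
    positivity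

theorem typeII0 (hJ : StJ4) (hA : A.Monic) (hM1 : M.Monic) (hM : M ∣ A)
    (hb : ∀ w, A ∣ b * w → M ∣ w) (hT : 1 ≤ T) (hK : DB k (2 * A.natDegree) K) {ρ σ : ℕ}
    {α γ : k[X] → ℝ} (hρ : 10 * T ≤ ρ) (hρ' : ρ + 20 * T ≤ M.natDegree) (hσ : σ ≤ A.natDegree)
    (hd : A.natDegree ≤ ρ + σ + T) (hα : ∀ x, MD ρ x → |α x| ≤ 1) (hγ : ∀ y, MD σ y → |γ y| ≤ 1) :
    |avm ρ fun x => avm σ fun y => α x * γ y * kl A b (x * y)| ≤ 2 * K / qR k ^ (2 * T) := by
  have h1 := hK.one_le
  have hq := qR_pow_pos (k := k)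
  have hMA := natDegree_le_of_dvd hM hA.ne_zero
  refine abs_le_of_sq_le_sq' ?_ (by have := hq (2 * T); positivity) |> abs_le.2
  refine abs_le_of_sq_le_sq' ?_ (by positivity) |>.2
  rw [← pow_mul, ← pow_mul]
  refine (stBil k A M b ρ σ α γ hA hM hb hσ hα hγ).trans ?_
  refine (mul_le_mul_of_nonneg_left (hJ k M ρ (10 * T) K hM1 (by omega) hρ (by omega)
    (hK.mono (by omega))) (hq _).le).trans ?_
  have h2 : qR k ^ (A.natDegree - σ) * qR k * qR k ^ (8 * T) ≤ qR k ^ (ρ + 10 * T) := by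
    rw [← pow_succ, ← pow_add]
    exact pow_le_pow_right₀ one_le_qR (by omega)
  rw [div_pow, ← pow_mul, show 2 * T * (2 * 2) = 8 * T by ring, ← mul_div_assoc,
    div_le_div_iff₀ (hq _) (hq _)]
  have h3 : 2 * K ≤ (2 * K) ^ (2 * 2) := le_self_pow₀ (by linarith) (by norm_num)
  calc _ = 2 * K * (qR k ^ (A.natDegree - σ) * qR k * qR k ^ (8 * T)) := by ring
    _ ≤ _ := mul_le_mul h3 h2 (by have := hq (A.natDegree - σ); have := hq (8 * T)
                                  have := qR_pos (k := k); positivity) (by positivity)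

theorem core (hJ : StJ4) (hA : A.Monic) (hT : 1 ≤ T) (ha : 300 * T ≤ A.natDegree)
    (hd1 : A.natDegree ≤ d + T) (hd2 : d ≤ A.natDegree + T)
    (hg : ∀ g : k[X], g.Monic → g ∣ A → g ∣ b → g.natDegree ≤ T)
    (hK : DB k (2 * A.natDegree) K) :
    |avm d fun D => mu D * kl A b D| ≤ d * ((10 * T + 1) * (K * (2 * K / qR k ^ (2 * T)))) := by
  obtain ⟨M, hM1, hM, hb, hm⟩ := exists_reduced hA hg
  have h1 := hK.one_le
  have hq := qR_pow_pos (k := k) (2 * T)
  have hB : 0 ≤ 2 * K / qR k ^ (2 * T) := by positivity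
  have hT0 : (0 : ℝ) ≤ T := Nat.cast_nonneg _
  rw [(stVau k (10 * T) d _ (by omega)).1, abs_neg]
  refine (Finset.abs_sum_le_sum_abs _ _).trans ((Finset.sum_le_card_nsmul _ _
    ((10 * T + 1) * (K * (2 * K / qR k ^ (2 * T)))) fun i hi => ?_).trans ?_)
  · rw [Finset.mem_range] at hi
    rcases le_or_gt i (10 * T) with h | h
    · refine abs_avm_le_of_le fun B _ => ?_
      simp only [mul_assoc (mu B)]
      rw [avm_mul_left, (stVau k (10 * T) (d - i) (fun W => kl A b (B * W)) (by omega)).2, abs_mul]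
      refine (mul_le_of_le_one_left (abs_nonneg _) (abs_mu_le B)).trans ?_
      refine (Finset.abs_sum_le_sum_abs _ _).trans ((Finset.sum_le_card_nsmul _ _
        (K * (2 * K / qR k ^ (2 * T))) fun j hj => ?_).trans (le_of_eq ?_))
      · rw [Finset.mem_range] at hj
        refine abs_avm_le_of_le fun C _ => ?_
        rw [avm_mul_left, abs_mul]
        refine (mul_le_of_le_one_left (abs_nonneg _) (abs_mu_le C)).trans ?_
        simp only [← mul_assoc B C]
        exact (typeI hA hM hb (by omega) (hK.mono (by omega)) (by omega)).trans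
          (le_mul_of_one_le_left hB h1)
      · rw [Finset.card_range, nsmul_eq_mul]
        push_cast
        ring
    · refine le_trans ?_ (le_mul_of_one_le_left (by positivity) (by linarith))
      have h2 : ∀ W : k[X], MD (d - i) W → |cV (10 * T) W / K| ≤ 1 := fun W hW => by
        rw [abs_div, abs_of_nonneg (a := K) (by linarith), div_le_one (by linarith)]
        exact (abs_cV_le hW.ne_zero).trans (hK W hW.ne_zero (by rw [hW.2]; omega))
      have h3 : (avm i fun B => avm (d - i) fun W => mu B * cV (10 * T) W * kl A b (B * W)) =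
          K * avm i fun B => avm (d - i) fun W => mu B * (cV (10 * T) W / K) * kl A b (B * W) := by
        rw [← avm_mul_left]
        refine avm_congr fun B _ => ?_
        rw [← avm_mul_left]
        refine avm_congr fun W _ => ?_
        field_simp
      rw [h3, abs_mul, abs_of_nonneg (a := K) (by linarith)]
      refine mul_le_mul_of_nonneg_left ?_ (by linarith)
      rcases le_total i (d - i) with h4 | h4
      · exact typeII0 hJ hA hM1 hM hb hT hK h.le (by omega) (by omega) (by omega)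
          (fun x _ => abs_mu_le x) h2
      · rw [avm_comm]
        simp only [mul_comm (mu _), fun B W : k[X] => mul_comm B W]
        exact typeII0 hJ hA hM1 hM hb hT hK (by omega) (by omega) (by omega) (by omega) h2
          fun x _ => abs_mu_le x
  · rw [Finset.card_range, nsmul_eq_mul]
    refine mul_le_mul_of_nonneg_right (Nat.cast_le.2 (Nat.sub_le _ _)) (by positivity)

theorem stMK' (hJ : StJ4) : StMK := by
  intro k _ _ _
  obtain ⟨θ, hθ1, hθ⟩ : ∃ θ : ℝ, 1 < θ ∧ θ ^ 2401 = 2 :=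
    ⟨2 ^ ((2401 : ℕ) : ℝ)⁻¹, Real.one_lt_rpow one_lt_two (by positivity),
      Real.rpow_inv_natCast_pow (by norm_num) (by norm_num)⟩
  obtain ⟨C, hC⟩ := stDiv k θ hθ1
  obtain ⟨B, hB0, hB⟩ := K.poly_le hθ1 2
  have hC1 : 1 ≤ C := by simpa using (one_le_dv 1).trans (hC 1 one_ne_zero)
  refine ⟨1 + 12020 * B * C ^ 2, fun A b d t hA h1 h2 h3 hg => ?_⟩
  have hq := qR_pow_pos (k := k)
  rcases Nat.eq_zero_or_pos (A.natDegree / 300) with h0 | h0
  · rw [show t = 0 by omega, pow_zero, div_one]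
    refine le_trans (abs_avm_le_of_le fun D _ => ?_) (le_add_of_nonneg_right (by positivity))
    rw [abs_mul]
    exact mul_le_one₀ (abs_mu_le D) (abs_nonneg _) (abs_kl_le _ _ _)
  obtain ⟨T, hT⟩ : ∃ T, T = A.natDegree / 300 := ⟨_, rfl⟩
  have hK : DB k (2 * A.natDegree) (C * θ ^ (1200 * T)) := fun W hW hd =>
    (hC W hW).trans (mul_le_mul_of_nonneg_left (pow_le_pow_right₀ hθ1.le (by omega)) (by linarith))
  refine (core hJ hA (T := T) (by omega) (by omega) (by omega) (by omega)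
    (fun g a1 a2 a3 => (hg g a1 a2 a3).trans (by omega)) hK).trans ?_
  have h4 : (d : ℝ) ≤ 601 * (T + 1) := by exact_mod_cast (show d ≤ 601 * (T + 1) by omega)
  have h5 : θ ^ T * (θ ^ (1200 * T)) ^ 2 * qR k ^ t ≤ qR k ^ (2 * T) := by
    rw [← pow_mul, ← pow_add, show T + 1200 * T * 2 = 2401 * T by ring, pow_mul, hθ, two_mul,
      pow_add]
    exact mul_le_mul (pow_le_pow_left₀ (by norm_num) two_le_qR T)
      (pow_le_pow_right₀ one_le_qR (by omega)) (hq _).le (hq _).le
  have hT0 : (0 : ℝ) ≤ T := Nat.cast_nonneg _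
  have hθ0 : 0 < θ ^ (1200 * T) := by positivity
  have h6 := hB T
  have h7 := hq t
  have h8 := hq (2 * T)
  generalize θ ^ (1200 * T) = η at *
  calc _ ≤ 601 * (T + 1) * ((10 * (T + 1)) * (C * η * (2 * (C * η) / qR k ^ (2 * T)))) := by
        gcongr
        linarith
    _ = 12020 * C ^ 2 * ((T + 1) ^ 2 * η ^ 2 / qR k ^ (2 * T)) := by ring
    _ ≤ 12020 * C ^ 2 * (B * θ ^ T * η ^ 2 / qR k ^ (2 * T)) := by gcongr
    _ ≤ 12020 * C ^ 2 * (B / qR k ^ t) := by
        gcongr 12020 * C ^ 2 * ?_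
        rw [div_le_div_iff₀ h8 h7]
        calc _ = B * (θ ^ T * η ^ 2 * qR k ^ t) := by ring
          _ ≤ _ := mul_le_mul_of_nonneg_left h5 hB0
    _ ≤ _ := by
        rw [← mul_div_assoc]
        gcongr
        linarith

end Pool.Agent.Lib.MP_9227d9_nt.Mob.MK
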