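import Pool.Agent.Lib.MP_458f0b_nt.MkA
import Pool.Agent.Lib.MP_458f0b_nt.MkDiv

/-! Complete Kloosterman sums to an arbitrary modulus, by the fourth moment. -/

namespace Pool.Agent.Lib.MP_9227d9_nt.Mob.MK

open Polynomial

open scoped Classical

variable {k : Type} [Field k] [Fintype k] {A M b : k[X]}

/-- A large common divisor with `M`. -/
def Big (M : k[X]) (s : ℕ) (x : k[X]) : Prop :=
  ∃ g : k[X], g.Monic ∧ g ∣ M ∧ s ≤ g.natDegree ∧ g ∣ x

omit [Fintype k] in
theorem big_of_dvd {s : ℕ} {x y z : k[X]} (hM : M ≠ 0) (hs : 3 * s ≤ M.natDegree)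
    (h : M ∣ x * y * z) : Big M s x ∨ Big M s y ∨ Big M s z := by
  obtain ⟨g, g₃, h₁₂, h₃, e⟩ := exists_dvd_and_dvd_of_dvd_mul h
  obtain ⟨g₁, g₂, h₁, h₂, rfl⟩ := exists_dvd_and_dvd_of_dvd_mul h₁₂
  have key : ∀ g w : k[X], g ∣ M → g ∣ w → s ≤ g.natDegree → Big M s w := fun g w hg hw hd =>
    ⟨normalize g, monic_normalize (ne_zero_of_dvd_ne_zero hM hg), normalize_dvd_iff.2 hg,
      by rwa [natDegree_eq_of_degree_eq (degree_normalize (p := g))], normalize_dvd_iff.2 hw⟩
  have h0 : g₁ * g₂ * g₃ ≠ 0 := e ▸ hM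
  have hd : M.natDegree = g₁.natDegree + g₂.natDegree + g₃.natDegree := by
    rw [e, natDegree_mul (left_ne_zero_of_mul h0) (right_ne_zero_of_mul h0),
      natDegree_mul (left_ne_zero_of_mul (left_ne_zero_of_mul h0))
        (right_ne_zero_of_mul (left_ne_zero_of_mul h0))]
  by_cases c₁ : s ≤ g₁.natDegree
  · exact Or.inl (key g₁ x ⟨g₂ * g₃, by rw [e]; ring⟩ h₁ c₁)
  by_cases c₂ : s ≤ g₂.natDegree
  · exact Or.inr (Or.inl (key g₂ y ⟨g₁ * g₃, by rw [e]; ring⟩ h₂ c₂))
  exact Or.inr (Or.inr (key g₃ z ⟨g₁ * g₂, by rw [e]; ring⟩ h₃ (by omega)))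

theorem avg_big {s j : ℕ} (hM : M ≠ 0) (hs : s ≤ j) (c : k[X]) :
    avg j (fun v => if Big M s (c + v) then 1 else 0) ≤ dv M / qR k ^ s :=
  stGD k M c s j hM hs

variable [CharP k 2]

/-- The complete sum. -/
noncomputable def Kc (A b c : k[X]) : ℝ := avg A.natDegree fun x => kl A b x * eM A (c * x)

omit [CharP k 2] in
theorem Kc_unit (hA : A.Monic) {u : k[X]} (hu : IsCoprime u A) (b c : k[X]) :
    Kc A (b * u) (c * invM A u) = Kc A b c := by
  have h1 := avg_affine (F := fun x => kl A (b * u) x * eM A (c * invM A u * x)) hA.ne_zero le_rfl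
    (fun v t => by
      rw [kl_congr (y := v) hA (by simp), eM_congr (y := c * invM A u * v) hA
        ⟨c * invM A u * t, by ring⟩]) hu 0
  rw [Kc, ← h1]
  refine avg_congr fun x _ => ?_
  obtain ⟨s, hs⟩ := invM_spec hu
  rw [zero_add, mul_comm u x, kl_mul hA hu, kl_congr_left (b' := b) hA
    ⟨b * s, by linear_combination b * hs⟩,
    eM_congr (y := c * x) hA ⟨c * x * s, by linear_combination c * x * hs⟩]

theorem moment_le (hA : A.Monic) (hM : M ∣ A) (hb : ∀ w, A ∣ b * w → M ∣ w) {s : ℕ}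
    (hs : 3 * s ≤ M.natDegree) :
    qR k ^ A.natDegree * (avg A.natDegree fun u => avg A.natDegree fun c => Kc A (b * u) c ^ 4) ≤
      3 * dv M / qR k ^ s := by
  have hM0 : M ≠ 0 := ne_zero_of_dvd_ne_zero hA.ne_zero hM
  have hsa : s ≤ A.natDegree := by
    have := natDegree_le_of_dvd hM hA.ne_zero
    omega
  obtain ⟨T, hT⟩ : ∃ T : k[X] → k[X] → k[X] → ℝ, T = fun x₃ x₄ x₁ =>
      (if Big M s (x₃ + x₄) then 1 else 0) + (if Big M s (x₃ + x₁) then 1 else 0) +
        if Big M s (x₄ + x₁) then 1 else 0 := ⟨_, rfl⟩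
  have hT0 : ∀ x₃ x₄ x₁, 0 ≤ T x₃ x₄ x₁ := fun x₃ x₄ x₁ => by
    rw [hT]
    beta_reduce
    split_ifs <;> norm_num
  have h1 : (avg A.natDegree fun u => avg A.natDegree fun c => Kc A (b * u) c ^ 4) ≤
      avg A.natDegree fun x₃ => avg A.natDegree fun x₄ => avg A.natDegree fun x₁ =>
        avg A.natDegree fun x₂ => T x₃ x₄ x₁ * if A ∣ x₁ + (x₃ + x₄) + 1 * x₂ then 1 else 0 := by
    simp only [Kc, avg_pow_four]
    rw [avg_congr fun u _ => avg_comm _ _ _, avg_comm]
    refine avg_mono fun x₃ _ => ?_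
    rw [avg_congr fun u _ => avg_comm _ _ _, avg_comm]
    refine avg_mono fun x₄ _ => ?_
    rw [avg_congr fun u _ => avg_comm _ _ _, avg_comm]
    refine avg_mono fun x₁ _ => ?_
    rw [avg_congr fun u _ => avg_comm _ _ _, avg_comm]
    refine avg_mono fun x₂ _ => ?_
    have h2 : ∀ u c, kl A (b * u) x₁ * eM A (c * x₁) * (kl A (b * u) x₂ * eM A (c * x₂)) *
        (kl A (b * u) x₃ * eM A (c * x₃) * (kl A (b * u) x₄ * eM A (c * x₄))) =
        (if IsCoprime (x₁ * x₂ * (x₃ * x₄)) A then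
          eM A (u * (b * (invM A x₁ + invM A x₂ + (invM A x₃ + invM A x₄)))) else 0) *
          eM A (c * (x₁ + (x₃ + x₄) + 1 * x₂)) := by
      intro u c
      rw [← mul_assoc u, mul_comm u b, ← kl_four, one_mul, mul_add, mul_add, mul_add, eM_add,
        eM_add, eM_add]
      ring
    simp only [h2]
    rw [← avg_mul_avg, avg_eM_dvd hA]
    by_cases hx : A ∣ x₁ + (x₃ + x₄) + 1 * x₂
    swap
    · rw [if_neg hx, mul_zero, mul_zero]
    rw [if_pos hx, mul_one, mul_one]
    by_cases hc : IsCoprime (x₁ * x₂ * (x₃ * x₄)) A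
    swap
    · simp only [if_neg hc]
      rw [avg_const]
      exact hT0 _ _ _
    simp only [if_pos hc]
    rw [avg_eM_dvd hA]
    split_ifs with hd
    swap
    · exact hT0 _ _ _
    obtain ⟨r, hr⟩ := dvd_e3 hM hc (hb _ hd)
    obtain ⟨r', hr'⟩ := hM.trans hx
    have h3 : M ∣ (x₃ + x₄) * (x₃ + x₁) * (x₄ + x₁) :=
      ⟨r' * (x₁ * x₃ + x₁ * x₄ + x₃ * x₄) - r, by
        linear_combination (x₁ * x₃ + x₁ * x₄ + x₃ * x₄) * hr' - hr⟩
    rw [hT]
    beta_reduce
    rcases big_of_dvd hM0 hs h3 with h | h | h <;> rw [if_pos h] <;> split_ifs <;> norm_num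
  have h4 : (avg A.natDegree fun x₃ => avg A.natDegree fun x₄ => avg A.natDegree fun x₁ =>
      T x₃ x₄ x₁) ≤ 3 * dv M / qR k ^ s := by
    refine avg_le_of_le fun x₃ _ => ?_
    rw [hT]
    simp only [avg_add, avg_const]
    have a1 := avg_big hM0 hsa x₃
    have a2 : (avg A.natDegree fun x₄ => avg A.natDegree fun x₁ =>
        if Big M s (x₄ + x₁) then (1 : ℝ) else 0) ≤ dv M / qR k ^ s :=
      avg_le_of_le fun x₄ _ => avg_big hM0 hsa x₄
    rw [mul_div_assoc]
    linarith
  refine le_trans (mul_le_mul_of_nonneg_left h1 (qR_pow_pos _).le) (le_trans (le_of_eq ?_) h4)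
  simp only [avg_mul_left, avg_dvd hA.ne_zero le_rfl isCoprime_one_left, avg_mul_right]
  rw [Nm]
  have := qR_pow_pos (k := k) A.natDegree
  field_simp

theorem stK4 : StK4 := by
  intro k _ _ _ A M b c s K hA hM hb hs hK
  have hA0 := hA.ne_zero
  have h1 : Kc A b c ^ 4 * avm A.natDegree (fun u => if IsCoprime u A then 1 else 0) ≤
      3 * dv M / qR k ^ s := by
    refine le_trans ?_ (moment_le hA hM hb hs)
    rw [← avg_periodic (F := fun u => avg A.natDegree fun c => Kc A (b * u) c ^ 4) hA0 le_rfl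
      (fun v t => by
        simp only [Kc, kl_congr_left (b := b * (v + A * t)) (b' := b * v) hA ⟨b * t, by ring⟩])
      (X ^ A.natDegree), ← avg_mul_left, ← avm_mul_left]
    refine avg_mono fun v _ => ?_
    beta_reduce
    generalize X ^ A.natDegree + v = u
    split_ifs with hu
    · have h2 := avg_le_pow (Φ := fun c => Kc A (b * u) c ^ 4) hA0 (Nat.zero_le _)
        (fun _ => by positivity) (fun v t => by
          congr 1
          refine avg_congr fun x _ => ?_
          rw [eM_congr (y := v * x) hA ⟨t * x, by ring⟩]) (c * invM A u)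
      rwa [avg_zero, add_zero, Nat.sub_zero, Kc_unit hA hu, ← mul_one (Kc A b c ^ 4)] at h2
    · rw [mul_zero]
      exact mul_nonneg (qR_pow_pos _).le (avg_nonneg fun _ _ => by positivity)
  have h3 : cM A ≤ K := (cM_le A).trans ((two_pow_le_dv hA0).trans (hK A hA0 le_rfl))
  have h4 : dv M ≤ K := (dv_mono hA0 hM).trans (hK A hA0 le_rfl)
  have h5 := avm_isCoprime hA0 (le_refl A.natDegree)
  have h6 := one_le_cM A
  have h7 := qR_pow_pos (k := k) s
  calc Kc A b c ^ 4 = Kc A b c ^ 4 * avm A.natDegree (fun u => if IsCoprime u A then 1 else 0) *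
        cM A := by rw [mul_assoc, h5, mul_one]
    _ ≤ 3 * K / qR k ^ s * K :=
        mul_le_mul (h1.trans (by gcongr)) h3 (by linarith) (by
          have : 0 ≤ K := by linarith
          positivity)
    _ = _ := by ring

/-- Completion. -/
theorem abs_avg_kl_le {B : ℝ} (hA : A.Monic) (hB : ∀ c, |Kc A b c| ≤ B) {x₀ w : k[X]}
    (hw : IsCoprime w A) (len : ℕ) :
    |avg len fun v => kl A b (x₀ + w * v)| ≤ qR k ^ (A.natDegree - len) * B := by
  rcases le_total A.natDegree len with h | h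
  · have h1 := avg_affine (F := fun x => kl A b x) hA.ne_zero h
      (fun v t => kl_congr (y := v) hA (by simp) b) hw x₀
    have h2 := hB 0
    simp only [Kc, zero_mul, eM_zero, mul_one] at h2
    rw [h1, Nat.sub_eq_zero_of_le h, pow_zero, one_mul]
    exact h2
  · rw [TwKI.avg_cut len (A.natDegree - len), Nat.add_sub_cancel' h, abs_mul,
      abs_of_pos (qR_pow_pos _)]
    refine mul_le_mul_of_nonneg_left ?_ (qR_pow_pos _).le
    rw [avg_congr (G := fun u => avg (A.natDegree - len) fun f =>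
      kl A b (x₀ + w * u) * eM A (f * u)) fun u hu => by
        rw [avg_mul_left, avg_eM hA h, (modByMonic_eq_self_iff hA).2
          (by rwa [degree_eq_natDegree hA.ne_zero])], avg_comm]
    refine abs_avg_le_of_le fun f _ => ?_
    rw [TwKI.twist hA hw]
    exact hB _

end Pool.Agent.Lib.MP_9227d9_nt.Mob.MK
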