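import Pool.Agent.Lib.MP_458f0b_nt.Equi
import Pool.Agent.Lib.MP_458f0b_nt.Mertens

open Finset

namespace Pool.Agent.Lib.MP_458f0b_nt

lemma inv_le_half {p : ℕ} (hp : p.Prime) : (p : ℝ)⁻¹ ≤ 1 / 2 := by
  have : (2 : ℝ) ≤ p := by exact_mod_cast hp.two_le
  rw [one_div]
  gcongr

lemma euler_pos {p : ℕ} (hp : p.Prime) : 0 < 1 - (p : ℝ)⁻¹ := by
  linarith [inv_le_half hp]

lemma mertens_lower {k z m : ℕ} (hk : 0 < k) (hz : 3 ≤ z) (hω : 2 * k.primeFactors.card ≤ z)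
    (hzm : z ≤ m) :
    Real.log (m + 1) ≤ (4 * Real.exp 5 * Real.log z) *
      ∏ p ∈ m.primesLE.filter (fun p => z < p ∧ ¬ p ∣ k), (1 - (p : ℝ)⁻¹)⁻¹ := by
  have h1 := log_le_prod_primesLE m
  have hzr : (3 : ℝ) ≤ z := by exact_mod_cast hz
  rw [← prod_filter_mul_prod_filter_not m.primesLE (fun p => z < p),
    ← prod_filter_mul_prod_filter_not (m.primesLE.filter (fun p => z < p)) (fun p => p ∣ k),
    filter_filter, filter_filter] at h1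
  have h2 : m.primesLE.filter (fun p => ¬ z < p) = z.primesLE := by
    ext p
    simp only [mem_filter, Nat.mem_primesLE, not_lt]
    exact ⟨fun h => ⟨h.2, h.1.2⟩, fun h => ⟨⟨h.1.trans hzm, h.2⟩, h.1⟩⟩
  rw [h2] at h1
  have h3 := prod_primesLE_le hz
  set t := m.primesLE.filter (fun p => z < p ∧ p ∣ k) with ht
  have htp : ∀ p ∈ t, p.Prime := fun p hp => (Nat.mem_primesLE.mp (mem_filter.mp hp).1).2
  have h4 : ∏ p ∈ t, (1 - (p : ℝ)⁻¹)⁻¹ ≤ 2 := by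
    have h5 := one_sub_sum_le_prod t (fun p => (p : ℝ)⁻¹) (fun p _ => by positivity)
      (fun p hp => by linarith [inv_le_half (htp p hp)])
    have h6 : ∑ p ∈ t, (p : ℝ)⁻¹ ≤ 1 / 2 := by
      have h7 : t.card ≤ k.primeFactors.card := card_le_card fun p hp =>
        Nat.mem_primeFactors.mpr ⟨htp p hp, (mem_filter.mp hp).2.2, hk.ne'⟩
      have h8 : (2 : ℝ) * t.card ≤ z := by exact_mod_cast (by omega : 2 * t.card ≤ z)
      calc ∑ p ∈ t, (p : ℝ)⁻¹ ≤ ∑ p ∈ t, (z : ℝ)⁻¹ := by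
            refine sum_le_sum fun p hp => ?_
            have : (z : ℝ) ≤ p := by exact_mod_cast (mem_filter.mp hp).2.1.le
            gcongr
        _ = t.card / z := by rw [sum_const, nsmul_eq_mul, div_eq_mul_inv]
        _ ≤ 1 / 2 := by rw [div_le_iff₀ (by linarith)]; linarith
    rw [prod_inv_distrib]
    exact inv_le_of_inv_le₀ (by norm_num) (by linarith)
  have h9 : 0 ≤ ∏ p ∈ m.primesLE.filter (fun p => z < p ∧ ¬ p ∣ k), (1 - (p : ℝ)⁻¹)⁻¹ :=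
    prod_nonneg fun p hp => (inv_pos.mpr
      (euler_pos (Nat.mem_primesLE.mp (mem_filter.mp hp).1).2)).le
  have h10 : 0 ≤ ∏ p ∈ z.primesLE, (1 - (p : ℝ)⁻¹)⁻¹ :=
    prod_nonneg fun p hp => (inv_pos.mpr (euler_pos (Nat.mem_primesLE.mp hp).2)).le
  refine h1.trans ?_
  calc _ ≤ 2 * (∏ p ∈ m.primesLE.filter (fun p => z < p ∧ ¬ p ∣ k), (1 - (p : ℝ)⁻¹)⁻¹) *
        (2 * Real.exp 5 * Real.log z) := by gcongr
    _ = _ := by ring

lemma exp_le_one_add {s : ℝ} (h0 : 0 ≤ s) (h8 : s ≤ 8) : Real.exp s ≤ 1 + s * Real.exp 8 := by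
  have h1 := Real.add_one_le_exp (-s)
  have h2 : Real.exp (-s) * Real.exp s = 1 := by rw [← Real.exp_add]; simp
  have h3 := Real.exp_pos s
  have h4 : Real.exp s ≤ Real.exp 8 := Real.exp_le_exp.mpr h8
  nlinarith

lemma exp_sub_one_le {x : ℝ} (h0 : 0 ≤ x) (h1 : x ≤ 1) : Real.exp x - 1 ≤ 2 * x := by
  have := Real.abs_exp_sub_one_le (x := x) (by rw [abs_of_nonneg h0]; exact h1)
  rw [abs_of_nonneg h0] at this
  exact (le_abs_self _).trans this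

lemma prod_one_add_le_exp {β : Type} (s : Finset β) (f : β → ℝ) (h0 : ∀ i ∈ s, 0 ≤ f i) :
    ∏ i ∈ s, (1 + f i) ≤ Real.exp (∑ i ∈ s, f i) := by
  rw [Real.exp_sum]
  exact prod_le_prod (fun i hi => by linarith [h0 i hi])
    fun i _ => by linarith [Real.add_one_le_exp (f i)]

lemma H1_nt {k z T L : ℕ} (hk : 0 < k) (hz : 3 ≤ z) (hω : 2 * k.primeFactors.card ≤ z)
    (hL : 1 ≤ L) (hLz : L ≤ z) (s : Finset ℕ)
    (hs : s = (z ^ 2 ^ T).primesLE.filter (fun p => z < p ∧ ¬ p ∣ k)) (t : Fin T) :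
    ∏ p : s, (1 + (((p : ℕ) : ℝ) - L)⁻¹ *
      (1 - act (fun t (p : s) => decide ((p : ℕ) ≤ z ^ 2 ^ t)) (some t) p)) ≤
      (∏ p : s, (1 + (((p : ℕ) : ℝ) - L)⁻¹)) * (4 * Real.exp 5) / 2 ^ (t : ℕ) := by
  have hzp : ∀ p ∈ s, z < p := fun p hp => (mem_filter.mp (hs ▸ hp)).2.1
  have hpp : ∀ p ∈ s, p.Prime := fun p hp => (Nat.mem_primesLE.mp (mem_filter.mp (hs ▸ hp)).1).2
  have hpos : ∀ p ∈ s, (0 : ℝ) < (p : ℝ) - L := fun p hp => by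
    have : (L : ℝ) < p := by exact_mod_cast hLz.trans_lt (hzp p hp)
    linarith
  have hzr : (3 : ℝ) ≤ z := by exact_mod_cast hz
  have hlz : 0 < Real.log z := Real.log_pos (by linarith)
  have e1 : ∏ p : s, (1 + (((p : ℕ) : ℝ) - L)⁻¹) =
      (∏ p : s, (1 + (((p : ℕ) : ℝ) - L)⁻¹ *
      (1 - act (fun t (p : s) => decide ((p : ℕ) ≤ z ^ 2 ^ t)) (some t) p))) *
      ∏ p ∈ s, if p ≤ z ^ 2 ^ (t : ℕ) then (1 + ((p : ℝ) - L)⁻¹) else 1 := by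
    rw [← prod_coe_sort s, ← prod_mul_distrib]
    refine prod_congr rfl fun p _ => ?_
    by_cases h : (p : ℕ) ≤ z ^ 2 ^ (t : ℕ) <;> simp [act, h]
  have hle : z ≤ z ^ 2 ^ (t : ℕ) := Nat.le_self_pow (by positivity) z
  have hle2 : z ^ 2 ^ (t : ℕ) ≤ z ^ 2 ^ T :=
    Nat.pow_le_pow_right (by omega) (Nat.pow_le_pow_right (by norm_num) t.2.le)
  have h1 := mertens_lower hk hz hω hle
  have h2 : 2 ^ (t : ℕ) * Real.log z ≤ Real.log (((z ^ 2 ^ (t : ℕ) : ℕ) : ℝ) + 1) := by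
    have : Real.log ((z ^ 2 ^ (t : ℕ) : ℕ) : ℝ) = 2 ^ (t : ℕ) * Real.log z := by
      push_cast; rw [Real.log_pow]; push_cast; rfl
    rw [← this]
    exact Real.log_le_log (by positivity) (by linarith)
  have h3 : ∏ p ∈ (z ^ 2 ^ (t : ℕ)).primesLE.filter (fun p => z < p ∧ ¬ p ∣ k), (1 - (p : ℝ)⁻¹)⁻¹ ≤
      ∏ p ∈ s, if p ≤ z ^ 2 ^ (t : ℕ) then (1 + ((p : ℝ) - L)⁻¹) else 1 := by
    rw [← prod_filter]
    have e2 : (z ^ 2 ^ (t : ℕ)).primesLE.filter (fun p => z < p ∧ ¬ p ∣ k) =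
        s.filter (fun p => p ≤ z ^ 2 ^ (t : ℕ)) := by
      ext p
      simp only [hs, mem_filter, Nat.mem_primesLE]
      exact ⟨fun h => ⟨⟨⟨h.1.1.trans hle2, h.1.2⟩, h.2⟩, h.1.1⟩, fun h => ⟨⟨h.2, h.1.1.2⟩, h.1.2⟩⟩
    rw [e2]
    refine prod_le_prod (fun p hp => (inv_pos.mpr (euler_pos (hpp p (mem_filter.mp hp).1))).le)
      fun p hp => ?_
    have hp' := (mem_filter.mp hp).1
    have h4 := hpos p hp'
    have h5 : (1 : ℝ) ≤ L := by exact_mod_cast hL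
    have h6 : (0 : ℝ) < (p : ℝ) - 1 := by linarith
    have h7 : (1 - (p : ℝ)⁻¹)⁻¹ = 1 + ((p : ℝ) - 1)⁻¹ := by
      have : (p : ℝ) ≠ 0 := by linarith
      field_simp
      ring
    rw [h7]
    gcongr
  have h4 : 0 ≤ ∏ p : s, (1 + (((p : ℕ) : ℝ) - L)⁻¹ *
      (1 - act (fun t (p : s) => decide ((p : ℕ) ≤ z ^ 2 ^ t)) (some t) p)) := by
    refine prod_nonneg fun p _ => ?_
    have := inv_pos.mpr (hpos p p.2)
    by_cases h : (p : ℕ) ≤ z ^ 2 ^ (t : ℕ) <;> simp only [act, h] <;> simp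
    linarith
  have h5 : (2 : ℝ) ^ (t : ℕ) ≤
      (∏ p ∈ s, if p ≤ z ^ 2 ^ (t : ℕ) then (1 + ((p : ℝ) - L)⁻¹) else 1) * (4 * Real.exp 5) := by
    have h6 := h2.trans (h1.trans (mul_le_mul_of_nonneg_left h3 (by positivity)))
    refine le_of_mul_le_mul_right (h6.trans (le_of_eq ?_)) hlz
    ring
  rw [e1, le_div_iff₀ (by positivity), mul_assoc]
  exact mul_le_mul_of_nonneg_left h5 h4

lemma H2_nt {z T L : ℕ} (hz : 4 ≤ z) (hLz : 2 * L ≤ z) (s : Finset ℕ)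
    (hzp : ∀ p ∈ s, z < p) (hpp : ∀ p ∈ s, p.Prime) (t : Fin T) :
    ∏ p : s, (1 + (Real.exp (Real.log (p : ℕ) / (2 ^ T * Real.log z)) - 1) *
      (((p : ℕ) : ℝ) - L)⁻¹ * act (fun t (p : s) => decide ((p : ℕ) ≤ z ^ 2 ^ t)) (some t) p) ≤
      1 + 8 * Real.exp 8 / 2 ^ T * 2 ^ (t : ℕ) := by
  have hzr : (4 : ℝ) ≤ z := by exact_mod_cast hz
  have hlz : 0 < Real.log z := Real.log_pos (by linarith)
  have hlz4 : Real.log 4 ≤ Real.log z := Real.log_le_log (by norm_num) hzr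
  set Y := 2 ^ T * Real.log z with hY
  have hY0 : 0 < Y := by positivity
  have htT : (2 : ℝ) ^ (t : ℕ) ≤ 2 ^ T := pow_le_pow_right₀ (by norm_num) t.2.le
  have hlog : Real.log ((z ^ 2 ^ (t : ℕ) : ℕ) : ℝ) = 2 ^ (t : ℕ) * Real.log z := by
    push_cast; rw [Real.log_pow]; push_cast; rfl
  have h1 : ∀ p : s, (Real.exp (Real.log (p : ℕ) / Y) - 1) *
      (((p : ℕ) : ℝ) - L)⁻¹ * act (fun t (p : s) => decide ((p : ℕ) ≤ z ^ 2 ^ t)) (some t) p ≤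
      if (p : ℕ) ≤ z ^ 2 ^ (t : ℕ) then 4 / Y * (Real.log (p : ℕ) / (p : ℕ)) else 0 := by
    intro p
    by_cases h : (p : ℕ) ≤ z ^ 2 ^ (t : ℕ)
    · have hp0 : (0 : ℝ) < (p : ℕ) := by exact_mod_cast (hpp p p.2).pos
      have hl0 : 0 ≤ Real.log (p : ℕ) := Real.log_natCast_nonneg _
      have hl1 : Real.log (p : ℕ) ≤ Y := by
        have : Real.log (p : ℕ) ≤ Real.log ((z ^ 2 ^ (t : ℕ) : ℕ) : ℝ) :=
          Real.log_le_log hp0 (by exact_mod_cast h)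
        rw [hlog] at this
        exact this.trans (by rw [hY]; gcongr)
      have h2 := exp_sub_one_le (x := Real.log (p : ℕ) / Y) (by positivity)
        (by rw [div_le_one hY0]; exact hl1)
      have h3 : (2 * L : ℝ) ≤ (p : ℕ) := by exact_mod_cast hLz.trans (hzp p p.2).le
      have h4 : (((p : ℕ) : ℝ) - L)⁻¹ ≤ 2 / (p : ℕ) := by
        rw [inv_eq_one_div, div_le_div_iff₀ (by linarith) hp0]
        linarith
      have h5 : 0 ≤ (((p : ℕ) : ℝ) - L)⁻¹ := inv_nonneg.mpr (by linarith)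
      simp only [act, h, decide_true, if_true, mul_one]
      calc _ ≤ (2 * (Real.log (p : ℕ) / Y)) * (2 / (p : ℕ)) := by gcongr
        _ = _ := by ring
    · simp [act, h]
  have h0 : ∀ p : s, 0 ≤ (Real.exp (Real.log (p : ℕ) / Y) - 1) *
      (((p : ℕ) : ℝ) - L)⁻¹ * act (fun t (p : s) => decide ((p : ℕ) ≤ z ^ 2 ^ t)) (some t) p := by
    intro p
    have hl0 : 0 ≤ Real.log (p : ℕ) := Real.log_natCast_nonneg _
    have h3 : (2 * L : ℝ) ≤ (p : ℕ) := by exact_mod_cast hLz.trans (hzp p p.2).le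
    have h4 : (0 : ℝ) ≤ L := by positivity
    have h5 : 0 ≤ (((p : ℕ) : ℝ) - L)⁻¹ := inv_nonneg.mpr (by linarith)
    have h6 : 1 ≤ Real.exp (Real.log (p : ℕ) / Y) := Real.one_le_exp (by positivity)
    refine mul_nonneg (mul_nonneg (by linarith) h5) ?_
    simp only [act]
    split_ifs <;> norm_num
  refine (prod_one_add_le_exp _ _ fun p _ => h0 p).trans ?_
  have h7 : ∑ p : s, (if (p : ℕ) ≤ z ^ 2 ^ (t : ℕ) then 4 / Y * (Real.log (p : ℕ) / (p : ℕ))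
      else 0) ≤ 8 * (2 ^ (t : ℕ) / 2 ^ T) := by
    rw [sum_coe_sort s (fun p => if p ≤ z ^ 2 ^ (t : ℕ) then 4 / Y * (Real.log p / p) else 0),
      ← sum_filter, ← mul_sum]
    have h8 : ∑ p ∈ s.filter (fun p => p ≤ z ^ 2 ^ (t : ℕ)), Real.log p / p ≤
        ∑ p ∈ (z ^ 2 ^ (t : ℕ)).primesLE, Real.log p / p := by
      refine sum_le_sum_of_subset_of_nonneg (fun p hp => Nat.mem_primesLE.mpr
        ⟨(mem_filter.mp hp).2, hpp p (mem_filter.mp hp).1⟩) fun p _ _ => ?_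
      have := Real.log_natCast_nonneg p
      positivity
    have h9 := sum_log_div_le (n := z ^ 2 ^ (t : ℕ)) (Nat.one_le_pow _ _ (by omega))
    rw [hlog] at h9
    have h10 : (1 : ℝ) ≤ 2 ^ (t : ℕ) := one_le_pow₀ (by norm_num)
    calc _ ≤ 4 / Y * (2 * (2 ^ (t : ℕ) * Real.log z)) := by
          gcongr
          nlinarith
      _ = _ := by rw [hY]; field_simp; ring
  have h11 : (2 : ℝ) ^ (t : ℕ) / 2 ^ T ≤ 1 := by rw [div_le_one (by positivity)]; exact htT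
  refine (Real.exp_le_exp.mpr ((sum_le_sum fun p _ => h1 p).trans h7)).trans
    ((exp_le_one_add (by positivity) (by linarith)).trans (le_of_eq ?_))
  ring

lemma Pi_nt {z y L : ℕ} (hy : 3 ≤ y) (hLz : 2 * L ≤ z) (s : Finset ℕ)
    (hzp : ∀ p ∈ s, z < p) (hpp : ∀ p ∈ s, p.Prime) (hyp : ∀ p ∈ s, p ≤ y) :
    ∏ p : s, (1 + (((p : ℕ) : ℝ) - L)⁻¹) ≤ (2 * Real.exp 5 * Real.log y) ^ 2 := by
  have h1 := prod_primesLE_le hy
  have h2 : ∏ p ∈ s, (1 - (p : ℝ)⁻¹)⁻¹ ≤ ∏ p ∈ y.primesLE, (1 - (p : ℝ)⁻¹)⁻¹ := by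
    refine prod_le_prod_of_subset_of_one_le (fun p hp => Nat.mem_primesLE.mpr ⟨hyp p hp, hpp p hp⟩)
      (fun p hp => (inv_pos.mpr (euler_pos (hpp p hp))).le) fun p hp _ => ?_
    have h3 := euler_pos (Nat.mem_primesLE.mp hp).2
    have h4 : (0 : ℝ) ≤ (p : ℝ)⁻¹ := by positivity
    exact (one_le_inv₀ h3).mpr (by linarith)
  have h0 : 0 ≤ ∏ p ∈ s, (1 - (p : ℝ)⁻¹)⁻¹ :=
    prod_nonneg fun p hp => (inv_pos.mpr (euler_pos (hpp p hp))).le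
  refine le_trans ?_ (pow_le_pow_left₀ h0 (h2.trans h1) 2)
  rw [← prod_pow, ← prod_coe_sort s]
  refine prod_le_prod (fun p _ => ?_) fun p _ => ?_
  · have h3 : (2 * L : ℝ) ≤ (p : ℕ) := by exact_mod_cast hLz.trans (hzp p p.2).le
    have h4 : (0 : ℝ) ≤ L := by positivity
    have h5 : 0 ≤ (((p : ℕ) : ℝ) - L)⁻¹ := inv_nonneg.mpr (by linarith)
    linarith
  · have hp0 : (0 : ℝ) < (p : ℕ) := by exact_mod_cast (hpp p p.2).pos
    have h3 : (2 * L : ℝ) ≤ (p : ℕ) := by exact_mod_cast hLz.trans (hzp p p.2).le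
    have h4 : (((p : ℕ) : ℝ) - L)⁻¹ ≤ 2 * ((p : ℕ) : ℝ)⁻¹ := by
      rw [← div_eq_mul_inv, inv_eq_one_div, div_le_div_iff₀ (by linarith) hp0]
      linarith
    have h5 := euler_pos (hpp p p.2)
    have h6 : (0 : ℝ) ≤ ((p : ℕ) : ℝ)⁻¹ := by positivity
    have h7 : 1 + ((p : ℕ) : ℝ)⁻¹ ≤ (1 - ((p : ℕ) : ℝ)⁻¹)⁻¹ := by
      rw [inv_eq_one_div (1 - _), le_div_iff₀ h5]
      nlinarith
    calc _ ≤ (1 + ((p : ℕ) : ℝ)⁻¹) ^ 2 := by nlinarith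
      _ ≤ _ := by gcongr

end Pool.Agent.Lib.MP_458f0b_nt
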