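import Pool.Agent.Lib.MP_458f0b_nt.NT1

open Finset

namespace Pool.Agent.Lib.MP_458f0b_nt

/-- the absolute constant of the sieve step -/
noncomputable def cst : ℝ := (122880 * Real.exp 5 * Real.exp 8)⁻¹

lemma cst_pos : 0 < cst := by unfold cst; positivity

lemma cst_le : cst ≤ 1 / 30 := by
  unfold cst
  have h1 : 1 ≤ Real.exp 5 := Real.one_le_exp (by norm_num)
  have h2 : 1 ≤ Real.exp 8 := Real.one_le_exp (by norm_num)
  rw [one_div]
  refine inv_anti₀ (by norm_num) ?_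
  nlinarith

lemma n3_nt {ℓ Y lz Pi : ℝ} {T L : ℕ} (hℓ : 4 ≤ ℓ) (hT : 0 < T) (hlz : 0 < lz)
    (hY : Y = 2 ^ T * lz) (h3 : lz ≤ 24 * T) (h4 : Y ≤ √ℓ)
    (h5 : 4 * (1 + 4 * Real.exp 5 ^ 2 * ℓ ^ 2) ≤ Real.exp (√ℓ / 20))
    (hL : (L : ℝ) ≤ cst * ℓ) (hPi0 : 0 ≤ Pi) (hPi : Pi ≤ (2 * Real.exp 5 * Y) ^ 2) :
    4 * (1 + L * Pi) * (1 + 8 * (4 * Real.exp 5) * (8 * Real.exp 8 / 2 ^ T) / T) ^ L ≤
      Real.exp (ℓ / 10 / Y) := by
  have hY0 : 0 < Y := by rw [hY]; positivity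
  have hTr : (0 : ℝ) < T := by exact_mod_cast hT
  have hs : √ℓ ^ 2 = ℓ := Real.sq_sqrt (by linarith)
  have hs0 : 0 < √ℓ := Real.sqrt_pos.mpr (by linarith)
  have hL' : (L : ℝ) ≤ ℓ := hL.trans (by nlinarith [cst_le])
  have a1 : Pi ≤ 4 * Real.exp 5 ^ 2 * ℓ := by
    refine hPi.trans ?_
    calc (2 * Real.exp 5 * Y) ^ 2 ≤ (2 * Real.exp 5 * √ℓ) ^ 2 := by gcongr
      _ = 4 * Real.exp 5 ^ 2 * √ℓ ^ 2 := by ring
      _ = _ := by rw [hs]
  have a2 : 4 * (1 + L * Pi) ≤ Real.exp (ℓ / 20 / Y) := by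
    calc 4 * (1 + L * Pi) ≤ 4 * (1 + ℓ * (4 * Real.exp 5 ^ 2 * ℓ)) := by gcongr
      _ = 4 * (1 + 4 * Real.exp 5 ^ 2 * ℓ ^ 2) := by ring
      _ ≤ Real.exp (√ℓ / 20) := h5
      _ ≤ _ := by
        rw [Real.exp_le_exp, le_div_iff₀ hY0]
        nlinarith
  set x := 8 * (4 * Real.exp 5) * (8 * Real.exp 8 / 2 ^ T) / T with hx
  have hx0 : 0 ≤ x := by positivity
  have a3 : (1 + x) ^ L ≤ Real.exp (ℓ / 20 / Y) := by
    calc (1 + x) ^ L ≤ Real.exp x ^ L := by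
          gcongr
          linarith [Real.add_one_le_exp x]
      _ = Real.exp (L * x) := by rw [Real.exp_nat_mul]
      _ ≤ _ := by
        rw [Real.exp_le_exp]
        calc L * x ≤ cst * ℓ * x := by gcongr
          _ = ℓ / 20 / Y * (lz / (24 * T)) := by
            rw [hx, hY, cst]; field_simp; ring
          _ ≤ ℓ / 20 / Y * 1 := by
            gcongr
            rw [div_le_one (by positivity)]
            exact h3
          _ = _ := mul_one _
  calc _ ≤ Real.exp (ℓ / 20 / Y) * Real.exp (ℓ / 20 / Y) := by gcongr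
    _ = _ := by rw [← Real.exp_add]; congr 1; ring

lemma n4_nt {ℓ Q err W D F q : ℝ} {L : ℕ} (hℓ : 4 ≤ ℓ) (hL : (L : ℝ) ≤ cst * ℓ) (hQ0 : 0 ≤ Q)
    (hQ : Q ≤ 3) (herr0 : 0 < err) (herr : err ≤ Real.exp (ℓ / 40)) (hW0 : 0 < W)
    (hW : W ≤ Real.exp (ℓ / 20)) (hD : Real.exp ℓ / 3 ≤ D) (hF : err⁻¹ ≤ F) (hq : 1 / 2 ≤ q)
    (h6 : 108 * (1 + ℓ) < Real.exp (ℓ / 20)) :
    (1 + L) * ((Real.exp (ℓ / 10) ^ 2 * Q) ^ 2 * (err * Real.exp (ℓ / 10) ^ 4)) <
      D / W * F * q ^ L / 4 := by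
  set E := Real.exp (ℓ / 120) with hE
  have hE0 : 0 < E := Real.exp_pos _
  have hE1 : 1 ≤ E := Real.one_le_exp (by positivity)
  have p1 : Real.exp (ℓ / 10) = E ^ 12 := by rw [hE, ← Real.exp_nat_mul]; congr 1; ring
  have p2 : Real.exp (ℓ / 40) = E ^ 3 := by rw [hE, ← Real.exp_nat_mul]; congr 1; ring
  have p3 : Real.exp (ℓ / 20) = E ^ 6 := by rw [hE, ← Real.exp_nat_mul]; congr 1; ring
  have p4 : Real.exp ℓ = E ^ 120 := by rw [hE, ← Real.exp_nat_mul]; congr 1; ring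
  have p5 : Real.exp (ℓ / 30) = E ^ 4 := by rw [hE, ← Real.exp_nat_mul]; congr 1; ring
  rw [p1]
  rw [p2] at herr
  rw [p3] at hW h6
  rw [p4] at hD
  have hL' : (L : ℝ) ≤ ℓ := hL.trans (by nlinarith [cst_le])
  have a1 : (E ^ 4)⁻¹ ≤ q ^ L := by
    refine le_trans ?_ (pow_le_pow_left₀ (by norm_num) hq L)
    rw [one_div, inv_pow, ← p5]
    refine inv_anti₀ (by positivity) ?_
    calc (2 : ℝ) ^ L ≤ Real.exp 1 ^ L := by
          gcongr
          linarith [Real.add_one_le_exp 1]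
      _ = Real.exp (L * 1) := by rw [Real.exp_nat_mul]
      _ ≤ _ := by
        rw [Real.exp_le_exp]
        nlinarith [cst_le]
  have a2 : (E ^ 3)⁻¹ ≤ F := le_trans (inv_anti₀ herr0 herr) hF
  have a3 : E ^ 114 / 3 ≤ D / W := by
    rw [le_div_iff₀ hW0]
    calc E ^ 114 / 3 * W ≤ E ^ 114 / 3 * E ^ 6 := by gcongr
      _ = E ^ 120 / 3 := by ring
      _ ≤ D := hD
  calc _ ≤ (1 + ℓ) * (((E ^ 12) ^ 2 * 3) ^ 2 * (E ^ 3 * (E ^ 12) ^ 4)) := by gcongr
    _ = 108 * (1 + ℓ) * (E ^ 99 / 12) := by ring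
    _ < E ^ 6 * (E ^ 99 / 12) := by gcongr
    _ = E ^ 105 / 12 := by ring
    _ ≤ E ^ 107 / 12 := by gcongr; norm_num
    _ = E ^ 114 / 3 * (E ^ 3)⁻¹ * (E ^ 4)⁻¹ / 4 := by field_simp; ring
    _ ≤ _ := by
      have : 0 ≤ D / W := le_trans (by positivity) a3
      have : 0 ≤ F := le_trans (by positivity) a2
      gcongr

theorem core2 {k u v W z T : ℕ} {ℓ : ℝ} (a0 : ℕ) (N : Finset ℕ) (hk : 0 < k) (huv : u ≤ v)
    (hv : Real.exp ℓ / 3 ≤ (v : ℝ) - u) (hW : 0 < W) (hWk : Nat.Coprime W k)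
    (hWz : ∀ p, p.Prime → p ∣ W → p ≤ z) (hWl : (W : ℝ) ≤ Real.exp (ℓ / 20))
    (hN : N.Nonempty) (hNz : ∀ n ∈ N, n ≤ z) (hNc : (N.card : ℝ) ≤ cst * ℓ)
    (hω : (2 : ℝ) ^ k.primeFactors.card ≤ Real.exp (ℓ / 40))
    (h1 : 8 * (4 * Real.exp 5) ≤ T) (h2 : ℓ ^ 2 ≤ z) (h3 : Real.log z ≤ 24 * T)
    (h4 : 2 ^ T * Real.log z ≤ √ℓ)
    (h5 : 4 * (1 + 4 * Real.exp 5 ^ 2 * ℓ ^ 2) ≤ Real.exp (√ℓ / 20))
    (h6 : 108 * (1 + ℓ) < Real.exp (ℓ / 20)) (hℓ : 4 ≤ ℓ) :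
    ∃ a ∈ Ioc u v, a ≡ a0 [MOD W] ∧ Nat.Coprime a k ∧
      ∀ n ∈ N, ∃ p : ℕ, p.Prime ∧ Real.log p ≤ √ℓ ∧ p ∣ a + n * k := by
  set s := (z ^ 2 ^ T).primesLE.filter (fun p => z < p ∧ ¬ p ∣ k) with hs
  have hzp : ∀ p ∈ s, z < p := fun p hp => (mem_filter.mp hp).2.1
  have hpp : ∀ p ∈ s, p.Prime := fun p hp => (Nat.mem_primesLE.mp (mem_filter.mp hp).1).2
  have hyp : ∀ p ∈ s, p ≤ z ^ 2 ^ T := fun p hp => (Nat.mem_primesLE.mp (mem_filter.mp hp).1).1
  have hsk : ∀ p ∈ s, ¬ p ∣ k := fun p hp => (mem_filter.mp hp).2.2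
  have hsW : ∀ p ∈ s, ¬ p ∣ W := fun p hp h => (hWz p (hpp p hp) h).not_gt (hzp p hp)
  have hzr : (16 : ℝ) ≤ z := by nlinarith
  have hz : 16 ≤ z := by exact_mod_cast hzr
  have hlz : 0 < Real.log z := Real.log_pos (by linarith)
  have hcard : Fintype.card N = N.card := Fintype.card_coe N
  have hLr : (N.card : ℝ) ≤ ℓ / 30 := hNc.trans (by nlinarith [cst_le])
  have hLz : 2 * N.card ≤ z := by
    have : (2 * N.card : ℝ) ≤ z := by nlinarith
    exact_mod_cast this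
  have hL1 : 1 ≤ N.card := hN.card_pos
  have hT : 0 < T := by
    have : (0 : ℝ) < T := lt_of_lt_of_le (by positivity) h1
    exact_mod_cast this
  have hωz : 2 * k.primeFactors.card ≤ z := by
    have a1 : (k.primeFactors.card : ℝ) * Real.log 2 ≤ ℓ / 40 := by
      rw [← Real.log_pow, Real.log_le_iff_le_exp (by positivity)]
      exact hω
    have a2 := Real.log_two_gt_d9
    have a3 : (0 : ℝ) ≤ k.primeFactors.card := by positivity
    have : (2 * k.primeFactors.card : ℝ) ≤ z := by nlinarith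
    exact_mod_cast this
  have hpos : ∀ p ∈ s, (2 * N.card : ℝ) ≤ p := fun p hp => by
    exact_mod_cast hLz.trans (hzp p hp).le
  have hp0 : ∀ p ∈ s, (0 : ℝ) < p := fun p hp => by exact_mod_cast (hpp p hp).pos
  have hL0 : (0 : ℝ) ≤ N.card := by positivity
  have hlog : Real.log ((z ^ 2 ^ T : ℕ) : ℝ) = 2 ^ T * Real.log z := by
    push_cast; rw [Real.log_pow]; push_cast; rfl
  set Y := 2 ^ T * Real.log z with hY
  have hY0 : 0 < Y := by positivity
  have hE := equi_nt (J := N) hk huv hW hWk a0 s hpp hsk hsW (n := fun j => (j : ℕ))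
    Subtype.val_injective (fun p hp j => (hNz j j.2).trans_lt (hzp p hp))
    (fun p hp => by rw [hcard]; have := hzp p hp; omega)
  have hsq : ∑ p : s, (((p : ℕ) : ℝ) ^ 2)⁻¹ ≤ (z : ℝ)⁻¹ := by
    rw [sum_coe_sort s (fun p => ((p : ℝ) ^ 2)⁻¹)]
    exact sum_inv_sq_le s (by omega) hzp
  have hF : ((2 : ℝ) ^ k.primeFactors.card)⁻¹ ≤ ∏ q ∈ k.primeFactors, (1 - (q : ℝ)⁻¹) := by
    rw [← inv_pow, ← prod_const]
    refine prod_le_prod (fun _ _ => by norm_num) fun q hq => ?_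
    linarith [inv_le_half (Nat.prime_of_mem_primeFactors hq)]
  have hTr : (0 : ℝ) < T := by exact_mod_cast hT
  obtain ⟨x, hx, hxj⟩ := core (J := N) (P := fun p : s => ((p : ℕ) : ℝ))
    (fun p => by exact_mod_cast (hpp p p.2).two_le)
    (fun p : s => 1 - (Fintype.card N : ℝ) / (p : ℕ))
    (fun p : s => (((p : ℕ) : ℝ) - Fintype.card N)⁻¹)
    (fun p : s => Real.exp (Real.log (p : ℕ) / Y))
    (fun p => by
      rw [hcard, sub_nonneg, div_le_one (hp0 p p.2)]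
      linarith [hpos p p.2])
    (fun p => by
      rw [hcard]
      exact inv_nonneg.mpr (by linarith [hpos p p.2]))
    (fun p => by
      rw [hcard]
      have a1 := hp0 p p.2
      have a2 : (0 : ℝ) < ((p : ℕ) : ℝ) - N.card := by linarith [hpos p p.2]
      field_simp
      ring)
    (fun p => Real.one_le_exp (div_nonneg (Real.log_natCast_nonneg _) hY0.le))
    hT (fun t (p : s) => decide ((p : ℕ) ≤ z ^ 2 ^ t))
    (fun t t' p htt h => by
      rw [decide_eq_true_eq] at h ⊢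
      exact h.trans (Nat.pow_le_pow_right (by omega) (Nat.pow_le_pow_right (by norm_num) htt)))
    (4 * Real.exp 5) (8 * Real.exp 8 / 2 ^ T) (Real.exp (ℓ / 10)) (Real.exp (ℓ / 10 / Y))
    (by positivity) (by positivity)
    (fun t => by rw [hcard]; exact H1_nt hk (by omega) hωz hL1 (by omega) s hs t)
    (fun t => by rw [hcard]; exact H2_nt (by omega) hLz s hzp hpp t)
    (fun S hS => by
      have a1 : (∏ p : s, if S p then Real.exp (Real.log (p : ℕ) / Y) else 1) =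
          Real.exp (Real.log (dS (fun p : s => ((p : ℕ) : ℝ)) S) / Y) := by
        rw [dS, Real.log_prod, sum_div, Real.exp_sum]
        · refine prod_congr rfl fun p _ => ?_
          cases S p <;> simp
        · intro p _
          cases S p
          · simp
          · simpa using (hpp p p.2).ne_zero
      rw [a1, Real.exp_le_exp]
      gcongr
      exact ((Real.lt_log_iff_exp_lt ((Real.exp_pos _).trans hS)).mpr hS).le)
    (mul_nonneg (div_nonneg (by linarith [Real.exp_pos ℓ]) (by positivity))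
      (le_trans (by positivity) hF))
    (by positivity) hE h1
    (by
      rw [hcard]
      have a1 : ∑ p : s, (8 * (((p : ℕ) : ℝ) - N.card)⁻¹) ^ 2 ≤ 256 * (z : ℝ)⁻¹ := by
        refine le_trans ?_ (mul_le_mul_of_nonneg_left hsq (by norm_num))
        rw [mul_sum]
        refine sum_le_sum fun p _ => ?_
        have a2 := hp0 p p.2
        have a3 := hpos p p.2
        have a4 : (((p : ℕ) : ℝ) - N.card)⁻¹ ≤ 2 * ((p : ℕ) : ℝ)⁻¹ := by
          rw [← div_eq_mul_inv, inv_eq_one_div, div_le_div_iff₀ (by linarith) a2]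
          linarith
        have a5 : 0 ≤ (((p : ℕ) : ℝ) - N.card)⁻¹ := inv_nonneg.mpr (by linarith)
        calc _ ≤ (8 * (2 * ((p : ℕ) : ℝ)⁻¹)) ^ 2 := by gcongr
          _ = _ := by rw [← inv_pow]; ring
      have a6 : (z : ℝ)⁻¹ ≤ (ℓ ^ 2)⁻¹ := inv_anti₀ (by positivity) h2
      calc _ ≤ (ℓ / 30) ^ 2 * (256 * (ℓ ^ 2)⁻¹) := by
            gcongr
            exact a1.trans (by gcongr)
        _ = 256 / 900 := by field_simp; norm_num
        _ ≤ _ := by norm_num)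
    (by
      rw [hcard]
      refine n3_nt hℓ hT hlz hY h3 h4 h5 hNc (prod_nonneg fun p _ => ?_) ?_
      · have : 0 ≤ (((p : ℕ) : ℝ) - N.card)⁻¹ := inv_nonneg.mpr (by linarith [hpos p p.2])
        linarith
      · rw [← hlog]
        exact Pi_nt (le_trans (by omega) (Nat.le_self_pow (by positivity) z)) hLz s hzp hpp hyp)
    (by
      rw [hcard]
      refine n4_nt hℓ hNc (prod_nonneg fun p _ => by positivity) ?_ (by positivity) hω
        (by exact_mod_cast hW) hWl hv hF ?_ h6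
      · refine (prod_one_add_le_exp _ _ fun p _ => by positivity).trans ?_
        simp only [one_div]
        have a1 : (z : ℝ)⁻¹ ≤ 1 := inv_le_one_of_one_le₀ (by linarith)
        exact (Real.exp_le_exp.mpr (hsq.trans a1)).trans (by linarith [Real.exp_one_lt_d9])
      · have : 4 * (4 * Real.exp 5) / T ≤ 1 / 2 := by rw [div_le_iff₀ hTr]; linarith
        linarith)
  refine ⟨x, (mem_filter.mp hx).1, (mem_filter.mp hx).2.1, (mem_filter.mp hx).2.2, fun n hn => ?_⟩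
  obtain ⟨p, hp⟩ := hxj ⟨n, hn⟩
  refine ⟨p, hpp p p.2, ?_, ?_⟩
  · refine le_trans ?_ h4
    rw [← hlog]
    exact Real.log_le_log (hp0 p p.2) (by exact_mod_cast hyp p p.2)
  · have a1 := Xc_dvd hp
    rw [← Nat.modEq_zero_iff_dvd] at a1 ⊢
    exact ((Nat.mod_modEq _ _).symm.add_right _).trans a1

end Pool.Agent.Lib.MP_458f0b_nt
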