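import Pool.Agent.Lib.MP_458f0b_nt.Greedy

open Finset Filter

namespace Pool.Agent.Lib.MP_458f0b_nt

lemma log_four_le : Real.log 4 ≤ 3 / 2 := by
  rw [show (4 : ℝ) = 2 ^ 2 by norm_num, Real.log_pow]
  have := Real.log_two_lt_d9
  push_cast
  linarith

lemma dyadic {x : ℕ} (hx : 0 < x) (n : ℕ) :
    ∑ q ∈ (2 ^ n * x).primesLE.filter (fun q => x < q), Real.log q / q ≤ 3 * n := by
  induction n with
  | zero =>
    rw [sum_eq_zero]
    · simp
    · intro q hq
      have h1 := (Nat.mem_primesLE.mp (mem_filter.mp hq).1).1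
      have h2 := (mem_filter.mp hq).2
      omega
  | succ n ih =>
    set m := 2 ^ n * x with hm
    have hm0 : 0 < m := by positivity
    have hmr : (0 : ℝ) < m := by exact_mod_cast hm0
    have e1 : 2 ^ (n + 1) * x = 2 * m := by rw [hm]; ring
    rw [e1, ← sum_filter_add_sum_filter_not _ (fun q => q ≤ m)]
    have e2 : ((2 * m).primesLE.filter (fun q => x < q)).filter (fun q => q ≤ m) =
        m.primesLE.filter (fun q => x < q) := by
      ext q
      simp only [mem_filter, Nat.mem_primesLE]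
      exact ⟨fun h => ⟨⟨h.2, h.1.1.2⟩, h.1.2⟩, fun h => ⟨⟨⟨by omega, h.1.2⟩, h.2⟩, h.1.1⟩⟩
    have h1 : ∑ q ∈ (2 * m).primesLE, Real.log q ≤ Real.log 4 * (2 * m : ℕ) := by
      rw [← Chebyshev.theta_eq_sum_primesLE_log]
      exact Chebyshev.theta_le_log4_mul_x (by positivity)
    have h2 : ∑ q ∈ ((2 * m).primesLE.filter (fun q => x < q)).filter (fun q => ¬ q ≤ m),
        Real.log q / q ≤ 3 := by
      calc _ ≤ ∑ q ∈ ((2 * m).primesLE.filter (fun q => x < q)).filter (fun q => ¬ q ≤ m),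
            Real.log q / m := by
            refine sum_le_sum fun q hq => ?_
            have a1 : (m : ℝ) ≤ q := by exact_mod_cast (not_le.mp (mem_filter.mp hq).2).le
            have a2 := Real.log_natCast_nonneg q
            gcongr
        _ ≤ ∑ q ∈ (2 * m).primesLE, Real.log q / m := by
            refine sum_le_sum_of_subset_of_nonneg ((filter_subset _ _).trans (filter_subset _ _))
              fun q _ _ => ?_
            have a2 := Real.log_natCast_nonneg q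
            positivity
        _ ≤ 3 := by
            rw [← sum_div, div_le_iff₀ hmr]
            push_cast at h1
            nlinarith [log_four_le]
    rw [e2]
    push_cast
    linarith

open Classical in
lemma count1 {x Y n : ℕ} (hx : 2 ≤ x) (hY : Y ≤ 2 ^ n * x) :
    (((range Y).filter (fun j => ∃ q : ℕ, q.Prime ∧ x < q ∧ q ∣ j + 1)).card : ℝ) ≤
      Y * (3 * n) / Real.log x := by
  set Q := (2 ^ n * x).primesLE.filter (fun q => x < q) with hQ
  have hxr : (2 : ℝ) ≤ x := by exact_mod_cast hx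
  have hl : 0 < Real.log x := Real.log_pos (by linarith)
  have h1 : (range Y).filter (fun j => ∃ q : ℕ, q.Prime ∧ x < q ∧ q ∣ j + 1) ⊆
      Q.biUnion (fun q => (range Y).filter (fun j => q ∣ j + 1)) := by
    intro j hj
    obtain ⟨hjY, q, hq, hxq, hd⟩ := mem_filter.mp hj
    have := Nat.le_of_dvd (Nat.succ_pos j) hd
    have := mem_range.mp hjY
    exact mem_biUnion.mpr ⟨q, mem_filter.mpr ⟨Nat.mem_primesLE.mpr ⟨by omega, hq⟩, hxq⟩,
      mem_filter.mpr ⟨hjY, hd⟩⟩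
  have h2 := (card_le_card h1).trans card_biUnion_le
  simp only [Nat.card_multiples] at h2
  have h3 : ((∑ q ∈ Q, Y / q : ℕ) : ℝ) ≤ ∑ q ∈ Q, Y / Real.log x * (Real.log q / q) := by
    push_cast
    refine sum_le_sum fun q hq => Nat.cast_div_le.trans ?_
    have a1 : (x : ℝ) ≤ q := by exact_mod_cast (mem_filter.mp hq).2.le
    have a2 : Real.log x ≤ Real.log q := Real.log_le_log (by linarith) a1
    have a3 : (0 : ℝ) < q := by linarith
    calc (Y : ℝ) / q = Y / Real.log x * (Real.log x / q) := by field_simp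
      _ ≤ _ := by gcongr
  rw [← mul_sum] at h3
  calc _ ≤ ((∑ q ∈ Q, Y / q : ℕ) : ℝ) := by exact_mod_cast h2
    _ ≤ _ := h3
    _ ≤ Y / Real.log x * (3 * n) := by
      gcongr
      exact dyadic (by omega) n
    _ = _ := by ring

open Classical in
lemma count2 {σ : ℝ} (hσ : 0 < σ) (s : Finset ℕ) (hs : ∀ p ∈ s, p.Prime) (Y : ℕ) :
    (((range Y).filter (fun j => ∀ p : ℕ, p.Prime → p ∣ j + 1 → p ∈ s)).card : ℝ) ≤
      (Y : ℝ) ^ σ * ∏ p ∈ s, (1 - (p : ℝ) ^ (-σ))⁻¹ := by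
  set F := (range Y).filter (fun j => ∀ p : ℕ, p.Prime → p ∣ j + 1 → p ∈ s) with hF
  have h1 := euler_ge hσ s hs (F.image (· + 1)) (fun m hm p hp hd => by
    obtain ⟨j, hj, rfl⟩ := mem_image.mp hm
    exact (mem_filter.mp hj).2 p hp hd)
  rw [sum_image (fun a _ b _ h => by simpa using h)] at h1
  refine le_trans ?_ (mul_le_mul_of_nonneg_left h1 (by positivity))
  rw [card_eq_sum_ones, Nat.cast_sum, mul_sum]
  refine sum_le_sum fun j hj => ?_
  have a1 : ((j + 1 : ℕ) : ℝ) ≤ Y := by exact_mod_cast mem_range.mp (mem_filter.mp hj).1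
  have a2 : (0 : ℝ) < (j + 1 : ℕ) := by positivity
  rw [Real.rpow_neg a2.le, ← div_eq_mul_inv, Nat.cast_one, one_le_div (by positivity)]
  gcongr

lemma euler_split {σ : ℝ} (hσ : 3 / 4 ≤ σ) (s : Finset ℕ) (hs : ∀ p ∈ s, p.Prime) :
    ∏ p ∈ s, (1 - (p : ℝ) ^ (-σ))⁻¹ ≤ Real.exp (∑ p ∈ s, (p : ℝ) ^ (-σ)) * 3 := by
  have h1 := euler_le (δ := 2 * σ - 1) (by linarith) s hs
  have h2 : 1 + 1 / (2 * σ - 1) ≤ 3 := by
    have : 1 / (2 * σ - 1) ≤ 2 := by
      rw [div_le_iff₀ (by linarith)]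
      linarith
    linarith
  have h3 : ∀ p ∈ s, (p : ℝ) ^ (-σ) < 1 := fun p hp =>
    Real.rpow_lt_one_of_one_lt_of_neg (by exact_mod_cast (hs p hp).one_lt) (by linarith)
  have h4 : ∀ p ∈ s, (p : ℝ) ^ (-(1 + (2 * σ - 1))) = ((p : ℝ) ^ (-σ)) ^ 2 := fun p hp => by
    rw [← Real.rpow_natCast, ← Real.rpow_mul (Nat.cast_nonneg p)]
    congr 1
    push_cast
    ring
  have h5 : ∏ p ∈ s, (1 - (p : ℝ) ^ (-σ))⁻¹ =
      (∏ p ∈ s, (1 + (p : ℝ) ^ (-σ))) * ∏ p ∈ s, (1 - (p : ℝ) ^ (-(1 + (2 * σ - 1))))⁻¹ := by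
    rw [← prod_mul_distrib]
    refine prod_congr rfl fun p hp => ?_
    rw [h4 p hp]
    have a1 : 0 < 1 - (p : ℝ) ^ (-σ) := by linarith [h3 p hp]
    have a2 : 0 < 1 + (p : ℝ) ^ (-σ) := by positivity
    rw [show 1 - ((p : ℝ) ^ (-σ)) ^ 2 = (1 + (p : ℝ) ^ (-σ)) * (1 - (p : ℝ) ^ (-σ)) by ring]
    field_simp
  rw [h5]
  refine mul_le_mul (prod_one_add_le_exp _ _ fun p _ => by positivity) (h1.trans h2)
    (prod_nonneg fun p hp => inv_nonneg.mpr ?_) (Real.exp_pos _).le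
  rw [h4 p hp]
  have a1 : 0 ≤ (p : ℝ) ^ (-σ) := by positivity
  nlinarith [h3 p hp]

lemma sum_small {v : ℕ} (hv : 2 ≤ v) {η : ℝ} (hη : 0 ≤ η) :
    ∑ p ∈ v.primesLE, (p : ℝ) ^ (-(1 - η)) ≤ Real.log (1 + Real.log v) + 3 +
      η * Real.exp (η * Real.log v) * (Real.log v + Real.log 4) := by
  have h1 := sum_inv_primesLE_le hv
  have h2 := sum_log_div_le (n := v) (by omega)
  refine le_trans ?_ (add_le_add h1 (mul_le_mul_of_nonneg_left h2 (by positivity)))
  rw [mul_sum, ← sum_add_distrib]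
  refine sum_le_sum fun p hp => ?_
  obtain ⟨hpv, hpp⟩ := Nat.mem_primesLE.mp hp
  have a0 : (0 : ℝ) < p := by exact_mod_cast hpp.pos
  have a1 : Real.log p ≤ Real.log v := Real.log_le_log a0 (by exact_mod_cast hpv)
  have a2 := Real.log_natCast_nonneg p
  have a3 : (p : ℝ) ^ (-(1 - η)) = Real.exp (η * Real.log p) * (p : ℝ)⁻¹ := by
    rw [neg_sub, Real.rpow_sub_one a0.ne', Real.rpow_def_of_pos a0, mul_comm η, div_eq_mul_inv]
  have a4 : Real.exp (η * Real.log p) ≤ 1 + η * Real.log p * Real.exp (η * Real.log v) := by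
    have b1 := Real.add_one_le_exp (-(η * Real.log p))
    have b2 : Real.exp (-(η * Real.log p)) * Real.exp (η * Real.log p) = 1 := by
      rw [← Real.exp_add]; simp
    have b3 := Real.exp_pos (η * Real.log p)
    have b4 : Real.exp (η * Real.log p) ≤ Real.exp (η * Real.log v) := by gcongr
    have b5 : 0 ≤ η * Real.log p := by positivity
    nlinarith
  rw [a3]
  calc _ ≤ (1 + η * Real.log p * Real.exp (η * Real.log v)) * (p : ℝ)⁻¹ := by gcongr
    _ = _ := by ring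

open Classical in
lemma survivors_split {k x v Y : ℕ} (hk : 0 < k) :
    ((range Y).filter (fun j => ∀ p ∈ x.primesLE.filter (fun p => v < p ∧ ¬ p ∣ k),
      ¬ p ∣ j + 1)).card ≤
    ((range Y).filter (fun j => ∃ q : ℕ, q.Prime ∧ x < q ∧ q ∣ j + 1)).card +
    ((range Y).filter (fun j => ∀ p : ℕ, p.Prime → p ∣ j + 1 →
      p ∈ v.primesLE ∪ k.primeFactors.filter (fun p => v < p))).card := by
  refine le_trans (card_le_card fun j hj => ?_) (card_union_le _ _)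
  obtain ⟨hjY, hj⟩ := mem_filter.mp hj
  by_cases h : ∃ q : ℕ, q.Prime ∧ x < q ∧ q ∣ j + 1
  · exact mem_union_left _ (mem_filter.mpr ⟨hjY, h⟩)
  · refine mem_union_right _ (mem_filter.mpr ⟨hjY, fun p hp hd => ?_⟩)
    by_cases hpv : p ≤ v
    · exact mem_union_left _ (Nat.mem_primesLE.mpr ⟨hpv, hp⟩)
    · refine mem_union_right _ (mem_filter.mpr ⟨Nat.mem_primeFactors.mpr ⟨hp, ?_, hk.ne'⟩,
        not_le.mp hpv⟩)
      by_contra hpk
      exact hj p (mem_filter.mpr ⟨Nat.mem_primesLE.mpr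
        ⟨not_lt.mp fun hx => h ⟨p, hp, hx, hd⟩, hp⟩, not_le.mp hpv, hpk⟩) hd

lemma two_stage {k x v Y : ℕ} (hvx : v ≤ x) :
    ∃ e : ℕ → ℕ, (((range Y).filter (fun j => ∀ p ∈ x.primesLE.filter (fun p => ¬ p ∣ k),
        ¬ p ∣ j + e p)).card : ℝ) ≤
      ((range Y).filter (fun j => ∀ p ∈ x.primesLE.filter (fun p => v < p ∧ ¬ p ∣ k),
        ¬ p ∣ j + 1)).card * ∏ p ∈ v.primesLE.filter (fun p => ¬ p ∣ k), (1 - (p : ℝ)⁻¹) := by
  obtain ⟨e, he⟩ := greedy ((range Y).filter (fun j =>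
    ∀ p ∈ x.primesLE.filter (fun p => v < p ∧ ¬ p ∣ k), ¬ p ∣ j + 1))
    (v.primesLE.filter (fun p => ¬ p ∣ k))
    (fun p hp => (Nat.mem_primesLE.mp (mem_filter.mp hp).1).2.pos)
  refine ⟨fun p => if p ≤ v then e p else 1, le_trans ?_ he⟩
  refine Nat.cast_le.mpr (card_le_card fun j hj => ?_)
  obtain ⟨hjY, hj⟩ := mem_filter.mp hj
  refine mem_filter.mpr ⟨mem_filter.mpr ⟨hjY, fun p hp => ?_⟩, fun p hp => ?_⟩
  · obtain ⟨h1, h2, h3⟩ := mem_filter.mp hp
    have := hj p (mem_filter.mpr ⟨h1, h3⟩)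
    simpa only [if_neg (not_le.mpr h2)] using this
  · obtain ⟨h1, h2⟩ := mem_filter.mp hp
    obtain ⟨h3, h4⟩ := Nat.mem_primesLE.mp h1
    have := hj p (mem_filter.mpr ⟨Nat.mem_primesLE.mpr ⟨h3.trans hvx, h4⟩, h2⟩)
    simpa only [if_pos h3] using this

end Pool.Agent.Lib.MP_458f0b_nt
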