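import Pool.Agent.Lib.MP_458f0b_nt.NT2

open Finset Filter

namespace Pool.Agent.Lib.MP_458f0b_nt

lemma ev_pow_exp (A : ℝ) (n : ℕ) {b : ℝ} (hb : 0 < b) :
    ∀ᶠ x : ℝ in atTop, A * x ^ n ≤ Real.exp (b * x) := by
  have h := (isLittleO_pow_exp_pos_mul_atTop n hb).const_mul_left A
  filter_upwards [h.eventuallyLE] with x hx
  rw [Real.norm_of_nonneg (Real.exp_pos _).le] at hx
  exact (le_abs_self _).trans hx

lemma ev_omega : ∀ᶠ ℓ : ℝ in atTop, ∀ k : ℕ, 0 < k → Real.log k ≤ ℓ →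
    (2 : ℝ) ^ k.primeFactors.card ≤ Real.exp (ℓ / 40) := by
  obtain ⟨K, hK⟩ : ∃ K : ℝ, ∀ k : ℕ, 0 < k →
      (k.primeFactors.card : ℝ) * Real.log 2 ≤ K + Real.log k / 50 :=
    ⟨_, fun k hk => by exact_mod_cast omega_log_le 50 (by norm_num) hk⟩
  filter_upwards [eventually_ge_atTop (200 * K)] with ℓ hℓ k hk hkl
  rw [← Real.log_le_iff_le_exp (by positivity), Real.log_pow]
  linarith [hK k hk]

lemma ev_params : ∀ᶠ ℓ : ℝ in atTop, ∃ T : ℕ,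
    8 * (4 * Real.exp 5) ≤ T ∧ Real.log (⌈ℓ ^ 2⌉₊ : ℕ) ≤ 24 * T ∧
    2 ^ T * Real.log (⌈ℓ ^ 2⌉₊ : ℕ) ≤ √ℓ ∧
    4 * (1 + 4 * Real.exp 5 ^ 2 * ℓ ^ 2) ≤ Real.exp (√ℓ / 20) ∧
    108 * (1 + ℓ) < Real.exp (ℓ / 20) ∧ 4 ≤ ℓ := by
  have e1 := Real.tendsto_log_atTop.eventually (eventually_ge_atTop (4 * (8 * (4 * Real.exp 5) + 8)))
  have e2 := Real.tendsto_log_atTop.eventually (ev_pow_exp 3 1 (b := 1 / 4) (by norm_num))
  have e3 := Real.tendsto_sqrt_atTop.eventually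
    (ev_pow_exp (4 * (1 + 4 * Real.exp 5 ^ 2)) 4 (b := 1 / 20) (by norm_num))
  have e4 := ev_pow_exp 217 1 (b := 1 / 20) (by norm_num)
  filter_upwards [e1, e2, e3, e4, eventually_ge_atTop 200] with ℓ h1 h2 h3 h4 hℓ
  have hE := Real.exp_pos 5
  set lam := Real.log ℓ with hlam
  have hT1 : lam / 4 - 1 ≤ ⌊lam / 4⌋₊ := by linarith [Nat.lt_floor_add_one (lam / 4)]
  have hT2 : (⌊lam / 4⌋₊ : ℝ) ≤ lam / 4 := Nat.floor_le (by linarith)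
  have hz : Real.log (⌈ℓ ^ 2⌉₊ : ℕ) ≤ 3 * lam := by
    have a1 : ((⌈ℓ ^ 2⌉₊ : ℕ) : ℝ) ≤ ℓ ^ 3 := by
      have := Nat.ceil_lt_add_one (a := ℓ ^ 2) (by positivity)
      nlinarith
    have a2 : (0 : ℝ) < (⌈ℓ ^ 2⌉₊ : ℕ) := lt_of_lt_of_le (by positivity) (Nat.le_ceil _)
    have := Real.log_le_log a2 a1
    rw [Real.log_pow] at this
    exact_mod_cast this
  refine ⟨⌊lam / 4⌋₊, by linarith, by linarith, ?_, ?_, ?_, by linarith⟩
  · have a1 : (2 : ℝ) ^ ⌊lam / 4⌋₊ ≤ Real.exp (lam / 4) := by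
      calc (2 : ℝ) ^ ⌊lam / 4⌋₊ ≤ Real.exp 1 ^ ⌊lam / 4⌋₊ := by
            gcongr
            linarith [Real.add_one_le_exp 1]
        _ = Real.exp (⌊lam / 4⌋₊ * 1) := by rw [Real.exp_nat_mul]
        _ ≤ _ := by rw [Real.exp_le_exp]; linarith
    have a2 : √ℓ = Real.exp (lam / 4) * Real.exp (1 / 4 * lam) := by
      rw [← Real.exp_add, Real.sqrt_eq_rpow, Real.rpow_def_of_pos (by linarith)]
      congr 1
      ring
    rw [a2]
    have a3 : 0 ≤ Real.log (⌈ℓ ^ 2⌉₊ : ℕ) := Real.log_natCast_nonneg _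
    gcongr
    linarith
  · have a1 : √ℓ ^ 4 = ℓ ^ 2 := by
      rw [show √ℓ ^ 4 = (√ℓ ^ 2) ^ 2 by ring, Real.sq_sqrt (by linarith)]
    rw [a1, show 1 / 20 * √ℓ = √ℓ / 20 by ring] at h3
    nlinarith
  · rw [show 1 / 20 * ℓ = ℓ / 20 by ring] at h4
    linarith

/-- Long runs of terms with a small prime factor. -/
theorem run : ∀ᶠ ℓ : ℝ in atTop, ∀ (k u v Y : ℕ) (𝒲 : Finset ℕ) (e : ℕ → ℕ), 0 < k →
    Real.log k ≤ ℓ → u ≤ v → Real.exp ℓ / 3 ≤ (v : ℝ) - u →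
    (∀ p ∈ 𝒲, p.Prime ∧ ¬ p ∣ k ∧ (p : ℝ) ≤ ℓ ^ 2) →
    ((∏ p ∈ 𝒲, p : ℕ) : ℝ) ≤ Real.exp (ℓ / 20) → (Y : ℝ) ≤ ℓ ^ 2 →
    (((range Y).filter (fun j => ∀ p ∈ 𝒲, ¬ p ∣ j + e p)).card : ℝ) ≤ cst / 2 * ℓ →
    ∃ a ∈ Ioc u v, Nat.Coprime a k ∧
      ∀ j < Y, ∃ p : ℕ, p.Prime ∧ Real.log p ≤ √ℓ ∧ p ∣ a + j * k := by
  filter_upwards [ev_omega, ev_params, eventually_ge_atTop (2 / cst)] with ℓ hω hpar hc
  intro k u v Y 𝒲 e hk hkl huv hv h𝒲 hW hY hS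
  obtain ⟨T, h1, h3, h4, h5, h6, hℓ⟩ := hpar
  obtain ⟨a0, ha0⟩ := Nat.chineseRemainderOfFinset (fun p => e p * k) (fun p => p) 𝒲
    (fun p hp => (h𝒲 p hp).1.ne_zero)
    (fun p hp q hq hne => (Nat.coprime_primes (h𝒲 p hp).1 (h𝒲 q hq).1).mpr hne)
  set S := (range Y).filter (fun j => ∀ p ∈ 𝒲, ¬ p ∣ j + e p) with hSdef
  have hz := Nat.le_ceil (ℓ ^ 2)
  have hc' : 1 ≤ cst / 2 * ℓ := by
    rw [div_le_iff₀ cst_pos] at hc
    linarith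
  obtain ⟨a, ha, ha1, ha2, ha3⟩ := core2 (k := k) (u := u) (v := v) (W := ∏ p ∈ 𝒲, p)
    (z := ⌈ℓ ^ 2⌉₊) (T := T) (ℓ := ℓ) a0 (insert 0 S) hk huv hv
    (prod_pos fun p hp => (h𝒲 p hp).1.pos)
    (Nat.Coprime.prod_left fun p hp => (Nat.Prime.coprime_iff_not_dvd (h𝒲 p hp).1).mpr (h𝒲 p hp).2.1)
    (fun p hp hpW => by
      obtain ⟨q, hq, hpq⟩ := (Prime.dvd_finsetProd_iff hp.prime _).mp hpW
      rw [(Nat.prime_dvd_prime_iff_eq hp (h𝒲 q hq).1).mp hpq]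
      exact_mod_cast (h𝒲 q hq).2.2.trans hz)
    hW (insert_nonempty _ _)
    (fun n hn => by
      rcases mem_insert.mp hn with rfl | hn
      · exact Nat.zero_le _
      · have : (n : ℝ) ≤ Y := by exact_mod_cast (mem_range.mp (mem_filter.mp hn).1).le
        exact_mod_cast this.trans (hY.trans hz))
    (by
      have : ((insert 0 S).card : ℝ) ≤ S.card + 1 := by exact_mod_cast card_insert_le 0 S
      linarith)
    (hω k hk hkl) h1 hz h3 h4 h5 h6 hℓ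
  refine ⟨a, ha, ha2, fun j hj => ?_⟩
  by_cases hjS : j ∈ S
  · exact ha3 j (mem_insert_of_mem hjS)
  · have : ∃ p ∈ 𝒲, p ∣ j + e p := by
      by_contra h
      exact hjS (mem_filter.mpr ⟨mem_range.mpr hj, fun p hp hd => h ⟨p, hp, hd⟩⟩)
    obtain ⟨p, hp, hd⟩ := this
    refine ⟨p, (h𝒲 p hp).1, ?_, ?_⟩
    · rw [Real.log_le_iff_le_exp (by exact_mod_cast (h𝒲 p hp).1.pos)]
      refine (h𝒲 p hp).2.2.trans (le_trans ?_ (h5.trans (Real.exp_le_exp.mpr ?_)))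
      · have := Real.one_le_exp (x := 5) (by norm_num)
        nlinarith [sq_nonneg ℓ, mul_nonneg (sq_nonneg ℓ) (sub_nonneg.mpr (one_le_pow₀ (n := 2) this))]
      · linarith [Real.sqrt_nonneg ℓ]
    · have b1 : a ≡ e p * k [MOD p] := (ha1.of_dvd (dvd_prod_of_mem _ hp)).trans (ha0 p hp)
      rw [← Nat.modEq_zero_iff_dvd]
      refine (b1.add_right _).trans ?_
      rw [Nat.modEq_zero_iff_dvd, ← add_mul, add_comm]
      exact hd.mul_right _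

/-- the largest least prime in a reduced residue class -/
noncomputable def pmax (d : ℕ) : ℕ :=
  ((Finset.range d).filter (fun a => Nat.Coprime a d)).sup
    (fun a => sInf {p : ℕ | p.Prime ∧ p % d = a})

theorem wrap : ∀ᶠ k : ℕ in atTop, ∀ (Y : ℕ) (𝒲 : Finset ℕ) (e : ℕ → ℕ),
    (∀ p ∈ 𝒲, p.Prime ∧ ¬ p ∣ k ∧ (p : ℝ) ≤ Real.log k ^ 2) →
    ((∏ p ∈ 𝒲, p : ℕ) : ℝ) ≤ Real.exp (Real.log k / 20) → (Y : ℝ) ≤ Real.log k ^ 2 →
    (((range Y).filter (fun j => ∀ p ∈ 𝒲, ¬ p ∣ j + e p)).card : ℝ) ≤ cst / 2 * Real.log k →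
    Y * k ≤ pmax k := by
  have hl : Tendsto (fun k : ℕ => Real.log k) atTop atTop :=
    Real.tendsto_log_atTop.comp tendsto_natCast_atTop_atTop
  filter_upwards [hl.eventually run, hl.eventually (eventually_ge_atTop 4),
    eventually_ge_atTop 16] with k hrun h4 hk Y 𝒲 e h𝒲 hW hY hS
  have hkr : (16 : ℝ) ≤ k := by exact_mod_cast hk
  have hk2 : ((k / 2 : ℕ) : ℝ) ≤ k / 2 := Nat.cast_div_le
  obtain ⟨a, ha, hak, haj⟩ := hrun k (k / 2) k Y 𝒲 e (by omega) le_rfl (Nat.div_le_self _ _)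
    (by rw [Real.exp_log (by linarith)]; linarith) h𝒲 hW hY hS
  obtain ⟨ha1, ha2⟩ := mem_Ioc.mp ha
  have halt : a < k := by
    refine lt_of_le_of_ne ha2 fun h => ?_
    rw [h, Nat.coprime_self] at hak
    omega
  refine le_trans ?_ (le_sup (f := fun a => sInf {p : ℕ | p.Prime ∧ p % k = a})
    (mem_filter.mpr ⟨mem_range.mpr halt, hak⟩))
  have hne : {p : ℕ | p.Prime ∧ p % k = a}.Nonempty := by
    obtain ⟨p, -, hp, hpa⟩ := Nat.forall_exists_prime_gt_and_modEq 0 (q := k) (by omega) hak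
    exact ⟨p, hp, by rw [hpa, Nat.mod_eq_of_lt halt]⟩
  obtain ⟨hq, hqa⟩ := Nat.sInf_mem hne
  set q := sInf {p : ℕ | p.Prime ∧ p % k = a}
  have hqe : a + q / k * k = q := by rw [← hqa]; exact Nat.mod_add_div' q k
  by_contra hlt
  have hj : q / k < Y := by
    by_contra h
    exact hlt ((Nat.mul_le_mul_right k (not_lt.mp h)).trans (Nat.div_mul_le_self q k))
  obtain ⟨p, hp, hpl, hpd⟩ := haj _ hj
  rw [hqe, Nat.prime_dvd_prime_iff_eq hp hq] at hpd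
  have b1 : √(Real.log k) ≤ Real.log k / 2 := by
    rw [Real.sqrt_le_iff]
    constructor <;> nlinarith
  have b2 : k ≤ 2 * p := by omega
  have b3 : (k : ℝ) ≤ 2 * p := by exact_mod_cast b2
  have b4 : (0 : ℝ) < p := by exact_mod_cast hp.pos
  have b5 := Real.log_le_log (by linarith) b3
  rw [Real.log_mul (by norm_num) b4.ne'] at b5
  linarith [Real.log_two_lt_d9]

end Pool.Agent.Lib.MP_458f0b_nt
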