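import Pool.Agent.Lib.MP_458f0b_nt.Rankin

open Finset Filter

namespace Pool.Agent.Lib.MP_458f0b_nt

open Classical in
lemma count2_le {k v Y : ℕ} {ε lam mu nu C0 g : ℝ} (hε0 : 0 < ε) (hε : ε ≤ 1 / 4)
    (hnu : 1 ≤ nu) (hmu : mu = Real.exp nu) (hlam : lam = Real.exp mu) (hg : g = lam * nu / mu)
    (ha : 2 * nu ≤ ε / 2 * Real.exp (ε / 2 * nu)) (hb : 7 ≤ ε / 2 * mu) (hc : 3 * mu ≤ ε * lam)
    (hC0 : 0 ≤ C0) (hd : 3 * C0 * mu ≤ lam) (hv2 : 2 ≤ v)
    (hv : Real.log v ≤ (1 / 2 - ε / 2) * g) (hv' : (1 / 2 - ε / 2) * g ≤ Real.log (v + 1))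
    (hω : (k.primeFactors.card : ℝ) ≤ Real.exp ((1 / 2 - ε) * g)) (hY0 : 0 < Y)
    (hY : lam - C0 ≤ Real.log Y) :
    (((range Y).filter (fun j => ∀ p : ℕ, p.Prime → p ∣ j + 1 →
      p ∈ v.primesLE ∪ k.primeFactors.filter (fun p => v < p))).card : ℝ) ≤ Y / lam := by
  have hmu0 : 0 < mu := hmu ▸ Real.exp_pos _
  have hlam0 : 0 < lam := hlam ▸ Real.exp_pos _
  have hnumu : nu ≤ mu := by rw [hmu]; linarith [Real.add_one_le_exp nu]
  have hmulam : mu ≤ lam := by rw [hlam]; linarith [Real.add_one_le_exp mu]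
  have hg0 : 0 < g := by rw [hg]; positivity
  have hglam : g ≤ lam := by
    rw [hg, div_le_iff₀ hmu0]
    gcongr
  set η := (2 + ε) * mu / lam with hη
  have hη0 : 0 ≤ η := by positivity
  have hηε : η ≤ ε := by
    rw [hη, div_le_iff₀ hlam0]
    nlinarith
  have hηg : η * g = (2 + ε) * nu := by rw [hη, hg]; field_simp
  have hs : ∀ p ∈ v.primesLE ∪ k.primeFactors.filter (fun p => v < p), p.Prime := by
    intro p hp
    rcases mem_union.mp hp with h | h
    · exact (Nat.mem_primesLE.mp h).2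
    · exact Nat.prime_of_mem_primeFactors (mem_filter.mp h).1
  have h1 := count2 (σ := 1 - η) (by linarith) _ hs Y
  have h2 := euler_split (σ := 1 - η) (by linarith) _ hs
  have hvr : (2 : ℝ) ≤ v := by exact_mod_cast hv2
  have hlv : 0 ≤ Real.log v := Real.log_natCast_nonneg v
  have big : ∑ p ∈ k.primeFactors.filter (fun p => v < p), (p : ℝ) ^ (-(1 - η)) ≤ 1 := by
    have b1 : ∀ p ∈ k.primeFactors.filter (fun p => v < p),
        (p : ℝ) ^ (-(1 - η)) ≤ Real.exp (-((1 / 2 - ε) * g)) := by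
      intro p hp
      have c1 : (v : ℝ) + 1 ≤ p := by exact_mod_cast (mem_filter.mp hp).2
      have c2 : (1 / 2 - ε / 2) * g ≤ Real.log p :=
        hv'.trans (Real.log_le_log (by linarith) c1)
      rw [Real.rpow_def_of_pos (by linarith), Real.exp_le_exp]
      have c3 : (1 / 2 - ε / 2) * g * (1 - η) ≤ Real.log p * (1 - η) :=
        mul_le_mul_of_nonneg_right c2 (by linarith)
      have c4 : (1 / 2 - ε) ≤ (1 / 2 - ε / 2) * (1 - η) := by nlinarith
      nlinarith
    have b2 : ((k.primeFactors.filter (fun p => v < p)).card : ℝ) ≤ k.primeFactors.card := by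
      exact_mod_cast card_filter_le _ _
    calc _ ≤ ∑ p ∈ k.primeFactors.filter (fun p => v < p), Real.exp (-((1 / 2 - ε) * g)) :=
          sum_le_sum b1
      _ = (k.primeFactors.filter (fun p => v < p)).card * Real.exp (-((1 / 2 - ε) * g)) := by
          rw [sum_const, nsmul_eq_mul]
      _ ≤ Real.exp ((1 / 2 - ε) * g) * Real.exp (-((1 / 2 - ε) * g)) := by
          gcongr
          exact b2.trans hω
      _ = 1 := by rw [← Real.exp_add]; simp
  have small : ∑ p ∈ v.primesLE, (p : ℝ) ^ (-(1 - η)) ≤ mu + 3 + ε / 2 * mu := by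
    refine (sum_small hv2 hη0).trans ?_
    have b1 : Real.log (1 + Real.log v) ≤ mu := by
      rw [Real.log_le_iff_le_exp (by linarith), ← hlam]
      nlinarith
    have b2 : η * Real.log v ≤ (1 - ε / 2) * nu := by
      calc η * Real.log v ≤ η * ((1 / 2 - ε / 2) * g) := by gcongr
        _ = (1 / 2 - ε / 2) * (2 + ε) * nu := by rw [mul_assoc, ← hηg]; ring
        _ ≤ _ := by
          gcongr
          nlinarith
    have b3 : η * (Real.log v + Real.log 4) ≤ 2 * nu := by
      have := log_four_le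
      have c1 : η * Real.log 4 ≤ 1 / 4 * (3 / 2) :=
        mul_le_mul (by linarith) this (Real.log_nonneg (by norm_num)) (by norm_num)
      nlinarith
    have b4 : η * Real.exp (η * Real.log v) * (Real.log v + Real.log 4) ≤ ε / 2 * mu := by
      calc _ = η * (Real.log v + Real.log 4) * Real.exp (η * Real.log v) := by ring
        _ ≤ (ε / 2 * Real.exp (ε / 2 * nu)) * Real.exp ((1 - ε / 2) * nu) :=
          mul_le_mul (b3.trans ha) (Real.exp_le_exp.mpr b2) (Real.exp_pos _).le (by positivity)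
        _ = ε / 2 * mu := by
          rw [mul_assoc, ← Real.exp_add, hmu]
          congr 2
          ring
    linarith
  have h3 : ∑ p ∈ v.primesLE ∪ k.primeFactors.filter (fun p => v < p), (p : ℝ) ^ (-(1 - η)) ≤
      mu + 3 + ε / 2 * mu + 1 := by
    rw [sum_union]
    · linarith
    · rw [disjoint_left]
      intro p hp hp'
      exact (mem_filter.mp hp').2.not_ge (Nat.mem_primesLE.mp hp).1
  have hYr : (0 : ℝ) < Y := by exact_mod_cast hY0
  have h4 : (Y : ℝ) ^ (1 - η) ≤ Y * Real.exp (1 - (2 + ε) * mu) := by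
    rw [sub_eq_add_neg, Real.rpow_add hYr, Real.rpow_one, Real.rpow_def_of_pos hYr]
    gcongr
    have b1 : η * (lam - C0) ≤ η * Real.log Y := by gcongr
    have b2 : η * lam = (2 + ε) * mu := by rw [hη]; field_simp
    have b3 : η * C0 ≤ 1 := by
      rw [hη, div_mul_eq_mul_div, div_le_one hlam0]
      nlinarith [mul_nonneg hC0 hmu0.le]
    nlinarith
  have h5 : (3 : ℝ) ≤ Real.exp 2 := by linarith [Real.add_one_le_exp 2]
  calc _ ≤ _ := h1
    _ ≤ (Y * Real.exp (1 - (2 + ε) * mu)) * (Real.exp (mu + 3 + ε / 2 * mu + 1) * Real.exp 2) := by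
      refine mul_le_mul h4 (h2.trans (by gcongr)) (prod_nonneg fun p hp => inv_nonneg.mpr ?_)
        (by positivity)
      exact sub_nonneg.mpr (Real.rpow_le_one_of_one_le_of_nonpos
        (by exact_mod_cast (hs p hp).one_lt.le) (by linarith))
    _ = Y * Real.exp (-mu + (7 - ε / 2 * mu)) := by
      rw [mul_assoc, ← Real.exp_add, ← Real.exp_add]
      congr 2
      ring
    _ ≤ Y * Real.exp (-mu) := by
      gcongr
      linarith
    _ = Y / lam := by rw [Real.exp_neg, ← hlam, div_eq_mul_inv]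

lemma stageB {k : ℕ} {ε ℓ lam mu nu : ℝ} (hk : 0 < k) (hε0 : 0 < ε) (hε : ε ≤ 1 / 4)
    (hnu : 1 ≤ nu) (hmu : mu = Real.exp nu) (hlam : lam = Real.exp mu) (hℓ : ℓ = Real.exp lam)
    (ha : 2 * nu ≤ ε / 2 * Real.exp (ε / 2 * nu)) (hb : 7 ≤ ε / 2 * mu) (hc : 3 * mu ≤ ε * lam)
    (hd : 3 * Real.log (2 / cst) * mu ≤ lam) (he : 961 ≤ ℓ)
    (hω : (k.primeFactors.card : ℝ) ≤ Real.exp ((1 / 2 - ε) * (lam * nu / mu))) {Y : ℕ}
    (hY1 : cst / 2 * ℓ < Y)
    (hY2 : (Y : ℝ) ≤ 2 * (cst / 300 * ℓ * (lam / mu) * (lam * nu / mu) * (k.totient / k))) :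
    ∃ e : ℕ → ℕ, (((range Y).filter (fun j => ∀ p ∈ (⌊ℓ / 30⌋₊).primesLE.filter (fun p => ¬ p ∣ k),
        ¬ p ∣ j + e p)).card : ℝ) ≤ cst / 2 * ℓ := by
  have hmu0 : 0 < mu := hmu ▸ Real.exp_pos _
  have hlam0 : 0 < lam := hlam ▸ Real.exp_pos _
  have hnumu : nu ≤ mu := by rw [hmu]; linarith [Real.add_one_le_exp nu]
  have hc0 := cst_pos
  have hc1 := cst_le
  have hkr : (0 : ℝ) < k := by exact_mod_cast hk
  have hφ0 : (0 : ℝ) ≤ k.totient / k := by positivity
  have hφ : (k.totient : ℝ) / k ≤ 1 := by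
    rw [div_le_one hkr]
    exact_mod_cast Nat.totient_le k
  set g := lam * nu / mu with hg
  have hg0 : 0 < g := by positivity
  have hglam : g ≤ lam := by
    rw [hg, div_le_iff₀ hmu0]
    gcongr
  have hg3 : 3 ≤ g := by
    rw [hg, le_div_iff₀ hmu0]
    nlinarith
  set v := ⌊Real.exp ((1 / 2 - ε / 2) * g)⌋₊ with hv
  set x := ⌊ℓ / 30⌋₊ with hx
  have hv2 : 2 ≤ v := Nat.le_floor (by
    have := Real.add_one_le_exp ((1 / 2 - ε / 2) * g)
    push_cast
    nlinarith)
  have hvr : (2 : ℝ) ≤ v := by exact_mod_cast hv2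
  have hv1 : Real.log v ≤ (1 / 2 - ε / 2) * g := by
    rw [Real.log_le_iff_le_exp (by linarith)]
    exact Nat.floor_le (Real.exp_pos _).le
  have hv1' : (1 / 2 - ε / 2) * g ≤ Real.log (v + 1) := by
    rw [Real.le_log_iff_exp_le (by linarith)]
    exact (Nat.lt_floor_add_one _).le
  have hsq : Real.exp (lam / 2) ≤ ℓ / 31 := by
    have b1 : Real.exp (lam / 2) * Real.exp (lam / 2) = ℓ := by
      rw [← Real.exp_add, hℓ]; congr 1; ring
    have b2 := Real.exp_pos (lam / 2)
    by_contra h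
    nlinarith [not_le.mp h]
  have hx1 : ℓ / 31 ≤ x := by linarith [Nat.lt_floor_add_one (ℓ / 30)]
  have hvx : v ≤ x := Nat.floor_le_floor (by
    have : Real.exp ((1 / 2 - ε / 2) * g) ≤ Real.exp (lam / 2) := by
      rw [Real.exp_le_exp]
      nlinarith
    linarith)
  have hlx : lam / 2 ≤ Real.log x := by
    rw [Real.le_log_iff_exp_le (by linarith)]
    linarith
  have hYr : (0 : ℝ) < Y := lt_trans (by positivity) hY1
  have hY0 : 0 < Y := by exact_mod_cast hYr
  have hn1 := Nat.le_ceil (3 * mu)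
  have hn2 := Nat.ceil_lt_add_one (a := 3 * mu) (by positivity)
  have hYx : Y ≤ 2 ^ ⌈3 * mu⌉₊ * x := by
    have b1 : lam ^ 2 ≤ 2 ^ ⌈3 * mu⌉₊ := by
      rw [← Real.exp_log (x := 2) (by norm_num), ← Real.exp_nat_mul, hlam, ← Real.exp_nat_mul,
        Real.exp_le_exp]
      have := Real.log_two_gt_d9
      push_cast
      nlinarith
    have b2 : lam / mu ≤ lam := div_le_self hlam0.le (by linarith)
    have b3 : (Y : ℝ) ≤ 2 ^ ⌈3 * mu⌉₊ * x := by
      calc (Y : ℝ) ≤ _ := hY2
        _ ≤ 2 * (1 / 30 / 300 * ℓ * lam * lam * 1) := by gcongr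
        _ ≤ lam ^ 2 * (ℓ / 31) := by nlinarith [mul_nonneg (sq_nonneg lam) (by linarith : 0 ≤ ℓ)]
        _ ≤ _ := by gcongr
    exact_mod_cast b3
  have c1 := count1 (hv2.trans hvx) hYx
  have c2 := count2_le (k := k) (v := v) (Y := Y) hε0 hε hnu hmu hlam hg ha hb hc
    (Real.log_nonneg (by rw [le_div_iff₀ hc0]; linarith)) hd hv2 hv1 hv1' hω hY0 (by
      have b1 : Real.log (cst / 2 * ℓ) ≤ Real.log Y := Real.log_le_log (by positivity) hY1.le
      rw [Real.log_mul (by positivity) (by positivity), hℓ, Real.log_exp, ← inv_div,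
        Real.log_inv] at b1
      linarith)
  have c3 := survivors_split (x := x) (v := v) (Y := Y) hk
  obtain ⟨e, he'⟩ := two_stage (k := k) (Y := Y) hvx
  refine ⟨e, he'.trans ?_⟩
  have c4 := prodW hk v
  set Q := ∏ p ∈ v.primesLE.filter (fun p => ¬ p ∣ k), (1 - (p : ℝ)⁻¹) with hQ
  have a3 : 0 ≤ Q := prod_nonneg fun p hp =>
    (euler_pos (Nat.mem_primesLE.mp (mem_filter.mp hp).1).2).le
  have c5 : Q * (k.totient / k) * (3 / 8 * g) ≤ 1 := by
    refine le_trans ?_ c4
    gcongr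
    nlinarith
  have c6 : (Y : ℝ) * (3 * (⌈3 * mu⌉₊ : ℕ)) / Real.log x ≤ 24 * (Y * (mu / lam)) := by
    calc _ ≤ (Y : ℝ) * (3 * (4 * mu)) / (lam / 2) := by
          gcongr
          linarith
      _ = _ := by field_simp; ring
  have c7 : (Y : ℝ) / lam ≤ Y * (mu / lam) := by
    rw [← mul_div_assoc]
    gcongr
    exact le_mul_of_one_le_right hYr.le (by linarith)
  have c8 : (((range Y).filter (fun j => ∀ p ∈ x.primesLE.filter (fun p => v < p ∧ ¬ p ∣ k),
      ¬ p ∣ j + 1)).card : ℝ) ≤ 25 * (Y * (mu / lam)) := by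
    have := (Nat.cast_le (α := ℝ)).mpr c3
    rw [Nat.cast_add] at this
    linarith
  calc _ ≤ 25 * (2 * (cst / 300 * ℓ * (lam / mu) * g * (k.totient / k)) * (mu / lam)) * Q := by
        gcongr
        exact c8.trans (by gcongr)
    _ = cst * (4 / 9) * ℓ * (Q * (k.totient / k) * (3 / 8 * g)) := by field_simp; ring
    _ ≤ cst * (4 / 9) * ℓ * 1 := mul_le_mul_of_nonneg_left c5 (by positivity)
    _ ≤ _ := by nlinarith [mul_pos hc0 (by linarith : 0 < ℓ)]

theorem thmB {ε : ℝ} (hε : 0 < ε) : ∀ᶠ k : ℕ in atTop,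
    (k.primeFactors.card : ℝ) ≤ Real.exp ((1 / 2 - ε) * (Real.log (Real.log k) *
      Real.log (Real.log (Real.log (Real.log k))) / Real.log (Real.log (Real.log k)))) →
    cst / 300 * ((k.totient : ℝ) * Real.log k * Real.log (Real.log k) ^ 2 *
      Real.log (Real.log (Real.log (Real.log k))) / Real.log (Real.log (Real.log k)) ^ 2) ≤
      pmax k := by
  have t1 := tendsto_log_nat
  have t2 := Real.tendsto_log_atTop.comp t1
  have t3 := Real.tendsto_log_atTop.comp t2
  have t4 := Real.tendsto_log_atTop.comp t3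
  set δ := min ε (1 / 4) with hδ
  have hδ0 : 0 < δ := lt_min hε (by norm_num)
  filter_upwards [wrap2, eventually_gt_atTop 0, t1.eventually (eventually_ge_atTop 961),
    t2.eventually (eventually_gt_atTop 0), t2.eventually (ev_pow_exp 1 2 one_pos),
    t3.eventually (eventually_ge_atTop (14 / δ)), t3.eventually (ev_pow_exp (3 / δ) 1 one_pos),
    t3.eventually (ev_pow_exp (3 * Real.log (2 / cst)) 1 one_pos),
    t4.eventually (eventually_ge_atTop 1),
    t4.eventually (ev_pow_exp (4 / δ) 1 (b := δ / 2) (by positivity))]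
    with k hw hk h1 h2 h3 h4 h5 h6 h7 h8 hω
  simp only [Function.comp, one_mul, pow_one] at h2 h3 h4 h5 h6 h7 h8
  set ℓ := Real.log k
  set lam := Real.log ℓ
  set mu := Real.log lam
  set nu := Real.log mu
  have hmu0 : 0 < mu := lt_of_lt_of_le (by positivity) h4
  have e1 : ℓ = Real.exp lam := (Real.exp_log (by linarith)).symm
  have e2 : lam = Real.exp mu := (Real.exp_log h2).symm
  have e3 : mu = Real.exp nu := (Real.exp_log hmu0).symm
  have hnumu : nu ≤ mu := by rw [e3]; linarith [Real.add_one_le_exp nu]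
  rw [← e1] at h3
  rw [← e2] at h5 h6
  have hkr : (0 : ℝ) < k := by exact_mod_cast hk
  have hφ : (k.totient : ℝ) / k ≤ 1 := by
    rw [div_le_one hkr]
    exact_mod_cast Nat.totient_le k
  have hc0 := cst_pos
  have hc1 := cst_le
  have hg0 : 0 < lam * nu / mu := by positivity
  have h := hw (cst / 300 * ℓ * (lam / mu) * (lam * nu / mu) * (k.totient / k)) ⌊ℓ / 30⌋₊
    (by positivity)
    (by
      have b1 : lam / mu ≤ lam := div_le_self h2.le (by linarith)
      have b2 : lam * nu / mu ≤ lam := by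
        rw [div_le_iff₀ hmu0]
        gcongr
      calc _ ≤ 1 / 30 / 300 * ℓ * lam * lam * 1 := by gcongr
        _ ≤ _ := by nlinarith)
    (Nat.floor_le (by linarith))
    (fun Y hY1 hY2 => stageB hk hδ0 (min_le_right _ _) h7 e3 e2 e1
      (by
        rw [div_mul_eq_mul_div, div_le_iff₀ hδ0] at h8
        linarith)
      (by
        rw [div_le_iff₀ hδ0] at h4
        linarith)
      (by
        rw [div_mul_eq_mul_div, div_le_iff₀ hδ0] at h5
        linarith)
      h6 h1
      (hω.trans (Real.exp_le_exp.mpr (mul_le_mul_of_nonneg_right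
        (by linarith [min_le_left ε (1 / 4)]) hg0.le)))
      hY1 hY2)
  refine le_trans (le_of_eq ?_) h
  field_simp

end Pool.Agent.Lib.MP_458f0b_nt
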