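import Pool.Agent.Lib.MP_458f0b_nt.Marked

open Finset

namespace Pool.Agent.Lib.MP_458f0b_nt

variable {ι : Type} [Fintype ι] [DecidableEq ι]

lemma sum_inv_two_pow (T : ℕ) : ∑ t : Fin T, (1 : ℝ) / 2 ^ (t : ℕ) ≤ 2 := by
  rw [Fin.sum_univ_eq_sum_range (fun t => (1 : ℝ) / 2 ^ t) T]
  have := sum_geometric_two_le T
  simpa using this

lemma sum_two_pow_le (T s : ℕ) :
    ∑ t : Fin T, (if (t : ℕ) ≤ s then (2 : ℝ) ^ (t : ℕ) / 2 ^ s else 0) ≤ 2 := by
  rw [Fin.sum_univ_eq_sum_range (fun t => if t ≤ s then (2 : ℝ) ^ t / 2 ^ s else 0) T,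
    ← Finset.sum_filter]
  calc ∑ t ∈ (range T).filter (· ≤ s), (2 : ℝ) ^ t / 2 ^ s
      ≤ ∑ t ∈ range (s + 1), (2 : ℝ) ^ t / 2 ^ s := by
        refine Finset.sum_le_sum_of_subset_of_nonneg ?_ fun _ _ _ => by positivity
        intro t ht
        simp only [mem_filter, mem_range] at ht ⊢
        omega
    _ ≤ 2 := by
        rw [← Finset.sum_div, geom_sum_eq (by norm_num), div_le_iff₀ (by positivity), pow_succ]
        norm_num
        linarith

lemma sum_min_max (T : ℕ) : ∑ t : Fin T, ∑ t' : Fin T,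
    (2 : ℝ) ^ (min (t : ℕ) t') / 2 ^ (max (t : ℕ) t') ≤ 4 * T := by
  calc ∑ t : Fin T, ∑ t' : Fin T, (2 : ℝ) ^ (min (t : ℕ) t') / 2 ^ (max (t : ℕ) t')
      ≤ ∑ t : Fin T, ∑ t' : Fin T,
          ((if (t' : ℕ) ≤ t then (2 : ℝ) ^ (t' : ℕ) / 2 ^ (t : ℕ) else 0) +
            (if (t : ℕ) ≤ t' then (2 : ℝ) ^ (t : ℕ) / 2 ^ (t' : ℕ) else 0)) := by
        refine Finset.sum_le_sum fun t _ => Finset.sum_le_sum fun t' _ => ?_
        rcases le_total (t : ℕ) t' with h | h
        · rw [min_eq_left h, max_eq_right h, if_pos h]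
          have : (0 : ℝ) ≤ (if (t' : ℕ) ≤ t then (2 : ℝ) ^ (t' : ℕ) / 2 ^ (t : ℕ) else 0) := by
            split_ifs <;> positivity
          linarith
        · rw [min_eq_right h, max_eq_left h, if_pos h]
          have : (0 : ℝ) ≤ (if (t : ℕ) ≤ t' then (2 : ℝ) ^ (t : ℕ) / 2 ^ (t' : ℕ) else 0) := by
            split_ifs <;> positivity
          linarith
    _ ≤ ∑ _t : Fin T, (2 : ℝ) + ∑ _t : Fin T, (2 : ℝ) := by
        simp only [Finset.sum_add_distrib]
        refine add_le_add (Finset.sum_le_sum fun t _ => sum_two_pow_le T t) ?_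
        rw [Finset.sum_comm]
        exact Finset.sum_le_sum fun t _ => sum_two_pow_le T t
    _ = 4 * T := by simp; ring

lemma Z0_ge {T : ℕ} (B : ℕ → ι → Bool) (a : ι → ℝ) (ha : ∀ p, 0 ≤ a p) (C : ℝ) (hC : 0 ≤ C)
    (H1 : ∀ t : Fin T, ∏ p, (1 + a p * (1 - act B (some t) p)) ≤ (∏ p, (1 + a p)) * C / 2 ^ (t : ℕ)) :
    (∏ p, (1 + a p)) * (1 - 4 * C / T) ≤ ∑ η, Fs T B a (fun _ => 1) η := by
  set P := ∏ p, (1 + a p) with hP
  have hP0 : 0 ≤ P := Finset.prod_nonneg fun p _ => by linarith [ha p]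
  have hact : ∀ (t : Fin T) p, 0 ≤ 1 - act B (some t) p := by
    intro t p; simp only [act]; split_ifs <;> norm_num
  have h0 : ∀ p, act (T := T) B none p = 0 := fun _ => rfl
  rw [sum_Fs]
  simp only [Fintype.sum_option, kap, h0, sub_self, zero_mul, add_zero, sub_zero, mul_one, one_mul,
    ← hP]
  have h1 : ∑ t : Fin T, ∏ p, (1 + a p * (1 - act B (some t) p)) ≤ P * C * 2 := by
    refine (Finset.sum_le_sum fun t _ => H1 t).trans ?_
    calc ∑ t : Fin T, P * C / 2 ^ (t : ℕ) = P * C * ∑ t : Fin T, (1 : ℝ) / 2 ^ (t : ℕ) := by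
          rw [Finset.mul_sum]; exact Finset.sum_congr rfl fun t _ => by ring
      _ ≤ P * C * 2 := by gcongr; exact sum_inv_two_pow T
  have h2 : 0 ≤ ∑ t : Fin T, ∑ t' : Fin T, -1 / (T : ℝ) * (-1 / T) *
      ∏ p, (1 + a p * ((1 - act B (some t) p) * (1 - act B (some t') p))) := by
    refine Finset.sum_nonneg fun t _ => Finset.sum_nonneg fun t' _ => mul_nonneg
      (mul_self_nonneg _) (Finset.prod_nonneg fun p _ => ?_)
    have := mul_nonneg (ha p) (mul_nonneg (hact t p) (hact t' p))
    linarith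
  rw [Finset.sum_add_distrib, ← Finset.mul_sum]
  have h3 : (0 : ℝ) ≤ 1 / T := by positivity
  have h4 := mul_le_mul_of_nonneg_left h1 h3
  have h5 : P * (1 - 4 * C / T) = P - 2 * (1 / T * (P * C * 2)) := by ring
  rw [neg_div] at h2
  rw [h5, neg_div]
  linarith

lemma Zr_le {T : ℕ} (B : ℕ → ι → Bool) (hB : ∀ t t' p, t ≤ t' → B t p = true → B t' p = true)
    (a r : ι → ℝ) (ha : ∀ p, 0 ≤ a p) (C κ : ℝ) (hC : 0 ≤ C) (hκ : 0 ≤ κ)
    (H1 : ∀ t : Fin T, ∏ p, (1 + a p * (1 - act B (some t) p)) ≤ (∏ p, (1 + a p)) * C / 2 ^ (t : ℕ))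
    (H2 : ∀ t : Fin T, ∏ p, (1 + (r p - 1) * a p * act B (some t) p) ≤ 1 + κ * 2 ^ (t : ℕ)) :
    ∑ η, Fs T B a r η ≤ ∑ η, Fs T B a (fun _ => 1) η + (∏ p, (1 + a p)) * (4 * C * κ / T) := by
  set P := ∏ p, (1 + a p) with hP
  have hP0 : 0 ≤ P := Finset.prod_nonneg fun p _ => by linarith [ha p]
  have hact : ∀ (t : Fin T) p, 0 ≤ 1 - act B (some t) p := by
    intro t p; simp only [act]; split_ifs <;> norm_num
  have h0 : ∀ p, act (T := T) B none p = 0 := fun _ => rfl
  have key : ∀ t t' : Fin T, t ≤ t' →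
      ∏ p, (1 + a p * ((1 - act B (some t) p) * (1 - act B (some t') p)) +
        (r p - 1) * a p * (act B (some t) p * act B (some t') p)) ≤
      ∏ p, (1 + a p * ((1 - act B (some t) p) * (1 - act B (some t') p))) +
        P * C * κ * (2 ^ (t : ℕ) / 2 ^ (t' : ℕ)) := by
    intro t t' htt
    have e1 : ∀ p, 1 + a p * ((1 - act B (some t) p) * (1 - act B (some t') p)) +
        (r p - 1) * a p * (act B (some t) p * act B (some t') p) =
        (1 + a p * (1 - act B (some t') p)) * (1 + (r p - 1) * a p * act B (some t) p) := by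
      intro p
      have := hB t t' p htt
      simp only [act]
      split_ifs with h1 h2 h2
      · ring
      · exact absurd (this h1) h2
      · ring
      · ring
    have e2 : ∀ p, 1 + a p * ((1 - act B (some t) p) * (1 - act B (some t') p)) =
        1 + a p * (1 - act B (some t') p) := by
      intro p
      have := hB t t' p htt
      simp only [act]
      split_ifs with h1 h2 h2
      · ring
      · exact absurd (this h1) h2
      · ring
      · ring
    simp only [e1]
    simp only [e2, Finset.prod_mul_distrib]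
    have f1 : 0 ≤ ∏ p, (1 + a p * (1 - act B (some t') p)) :=
      Finset.prod_nonneg fun p _ => by have := mul_nonneg (ha p) (hact t' p); linarith
    calc _ ≤ (∏ p, (1 + a p * (1 - act B (some t') p))) * (1 + κ * 2 ^ (t : ℕ)) :=
          mul_le_mul_of_nonneg_left (H2 t) f1
      _ = ∏ p, (1 + a p * (1 - act B (some t') p)) +
          (∏ p, (1 + a p * (1 - act B (some t') p))) * (κ * 2 ^ (t : ℕ)) := by ring
      _ ≤ ∏ p, (1 + a p * (1 - act B (some t') p)) +
          (P * C / 2 ^ (t' : ℕ)) * (κ * 2 ^ (t : ℕ)) := by gcongr; exact H1 t'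
      _ = _ := by ring
  have key2 : ∀ t t' : Fin T,
      ∏ p, (1 + a p * ((1 - act B (some t) p) * (1 - act B (some t') p)) +
        (r p - 1) * a p * (act B (some t) p * act B (some t') p)) ≤
      ∏ p, (1 + a p * ((1 - act B (some t) p) * (1 - act B (some t') p))) +
        P * C * κ * (2 ^ (min (t : ℕ) t') / 2 ^ (max (t : ℕ) t')) := by
    intro t t'
    rcases le_total t t' with h | h
    · rw [min_eq_left (show (t : ℕ) ≤ t' from h), max_eq_right (show (t : ℕ) ≤ t' from h)]
      exact key t t' h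
    · rw [min_eq_right (show (t' : ℕ) ≤ t from h), max_eq_left (show (t' : ℕ) ≤ t from h)]
      have := key t' t h
      simp only [mul_comm (1 - act B (some t') _) (1 - act B (some t) _),
        mul_comm (act B (some t') _) (act B (some t) _)] at this
      exact this
  rw [sum_Fs, sum_Fs]
  simp only [Fintype.sum_option, kap, h0, sub_self, zero_mul, add_zero, sub_zero, mul_one, one_mul,
    mul_zero, Finset.sum_add_distrib]
  have h2 : ∑ t : Fin T, ∑ t' : Fin T, -1 / (T : ℝ) * (-1 / T) *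
      ∏ p, (1 + a p * ((1 - act B (some t) p) * (1 - act B (some t') p)) +
        (r p - 1) * a p * (act B (some t) p * act B (some t') p)) ≤
      ∑ t : Fin T, ∑ t' : Fin T, -1 / (T : ℝ) * (-1 / T) *
      ∏ p, (1 + a p * ((1 - act B (some t) p) * (1 - act B (some t') p))) +
        P * (4 * C * κ / T) := by
    calc _ ≤ ∑ t : Fin T, ∑ t' : Fin T, -1 / (T : ℝ) * (-1 / T) *
          (∏ p, (1 + a p * ((1 - act B (some t) p) * (1 - act B (some t') p))) +
            P * C * κ * (2 ^ (min (t : ℕ) t') / 2 ^ (max (t : ℕ) t'))) :=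
          Finset.sum_le_sum fun t _ => Finset.sum_le_sum fun t' _ =>
            mul_le_mul_of_nonneg_left (key2 t t') (mul_self_nonneg _)
      _ = ∑ t : Fin T, ∑ t' : Fin T, -1 / (T : ℝ) * (-1 / T) *
          ∏ p, (1 + a p * ((1 - act B (some t) p) * (1 - act B (some t') p))) +
          (1 / T * (1 / T) * (P * C * κ)) * ∑ t : Fin T, ∑ t' : Fin T,
            (2 : ℝ) ^ (min (t : ℕ) t') / 2 ^ (max (t : ℕ) t') := by
          simp only [mul_add, Finset.sum_add_distrib, Finset.mul_sum]
          congr 1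
          exact Finset.sum_congr rfl fun t _ => Finset.sum_congr rfl fun t' _ => by ring
      _ ≤ _ := by
          refine add_le_add le_rfl ?_
          calc _ ≤ (1 / T * (1 / T) * (P * C * κ)) * (4 * T) :=
                mul_le_mul_of_nonneg_left (sum_min_max T) (by positivity)
            _ ≤ P * (4 * C * κ / T) := by
                rcases Nat.eq_zero_or_pos T with rfl | hT
                · simp
                · have : (T : ℝ) ≠ 0 := by exact_mod_cast hT.ne'
                  apply le_of_eq; field_simp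
  linarith

omit [DecidableEq ι] in
lemma Fs_nonneg (T : ℕ) (B : ℕ → ι → Bool) (a r : ι → ℝ) (ha : ∀ p, 0 ≤ a p) (hr : ∀ p, 1 ≤ r p)
    (η : ι → Option Bool) : 0 ≤ Fs T B a r η := by
  refine mul_nonneg (Finset.prod_nonneg fun p _ => ?_) (sq_nonneg _)
  rcases η p with _ | _ | _
  · exact zero_le_one
  · exact ha p
  · exact mul_nonneg (sub_nonneg.mpr (hr p)) (ha p)

lemma hit_le (T : ℕ) (B : ℕ → ι → Bool) (a : ι → ℝ) (ha : ∀ p, 0 ≤ a p) (p : ι) :
    ∑ η, (if η p = none then 0 else Fs T B a (fun _ => 1) η) ≤ 4 * a p * ∏ q, (1 + a q) := by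
  let ν' : ι → Option Bool → ℝ := fun q e =>
    if q = p ∧ e = none then 0 else nu a (fun _ => 1) q e
  have hν : ∀ q e, 0 ≤ nu a (fun _ => 1) q e := by
    intro q e
    rcases e with _ | _ | _ <;> simp [nu, ha q]
  calc ∑ η, (if η p = none then 0 else Fs T B a (fun _ => 1) η)
      ≤ ∑ η : ι → Option Bool, 4 * ∏ q, ν' q (η q) := by
        refine Finset.sum_le_sum fun η _ => ?_
        split_ifs with h
        · refine mul_nonneg (by norm_num) (Finset.prod_nonneg fun q _ => ?_)
          simp only [ν']; split_ifs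
          · exact le_rfl
          · exact hν _ _
        · have e : ∏ q, ν' q (η q) = ∏ q, nu a (fun _ => 1) q (η q) := by
            refine Finset.prod_congr rfl fun q _ => ?_
            simp only [ν']
            rw [if_neg]
            rintro ⟨rfl, h'⟩
            exact h h'
          rw [e, Fs, mul_comm]
          refine mul_le_mul_of_nonneg_right ?_ (Finset.prod_nonneg fun q _ => hν _ _)
          have := abs_Kf_le_two T B η
          rw [← sq_abs]
          nlinarith [abs_nonneg (Kf T B η)]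
    _ = 4 * ∏ q, ∑ e, ν' q e := by rw [← Finset.mul_sum, Fintype.prod_sum]
    _ ≤ 4 * ∏ q, ((if q = p then a p else 1) * (1 + a q)) := by
        gcongr with q
        · intro q _
          refine Finset.sum_nonneg fun e _ => ?_
          simp only [ν']; split_ifs
          · exact le_rfl
          · exact hν _ _
        · by_cases hq : q = p
          · subst hq
            simp [ν', nu, Fintype.sum_option]
            nlinarith [ha q]
          · simp [ν', nu, Fintype.sum_option, hq]
    _ = _ := by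
        rw [Finset.prod_mul_distrib, Finset.prod_ite_eq']
        simp; ring

end Pool.Agent.Lib.MP_458f0b_nt
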